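import Mathlib.Tactic.Monotonicity.Lemmas
import Mathlib.Algebra.Order.Ring.Star
import Mathlib.Data.Matrix.ColumnRowPartitioned
import Mathlib.Data.Rat.Star
import Mathlib.RingTheory.SimpleRing.Principal
import Mathlib.RingTheory.Henselian
import Mathlib.RingTheory.RegularLocalRing.Defs
import Mathlib.Tactic.Polynomial.Basic

-- ======== part 0: formerly Pool.Agent.MP_841a27_al.SSE
section MrgPart0

/-!
Strong shift equivalence over the nonnegative part of an ordered field: basic moves.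
-/

namespace Pool.Agent.MP_841a27_al

open Matrix

/-- Entrywise nonnegativity. -/
def MNN {K : Type} [Zero K] [LE K] {I J : Type} (M : Matrix I J K) : Prop := ∀ i j, 0 ≤ M i j

/-- A square matrix on an arbitrary index type. -/
def Obj (K : Type) : Type 1 := Σ I : Type, Matrix I I K

section
variable {K : Type} [Field K] [LinearOrder K] [IsStrictOrderedRing K]

/-- Elementary strong shift equivalence. -/
def Step (X Y : Obj K) : Prop :=
  ∃ (_ : Fintype X.1) (_ : Fintype Y.1) (R : Matrix X.1 Y.1 K) (S : Matrix Y.1 X.1 K),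
    MNN R ∧ MNN S ∧ X.2 = R * S ∧ Y.2 = S * R

/-- Strong shift equivalence. -/
def SSE {I J : Type} (A : Matrix I I K) (B : Matrix J J K) : Prop :=
  Relation.ReflTransGen (Step (K := K)) ⟨I, A⟩ ⟨J, B⟩

variable {I J L I' J' : Type}

omit [IsStrictOrderedRing K] in
theorem Step.symm {X Y : Obj K} (h : Step X Y) : Step Y X := by
  obtain ⟨i, j, R, S, hR, hS, h1, h2⟩ := h
  exact ⟨j, i, S, R, hS, hR, h2, h1⟩

omit [IsStrictOrderedRing K] in
theorem SSE.refl (A : Matrix I I K) : SSE A A := Relation.ReflTransGen.refl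

omit [IsStrictOrderedRing K] in
theorem SSE.of_eq {A B : Matrix I I K} (h : A = B) : SSE A B := h ▸ SSE.refl A

omit [IsStrictOrderedRing K] in
theorem SSE.trans {A : Matrix I I K} {B : Matrix J J K} {C : Matrix L L K}
    (h : SSE A B) (h' : SSE B C) : SSE A C := Relation.ReflTransGen.trans h h'

omit [IsStrictOrderedRing K] in
theorem SSE.symm {A : Matrix I I K} {B : Matrix J J K} (h : SSE A B) : SSE B A := by
  have key : ∀ X Y : Obj K, Relation.ReflTransGen (Step (K := K)) X Y →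
      Relation.ReflTransGen (Step (K := K)) Y X := by
    intro X Y h
    induction h with
    | refl => exact Relation.ReflTransGen.refl
    | tail _ hs ih => exact Relation.ReflTransGen.head hs.symm ih
  exact key _ _ h

omit [IsStrictOrderedRing K] in
theorem SSE.step [Fintype I] [Fintype J] {R : Matrix I J K} {S : Matrix J I K}
    (hR : MNN R) (hS : MNN S) : SSE (R * S) (S * R) :=
  Relation.ReflTransGen.single ⟨_, _, R, S, hR, hS, rfl, rfl⟩

omit [IsStrictOrderedRing K] in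
theorem SSE.step' [Fintype I] [Fintype J] {A : Matrix I I K} {B : Matrix J J K}
    (R : Matrix I J K) (S : Matrix J I K)
    (hR : MNN R) (hS : MNN S) (h1 : A = R * S) (h2 : B = S * R) : SSE A B :=
  h1 ▸ h2 ▸ SSE.step hR hS

omit [IsStrictOrderedRing K] in
theorem SSE.transpose {A : Matrix I I K} {B : Matrix J J K} (h : SSE A B) : SSE Aᵀ Bᵀ := by
  have key : ∀ X Y : Obj K, Relation.ReflTransGen (Step (K := K)) X Y →
      Relation.ReflTransGen (Step (K := K)) ⟨X.1, X.2ᵀ⟩ ⟨Y.1, Y.2ᵀ⟩ := by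
    intro X Y h
    induction h with
    | refl => exact Relation.ReflTransGen.refl
    | tail _ hs ih =>
      refine ih.tail ?_
      obtain ⟨i, j, R, S, hR, hS, h1, h2⟩ := hs
      refine ⟨i, j, Sᵀ, Rᵀ, fun a b => hS b a, fun a b => hR b a, ?_, ?_⟩
      · show (_ : Matrix _ _ K)ᵀ = _
        rw [h1, Matrix.transpose_mul]
      · show (_ : Matrix _ _ K)ᵀ = _
        rw [h2, Matrix.transpose_mul]
  exact key _ _ h

omit [IsStrictOrderedRing K] in
theorem MNN.zero : MNN (0 : Matrix I J K) := fun _ _ => le_rfl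

theorem MNN.one [DecidableEq I] : MNN (1 : Matrix I I K) := fun i j => by
  rw [Matrix.one_apply]; split_ifs <;> simp

theorem MNN.add {A B : Matrix I J K} (hA : MNN A) (hB : MNN B) : MNN (A + B) :=
  fun i j => add_nonneg (hA i j) (hB i j)

theorem MNN.mul [Fintype J] {A : Matrix I J K} {B : Matrix J L K} (hA : MNN A) (hB : MNN B) :
    MNN (A * B) := fun i j => by
  rw [Matrix.mul_apply]
  exact Finset.sum_nonneg fun k _ => mul_nonneg (hA i k) (hB k j)

omit [IsStrictOrderedRing K] in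
theorem MNN.transpose {A : Matrix I J K} (hA : MNN A) : MNN Aᵀ := fun i j => hA j i

omit [IsStrictOrderedRing K] in
theorem MNN.fromBlocks {a : Matrix I I' K} {b : Matrix I J' K} {c : Matrix J I' K}
    {d : Matrix J J' K} (ha : MNN a) (hb : MNN b) (hc : MNN c) (hd : MNN d) :
    MNN (fromBlocks a b c d) := by
  rintro (i | i) (j | j)
  · exact ha i j
  · exact hb i j
  · exact hc i j
  · exact hd i j

omit [IsStrictOrderedRing K] in
theorem MNN.fromRows {a : Matrix I L K} {b : Matrix J L K} (ha : MNN a) (hb : MNN b) :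
    MNN (fromRows a b) := by
  rintro (i | i) j
  · exact ha i j
  · exact hb i j

omit [IsStrictOrderedRing K] in
theorem MNN.fromCols {a : Matrix L I K} {b : Matrix L J K} (ha : MNN a) (hb : MNN b) :
    MNN (fromCols a b) := by
  rintro i (j | j)
  · exact ha i j
  · exact hb i j

omit [IsStrictOrderedRing K] in
theorem MNN.submatrix {A : Matrix I J K} (hA : MNN A) (f : I' → I) (g : J' → J) :
    MNN (A.submatrix f g) := fun _ _ => hA _ _

omit [IsStrictOrderedRing K] in
theorem MNN.diagonal [DecidableEq I] {d : I → K} (hd : ∀ i, 0 ≤ d i) : MNN (diagonal d) :=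
  fun i j => by
    rw [Matrix.diagonal_apply]; split_ifs
    · exact hd i
    · exact le_rfl

/-- Reindexing along an equivalence. -/
theorem SSE.reindex [Fintype I] [Fintype J] {A : Matrix I I K} (hA : MNN A) (e : J ≃ I) :
    SSE A (A.submatrix e e) := by
  classical
  refine SSE.step' ((1 : Matrix I I K).submatrix id e) (A.submatrix e id)
    (MNN.one.submatrix _ _) (hA.submatrix _ _) ?_ ?_
  · rw [Matrix.submatrix_mul_equiv]; simp
  · have := Matrix.submatrix_mul_equiv A (1 : Matrix I I K) e (Equiv.refl I) e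
    simpa using this.symm

/-- The telescoping lemma. -/
theorem lemT (k : ℕ) : ∀ {I J : Type} [Fintype I] [Fintype J] [DecidableEq I] [DecidableEq J]
    (N : Matrix I I K) (x : Matrix I J K) (X Y : Matrix J I K),
    MNN N → MNN x → MNN X → MNN Y → (∀ j, (X - Y) * N ^ j * x = 0) → (X - Y) * N ^ k = 0 →
    SSE (N + x * X) (N + x * Y) := by
  induction k with
  | zero =>
    intro I J _ _ _ _ N x X Y _ _ _ _ _ h
    have : X = Y := by simpa [sub_eq_zero] using h
    rw [this]; exact SSE.refl _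
  | succ k ih =>
    intro I J _ _ _ _ N x X Y hN hx hX hY h1 h2
    have hXY : X * x = Y * x := by
      have := h1 0
      simpa [Matrix.sub_mul, sub_eq_zero] using this
    have s1 : ∀ Z : Matrix J I K, MNN Z →
        SSE (N + x * Z) (fromBlocks N x (Z * N) (Z * x)) := by
      intro Z hZ
      refine SSE.step' (fromCols N x) (fromRows 1 Z) (hN.fromCols hx) (MNN.one.fromRows hZ) ?_ ?_
      · rw [fromCols_mul_fromRows]; simp
      · rw [fromRows_mul_fromCols]; simp
    have hpow : ∀ j, (fromCols (X * N) (0 : Matrix J J K) - fromCols (Y * N) 0) *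
        (fromBlocks N x 0 (X * x)) ^ j = fromCols ((X - Y) * N ^ (j + 1)) 0 := by
      intro j
      induction j with
      | zero =>
        ext a (b | b) <;> simp [Matrix.sub_mul]
      | succ j ihj =>
        rw [pow_succ, ← Matrix.mul_assoc, ihj, fromCols_mul_fromBlocks]
        simp only [Matrix.zero_mul, Matrix.mul_zero, add_zero]
        rw [h1 (j + 1), Matrix.mul_assoc, ← pow_succ]
    have key := ih (fromBlocks N x 0 (X * x)) (fromRows (0 : Matrix I J K) (1 : Matrix J J K))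
      (fromCols (X * N) 0) (fromCols (Y * N) 0)
      (hN.fromBlocks hx MNN.zero (hX.mul hx)) (MNN.zero.fromRows MNN.one)
      ((hX.mul hN).fromCols MNN.zero) ((hY.mul hN).fromCols MNN.zero)
      (fun j => by rw [hpow, fromCols_mul_fromRows]; simp)
      (by rw [hpow, h2]; simp)
    rw [fromRows_mul_fromCols, fromRows_mul_fromCols, fromBlocks_add, fromBlocks_add] at key
    simp only [Matrix.zero_mul, Matrix.mul_zero, add_zero, zero_add, Matrix.one_mul] at key
    refine (s1 X hX).trans (key.trans ?_)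
    rw [hXY]
    exact (s1 Y hY).symm

/-- Removal of a nilpotent source block. -/
theorem source_removal [Fintype I] [Fintype J] [DecidableEq I] [DecidableEq J]
    {N : Matrix I I K} {Z : Matrix J I K} {Q : Matrix J J K}
    (hN : MNN N) (hZ : MNN Z) (hQ : MNN Q) (hn : IsNilpotent Q) :
    SSE (fromBlocks N 0 Z Q) N := by
  obtain ⟨k, hk⟩ := hn
  have hk' : Q ^ (k + 1) = 0 := by rw [pow_succ, hk, Matrix.zero_mul]
  clear hk
  induction k generalizing Z Q with
  | zero =>
    have : Q = 0 := by simpa using hk'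
    subst this
    refine SSE.step' (fromRows N Z) (fromCols (1 : Matrix I I K) 0) (hN.fromRows hZ)
      (MNN.one.fromCols MNN.zero) ?_ ?_
    · rw [fromRows_mul_fromCols]; simp
    · rw [fromCols_mul_fromRows]; simp
  | succ k ih =>
    classical
    set d : J → K := fun j => if ∃ i, Q i j ≠ 0 then 1 else 0 with hd
    have hd0 : ∀ j, 0 ≤ d j := fun j => by simp only [hd]; split_ifs <;> simp
    have hD : MNN (diagonal d) := MNN.diagonal hd0
    have hQd : Q * diagonal d = Q := by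
      ext i j
      rw [Matrix.mul_diagonal]
      by_cases h : Q i j = 0
      · simp [h]
      · have : ∃ i, Q i j ≠ 0 := ⟨i, h⟩
        simp [hd, this]
    have hp : ∀ m, Q * (diagonal d * Q) ^ m = Q ^ (m + 1) := by
      intro m
      induction m with
      | zero => simp
      | succ m ihm =>
        rw [pow_succ', ← Matrix.mul_assoc, ← Matrix.mul_assoc, hQd, Matrix.mul_assoc, ihm,
          ← pow_succ']
    have hpn : ∀ m, MNN ((diagonal d * Q) ^ m) := by
      intro m
      induction m with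
      | zero => simpa using MNN.one
      | succ m ihm => rw [pow_succ]; exact ihm.mul (hD.mul hQ)
    have hz : (diagonal d * Q) ^ (k + 1) = 0 := by
      ext l j
      by_cases h : ∃ i, Q i l ≠ 0
      · obtain ⟨i, hi⟩ := h
        have h0 : (Q * (diagonal d * Q) ^ (k + 1)) i j = 0 := by rw [hp, hk']; rfl
        rw [Matrix.mul_apply, Finset.sum_eq_zero_iff_of_nonneg
          (fun a _ => mul_nonneg (hQ i a) (hpn _ a j))] at h0
        have := h0 l (Finset.mem_univ _)
        simpa [hi] using this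
      · rw [pow_succ', Matrix.mul_assoc, Matrix.diagonal_mul]
        simp only [hd, if_neg h]; simp
    refine SSE.trans ?_ (ih (hD.mul hZ) (hD.mul hQ) hz)
    refine SSE.step' (fromBlocks N 0 Z Q) (fromBlocks (1 : Matrix I I K) 0 0 (diagonal d))
      (hN.fromBlocks MNN.zero hZ hQ) (MNN.one.fromBlocks MNN.zero MNN.zero hD) ?_ ?_
    · rw [fromBlocks_multiply]; simp [hQd]
    · rw [fromBlocks_multiply]; simp

end

end Pool.Agent.MP_841a27_al

end MrgPart0

-- ======== part 1: formerly Pool.Agent.MP_841a27_al.Real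
section MrgPart1

/-!
Realizations of nonnegative polynomial matrices and positive equivalence.
-/

namespace Pool.Agent.MP_841a27_al

open Matrix Polynomial

/-- Data of a realization. -/
structure RData (K I I' : Type) where
  J : Type
  [fin : Fintype J]
  [dec : DecidableEq J]
  a : Matrix I I' K
  b : Matrix I J K
  c : Matrix J I' K
  q : Matrix J J K

attribute [instance] RData.fin RData.dec

/-- The matrix of a realization. -/
def RData.mat {K I : Type} (r : RData K I I) : Matrix (I ⊕ r.J) (I ⊕ r.J) K :=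
  fromBlocks r.a r.b r.c r.q

/-- Constant polynomial matrices. -/
noncomputable def cm {K I J : Type} [CommRing K] (a : Matrix I J K) : Matrix I J K[X] := a.map C

section cm
variable {K I J L I' J' : Type} [CommRing K]

@[simp] theorem cm_apply (a : Matrix I J K) (i : I) (j : J) : cm a i j = C (a i j) := rfl

@[simp] theorem cm_zero : cm (0 : Matrix I J K) = 0 := by ext1; simp

@[simp] theorem cm_one [DecidableEq I] : cm (1 : Matrix I I K) = 1 :=
  Matrix.map_one _ (map_zero _) (map_one _)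

theorem cm_add (a b : Matrix I J K) : cm (a + b) = cm a + cm b := by ext1; simp

theorem cm_sub (a b : Matrix I J K) : cm (a - b) = cm a - cm b := by ext1; simp

theorem cm_mul [Fintype J] (a : Matrix I J K) (b : Matrix J L K) : cm (a * b) = cm a * cm b :=
  Matrix.map_mul (f := (C : K →+* K[X]))

theorem cm_transpose (a : Matrix I J K) : cm aᵀ = (cm a)ᵀ := rfl

theorem cm_fromBlocks (a : Matrix I I' K) (b : Matrix I J' K) (c : Matrix J I' K)
    (d : Matrix J J' K) : cm (fromBlocks a b c d) = fromBlocks (cm a) (cm b) (cm c) (cm d) :=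
  Matrix.fromBlocks_map _ _ _ _ _

theorem cm_fromRows (a : Matrix I L K) (b : Matrix J L K) :
    cm (fromRows a b) = fromRows (cm a) (cm b) := by
  ext (i | i) j <;> rfl

theorem cm_fromCols (a : Matrix L I K) (b : Matrix L J K) :
    cm (fromCols a b) = fromCols (cm a) (cm b) := by
  ext i (j | j) <;> rfl

/-- The coefficient matrix. -/
def cf (M : Matrix I J K[X]) (d : ℕ) : Matrix I J K := Matrix.of fun i j => (M i j).coeff d

@[simp] theorem cf_apply (M : Matrix I J K[X]) (d : ℕ) (i : I) (j : J) :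
    cf M d i j = (M i j).coeff d := rfl

theorem cf_mul_cm [Fintype J] (M : Matrix I J K[X]) (a : Matrix J L K) (d : ℕ) :
    cf (M * cm a) d = cf M d * a := by
  ext i j
  simp [Matrix.mul_apply]

theorem cf_eventually_zero [Fintype I] [Fintype J] (M : Matrix I J K[X]) :
    ∃ k, ∀ d, k ≤ d → cf M d = 0 := by
  refine ⟨(Finset.univ.sup fun p : I × J => (M p.1 p.2).natDegree) + 1, fun d hd => ?_⟩
  ext i j
  have : (M i j).natDegree ≤ Finset.univ.sup fun p : I × J => (M p.1 p.2).natDegree :=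
    Finset.le_sup (f := fun p : I × J => (M p.1 p.2).natDegree) (Finset.mem_univ (i, j))
  exact coeff_eq_zero_of_natDegree_lt (by omega)

theorem cf_of_resolvent [Fintype I] [DecidableEq I] {Γ : Matrix J I K[X]} {N : Matrix I I K}
    {Δ : Matrix J I K} (h : Γ * (1 - (X : K[X]) • cm N) = cm Δ) (d : ℕ) :
    cf Γ d = Δ * N ^ d := by
  have h' : Γ = cm Δ + (X : K[X]) • (Γ * cm N) := by
    rw [← h, Matrix.mul_sub, Matrix.mul_one, Matrix.mul_smul]; abel
  induction d with
  | zero =>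
    ext i j
    rw [h']; simp
  | succ d ih =>
    rw [pow_succ, ← Matrix.mul_assoc, ← ih, ← cf_mul_cm]
    ext i j
    conv_lhs => rw [h']
    simp

end cm

section
variable {K : Type} [Field K] [LinearOrder K] [IsStrictOrderedRing K]
variable {I J L I' J' : Type}

/-- Zero constant terms and nonnegative coefficients. -/
def NN0 (M : Matrix I J K[X]) : Prop := ∀ i j, (M i j).coeff 0 = 0 ∧ ∀ d, 0 ≤ (M i j).coeff d

/-- `r` realizes the polynomial matrix `M`. -/
structure Real (M : Matrix I I' K[X]) (r : RData K I I') : Prop where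
  ha : MNN r.a
  hb : MNN r.b
  hc : MNN r.c
  hq : MNN r.q
  nil : IsNilpotent r.q
  inv : ∃ Y : Matrix r.J r.J K[X], Y * (1 - (X : K[X]) • cm r.q) = 1 ∧
    (1 - (X : K[X]) • cm r.q) * Y = 1 ∧
    M = (X : K[X]) • cm r.a + (X : K[X]) ^ 2 • (cm r.b * Y * cm r.c)

/-- Positive equivalence of polynomial matrices. -/
def PEq (M : Matrix I I K[X]) (M' : Matrix I' I' K[X]) : Prop :=
  ∃ (r : RData K I I) (r' : RData K I' I'), Real M r ∧ Real M' r' ∧ SSE r.mat r'.mat

omit [IsStrictOrderedRing K] in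
theorem Real.mat_nn {M : Matrix I I K[X]} {r : RData K I I} (h : Real M r) : MNN r.mat :=
  h.ha.fromBlocks h.hb h.hc h.hq

/-- Polynomial form of the telescoping lemma. -/
theorem lemT' [Fintype I] [Fintype J] [DecidableEq I] [DecidableEq J]
    (N : Matrix I I K) (x : Matrix I J K) (X₁ X₂ : Matrix J I K)
    (hN : MNN N) (hx : MNN x) (h1 : MNN X₁) (h2 : MNN X₂) (Γ : Matrix J I K[X])
    (hΓ : Γ * (1 - (X : K[X]) • cm N) = cm (X₁ - X₂)) (hΓx : Γ * cm x = 0) :
    SSE (N + x * X₁) (N + x * X₂) := by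
  obtain ⟨k, hk⟩ := cf_eventually_zero Γ
  refine lemT k N x X₁ X₂ hN hx h1 h2 (fun j => ?_) ?_
  · rw [← cf_of_resolvent hΓ, ← cf_mul_cm, hΓx]; rfl
  · rw [← cf_of_resolvent hΓ, hk k le_rfl]

omit [LinearOrder K] [IsStrictOrderedRing K] in
theorem X_smul_cancel {A B : Matrix I J K[X]} (h : (X : K[X]) • A = (X : K[X]) • B) : A = B := by
  ext1 i j
  have := congrFun (congrFun h i) j
  simp only [Matrix.smul_apply, smul_eq_mul] at this
  exact mul_left_cancel₀ X_ne_zero this

/-- Three upper parts over a common lower part. -/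
theorem common_lower [Fintype I] [Fintype J] [DecidableEq I] [DecidableEq J]
    (c : Matrix J I K) (q : Matrix J J K) (Y : Matrix J J K[X])
    (hY : Y * (1 - (X : K[X]) • cm q) = 1)
    (a₀ a₁ a₂ : Matrix I I K) (b₀ b₁ b₂ : Matrix I J K) (π : Matrix I I K)
    (hc : MNN c) (hq : MNN q) (ha₀ : MNN a₀) (ha₁ : MNN a₁) (ha₂ : MNN a₂)
    (hb₀ : MNN b₀) (hb₁ : MNN b₁) (hb₂ : MNN b₂) (hπ : MNN π)
    (e₁ : π * a₁ = a₁) (e₂ : π * a₂ = a₂) (f₁ : π * b₁ = b₁) (f₂ : π * b₂ = b₂)
    (γ : Matrix I I K[X]) (hγ : γ * cm π = 0)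
    (h : cm (a₁ - a₂) + (X : K[X]) • (cm (b₁ - b₂) * Y * cm c) =
      γ * (1 - ((X : K[X]) • cm a₀ + (X : K[X]) ^ 2 • (cm b₀ * Y * cm c)))) :
    SSE (fromBlocks (a₀ + a₁) (b₀ + b₁) c q) (fromBlocks (a₀ + a₂) (b₀ + b₂) c q) := by
  have key := lemT' (fromBlocks a₀ b₀ c q) (fromRows π (0 : Matrix J I K))
    (fromCols a₁ b₁) (fromCols a₂ b₂) (ha₀.fromBlocks hb₀ hc hq) (hπ.fromRows MNN.zero)
    (ha₁.fromCols hb₁) (ha₂.fromCols hb₂)
    (fromCols γ ((cm (b₁ - b₂) + (X : K[X]) • (γ * cm b₀)) * Y)) ?_ ?_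
  · rw [fromRows_mul_fromCols, fromRows_mul_fromCols, fromBlocks_add, fromBlocks_add] at key
    simpa [e₁, e₂, f₁, f₂] using key
  · have e : (1 : Matrix (I ⊕ J) (I ⊕ J) K[X]) - (X : K[X]) • cm (fromBlocks a₀ b₀ c q) =
        fromBlocks (1 - (X : K[X]) • cm a₀) (-((X : K[X]) • cm b₀)) (-((X : K[X]) • cm c))
          (1 - (X : K[X]) • cm q) := by
      rw [cm_fromBlocks, ← fromBlocks_one, fromBlocks_smul, sub_eq_add_neg, fromBlocks_neg,
        fromBlocks_add]
      simp [sub_eq_add_neg]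
    have e' : fromCols a₁ b₁ - fromCols a₂ b₂ = fromCols (a₁ - a₂) (b₁ - b₂) := by
      ext i (j | j) <;> simp
    rw [e, e', cm_fromCols, fromCols_mul_fromBlocks]
    congr 1
    · rw [eq_sub_of_add_eq h]
      simp only [Matrix.mul_sub, Matrix.mul_add, Matrix.add_mul, Matrix.mul_neg, Matrix.mul_smul,
        Matrix.smul_mul, Matrix.mul_one, Matrix.mul_assoc, smul_add, smul_smul, pow_two]
      abel
    · rw [Matrix.mul_assoc, hY]
      simp
  · rw [cm_fromRows, fromCols_mul_fromRows, hγ]; simp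

omit [LinearOrder K] [IsStrictOrderedRing K] in
theorem one_sub_blockdiag [DecidableEq J] [DecidableEq J'] (q : Matrix J J K)
    (q' : Matrix J' J' K) :
    (1 : Matrix (J ⊕ J') (J ⊕ J') K[X]) - (X : K[X]) • cm (fromBlocks q 0 0 q') =
      fromBlocks (1 - (X : K[X]) • cm q) 0 0 (1 - (X : K[X]) • cm q') := by
  rw [cm_fromBlocks, ← fromBlocks_one, fromBlocks_smul, sub_eq_add_neg, fromBlocks_neg,
    fromBlocks_add]
  simp [sub_eq_add_neg]

omit [LinearOrder K] [IsStrictOrderedRing K] in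
theorem nil_blockdiag [Fintype J] [Fintype J'] [DecidableEq J] [DecidableEq J']
    {q : Matrix J J K} {q' : Matrix J' J' K} (h : IsNilpotent q) (h' : IsNilpotent q') :
    IsNilpotent (fromBlocks q 0 0 q') := by
  obtain ⟨k, hk⟩ := h
  obtain ⟨k', hk'⟩ := h'
  refine ⟨k + k', ?_⟩
  rw [fromBlocks_diagonal_pow, pow_add, pow_add, hk, hk']; simp

/-- Adding an unused nilpotent part on the right. -/
theorem pad_right [Fintype I] [DecidableEq I] (r : RData K I I) [Fintype J'] [DecidableEq J']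
    (hr : MNN r.mat) {c' : Matrix J' I K} {q' : Matrix J' J' K} (hc' : MNN c') (hq' : MNN q')
    (hn : IsNilpotent q') :
    SSE (fromBlocks r.a (fromCols r.b 0) (fromRows r.c c') (fromBlocks r.q 0 0 q')) r.mat := by
  have h1 := source_removal (N := r.mat) (Z := fromCols c' (0 : Matrix J' r.J K)) hr
    (hc'.fromCols MNN.zero) hq' hn
  refine SSE.trans ?_ h1
  have h2 := SSE.reindex (A := fromBlocks r.mat 0 (fromCols c' (0 : Matrix J' r.J K)) q')
    (hr.fromBlocks MNN.zero (hc'.fromCols MNN.zero) hq') (Equiv.sumAssoc I r.J J').symm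
  refine SSE.trans (SSE.of_eq ?_) h2.symm
  ext (i | i | i) (j | j | j) <;> simp [RData.mat]

/-- Adding an unused nilpotent part on the left. -/
theorem pad_left [Fintype I] [DecidableEq I] (r : RData K I I) [Fintype J'] [DecidableEq J']
    (hr : MNN r.mat) {c' : Matrix J' I K} {q' : Matrix J' J' K} (hc' : MNN c') (hq' : MNN q')
    (hn : IsNilpotent q') :
    SSE (fromBlocks r.a (fromCols 0 r.b) (fromRows c' r.c) (fromBlocks q' 0 0 r.q)) r.mat := by
  refine SSE.trans ?_ (pad_right r hr hc' hq' hn)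
  have ha : MNN r.a := fun i j => hr (Sum.inl i) (Sum.inl j)
  have hb : MNN r.b := fun i j => hr (Sum.inl i) (Sum.inr j)
  have hc : MNN r.c := fun i j => hr (Sum.inr i) (Sum.inl j)
  have hq : MNN r.q := fun i j => hr (Sum.inr i) (Sum.inr j)
  have h2 := SSE.reindex
    (A := fromBlocks r.a (fromCols r.b 0) (fromRows r.c c') (fromBlocks r.q 0 0 q'))
    (ha.fromBlocks (hb.fromCols MNN.zero) (hc.fromRows hc')
      (hq.fromBlocks MNN.zero MNN.zero hq'))
    (Equiv.sumCongr (Equiv.refl I) (Equiv.sumComm J' r.J))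
  refine SSE.trans (SSE.of_eq ?_) h2.symm
  ext (i | i | i) (j | j | j) <;> simp

/-- Uniqueness of realizations up to strong shift equivalence. -/
theorem Real.uniq [Fintype I] {M : Matrix I I K[X]} {r r' : RData K I I}
    (h : Real M r) (h' : Real M r') : SSE r.mat r'.mat := by
  classical
  obtain ⟨Y, hY, -, e⟩ := h.inv
  obtain ⟨Y', hY', -, e'⟩ := h'.inv
  have key := common_lower (fromRows r.c r'.c) (fromBlocks r.q 0 0 r'.q) (fromBlocks Y 0 0 Y')
    (by rw [one_sub_blockdiag, fromBlocks_multiply]; simp [hY, hY'])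
    0 r.a r'.a 0 (fromCols r.b 0) (fromCols 0 r'.b) 1 (h.hc.fromRows h'.hc)
    (h.hq.fromBlocks MNN.zero MNN.zero h'.hq) MNN.zero h.ha h'.ha MNN.zero
    (h.hb.fromCols MNN.zero) (MNN.zero.fromCols h'.hb) MNN.one
    (by simp) (by simp) (by simp) (by simp) 0 (by simp) ?_
  · simp only [zero_add] at key
    exact (pad_right r h.mat_nn h'.hc h'.hq h'.nil).symm.trans
      (key.trans (pad_left r' h'.mat_nn h.hc h.hq h.nil))
  · apply X_smul_cancel
    rw [cm_sub, cm_sub, cm_fromCols, cm_fromCols, cm_fromRows, Matrix.sub_mul, Matrix.sub_mul,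
      fromCols_mul_fromBlocks, fromCols_mul_fromBlocks, fromCols_mul_fromRows,
      fromCols_mul_fromRows]
    have e2 := e.symm.trans e'
    simp only [cm_zero, Matrix.zero_mul, Matrix.mul_zero, add_zero, zero_add, smul_zero,
      smul_add, smul_sub, smul_smul, ← pow_two]
    rw [← sub_eq_zero] at e2
    rw [← e2]; abel

theorem PEq.trans [Fintype I'] {M : Matrix I I K[X]} {M' : Matrix I' I' K[X]}
    {M'' : Matrix L L K[X]} (h : PEq M M') (h' : PEq M' M'') : PEq M M'' := by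
  obtain ⟨r₁, r₂, h₁, h₂, s⟩ := h
  obtain ⟨r₃, r₄, h₃, h₄, s'⟩ := h'
  exact ⟨r₁, r₄, h₁, h₄, s.trans ((h₂.uniq h₃).trans s')⟩

omit [IsStrictOrderedRing K] in
theorem PEq.symm {M : Matrix I I K[X]} {M' : Matrix I' I' K[X]} (h : PEq M M') : PEq M' M := by
  obtain ⟨r₁, r₂, h₁, h₂, s⟩ := h
  exact ⟨r₂, r₁, h₂, h₁, s.symm⟩

/-- Existence of realizations. -/
theorem exists_real_aux [Fintype I'] (n : ℕ) : ∀ M : Matrix I I' K[X], NN0 M →
    (∀ d, n < d → cf M d = 0) → ∃ r : RData K I I', Real M r := by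
  classical
  induction n with
  | zero =>
    intro M hM hd
    refine ⟨⟨Empty, 0, 0, 0, 0⟩, MNN.zero, MNN.zero, MNN.zero, MNN.zero, IsNilpotent.zero,
      0, Subsingleton.elim _ _, Subsingleton.elim _ _, ?_⟩
    ext i j d
    rcases Nat.eq_zero_or_pos d with rfl | h
    · simp [(hM i j).1]
    · have := congrFun (congrFun (hd d h) i) j
      simpa using this
  | succ n ih =>
    intro M hM hd
    set M' : Matrix I I' K[X] := Matrix.of fun i j => (M i j).divX - C ((M i j).coeff 1) with hM'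
    have c0 : ∀ i j, (M' i j).coeff 0 = 0 := fun i j => by simp [hM', coeff_divX]
    have cs : ∀ i j d, (M' i j).coeff (d + 1) = (M i j).coeff (d + 2) := fun i j d => by
      simp [hM', coeff_divX]
    obtain ⟨r, hr⟩ := ih M' (fun i j => ⟨c0 i j, fun d => by
      rcases d with _ | d
      · rw [c0]
      · rw [cs]; exact (hM i j).2 _⟩) (fun d h => by
      ext i j
      obtain ⟨d, rfl⟩ : ∃ d', d = d' + 1 := ⟨d - 1, by omega⟩
      have := congrFun (congrFun (hd (d + 2) (by omega)) i) j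
      simpa [cs] using this)
    obtain ⟨Y, hY, hY', e⟩ := hr.inv
    have eb : (1 : Matrix (I' ⊕ r.J) (I' ⊕ r.J) K[X]) -
        (X : K[X]) • cm (fromBlocks (0 : Matrix I' I' K) 0 r.c r.q) =
        fromBlocks 1 0 (-((X : K[X]) • cm r.c)) (1 - (X : K[X]) • cm r.q) := by
      rw [cm_fromBlocks, ← fromBlocks_one, fromBlocks_smul, sub_eq_add_neg, fromBlocks_neg,
        fromBlocks_add]
      simp [sub_eq_add_neg]
    refine ⟨⟨I' ⊕ r.J, cf M 1, fromCols r.a r.b, fromRows 1 0, fromBlocks 0 0 r.c r.q⟩,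
      fun i j => (hM i j).2 1, hr.ha.fromCols hr.hb, MNN.one.fromRows MNN.zero,
      MNN.zero.fromBlocks MNN.zero hr.hc hr.hq, ?_,
      fromBlocks 1 0 ((X : K[X]) • (Y * cm r.c)) Y, ?_, ?_, ?_⟩
    · obtain ⟨k, hk⟩ := hr.nil
      refine ⟨k + 1, ?_⟩
      have : ∀ m, (fromBlocks (0 : Matrix I' I' K) 0 r.c r.q) ^ (m + 1) =
          fromBlocks 0 0 (r.q ^ m * r.c) (r.q ^ (m + 1)) := by
        intro m
        induction m with
        | zero => simp
        | succ m ihm =>
          rw [pow_succ', ihm, fromBlocks_multiply]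
          simp [pow_succ', Matrix.mul_assoc]
      show (fromBlocks (0 : Matrix I' I' K) 0 r.c r.q) ^ (k + 1) = 0
      rw [this, pow_succ, hk]; simp
    · show _ * (1 - (X : K[X]) • cm (fromBlocks (0 : Matrix I' I' K) 0 r.c r.q)) = 1
      rw [eb, fromBlocks_multiply]; simp [hY]
    · show (1 - (X : K[X]) • cm (fromBlocks (0 : Matrix I' I' K) 0 r.c r.q)) * _ = 1
      rw [eb, fromBlocks_multiply]
      simp [hY', ← Matrix.mul_assoc]
    · show M = (X : K[X]) • cm (cf M 1) + (X : K[X]) ^ 2 • (cm (fromCols r.a r.b) * _ *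
        cm (fromRows 1 0))
      rw [cm_fromCols, cm_fromRows, fromCols_mul_fromBlocks, fromCols_mul_fromRows]
      have e1 : M = (X : K[X]) • cm (cf M 1) + (X : K[X]) • M' := by
        ext1 i j
        have := X_mul_divX_add (M i j)
        rw [(hM i j).1] at this
        simp only [hM', Matrix.add_apply, Matrix.smul_apply, smul_eq_mul, cm_apply, cf_apply,
          Matrix.of_apply]
        rw [map_zero, add_zero] at this
        linear_combination -this
      conv_lhs => rw [e1, e]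
      simp only [cm_one, cm_zero, Matrix.mul_one, Matrix.mul_zero, add_zero, zero_add,
        Matrix.mul_smul, smul_add, smul_smul, Matrix.mul_assoc]
      rw [show (X : K[X]) * X = X ^ 2 by ring, show (X : K[X]) * X ^ 2 = X ^ 2 * X by ring]

theorem exists_real [Fintype I] [Fintype I'] {M : Matrix I I' K[X]} (hM : NN0 M) :
    ∃ r : RData K I I', Real M r := by
  obtain ⟨k, hk⟩ := cf_eventually_zero M
  exact exists_real_aux k M hM fun d hd => hk d hd.le

theorem PEq.refl [Fintype I] {M : Matrix I I K[X]} (hM : NN0 M) : PEq M M := by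
  obtain ⟨r, hr⟩ := exists_real hM
  exact ⟨r, r, hr, hr, SSE.refl _⟩

theorem PEq.of_eq [Fintype I] {M M' : Matrix I I K[X]} (hM : NN0 M) (h : M = M') : PEq M M' :=
  h ▸ PEq.refl hM

end

end Pool.Agent.MP_841a27_al

end MrgPart1

-- ======== part 2: formerly Pool.Agent.MP_841a27_al.Moves
section MrgPart2

/-!
The basic moves of positive equivalence: row operations, column operations, and `RS ~ SR`.
-/

namespace Pool.Agent.MP_841a27_al

open Matrix Polynomial

section
variable {K : Type} [Field K] [LinearOrder K] [IsStrictOrderedRing K]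
variable {I J L I' J' : Type}

/-- Transposed realization data. -/
def RData.tr (r : RData K I I') : RData K I' I := ⟨r.J, r.aᵀ, r.cᵀ, r.bᵀ, r.qᵀ⟩

omit [IsStrictOrderedRing K] in
theorem Real.tr {M : Matrix I I' K[X]} {r : RData K I I'} (h : Real M r) : Real Mᵀ r.tr := by
  obtain ⟨Y, hY, hY', e⟩ := h.inv
  obtain ⟨k, hk⟩ := h.nil
  have e1 : (1 - (X : K[X]) • cm r.qᵀ) = (1 - (X : K[X]) • cm r.q)ᵀ := by
    rw [Matrix.transpose_sub, Matrix.transpose_one, Matrix.transpose_smul, cm_transpose]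
  refine ⟨h.ha.transpose, h.hc.transpose, h.hb.transpose, h.hq.transpose, ⟨k, ?_⟩, Yᵀ, ?_, ?_, ?_⟩
  · show r.qᵀ ^ k = 0
    rw [← Matrix.transpose_pow, hk, Matrix.transpose_zero]
  · show Yᵀ * (1 - (X : K[X]) • cm r.qᵀ) = 1
    rw [e1, ← Matrix.transpose_mul, hY', Matrix.transpose_one]
  · show (1 - (X : K[X]) • cm r.qᵀ) * Yᵀ = 1
    rw [e1, ← Matrix.transpose_mul, hY, Matrix.transpose_one]
  · show Mᵀ = (X : K[X]) • cm r.aᵀ + (X : K[X]) ^ 2 • (cm r.cᵀ * Yᵀ * cm r.bᵀ)
    conv_lhs => rw [e]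
    simp only [cm_transpose, Matrix.transpose_add, Matrix.transpose_smul, Matrix.transpose_mul,
      Matrix.mul_assoc]

omit [IsStrictOrderedRing K] in
theorem PEq.transpose {M : Matrix I I K[X]} {M' : Matrix I' I' K[X]} (h : PEq M M') :
    PEq Mᵀ M'ᵀ := by
  obtain ⟨r₁, r₂, h₁, h₂, s⟩ := h
  refine ⟨r₁.tr, r₂.tr, h₁.tr, h₂.tr, ?_⟩
  have := s.transpose
  simp only [RData.mat, fromBlocks_transpose] at this
  exact this

omit [IsStrictOrderedRing K] in
theorem NN0.transpose {M : Matrix I J K[X]} (h : NN0 M) : NN0 Mᵀ := fun i j => h j i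

omit [IsStrictOrderedRing K] in
theorem NN0.submatrix {M : Matrix I J K[X]} (h : NN0 M) (f : I' → I) (g : J' → J) :
    NN0 (M.submatrix f g) := fun _ _ => h _ _

/-- The row move. -/
theorem PEq.row [Fintype I] [DecidableEq I] {M M' Ξ : Matrix I I K[X]} (p : I → Prop)
    (hM : NN0 M) (hM' : NN0 M') (hΞ : ∀ i j, Ξ i j ≠ 0 → p i ∧ ¬ p j)
    (hΞ0 : ∀ i j, (Ξ i j).coeff 0 = 0) (h : M' = M - Ξ + Ξ * M) : PEq M M' := by
  classical
  obtain ⟨r, hr⟩ := exists_real hM
  obtain ⟨r', hr'⟩ := exists_real hM'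
  obtain ⟨Y, hY, hY1, e⟩ := hr.inv
  obtain ⟨Y', hY', hY1', e'⟩ := hr'.inv
  set π : Matrix I I K := diagonal fun i => if p i then 1 else 0 with hπ
  set π' : Matrix I I K := diagonal fun i => if p i then 0 else 1 with hπ'
  have hπn : MNN π := MNN.diagonal fun i => by split_ifs <;> simp
  have hπn' : MNN π' := MNN.diagonal fun i => by split_ifs <;> simp
  have hsum : π' + π = 1 := by
    rw [hπ, hπ', diagonal_add, ← diagonal_one]; congr 1; ext i; split_ifs <;> simp
  have hππ : π * π = π := by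
    rw [hπ, diagonal_mul_diagonal]; congr 1; ext i; split_ifs <;> simp
  have hππ' : ∀ {L : Type} (a : Matrix I L K), π * (π * a) = π * a := fun a => by
    rw [← Matrix.mul_assoc, hππ]
  set γ : Matrix I I K[X] := Matrix.of fun i j => (Ξ i j).divX with hγ
  have hΞγ : Ξ = (X : K[X]) • γ := by
    ext1 i j
    have := X_mul_divX_add (Ξ i j)
    rw [hΞ0, map_zero, add_zero] at this
    simp [hγ, this]
  have cπ : cm π = diagonal fun i => if p i then (1 : K[X]) else 0 := by
    ext1 i j; simp only [cm_apply, hπ, diagonal_apply]; split_ifs <;> simp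
  have hΞπ : Ξ * cm π = 0 := by
    ext1 i j
    rw [cπ, Matrix.mul_diagonal]
    by_cases h0 : Ξ i j = 0
    · simp [h0]
    · simp [(hΞ i j h0).2]
  have hπΞ : cm π * Ξ = Ξ := by
    ext1 i j
    rw [cπ, Matrix.diagonal_mul]
    by_cases h0 : Ξ i j = 0
    · simp [h0]
    · simp [(hΞ i j h0).1]
  have hγπ : γ * cm π = 0 := by
    apply X_smul_cancel
    rw [← Matrix.smul_mul, ← hΞγ, hΞπ, smul_zero]
  have cπ' : cm π' = 1 - cm π := by rw [← cm_one, ← hsum, cm_add]; abel
  have hYY : fromBlocks Y 0 0 Y' * (1 - (X : K[X]) • cm (fromBlocks r.q 0 0 r'.q)) = 1 := by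
    rw [one_sub_blockdiag, fromBlocks_multiply]; simp [hY, hY']
  have hYY1 : (1 - (X : K[X]) • cm (fromBlocks r.q 0 0 r'.q)) * fromBlocks Y 0 0 Y' = 1 := by
    rw [one_sub_blockdiag, fromBlocks_multiply]; simp [hY1, hY1']
  have m1 : cm (fromCols r.b (0 : Matrix I r'.J K)) * fromBlocks Y 0 0 Y' *
      cm (fromRows r.c r'.c) = cm r.b * Y * cm r.c := by
    rw [cm_fromCols, cm_fromRows, fromCols_mul_fromBlocks, fromCols_mul_fromRows]; simp
  have m2 : cm (fromCols (0 : Matrix I r.J K) r'.b) * fromBlocks Y 0 0 Y' *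
      cm (fromRows r.c r'.c) = cm r'.b * Y' * cm r'.c := by
    rw [cm_fromCols, cm_fromRows, fromCols_mul_fromBlocks, fromCols_mul_fromRows]; simp
  have comb : ∀ (σ : Matrix I I K) (a : Matrix I I K) (b : Matrix I (r.J ⊕ r'.J) K)
      (N : Matrix I I K[X]),
      N = (X : K[X]) • cm a + (X : K[X]) ^ 2 • (cm b * fromBlocks Y 0 0 Y' *
        cm (fromRows r.c r'.c)) →
      (X : K[X]) • cm (σ * a) + (X : K[X]) ^ 2 • (cm (σ * b) * fromBlocks Y 0 0 Y' *
        cm (fromRows r.c r'.c)) = cm σ * N := by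
    intro σ a b N hN
    rw [hN]
    simp only [cm_mul, Matrix.mul_add, Matrix.mul_smul, Matrix.mul_assoc]
  have eM := e
  rw [← m1] at eM
  have eM' := e'
  rw [← m2] at eM'
  have key := common_lower (fromRows r.c r'.c) (fromBlocks r.q 0 0 r'.q) (fromBlocks Y 0 0 Y')
    hYY (π' * r.a) (π * r.a) (π * r'.a) (π' * fromCols r.b 0) (π * fromCols r.b 0)
    (π * fromCols 0 r'.b) π (hr.hc.fromRows hr'.hc)
    (hr.hq.fromBlocks MNN.zero MNN.zero hr'.hq) (hπn'.mul hr.ha) (hπn.mul hr.ha)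
    (hπn.mul hr'.ha) (hπn'.mul (hr.hb.fromCols MNN.zero)) (hπn.mul (hr.hb.fromCols MNN.zero))
    (hπn.mul (MNN.zero.fromCols hr'.hb)) hπn (hππ' _) (hππ' _) (hππ' _) (hππ' _) γ hγπ ?_
  · rw [← Matrix.add_mul, ← Matrix.add_mul, hsum, Matrix.one_mul, Matrix.one_mul] at key
    refine ⟨r, ⟨r.J ⊕ r'.J, π' * r.a + π * r'.a, π' * fromCols r.b 0 + π * fromCols 0 r'.b,
      fromRows r.c r'.c, fromBlocks r.q 0 0 r'.q⟩, hr, ⟨(hπn'.mul hr.ha).add (hπn.mul hr'.ha),
      (hπn'.mul (hr.hb.fromCols MNN.zero)).add (hπn.mul (MNN.zero.fromCols hr'.hb)),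
      hr.hc.fromRows hr'.hc, hr.hq.fromBlocks MNN.zero MNN.zero hr'.hq,
      nil_blockdiag hr.nil hr'.nil, fromBlocks Y 0 0 Y', hYY, hYY1, ?_⟩,
      (pad_right r hr.mat_nn hr'.hc hr'.hq hr'.nil).symm.trans key⟩
    have c1 := comb π' _ _ _ eM
    have c2 := comb π _ _ _ eM'
    have : M' = cm π' * M + cm π * M' := by
      rw [cπ', h]
      simp only [Matrix.mul_add, Matrix.mul_sub, Matrix.sub_mul, Matrix.one_mul,
        ← Matrix.mul_assoc, hπΞ]
      abel
    show M' = (X : K[X]) • cm (π' * r.a + π * r'.a) + (X : K[X]) ^ 2 •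
      (cm (π' * fromCols r.b 0 + π * fromCols 0 r'.b) * fromBlocks Y 0 0 Y' *
        cm (fromRows r.c r'.c))
    rw [this, ← c1, ← c2]
    simp only [cm_add, Matrix.add_mul, smul_add]
    abel
  · apply X_smul_cancel
    rw [comb π' _ _ _ eM, ← Matrix.smul_mul (X : K[X]) γ, ← hΞγ]
    have c1 := comb π _ _ _ eM
    have c2 := comb π _ _ _ eM'
    have : Ξ * (1 - cm π' * M) = cm π * M - cm π * M' := by
      rw [cπ', h]
      simp only [Matrix.mul_add, Matrix.mul_sub, Matrix.sub_mul, Matrix.one_mul, Matrix.mul_one,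
        ← Matrix.mul_assoc, hπΞ, hΞπ, Matrix.zero_mul]
      abel
    rw [this, ← c1, ← c2]
    simp only [cm_sub, Matrix.sub_mul, smul_add, smul_sub, smul_smul, ← pow_two]
    abel

/-- The column move. -/
theorem PEq.col [Fintype I] [DecidableEq I] {M M' Θ : Matrix I I K[X]} (p : I → Prop)
    (hM : NN0 M) (hM' : NN0 M') (hΘ : ∀ i j, Θ i j ≠ 0 → ¬ p i ∧ p j)
    (hΘ0 : ∀ i j, (Θ i j).coeff 0 = 0) (h : M' = M - Θ + M * Θ) : PEq M M' := by
  have := PEq.row (M := Mᵀ) (M' := M'ᵀ) (Ξ := Θᵀ) p hM.transpose hM'.transpose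
    (fun i j h0 => (hΘ j i h0).symm) (fun i j => hΘ0 j i)
    (by rw [h, Matrix.transpose_add, Matrix.transpose_sub, Matrix.transpose_mul])
  simpa using this.transpose

/-- The elementary move with a constant factor. -/
theorem PEq.e0 [Fintype I] [Fintype J] {R : Matrix I J K} {S : Matrix J I K[X]}
    (hR : MNN R) (hS : NN0 S) : PEq (cm R * S) (S * cm R) := by
  classical
  obtain ⟨r, hr⟩ := exists_real hS
  obtain ⟨Y, hY, hY1, e⟩ := hr.inv
  refine ⟨⟨r.J, R * r.a, R * r.b, r.c, r.q⟩, ⟨r.J, r.a * R, r.b, r.c * R, r.q⟩,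
    ⟨hR.mul hr.ha, hR.mul hr.hb, hr.hc, hr.hq, hr.nil, Y, hY, hY1, ?_⟩,
    ⟨hr.ha.mul hR, hr.hb, hr.hc.mul hR, hr.hq, hr.nil, Y, hY, hY1, ?_⟩, ?_⟩
  · show cm R * S = (X : K[X]) • cm (R * r.a) + (X : K[X]) ^ 2 • (cm (R * r.b) * Y * cm r.c)
    conv_lhs => rw [e]
    simp only [cm_mul, Matrix.mul_add, Matrix.mul_smul, Matrix.mul_assoc]
  · show S * cm R = (X : K[X]) • cm (r.a * R) + (X : K[X]) ^ 2 • (cm r.b * Y * cm (r.c * R))
    conv_lhs => rw [e]
    simp only [cm_mul, Matrix.add_mul, Matrix.smul_mul, Matrix.mul_assoc]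
  · refine SSE.step' (fromBlocks R 0 0 (1 : Matrix r.J r.J K)) (fromBlocks r.a r.b r.c r.q)
      (hR.fromBlocks MNN.zero MNN.zero MNN.one) (hr.ha.fromBlocks hr.hb hr.hc hr.hq) ?_ ?_
    · rw [fromBlocks_multiply]; simp [RData.mat]
    · rw [fromBlocks_multiply]; simp [RData.mat]

theorem PEq.e0' [Fintype I] [Fintype J] {M : Matrix I I K[X]} {M' : Matrix J J K[X]}
    (R : Matrix I J K) (S : Matrix J I K[X]) (hR : MNN R) (hS : NN0 S)
    (h : M = cm R * S) (h' : M' = S * cm R) : PEq M M' := h ▸ h' ▸ PEq.e0 hR hS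

theorem PEq.reindex [Fintype I] [Fintype J] {M : Matrix I I K[X]} (hM : NN0 M) (e : J ≃ I) :
    PEq M (M.submatrix e e) := by
  classical
  have c1 : cm ((1 : Matrix I I K).submatrix id e) = (1 : Matrix I I K[X]).submatrix id e := by
    rw [← cm_one]; rfl
  refine PEq.e0' ((1 : Matrix I I K).submatrix id e) (M.submatrix e id)
    (MNN.one.submatrix _ _) (hM.submatrix _ _) ?_ ?_
  · rw [c1, Matrix.submatrix_mul_equiv]; simp
  · have := Matrix.submatrix_mul_equiv M (1 : Matrix I I K[X]) e (Equiv.refl I) e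
    rw [c1]
    simpa using this.symm

omit [IsStrictOrderedRing K] in
theorem real_const {A : Matrix I I K} (hA : MNN A) :
    Real ((X : K[X]) • cm A) ⟨Empty, A, 0, 0, 0⟩ :=
  ⟨hA, MNN.zero, MNN.zero, MNN.zero, IsNilpotent.zero, 0, Subsingleton.elim _ _,
    Subsingleton.elim _ _, by simp⟩

/-- Positive equivalence of `t A` and `t B` gives strong shift equivalence. -/
theorem SSE.of_PEq [Fintype I] [Fintype J] {A : Matrix I I K} {B : Matrix J J K}
    (hA : MNN A) (hB : MNN B) (h : PEq ((X : K[X]) • cm A) ((X : K[X]) • cm B)) : SSE A B := by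
  classical
  obtain ⟨r₁, r₂, h₁, h₂, s⟩ := h
  have a1 : SSE (RData.mat ⟨Empty, A, 0, 0, 0⟩) A :=
    source_removal hA MNN.zero MNN.zero IsNilpotent.zero
  have a2 : SSE (RData.mat ⟨Empty, B, 0, 0, 0⟩) B :=
    source_removal hB MNN.zero MNN.zero IsNilpotent.zero
  exact a1.symm.trans (((real_const hA).uniq h₁).trans (s.trans
    ((h₂.uniq (real_const hB)).trans a2)))

end

end Pool.Agent.MP_841a27_al

end MrgPart2

-- ======== part 3: formerly Pool.Agent.MP_841a27_al.Hyb
section MrgPart3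

/-!
Graded systems and hybrid matrices.
-/

namespace Pool.Agent.MP_841a27_al

open Matrix Polynomial

/-- Multiply the coefficient of degree `d` by `w d`. -/
noncomputable def wt {R : Type} [CommRing R] (w : ℕ → R) (p : R[X]) : R[X] :=
  ∑ d ∈ p.support, monomial d (p.coeff d * w d)

@[simp] theorem coeff_wt {R : Type} [CommRing R] (w : ℕ → R) (p : R[X]) (d : ℕ) :
    (wt w p).coeff d = p.coeff d * w d := by
  simp only [wt, finsetSum_coeff, coeff_monomial]
  rw [Finset.sum_ite_eq']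
  split_ifs with h
  · rfl
  · rw [notMem_support_iff.mp h, zero_mul]

theorem map_wt {R R' : Type} [CommRing R] [CommRing R'] (f : R →+* R') (w : ℕ → R) (p : R[X]) :
    (wt w p).map f = wt (fun d => f (w d)) (p.map f) := by
  ext d; simp

/-- A graded system: `z d x y` is the weight of the symbol `z ^ d` from state `x` to state `y`. -/
structure GSys (V : Type) [Fintype V] [DecidableEq V] where
  side : V → Bool
  z : ℕ → V → V → ℚ
  n0 : ℕ
  n0_pos : 1 ≤ n0
  nonneg : ∀ d x y, 0 ≤ z d x y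
  zero : ∀ x y, z 0 x y = if x = y then 1 else 0
  mul : ∀ (τ : Bool) (a b : ℕ) (x w : V), (side x = τ ∨ n0 ≤ a) → (side w = τ ∨ n0 ≤ b) →
    ∑ y ∈ Finset.univ.filter (fun y => side y = τ), z a x y * z b y w = z (a + b) x w
  pos : ∀ {a b : ℕ} {x y w : V}, 0 < z a x y → 0 < z b y w → 0 < z (a + b) x w

/-- The index set of a hybrid matrix. -/
abbrev HI {V J : Type} (side : V → Bool) (ty : J → Bool) : Type := {p : J × V // side p.2 = ty p.1}

/-- The hybrid matrix of a scalar matrix. -/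
noncomputable def hyb {R V J J' : Type} [CommRing R] (side : V → Bool) (ζ : ℕ → V → V → R)
    (ty : J → Bool) (ty' : J' → Bool) (m : Matrix J J' R[X]) :
    Matrix (HI side ty) (HI side ty') R[X] :=
  Matrix.of fun p q => wt (fun d => ζ d p.1.2 q.1.2) (m p.1.1 q.1.1)

@[simp] theorem coeff_hyb {R V J J' : Type} [CommRing R] (side : V → Bool) (ζ : ℕ → V → V → R)
    (ty : J → Bool) (ty' : J' → Bool) (m : Matrix J J' R[X]) (p : HI side ty) (q : HI side ty')
    (d : ℕ) : (hyb side ζ ty ty' m p q).coeff d = (m p.1.1 q.1.1).coeff d * ζ d p.1.2 q.1.2 := by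
  simp [hyb]

theorem hyb_map {R R' V J J' : Type} [CommRing R] [CommRing R'] (f : R →+* R') (side : V → Bool)
    (ζ : ℕ → V → V → R) (ty : J → Bool) (ty' : J' → Bool) (m : Matrix J J' R[X]) :
    (hyb side ζ ty ty' m).map (Polynomial.map f) =
      hyb side (fun d x y => f (ζ d x y)) ty ty' (m.map (Polynomial.map f)) := by
  ext p q d; simp

/-- Cross entries are divisible by `X ^ n`. -/
def Graded {R J J' : Type} [CommRing R] (n : ℕ) (ty : J → Bool) (ty' : J' → Bool)
    (m : Matrix J J' R[X]) : Prop :=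
  ∀ j j', ty j ≠ ty' j' → (X : R[X]) ^ n ∣ m j j'

section graded
variable {R J J' J'' : Type} [CommRing R] {n : ℕ} {ty : J → Bool} {ty' : J' → Bool}
  {ty'' : J'' → Bool}

theorem Graded.add {m m' : Matrix J J' R[X]} (h : Graded n ty ty' m) (h' : Graded n ty ty' m') :
    Graded n ty ty' (m + m') := fun j j' e => dvd_add (h j j' e) (h' j j' e)

theorem Graded.sub {m m' : Matrix J J' R[X]} (h : Graded n ty ty' m) (h' : Graded n ty ty' m') :
    Graded n ty ty' (m - m') := fun j j' e => dvd_sub (h j j' e) (h' j j' e)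

theorem Graded.one [DecidableEq J] : Graded n ty ty (1 : Matrix J J R[X]) := fun j j' e => by
  rw [Matrix.one_apply_ne (fun h => e (by rw [h]))]; exact dvd_zero _

theorem Graded.mul [Fintype J'] {m : Matrix J J' R[X]} {m' : Matrix J' J'' R[X]}
    (h : Graded n ty ty' m) (h' : Graded n ty' ty'' m') : Graded n ty ty'' (m * m') := by
  intro j j'' e
  rw [Matrix.mul_apply]
  refine Finset.dvd_sum fun j' _ => ?_
  by_cases e' : ty j = ty' j'
  · exact Dvd.dvd.mul_left (h' j' j'' (e' ▸ e)) _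
  · exact Dvd.dvd.mul_right (h j j' e') _

theorem Graded.transpose {m : Matrix J J' R[X]} (h : Graded n ty ty' m) :
    Graded n ty' ty mᵀ := fun j j' e => h j' j (Ne.symm e)

end graded

section hyblin
variable {R V J J' : Type} [CommRing R] (side : V → Bool) (ζ : ℕ → V → V → R)
  (ty : J → Bool) (ty' : J' → Bool)

theorem hyb_add (m m' : Matrix J J' R[X]) :
    hyb side ζ ty ty' (m + m') = hyb side ζ ty ty' m + hyb side ζ ty ty' m' := by
  ext p q d; simp [add_mul]

theorem hyb_sub (m m' : Matrix J J' R[X]) :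
    hyb side ζ ty ty' (m - m') = hyb side ζ ty ty' m - hyb side ζ ty ty' m' := by
  ext p q d; simp [sub_mul]

theorem hyb_zero : hyb side ζ ty ty' (0 : Matrix J J' R[X]) = 0 := by
  ext p q d; simp

end hyblin

theorem sum_HI {V J A : Type} [Fintype V] [Fintype J] [AddCommMonoid A] (side : V → Bool)
    (ty : J → Bool) (f : J → V → A) :
    ∑ p : HI side ty, f p.1.1 p.1.2 =
      ∑ j, ∑ y ∈ Finset.univ.filter (fun y => side y = ty j), f j y := by
  rw [← Finset.sum_subtype (Finset.univ.filter fun p : J × V => side p.2 = ty p.1) (by simp)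
    (fun p : J × V => f p.1 p.2), Finset.sum_filter, Fintype.sum_prod_type]
  simp only [Finset.sum_filter]

namespace GSys
variable {V : Type} [Fintype V] [DecidableEq V] (S : GSys V)

/-- The weights in a field. -/
def zc (K : Type) [Field K] : ℕ → V → V → K := fun d x y => (S.z d x y : K)

/-- The transposed system. -/
def tr : GSys V where
  side := S.side
  z d x y := S.z d y x
  n0 := S.n0
  n0_pos := S.n0_pos
  nonneg d x y := S.nonneg d y x
  zero x y := by rw [S.zero]; simp only [eq_comm]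
  mul τ a b x w h1 h2 := by
    rw [add_comm, ← S.mul τ b a w x h2 h1]
    exact Finset.sum_congr rfl fun y _ => mul_comm _ _
  pos h1 h2 := by rw [add_comm]; exact S.pos h2 h1

/-- The dilated system. -/
def dil (k : ℕ) (hk : 1 ≤ k) : GSys V where
  side := S.side
  z d x y := S.z (k * d) x y
  n0 := S.n0
  n0_pos := S.n0_pos
  nonneg d x y := S.nonneg _ x y
  zero x y := by rw [mul_zero, S.zero]
  mul τ a b x w h1 h2 := by
    rw [mul_add]
    exact S.mul τ _ _ x w (h1.imp id fun h => h.trans (Nat.le_mul_of_pos_left _ hk))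
      (h2.imp id fun h => h.trans (Nat.le_mul_of_pos_left _ hk))
  pos h1 h2 := by rw [mul_add]; exact S.pos h1 h2

variable {K : Type} [Field K] [CharZero K]

theorem zc_mul (τ : Bool) (a b : ℕ) (x w : V) (h1 : S.side x = τ ∨ S.n0 ≤ a)
    (h2 : S.side w = τ ∨ S.n0 ≤ b) :
    ∑ y ∈ Finset.univ.filter (fun y => S.side y = τ), S.zc K a x y * S.zc K b y w =
      S.zc K (a + b) x w := by
  simp only [zc]
  rw [← S.mul τ a b x w h1 h2]
  push_cast
  rfl

/-- The hybrid matrix over the field `K`. -/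
noncomputable abbrev H {J J' : Type} (ty : J → Bool) (ty' : J' → Bool) (m : Matrix J J' K[X]) :
    Matrix (HI S.side ty) (HI S.side ty') K[X] := hyb S.side (S.zc K) ty ty' m

omit [CharZero K] in
theorem H_one {J : Type} [DecidableEq J] (ty : J → Bool) :
    S.H ty ty (1 : Matrix J J K[X]) = 1 := by
  ext p q d
  rw [coeff_hyb]
  rcases d with _ | d
  · by_cases h : p = q
    · subst h; simp [zc, S.zero]
    · rw [Matrix.one_apply_ne h]
      by_cases h1 : p.1.1 = q.1.1
      · have : p.1.2 ≠ q.1.2 := fun h2 => h (Subtype.ext (Prod.ext h1 h2))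
        simp [zc, S.zero, this]
      · simp [Matrix.one_apply_ne h1]
  · simp only [Matrix.one_apply]
    split_ifs <;> simp [coeff_one]

theorem H_mul {J J' J'' : Type} [Fintype J'] {ty : J → Bool} {ty' : J' → Bool} {ty'' : J'' → Bool}
    {m : Matrix J J' K[X]} {m' : Matrix J' J'' K[X]}
    (h : Graded S.n0 ty ty' m) (h' : Graded S.n0 ty' ty'' m') :
    S.H ty ty'' (m * m') = S.H ty ty' m * S.H ty' ty'' m' := by
  ext p q d
  rw [coeff_hyb, Matrix.mul_apply, Matrix.mul_apply, finsetSum_coeff, finsetSum_coeff]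
  simp only [coeff_mul, coeff_hyb]
  rw [sum_HI S.side ty' (fun j y => ∑ e ∈ Finset.HasAntidiagonal.antidiagonal d,
    (m p.1.1 j).coeff e.1 * S.zc K e.1 p.1.2 y * ((m' j q.1.1).coeff e.2 * S.zc K e.2 y q.1.2)),
    Finset.sum_mul]
  refine Finset.sum_congr rfl fun j _ => ?_
  rw [Finset.sum_comm, Finset.sum_mul]
  refine Finset.sum_congr rfl fun e he => ?_
  rw [Finset.HasAntidiagonal.mem_antidiagonal] at he
  by_cases h1 : (m p.1.1 j).coeff e.1 = 0
  · simp [h1]
  by_cases h2 : (m' j q.1.1).coeff e.2 = 0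
  · simp [h2]
  have o1 : S.side p.1.2 = ty' j ∨ S.n0 ≤ e.1 := by
    by_contra hc
    push Not at hc
    exact h1 (X_pow_dvd_iff.mp (h _ _ (p.2 ▸ hc.1)) _ hc.2)
  have o2 : S.side q.1.2 = ty' j ∨ S.n0 ≤ e.2 := by
    by_contra hc
    push Not at hc
    exact h2 (X_pow_dvd_iff.mp (h' _ _ (q.2 ▸ Ne.symm hc.1)) _ hc.2)
  rw [← he, ← S.zc_mul (ty' j) e.1 e.2 _ _ o1 o2, Finset.mul_sum]
  exact Finset.sum_congr rfl fun y _ => by ring

end GSys

section
variable {V : Type} [Fintype V] [DecidableEq V] (S : GSys V)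
variable {K : Type} [Field K] [LinearOrder K] [IsStrictOrderedRing K]
variable {J J' : Type}

theorem GSys.zc_nonneg (d : ℕ) (x y : V) : 0 ≤ S.zc K d x y := by
  simp only [GSys.zc]; exact_mod_cast S.nonneg d x y

theorem GSys.zc_pos {d : ℕ} {x y : V} : 0 < S.zc K d x y ↔ 0 < S.z d x y := by
  simp only [GSys.zc]; exact_mod_cast Iff.rfl

theorem GSys.H_NN0 {ty : J → Bool} {ty' : J' → Bool} {m : Matrix J J' K[X]} (h : NN0 m) :
    NN0 (S.H ty ty' m) := fun p q =>
  ⟨by rw [coeff_hyb, (h _ _).1, zero_mul], fun d => by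
    rw [coeff_hyb]; exact mul_nonneg ((h _ _).2 d) (S.zc_nonneg _ _ _)⟩

/-- Nonnegative, without constant terms, and graded. -/
def Good (ty : J → Bool) (m : Matrix J J K[X]) : Prop := NN0 m ∧ Graded S.n0 ty ty m

/-- Positive equivalence of the hybrid matrices. -/
def SEq (ty : J → Bool) (m : Matrix J J K[X]) (ty' : J' → Bool) (m' : Matrix J' J' K[X]) : Prop :=
  PEq (S.H ty ty m) (S.H ty' ty' m')

variable {S}

omit [IsStrictOrderedRing K] in
theorem SEq.symm {ty : J → Bool} {m : Matrix J J K[X]} {ty' : J' → Bool} {m' : Matrix J' J' K[X]}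
    (h : SEq S ty m ty' m') : SEq S ty' m' ty m := PEq.symm h

theorem SEq.trans {J'' : Type} [Fintype J'] {ty : J → Bool} {m : Matrix J J K[X]}
    {ty' : J' → Bool} {m' : Matrix J' J' K[X]} {ty'' : J'' → Bool} {m'' : Matrix J'' J'' K[X]}
    (h : SEq S ty m ty' m') (h' : SEq S ty' m' ty'' m'') : SEq S ty m ty'' m'' := PEq.trans h h'

theorem SEq.refl [Fintype J] {ty : J → Bool} {m : Matrix J J K[X]} (h : NN0 m) :
    SEq S ty m ty m := PEq.refl (S.H_NN0 h)

/-- Scalar row move. -/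
theorem sRow [Fintype J] [DecidableEq J] {ty : J → Bool} {m m' ξ : Matrix J J K[X]} (p : J → Prop)
    (hm : Good S ty m) (hm' : NN0 m') (hg : Graded S.n0 ty ty ξ)
    (hξ : ∀ i j, ξ i j ≠ 0 → p i ∧ ¬ p j) (hξ0 : ∀ i j, (ξ i j).coeff 0 = 0)
    (h : m' = m - ξ + ξ * m) : SEq S ty m ty m' := by
  refine PEq.row (Ξ := S.H ty ty ξ) (fun a => p a.1.1) (S.H_NN0 hm.1) (S.H_NN0 hm') ?_ ?_ ?_
  · intro a b h0
    refine hξ _ _ fun e => h0 ?_
    ext d; rw [coeff_hyb, e]; simp
  · intro a b; rw [coeff_hyb, hξ0, zero_mul]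
  · rw [h, ← S.H_mul hg hm.2, ← hyb_sub, ← hyb_add]

/-- Scalar column move. -/
theorem sCol [Fintype J] [DecidableEq J] {ty : J → Bool} {m m' θ : Matrix J J K[X]} (p : J → Prop)
    (hm : Good S ty m) (hm' : NN0 m') (hg : Graded S.n0 ty ty θ)
    (hθ : ∀ i j, θ i j ≠ 0 → ¬ p i ∧ p j) (hθ0 : ∀ i j, (θ i j).coeff 0 = 0)
    (h : m' = m - θ + m * θ) : SEq S ty m ty m' := by
  refine PEq.col (Θ := S.H ty ty θ) (fun a => p a.1.1) (S.H_NN0 hm.1) (S.H_NN0 hm') ?_ ?_ ?_
  · intro a b h0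
    refine hθ _ _ fun e => h0 ?_
    ext d; rw [coeff_hyb, e]; simp
  · intro a b; rw [coeff_hyb, hθ0, zero_mul]
  · rw [h, ← S.H_mul hm.2 hg, ← hyb_sub, ← hyb_add]

/-- Scalar elementary move with a constant type preserving factor. -/
theorem sE0 [Fintype J] [Fintype J'] {ty : J → Bool} {ty' : J' → Bool} {m : Matrix J J K[X]}
    {m' : Matrix J' J' K[X]} (R : Matrix J J' K) (T : Matrix J' J K[X]) (hR : MNN R)
    (hRt : ∀ j j', R j j' ≠ 0 → ty j = ty' j') (hT : NN0 T) (hTg : Graded S.n0 ty' ty T)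
    (h : m = cm R * T) (h' : m' = T * cm R) : SEq S ty m ty' m' := by
  have hRg : Graded S.n0 ty ty' (cm R) := fun j j' e => by
    have : R j j' = 0 := by
      by_contra h0; exact e (hRt j j' h0)
    simp [this]
  set R' : Matrix (HI S.side ty) (HI S.side ty') K :=
    Matrix.of fun a b => R a.1.1 b.1.1 * S.zc K 0 a.1.2 b.1.2 with hR'
  have e : S.H ty ty' (cm R) = cm R' := by
    ext a b d
    rw [coeff_hyb]
    simp only [cm_apply, hR', Matrix.of_apply, coeff_C]
    split_ifs with hd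
    · rw [hd]
    · rw [zero_mul]
  refine PEq.e0' R' (S.H ty' ty T) (fun a b => mul_nonneg (hR _ _) (S.zc_nonneg _ _ _))
    (S.H_NN0 hT) ?_ ?_
  · rw [h, S.H_mul hRg hTg, e]
  · rw [h', S.H_mul hTg hRg, e]

/-- Scalar reindexing. -/
theorem sReindex [Fintype J] [Fintype J'] {ty : J → Bool} {m : Matrix J J K[X]}
    (hm : Good S ty m) (e : J' ≃ J) : SEq S ty m (fun j => ty (e j)) (m.submatrix e e) := by
  classical
  have c1 : cm ((1 : Matrix J J K).submatrix id e) = (1 : Matrix J J K[X]).submatrix id e := by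
    rw [← cm_one]; rfl
  refine sE0 ((1 : Matrix J J K).submatrix id e) (m.submatrix e id)
    (MNN.one.submatrix _ _) (fun j j' h => ?_) (hm.1.submatrix _ _)
    (fun j j' h => hm.2 _ _ h) ?_ ?_
  · by_cases h0 : j = e j'
    · rw [h0]
    · exact absurd (Matrix.one_apply_ne h0) h
  · rw [c1, Matrix.submatrix_mul_equiv]; simp
  · have := Matrix.submatrix_mul_equiv m (1 : Matrix J J K[X]) e (Equiv.refl J) e
    rw [c1]
    simpa using this.symm

end

end Pool.Agent.MP_841a27_al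

end MrgPart3

-- ======== part 4: formerly Pool.Agent.MP_841a27_al.Small
section MrgPart4

/-!
Bounded and infinitesimal quantities in an ordered field, and the interface statements.
-/

namespace Pool.Agent.MP_841a27_al

open Matrix Polynomial

section
variable {K : Type} [Field K] [LinearOrder K] [IsStrictOrderedRing K]

/-- `x` is bounded by a rational multiple of `μ`. -/
def Bd (x μ : K) : Prop := ∃ q : ℚ, 0 < q ∧ |x| ≤ (q : K) * μ

/-- `x` is infinitesimal with respect to `μ`. -/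
def Sm (x μ : K) : Prop := ∀ q : ℚ, 0 < q → |x| ≤ (q : K) * μ

omit [IsStrictOrderedRing K] in
theorem Sm.bd {x μ : K} (h : Sm x μ) : Bd x μ := ⟨1, one_pos, h 1 one_pos⟩

theorem Bd.nonneg {x μ : K} (h : Bd x μ) : 0 ≤ μ := by
  obtain ⟨q, hq, h⟩ := h
  have hq' : (0 : K) < q := by exact_mod_cast hq
  exact nonneg_of_mul_nonneg_right ((abs_nonneg x).trans h) hq' |> fun h => h

theorem Sm.nonneg {x μ : K} (h : Sm x μ) : 0 ≤ μ := h.bd.nonneg

theorem Sm.zero {μ : K} (h : 0 ≤ μ) : Sm (0 : K) μ := fun q hq => by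
  have hq' : (0 : K) < q := by exact_mod_cast hq
  rw [abs_zero]; positivity

theorem Bd.zero {μ : K} (h : 0 ≤ μ) : Bd (0 : K) μ := (Sm.zero h).bd

theorem Bd.self {μ : K} (h : 0 ≤ μ) : Bd μ μ := ⟨1, one_pos, by simp [abs_of_nonneg h]⟩

theorem Bd.of_le {x μ : K} (h0 : 0 ≤ x) (h : x ≤ μ) : Bd x μ :=
  ⟨1, one_pos, by simpa [abs_of_nonneg h0] using h⟩

theorem Bd.ratCast (r : ℚ) : Bd (r : K) 1 :=
  ⟨|r| + 1, by positivity, by push_cast; linarith⟩

theorem Bd.one : Bd (1 : K) 1 := Bd.self zero_le_one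

omit [IsStrictOrderedRing K] in
theorem Sm.neg {x μ : K} (h : Sm x μ) : Sm (-x) μ := fun q hq => by rw [abs_neg]; exact h q hq

omit [IsStrictOrderedRing K] in
theorem Bd.neg {x μ : K} (h : Bd x μ) : Bd (-x) μ := by
  obtain ⟨q, hq, h⟩ := h
  exact ⟨q, hq, by rwa [abs_neg]⟩

theorem Sm.add {x y μ : K} (h : Sm x μ) (h' : Sm y μ) : Sm (x + y) μ := fun q hq => by
  have h1 := h (q / 2) (by positivity)
  have h2 := h' (q / 2) (by positivity)
  push_cast at h1 h2
  have := abs_add_le x y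
  linarith

theorem Bd.add {x y μ : K} (h : Bd x μ) (h' : Bd y μ) : Bd (x + y) μ := by
  obtain ⟨q, hq, h⟩ := h
  obtain ⟨q', hq', h'⟩ := h'
  refine ⟨q + q', by positivity, ?_⟩
  push_cast
  have := abs_add_le x y
  linarith

theorem Sm.sub {x y μ : K} (h : Sm x μ) (h' : Sm y μ) : Sm (x - y) μ := by
  rw [sub_eq_add_neg]; exact h.add h'.neg

theorem Bd.sub {x y μ : K} (h : Bd x μ) (h' : Bd y μ) : Bd (x - y) μ := by
  rw [sub_eq_add_neg]; exact h.add h'.neg

theorem Sm.sum {ι : Type} {s : Finset ι} {f : ι → K} {μ : K} (hμ : 0 ≤ μ)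
    (h : ∀ i ∈ s, Sm (f i) μ) : Sm (∑ i ∈ s, f i) μ :=
  Finset.sum_induction f (fun x => Sm x μ) (fun _ _ => Sm.add) (Sm.zero hμ) h

theorem Bd.sum {ι : Type} {s : Finset ι} {f : ι → K} {μ : K} (hμ : 0 ≤ μ)
    (h : ∀ i ∈ s, Bd (f i) μ) : Bd (∑ i ∈ s, f i) μ :=
  Finset.sum_induction f (fun x => Bd x μ) (fun _ _ => Bd.add) (Bd.zero hμ) h

theorem Bd.mul {x y μ ν : K} (h : Bd x μ) (h' : Bd y ν) : Bd (x * y) (μ * ν) := by
  obtain ⟨q, hq, h⟩ := h
  obtain ⟨q', hq', h'⟩ := h'
  refine ⟨q * q', by positivity, ?_⟩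
  push_cast
  rw [abs_mul]
  calc |x| * |y| ≤ (q * μ) * (q' * ν) :=
        mul_le_mul h h' (abs_nonneg _) ((abs_nonneg _).trans h)
    _ = _ := by ring

theorem Bd.mul_sm {x y μ ν : K} (h : Bd x μ) (h' : Sm y ν) : Sm (x * y) (μ * ν) := by
  obtain ⟨q, hq, h⟩ := h
  intro r hr
  have h2 := h' (r / q) (by positivity)
  have hq' : (q : K) ≠ 0 := by exact_mod_cast hq.ne'
  push_cast at h2
  rw [abs_mul]
  calc |x| * |y| ≤ (q * μ) * (r / q * ν) :=
        mul_le_mul h h2 (abs_nonneg _) ((abs_nonneg _).trans h)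
    _ = _ := by field_simp

theorem Sm.mul_bd {x y μ ν : K} (h : Sm x μ) (h' : Bd y ν) : Sm (x * y) (μ * ν) := by
  rw [mul_comm x, mul_comm μ]; exact h'.mul_sm h

theorem Bd.pow {x μ : K} (h : Bd x μ) (n : ℕ) : Bd (x ^ n) (μ ^ n) := by
  induction n with
  | zero => simpa using Bd.one
  | succ n ih => rw [pow_succ, pow_succ]; exact ih.mul h

theorem Bd.trans {x μ ν : K} (h : Bd x μ) (h' : Bd μ ν) : Bd x ν := by
  have hμ := h.nonneg
  obtain ⟨q, hq, h⟩ := h
  obtain ⟨q', hq', h'⟩ := h'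
  have hq0 : (0 : K) < q := by exact_mod_cast hq
  refine ⟨q * q', by positivity, ?_⟩
  push_cast
  rw [abs_of_nonneg hμ] at h'
  calc |x| ≤ q * μ := h
    _ ≤ q * (q' * ν) := mul_le_mul_of_nonneg_left h' hq0.le
    _ = _ := by ring

theorem Sm.trans_bd {x μ ν : K} (h : Sm x μ) (h' : Bd μ ν) : Sm x ν := by
  have hμ := h.nonneg
  obtain ⟨q, hq, h'⟩ := h'
  intro r hr
  have h2 := h (r / q) (by positivity)
  have hq0 : (0 : K) < q := by exact_mod_cast hq
  have hr0 : (0 : K) < r := by exact_mod_cast hr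
  push_cast at h2
  rw [abs_of_nonneg hμ] at h'
  calc |x| ≤ r / q * μ := h2
    _ ≤ r / q * (q * ν) := mul_le_mul_of_nonneg_left h' (by positivity)
    _ = _ := by field_simp

theorem Bd.trans_sm {x μ ν : K} (h : Bd x μ) (h' : Sm μ ν) : Sm x ν := by
  have hμ := h.nonneg
  obtain ⟨q, hq, h⟩ := h
  intro r hr
  have h2 := h' (r / q) (by positivity)
  have hq0 : (0 : K) < q := by exact_mod_cast hq
  push_cast at h2
  rw [abs_of_nonneg hμ] at h2
  calc |x| ≤ q * μ := h
    _ ≤ q * (r / q * ν) := mul_le_mul_of_nonneg_left h2 hq0.le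
    _ = _ := by field_simp

theorem Bd.mono {x μ ν : K} (h : Bd x μ) (h' : μ ≤ ν) : Bd x ν := h.trans (Bd.of_le h.nonneg h')

theorem Sm.mono {x μ ν : K} (h : Sm x μ) (h' : μ ≤ ν) : Sm x ν :=
  h.trans_bd (Bd.of_le h.nonneg h')

/-- Coefficients of a product of polynomials with bounded coefficients. -/
theorem Bd.coeff_mul {p q : K[X]} {μ ν : K} (hp : ∀ d, Bd (p.coeff d) μ)
    (hq : ∀ d, Bd (q.coeff d) ν) (d : ℕ) : Bd ((p * q).coeff d) (μ * ν) := by
  rw [Polynomial.coeff_mul]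
  exact Bd.sum (mul_nonneg (hp 0).nonneg (hq 0).nonneg) fun e _ => (hp _).mul (hq _)

theorem Bd.coeff_pow {p : K[X]} {μ : K} (hp : ∀ d, Bd (p.coeff d) μ) (n d : ℕ) :
    Bd ((p ^ n).coeff d) (μ ^ n) := by
  induction n generalizing d with
  | zero =>
    rw [pow_zero, pow_zero, coeff_one]
    split_ifs
    · exact Bd.one
    · exact Bd.zero zero_le_one
  | succ n ih => rw [pow_succ, pow_succ]; exact Bd.coeff_mul ih hp d

/-- Nonnegative coefficients. -/
def PNN (p : K[X]) : Prop := ∀ d, 0 ≤ p.coeff d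

omit [IsStrictOrderedRing K] in
theorem PNN.zero : PNN (0 : K[X]) := fun d => by simp

theorem PNN.add {p q : K[X]} (hp : PNN p) (hq : PNN q) : PNN (p + q) := fun d => by
  rw [coeff_add]; exact add_nonneg (hp d) (hq d)

theorem PNN.mul {p q : K[X]} (hp : PNN p) (hq : PNN q) : PNN (p * q) := fun d => by
  rw [Polynomial.coeff_mul]
  exact Finset.sum_nonneg fun e _ => mul_nonneg (hp _) (hq _)

omit [IsStrictOrderedRing K] in
theorem PNN.monomial {c : K} (hc : 0 ≤ c) (k : ℕ) : PNN (monomial k c) := fun d => by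
  rw [coeff_monomial]; split_ifs
  · exact hc
  · exact le_rfl

omit [IsStrictOrderedRing K] in
theorem PNN.C {c : K} (hc : 0 ≤ c) : PNN (C c) := PNN.monomial hc 0

theorem PNN.one : PNN (1 : K[X]) := PNN.C zero_le_one

theorem PNN.X : PNN (X : K[X]) := PNN.monomial zero_le_one 1

theorem PNN.pow {p : K[X]} (hp : PNN p) (n : ℕ) : PNN (p ^ n) := by
  induction n with
  | zero => simpa using PNN.one
  | succ n ih => rw [pow_succ]; exact ih.mul hp

theorem PNN.sum {ι : Type} {s : Finset ι} {f : ι → K[X]} (h : ∀ i ∈ s, PNN (f i)) :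
    PNN (∑ i ∈ s, f i) :=
  Finset.sum_induction f PNN (fun _ _ => PNN.add) PNN.zero h

/-- One term of the coefficient of a product of nonnegative polynomials. -/
theorem PNN.le_coeff_mul {p q : K[X]} (hp : PNN p) (hq : PNN q) (a b : ℕ) :
    p.coeff a * q.coeff b ≤ (p * q).coeff (a + b) := by
  rw [Polynomial.coeff_mul]
  exact Finset.single_le_sum (f := fun e : ℕ × ℕ => p.coeff e.1 * q.coeff e.2)
    (fun e _ => mul_nonneg (hp _) (hq _))
    (Finset.HasAntidiagonal.mem_antidiagonal.mpr rfl : (a, b) ∈ _)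

end

/-- The truncated geometric series. -/
noncomputable def th {R : Type} [CommRing R] (n : ℕ) (r : R) : R := ∑ j ∈ Finset.range n, r ^ j

theorem th_mul {R : Type} [CommRing R] (n : ℕ) (r : R) : th n r * (1 - r) = 1 - r ^ n :=
  geom_sum_mul_neg r n

theorem th_succ {R : Type} [CommRing R] (n : ℕ) (r : R) : th (n + 1) r = 1 + r * th n r := by
  simp [th, Finset.sum_range_succ', pow_succ', Finset.mul_sum, add_comm]

theorem th_add {R : Type} [CommRing R] (n m : ℕ) (r : R) :
    th (n + m) r = th n r + r ^ n * th m r := by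
  simp [th, Finset.sum_range_add, pow_add, Finset.mul_sum]

/-- The scalar path from the first type to the second type. -/
noncomputable def pathM {R : Type} [CommRing R] (p : ℕ) (u : R) : Matrix (Fin 2) (Fin 2) R[X] :=
  !![C (1 - u) * X * th (2 * p + 1) (C u * X), (C u * X) ^ (p + 1);
     C (1 - u) * X * (C u * X) ^ p, C u * X]

/-- The types along the path. -/
def ty2 : Fin 2 → Bool := ![false, true]

section
variable {K : Type} [Field K] [LinearOrder K] [IsStrictOrderedRing K]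

theorem PNN.th {p : K[X]} (hp : PNN p) (n : ℕ) : PNN (th n p) := PNN.sum fun j _ => hp.pow j

theorem Bd.coeff_th {p : K[X]} (hp : ∀ d, Bd (p.coeff d) 1) (n d : ℕ) :
    Bd ((th n p).coeff d) 1 := by
  rw [th, finsetSum_coeff]
  exact Bd.sum zero_le_one fun j _ => by simpa using Bd.coeff_pow hp j d

/-- Two infinitesimals, the first smaller than all powers of the second. -/
def Infs (ε η : K) : Prop := 0 < ε ∧ 0 < η ∧ Sm η 1 ∧ ∀ n : ℕ, Sm ε (η ^ n)

variable {V : Type} [Fintype V] [DecidableEq V]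

/-- The supports of the weights are periodic from `k0` on. -/
def GSys.Per (S : GSys V) (k0 P : ℕ) : Prop :=
  0 < P ∧ S.n0 ≤ k0 ∧ ∀ d, k0 ≤ d → ∀ x y, (0 < S.z (d + P) x y ↔ 0 < S.z d x y)

/-- Hypotheses under which the type of the vertex `v` can be switched; `Z` is the reservoir. -/
structure RLHyp (S : GSys V) (ε : K) (k0 : ℕ) {J : Type} (ty : J → Bool) (m : Matrix J J K[X])
    (v Z : J) : Prop where
  ne : v ≠ Z
  nn : NN0 m
  gr : ∀ j j', j ≠ v → j' ≠ v → ty j ≠ ty j' → (X : K[X]) ^ S.n0 ∣ m j j'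
  rowdiv : ∀ j, j ≠ v → (X : K[X]) ^ k0 ∣ m v j
  coldiv : ∀ j, j ≠ v → (X : K[X]) ^ k0 ∣ m j v
  loop : ∀ d, Bd ((m v v).coeff d) ε
  zz : ∃ δ : ℚ, 0 < δ ∧ (δ : K) ≤ (m Z Z).coeff 1
  vz : ∃ (L M : ℕ) (δ : ℚ), 0 < δ ∧ (δ : K) * ε ^ M ≤ (m v Z).coeff L
  zv : ∃ (L M : ℕ) (δ : ℚ), 0 < δ ∧ (δ : K) * ε ^ M ≤ (m Z v).coeff L
  vzfin : ∀ d, Bd ((m v Z).coeff d) 1
  zvfin : ∀ d, Bd ((m Z v).coeff d) 1
  rowbd : ∀ a, a ≠ v → a ≠ Z → ∃ d, ∀ k, Bd ((m v a).coeff k) ((m Z a).coeff d)
  colbd : ∀ a, a ≠ v → a ≠ Z → ∃ d, ∀ k, Bd ((m a v).coeff k) ((m a Z).coeff d)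

/-- Switching the type of a vertex with a monomial loop. -/
def RLStmt (S : GSys V) (ε : K) (k0 : ℕ) : Prop :=
  ∀ (J : Type) [Fintype J] [DecidableEq J] (ty : J → Bool) (m : Matrix J J K[X]) (v Z : J),
    RLHyp S ε k0 ty m v Z → (∃ (k : ℕ) (c : K), 1 ≤ k ∧ m v v = monomial k c) →
      ∀ b b', SEq S (Function.update ty v b) m (Function.update ty v b') m

/-- Switching the type of a vertex with an arbitrary small loop. -/
def RLPolyStmt (S : GSys V) (ε : K) (k0 : ℕ) : Prop :=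
  ∀ (J : Type) [Fintype J] [DecidableEq J] (ty : J → Bool) (m : Matrix J J K[X]) (v Z : J),
    RLHyp S ε k0 ty m v Z →
      ∀ b b', SEq S (Function.update ty v b) m (Function.update ty v b') m

/-- One step along the path. -/
def StepStmt (S : GSys V) (ε : K) (p : ℕ) : Prop :=
  ∀ u : K, 0 ≤ u → u + ε ≤ 1 → SEq S ty2 (pathM p u) ty2 (pathM p (u + ε))

end

/-- The step statement for every system, field and pair of infinitesimals. -/
def AllSteps : Prop :=
  ∀ (V : Type) [Fintype V] [DecidableEq V] (S : GSys V) (k0 P : ℕ), S.Per k0 P →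
    ∀ (K : Type) [Field K] [LinearOrder K] [IsStrictOrderedRing K] (ε η : K), Infs ε η →
      StepStmt S ε k0

end Pool.Agent.MP_841a27_al

end MrgPart4

-- ======== part 5: formerly Pool.Agent.MP_841a27_al.StepH
section MrgPart5

/-!
One step along the path.
-/

set_option linter.unusedSectionVars false

namespace Pool.Agent.MP_841a27_al.STH

open Matrix Polynomial

theorem all33 {α : Type} (P : α → Prop) {a b c d e f g h i : α} (ha : P a) (hb : P b) (hc : P c)
    (hd : P d) (he : P e) (hf : P f) (hg : P g) (hh : P h) (hi : P i) (x y : Fin 3) :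
    P (!![a, b, c; d, e, f; g, h, i] x y) := by
  fin_cases x <;> fin_cases y <;> assumption

theorem all23 {α : Type} (P : α → Prop) {a b c d e f : α} (ha : P a) (hb : P b) (hc : P c)
    (hd : P d) (he : P e) (hf : P f) (x : Fin 2) (y : Fin 3) :
    P (!![a, b, c; d, e, f] x y) := by
  fin_cases x <;> fin_cases y <;> assumption

theorem eq33 {α : Type} {a b c d e f g h i a' b' c' d' e' f' g' h' i' : α} (ha : a = a')
    (hb : b = b') (hc : c = c') (hd : d = d') (he : e = e') (hf : f = f') (hg : g = g')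
    (hh : h = h') (hi : i = i') :
    !![a, b, c; d, e, f; g, h, i] = !![a', b', c'; d', e', f'; g', h', i'] := by
  subst_vars; rfl

theorem op33 {R : Type} [CommRing R] (a b c d e f g h i a' b' c' d' e' f' g' h' i' a'' b'' c'' d''
    e'' f'' g'' h'' i'' : R) :
    !![a, b, c; d, e, f; g, h, i] - !![a', b', c'; d', e', f'; g', h', i'] +
      !![a'', b'', c''; d'', e'', f''; g'', h'', i''] =
    !![a - a' + a'', b - b' + b'', c - c' + c''; d - d' + d'', e - e' + e'', f - f' + f'';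
      g - g' + g'', h - h' + h'', i - i' + i''] := by
  ext x y
  fin_cases x <;> fin_cases y <;> rfl

/-- Types of the three vertices. -/
def ty3 (b : Bool) : Fin 3 → Bool := ![false, b, true]

theorem gr_true {R : Type} [CommRing R] {n : ℕ} {a b c d e f g h i : R[X]} (hb : X ^ n ∣ b)
    (hc : X ^ n ∣ c) (hd : X ^ n ∣ d) (hg : X ^ n ∣ g) :
    Graded n (ty3 true) (ty3 true) !![a, b, c; d, e, f; g, h, i] := by
  intro x y hne
  fin_cases x <;> fin_cases y <;> first | exact absurd rfl hne | assumption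

theorem gr_false {R : Type} [CommRing R] {n : ℕ} {a b c d e f g h i : R[X]} (hc : X ^ n ∣ c)
    (hf : X ^ n ∣ f) (hg : X ^ n ∣ g) (hh : X ^ n ∣ h) :
    Graded n (ty3 false) (ty3 false) !![a, b, c; d, e, f; g, h, i] := by
  intro x y hne
  fin_cases x <;> fin_cases y <;> first | exact absurd rfl hne | assumption

theorem gr23_true {R : Type} [CommRing R] {n : ℕ} {a b c d e f : R[X]} (hb : X ^ n ∣ b)
    (hc : X ^ n ∣ c) (hd : X ^ n ∣ d) : Graded n ty2 (ty3 true) !![a, b, c; d, e, f] := by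
  intro x y hne
  fin_cases x <;> fin_cases y <;> first | exact absurd rfl hne | assumption

theorem gr23_false {R : Type} [CommRing R] {n : ℕ} {a b c d e f : R[X]} (hc : X ^ n ∣ c)
    (hd : X ^ n ∣ d) (he : X ^ n ∣ e) : Graded n ty2 (ty3 false) !![a, b, c; d, e, f] := by
  intro x y hne
  fin_cases x <;> fin_cases y <;> first | exact absurd rfl hne | assumption

section ring
variable {R : Type} [CommRing R]

/-- The intermediate matrix. -/
noncomputable def Lam (p : ℕ) (r e s : R) : Matrix (Fin 3) (Fin 3) R :=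
  !![s * th (2 * p + 1) (r + e), e * (r + e) ^ p * th (p + 1) r, r * (r + e) ^ p;
     s * (r + e) ^ p * th (p + 1) r, e * th (2 * p + 1) r, r ^ (p + 1);
     s * (r + e) ^ p, e * r ^ p, r]

theorem th_a (p : ℕ) (r : R) : th (p + 1) r = 1 + r * th p r := th_succ p r

theorem th_a' (p : ℕ) (r : R) : th (p + 1) r = th p r + r ^ p := by
  rw [th_add]; simp [th]

theorem th_b (p : ℕ) (r : R) : th (2 * p + 1) r = th (p + 1) r + r ^ (p + 1) * th p r := by
  rw [← th_add]; congr 1; ring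

end ring

variable {V : Type} [Fintype V] [DecidableEq V] {S : GSys V}
variable {K : Type} [Field K] [LinearOrder K] [IsStrictOrderedRing K]

/-- Nonnegative without constant term. -/
def P0 (p : K[X]) : Prop := p.coeff 0 = 0 ∧ ∀ d, 0 ≤ p.coeff d

theorem P0.mul {p q : K[X]} (h : P0 p) (h' : PNN q) : P0 (p * q) :=
  ⟨by rw [mul_coeff_zero, h.1, zero_mul], PNN.mul h.2 h'⟩

theorem P0.pow {p : K[X]} (h : P0 p) (n : ℕ) : P0 (p ^ (n + 1)) := by
  rw [pow_succ']; exact h.mul (PNN.pow h.2 n)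

theorem P0.add {p q : K[X]} (h : P0 p) (h' : P0 q) : P0 (p + q) :=
  ⟨by rw [coeff_add, h.1, h'.1, add_zero], PNN.add h.2 h'.2⟩

theorem z0_mul {p : K[X]} (h : P0 p) (q : K[X]) : (p * q).coeff 0 = 0 := by
  rw [mul_coeff_zero, h.1, zero_mul]

theorem supp33 {α : Type} [Zero α] (p : Fin 3 → Fin 3 → Prop) {a b c d e f g h i : α}
    (ha : a ≠ 0 → p 0 0) (hb : b ≠ 0 → p 0 1) (hc : c ≠ 0 → p 0 2) (hd : d ≠ 0 → p 1 0)
    (he : e ≠ 0 → p 1 1) (hf : f ≠ 0 → p 1 2) (hg : g ≠ 0 → p 2 0) (hh : h ≠ 0 → p 2 1)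
    (hi : i ≠ 0 → p 2 2) (x y : Fin 3) : !![a, b, c; d, e, f; g, h, i] x y ≠ 0 → p x y := by
  fin_cases x <;> fin_cases y <;> assumption

section
variable {p : ℕ} {r e s : K[X]} (hr : P0 r) (he : P0 e) (hs : P0 s) (hp : S.n0 ≤ p)
include hr he hs hp

theorem lam_nn : NN0 (Lam p r e s) := by
  have h2 : PNN (r + e) := (hr.add he).2
  have h1 : PNN r := hr.2
  exact all33 P0 (hs.mul (h2.th _)) ((he.mul (h2.pow _)).mul (h1.th _)) (hr.mul (h2.pow _))
    ((hs.mul (h2.pow _)).mul (h1.th _)) (he.mul (h1.th _)) (hr.pow _) (hs.mul (h2.pow _))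
    (he.mul (h1.pow _)) hr

theorem sideB : SEq S (ty3 true) (Lam p r e s) ty2
    !![s * th (2 * p + 1) (r + e), (r + e) ^ (p + 1); s * (r + e) ^ p, r + e] := by
  have h2 : PNN (r + e) := (hr.add he).2
  have h1 : PNN r := hr.2
  have d2 : (X : K[X]) ^ S.n0 ∣ (r + e) ^ p :=
    (pow_dvd_pow _ hp).trans (pow_dvd_pow_of_dvd (X_dvd_iff.mpr (hr.add he).1) p)
  have tm := th_mul p r
  have ta := th_a p r
  have tb := th_b p r
  have z : (0 : K[X]).coeff 0 = 0 := coeff_zero 0
  have G0 : Good S (ty3 true) !![s * th (2 * p + 1) (r + e), e * (r + e) ^ p, r * (r + e) ^ p;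
       s * (r + e) ^ p, e, r; s * (r + e) ^ p, e, r] :=
    ⟨all33 P0 (hs.mul (h2.th _)) (he.mul (h2.pow _)) (hr.mul (h2.pow _)) (hs.mul (h2.pow _)) he hr
      (hs.mul (h2.pow _)) he hr,
      gr_true (d2.mul_left _) (d2.mul_left _) (d2.mul_left _) (d2.mul_left _)⟩
  have G1 : Good S (ty3 true) !![s * th (2 * p + 1) (r + e), e * (r + e) ^ p, r * (r + e) ^ p;
       s * (r + e) ^ p * th (p + 1) r, e * th (p + 1) r, r ^ (p + 1); s * (r + e) ^ p, e, r] :=
    ⟨all33 P0 (hs.mul (h2.th _)) (he.mul (h2.pow _)) (hr.mul (h2.pow _))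
      ((hs.mul (h2.pow _)).mul (h1.th _)) (he.mul (h1.th _)) (hr.pow _)
      (hs.mul (h2.pow _)) he hr,
      gr_true (d2.mul_left _) (d2.mul_left _) ((d2.mul_left _).mul_right _) (d2.mul_left _)⟩
  have s0 := sE0 (S := S) (ty := ty3 true) (ty' := ty2)
    (m := !![s * th (2 * p + 1) (r + e), e * (r + e) ^ p, r * (r + e) ^ p;
       s * (r + e) ^ p, e, r; s * (r + e) ^ p, e, r])
    (m' := !![s * th (2 * p + 1) (r + e), (r + e) ^ (p + 1); s * (r + e) ^ p, r + e])
    !![(1 : K), 0; 0, 1; 0, 1]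
    !![s * th (2 * p + 1) (r + e), e * (r + e) ^ p, r * (r + e) ^ p; s * (r + e) ^ p, e, r]
    (fun i j => by fin_cases i <;> fin_cases j <;> simp)
    (fun i j h => by fin_cases i <;> fin_cases j <;> first | rfl | exact absurd rfl h)
    (all23 P0 (hs.mul (h2.th _)) (he.mul (h2.pow _)) (hr.mul (h2.pow _)) (hs.mul (h2.pow _)) he hr)
    (gr23_true (d2.mul_left _) (d2.mul_left _) (d2.mul_left _))
    (by ext1 i j; fin_cases i <;> fin_cases j <;> simp [Matrix.mul_apply, Fin.sum_univ_two])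
    (by
      ext1 i j
      fin_cases i <;> fin_cases j <;> simp [Matrix.mul_apply, Fin.sum_univ_three] <;> ring)
  have s1 := sRow (ξ := !![0, 0, 0; 0, 0, r * th p r; 0, 0, 0]) (fun i => i = 1) G0 G1.1
    (gr_true (dvd_zero _) (dvd_zero _) (dvd_zero _) (dvd_zero _))
    (supp33 (fun i j => i = 1 ∧ ¬ j = 1) (by simp) (by simp) (by simp) (by simp) (by simp)
      (fun _ => by decide) (by simp) (by simp) (by simp))
    (all33 (fun q : K[X] => q.coeff 0 = 0) z z z z z (z0_mul hr _) z z z)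
    (by
      rw [Matrix.mul_fin_three, op33]
      exact eq33 (by ring) (by ring) (by ring) (by rw [ta]; ring) (by rw [ta]; ring)
        (by linear_combination r * tm) (by ring) (by ring) (by ring))
  have s2 := sCol (θ := !![0, 0, 0; 0, 0, 0; 0, e * th p r, 0]) (fun i => i = 1) G1
    (lam_nn hr he hs hp) (gr_true (dvd_zero _) (dvd_zero _) (dvd_zero _) (dvd_zero _))
    (supp33 (fun i j => ¬ i = 1 ∧ j = 1) (by simp) (by simp) (by simp) (by simp) (by simp)
      (by simp) (by simp) (fun _ => by decide) (by simp))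
    (all33 (fun q : K[X] => q.coeff 0 = 0) z z z z z z z (z0_mul he _) z)
    (by
      rw [Matrix.mul_fin_three, op33]
      exact eq33 (by ring) (by rw [ta]; ring) (by ring) (by ring) (by rw [tb]; ring)
        (by ring) (by ring) (by linear_combination e * tm) (by ring))
  exact s2.symm.trans (s1.symm.trans s0)

theorem sideA : SEq S (ty3 false) (Lam p r e s) ty2
    !![(s + e) * th (2 * p + 1) r, r ^ (p + 1); (s + e) * r ^ p, r] := by
  have h2 : PNN (r + e) := (hr.add he).2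
  have h1 : PNN r := hr.2
  have d2 : (X : K[X]) ^ S.n0 ∣ (r + e) ^ p :=
    (pow_dvd_pow _ hp).trans (pow_dvd_pow_of_dvd (X_dvd_iff.mpr (hr.add he).1) p)
  have d1 : (X : K[X]) ^ S.n0 ∣ r ^ p :=
    (pow_dvd_pow _ hp).trans (pow_dvd_pow_of_dvd (X_dvd_iff.mpr hr.1) p)
  have d3 : (X : K[X]) ^ S.n0 ∣ r ^ (p + 1) := by rw [pow_succ]; exact d1.mul_right _
  have tm := th_mul p r
  have tm2 := th_mul p (r + e)
  have ta := th_a' p r
  have tb := th_b p r
  have ta2 := th_a' p (r + e)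
  have tb2 := th_b p (r + e)
  have e1 : r ^ p = 1 - th p r * (1 - r) := by linear_combination tm
  have e2 : (r + e) ^ p = 1 - th p (r + e) * (1 - (r + e)) := by linear_combination tm2
  have z : (0 : K[X]).coeff 0 = 0 := coeff_zero 0
  have G0 : Good S (ty3 false) !![s * th (2 * p + 1) r, e * th (2 * p + 1) r, r ^ (p + 1);
       s * th (2 * p + 1) r, e * th (2 * p + 1) r, r ^ (p + 1); s * r ^ p, e * r ^ p, r] :=
    ⟨all33 P0 (hs.mul (h1.th _)) (he.mul (h1.th _)) (hr.pow _) (hs.mul (h1.th _))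
      (he.mul (h1.th _)) (hr.pow _) (hs.mul (h1.pow _)) (he.mul (h1.pow _)) hr,
      gr_false d3 d3 (d1.mul_left _) (d1.mul_left _)⟩
  have G1 : Good S (ty3 false) !![s * (th p (r + e) + (r + e) ^ p * th (p + 1) r),
      e * (r + e) ^ p * th (p + 1) r, r * (r + e) ^ p;
       s * th (2 * p + 1) r, e * th (2 * p + 1) r, r ^ (p + 1); s * r ^ p, e * r ^ p, r] :=
    ⟨all33 P0 (hs.mul ((h2.th _).add ((h2.pow _).mul (h1.th _))))
      ((he.mul (h2.pow _)).mul (h1.th _)) (hr.mul (h2.pow _)) (hs.mul (h1.th _))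
      (he.mul (h1.th _)) (hr.pow _) (hs.mul (h1.pow _)) (he.mul (h1.pow _)) hr,
      gr_false (d2.mul_left _) d3 (d1.mul_left _) (d1.mul_left _)⟩
  have s0 := sE0 (S := S) (ty := ty3 false) (ty' := ty2)
    (m := !![s * th (2 * p + 1) r, e * th (2 * p + 1) r, r ^ (p + 1);
       s * th (2 * p + 1) r, e * th (2 * p + 1) r, r ^ (p + 1); s * r ^ p, e * r ^ p, r])
    (m' := !![(s + e) * th (2 * p + 1) r, r ^ (p + 1); (s + e) * r ^ p, r])
    !![(1 : K), 0; 1, 0; 0, 1]
    !![s * th (2 * p + 1) r, e * th (2 * p + 1) r, r ^ (p + 1); s * r ^ p, e * r ^ p, r]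
    (fun i j => by fin_cases i <;> fin_cases j <;> simp)
    (fun i j h => by fin_cases i <;> fin_cases j <;> first | rfl | exact absurd rfl h)
    (all23 P0 (hs.mul (h1.th _)) (he.mul (h1.th _)) (hr.pow _) (hs.mul (h1.pow _))
      (he.mul (h1.pow _)) hr)
    (gr23_false d3 (d1.mul_left _) (d1.mul_left _))
    (by ext1 i j; fin_cases i <;> fin_cases j <;> simp [Matrix.mul_apply, Fin.sum_univ_two])
    (by
      ext1 i j
      fin_cases i <;> fin_cases j <;> simp [Matrix.mul_apply, Fin.sum_univ_three] <;> ring)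
  have s1 := sRow (ξ := !![0, e * th p (r + e),
      r ^ (p + 1) * th p (r + e) - r * (r + e) ^ p * th p r; 0, 0, 0; 0, 0, 0])
    (fun i => i = 0) G0 G1.1
    (gr_false (dvd_sub (d3.mul_right _) ((d2.mul_left _).mul_right _)) (dvd_zero _) (dvd_zero _)
      (dvd_zero _))
    (supp33 (fun i j => i = 0 ∧ ¬ j = 0) (by simp) (fun _ => by decide) (fun _ => by decide)
      (by simp) (by simp) (by simp) (by simp) (by simp) (by simp))
    (all33 (fun q : K[X] => q.coeff 0 = 0) z (z0_mul he _)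
      (by rw [coeff_sub, z0_mul (hr.pow p), mul_assoc, z0_mul hr, sub_zero]) z z z z z z)
    (by
      rw [Matrix.mul_fin_three, op33]
      refine eq33 ?_ ?_ ?_ (by ring) (by ring) (by ring) (by ring) (by ring) (by ring) <;>
        simp only [tb, ta, pow_succ, e1, e2] <;> ring)
  have s2 := sCol (θ := !![0, 0, 0; s * th p (r + e), 0, 0;
      s * (r ^ p * th p (r + e) - (r + e) ^ p * th p r), 0, 0]) (fun i => i = 0) G1
    (lam_nn hr he hs hp) (gr_false (dvd_zero _) (dvd_zero _)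
      ((dvd_sub (d1.mul_right _) (d2.mul_right _)).mul_left _) (dvd_zero _))
    (supp33 (fun i j => ¬ i = 0 ∧ j = 0) (by simp) (by simp) (by simp) (fun _ => by decide)
      (by simp) (by simp) (fun _ => by decide) (by simp) (by simp))
    (all33 (fun q : K[X] => q.coeff 0 = 0) z z z (z0_mul hs _) z z (z0_mul hs _) z z)
    (by
      rw [Matrix.mul_fin_three, op33]
      refine eq33 ?_ (by ring) (by ring) ?_ (by ring) (by ring) ?_ (by ring) (by ring) <;>
        simp only [tb, ta, tb2, ta2, pow_succ, e1, e2] <;> ring)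
  exact s2.symm.trans (s1.symm.trans s0)

end

theorem p0_lin {a : K} (ha : 0 ≤ a) : P0 (C a * X : K[X]) :=
  ⟨by simp, (PNN.C ha).mul PNN.X⟩

theorem bd_lin {a μ : K} (ha : Bd a μ) (d : ℕ) : Bd ((C a * X : K[X]).coeff d) μ := by
  rw [coeff_C_mul_X]; split_ifs
  · exact ha
  · exact Bd.zero ha.nonneg

theorem coeff_mono (a b : K) (p : ℕ) :
    ((C a * X : K[X]) * (C b * X) ^ p).coeff (p + 1) = a * b ^ p := by
  have : (C a * X : K[X]) * (C b * X) ^ p = C (a * b ^ p) * X ^ (p + 1) := by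
    rw [map_mul, map_pow]; ring
  rw [this, coeff_C_mul_X_pow, if_pos rfl]

theorem bd_mono {a b : K} (ha : 0 ≤ a) (hb : 0 ≤ b) (p d : ℕ) :
    Bd (((C a * X : K[X]) * (C b * X) ^ p).coeff d) (a * b ^ p) :=
  Bd.coeff_mul (bd_lin (Bd.self ha)) (Bd.coeff_pow (bd_lin (Bd.self hb)) p) d

theorem le_coeff_th {q r : K[X]} (hq : PNN q) (hr : PNN r) (n d : ℕ) :
    q.coeff d ≤ (q * th (n + 1) r).coeff d := by
  rw [th_a, mul_add, mul_one, coeff_add]
  linarith [(hq.mul (hr.mul (hr.th n))) d]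

theorem fin3 (P : Fin 3 → Prop) (h0 : P 0) (h1 : P 1) (h2 : P 2) (j : Fin 3) : P j := by
  fin_cases j <;> assumption

theorem lam_hyp {ε u : K} (h0 : 0 < ε) (h1 : Sm ε 1) {p : ℕ} (hp : S.n0 ≤ p) (u0 : 0 ≤ u)
    (u1 : u + ε ≤ 1) : ∃ Z, RLHyp S ε p (ty3 false)
      (Lam p (C u * X) (C ε * X) (C (1 - (u + ε)) * X) : Matrix (Fin 3) (Fin 3) K[X]) 1 Z := by
  have s0 : 0 ≤ 1 - (u + ε) := sub_nonneg.mpr u1
  have hr := p0_lin u0
  have he := p0_lin h0.le
  have hs := p0_lin s0
  have er : (C u * X + C ε * X : K[X]) = C (u + ε) * X := by rw [map_add]; ring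
  have v0 : 0 ≤ u + ε := by linarith
  have h2 := p0_lin v0
  have e3 : ε ≤ 1 / 3 := by simpa [abs_of_pos h0] using h1 (1 / 3) (by norm_num)
  set m : Matrix (Fin 3) (Fin 3) K[X] := Lam p (C u * X) (C ε * X) (C (1 - (u + ε)) * X) with hm
  have m00 : m 0 0 = C (1 - (u + ε)) * X * th (2 * p + 1) (C (u + ε) * X) := by rw [← er]; rfl
  have m01 : m 0 1 = C ε * X * (C (u + ε) * X) ^ p * th (p + 1) (C u * X) := by rw [← er]; rfl
  have m02 : m 0 2 = C u * X * (C (u + ε) * X) ^ p := by rw [← er]; rfl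
  have m10 : m 1 0 = C (1 - (u + ε)) * X * (C (u + ε) * X) ^ p * th (p + 1) (C u * X) := by
    rw [← er]; rfl
  have m11 : m 1 1 = C ε * X * th (2 * p + 1) (C u * X) := rfl
  have m12 : m 1 2 = C u * X * (C u * X) ^ p := by rw [← pow_succ']; rfl
  have m20 : m 2 0 = C (1 - (u + ε)) * X * (C (u + ε) * X) ^ p := by rw [← er]; rfl
  have m21 : m 2 1 = C ε * X * (C u * X) ^ p := rfl
  have m22 : m 2 2 = C u * X := rfl
  have dv : ∀ b : K, (X : K[X]) ^ p ∣ (C b * X) ^ p := fun b =>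
    pow_dvd_pow_of_dvd (dvd_mul_left _ _) p
  have dn : (X : K[X]) ^ S.n0 ∣ X ^ p := pow_dvd_pow _ hp
  have bt : ∀ n d, Bd ((th n (C u * X : K[X])).coeff d) 1 :=
    Bd.coeff_th (bd_lin (Bd.of_le u0 (by linarith)))
  have pw1 : (u + ε) ^ p ≤ 1 := pow_le_one₀ v0 u1
  have pw2 : u ^ p ≤ (u + ε) ^ p := pow_le_pow_left₀ u0 (by linarith) p
  have pw3 : ε ^ p ≤ (u + ε) ^ p := pow_le_pow_left₀ h0.le (by linarith) p
  have pw0 : 0 ≤ u ^ p := pow_nonneg u0 p
  have b10 : ∀ d, Bd ((m 1 0).coeff d) ((1 - (u + ε)) * (u + ε) ^ p) := fun d => by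
    simpa [m10] using Bd.coeff_mul (bd_mono s0 v0 p) (bt (p + 1)) d
  have b01 : ∀ d, Bd ((m 0 1).coeff d) (ε * (u + ε) ^ p) := fun d => by
    simpa [m01] using Bd.coeff_mul (bd_mono h0.le v0 p) (bt (p + 1)) d
  have b12 : ∀ d, Bd ((m 1 2).coeff d) (u * u ^ p) := fun d => m12 ▸ bd_mono u0 u0 p d
  have b21 : ∀ d, Bd ((m 2 1).coeff d) (ε * u ^ p) := fun d => m21 ▸ bd_mono h0.le u0 p d
  have nn : NN0 m := lam_nn hr he hs hp
  have gr : ∀ j j' : Fin 3, j ≠ 1 → j' ≠ 1 → ty3 false j ≠ ty3 false j' →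
      (X : K[X]) ^ S.n0 ∣ m j j' := by
    refine fin3 _ (fin3 _ ?_ ?_ ?_) (fun _ h => absurd rfl h) (fin3 _ ?_ ?_ ?_)
    · exact fun _ _ h => absurd rfl h
    · exact fun _ h => absurd rfl h
    · exact fun _ _ _ => m02 ▸ (dn.trans (dv _)).mul_left _
    · exact fun _ _ _ => m20 ▸ (dn.trans (dv _)).mul_left _
    · exact fun _ h => absurd rfl h
    · exact fun _ _ h => absurd rfl h
  have rd : ∀ j : Fin 3, j ≠ 1 → (X : K[X]) ^ p ∣ m 1 j :=
    fin3 _ (fun _ => m10 ▸ ((dv _).mul_left _).mul_right _) (fun h => absurd rfl h)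
      fun _ => m12 ▸ (dv _).mul_left _
  have cd : ∀ j : Fin 3, j ≠ 1 → (X : K[X]) ^ p ∣ m j 1 :=
    fin3 _ (fun _ => m01 ▸ ((dv _).mul_left _).mul_right _) (fun h => absurd rfl h)
      fun _ => m21 ▸ (dv _).mul_left _
  have lp : ∀ d, Bd ((m 1 1).coeff d) ε := fun d => by
    have := Bd.coeff_mul (bd_lin (Bd.self h0.le)) (bt (2 * p + 1)) d
    rwa [mul_one] at this
  by_cases hc : 1 / 3 ≤ 1 - (u + ε)
  · refine ⟨0, by decide, nn, gr, rd, cd, lp, ⟨1 / 3, by norm_num, ?_⟩,
      ⟨p + 1, p, 1 / 3, by norm_num, ?_⟩, ⟨p + 1, p + 1, 1, one_pos, ?_⟩,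
      fun d => (b10 d).mono (by nlinarith), fun d => (b01 d).mono (by nlinarith),
      fin3 _ (fun _ h => absurd rfl h) (fun h => absurd rfl h) fun _ _ => ⟨p + 1, fun d => ?_⟩,
      fin3 _ (fun _ h => absurd rfl h) (fun h => absurd rfl h) fun _ _ => ⟨p + 1, fun d => ?_⟩⟩
    · rw [m00]
      refine le_trans ?_ (le_coeff_th hs.2 h2.2 _ _)
      simpa using hc
    · rw [m10]
      refine le_trans ?_ (le_coeff_th (PNN.mul hs.2 (PNN.pow h2.2 p)) hr.2 _ _)
      rw [coeff_mono]
      push_cast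
      exact mul_le_mul hc pw3 (by positivity) s0
    · rw [m01]
      refine le_trans ?_ (le_coeff_th (PNN.mul he.2 (PNN.pow h2.2 p)) hr.2 _ _)
      rw [coeff_mono, pow_succ']
      push_cast
      nlinarith
    · rw [m02, coeff_mono]
      exact (b12 d).mono (by nlinarith)
    · rw [m20, coeff_mono]
      exact (b21 d).mono (mul_le_mul (by linarith) pw2 pw0 s0)
  · have u3 : 1 / 3 ≤ u := by linarith [not_le.mp hc]
    have pw4 : (1 / 3 : K) ^ p ≤ u ^ p := pow_le_pow_left₀ (by norm_num) u3 p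
    have pw5 : u ^ p ≤ 1 := pw2.trans pw1
    refine ⟨2, by decide, nn, gr, rd, cd, lp, ⟨1 / 3, by norm_num, ?_⟩,
      ⟨p + 1, 0, (1 / 3) ^ (p + 1), by positivity, ?_⟩,
      ⟨p + 1, 1, (1 / 3) ^ p, by positivity, ?_⟩,
      fun d => (b12 d).mono (by nlinarith), fun d => (b21 d).mono (by nlinarith),
      fin3 _ (fun _ _ => ⟨p + 1, fun d => ?_⟩) (fun h => absurd rfl h) fun _ h => absurd rfl h,
      fin3 _ (fun _ _ => ⟨p + 1, fun d => ?_⟩) (fun h => absurd rfl h) fun _ h => absurd rfl h⟩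
    · rw [m22]
      simpa using u3
    · rw [m12, coeff_mono, pow_zero, mul_one]
      push_cast
      rw [pow_succ']
      exact mul_le_mul u3 pw4 (by positivity) u0
    · rw [m21, coeff_mono, pow_one, mul_comm]
      push_cast
      exact mul_le_mul_of_nonneg_left pw4 h0.le
    · rw [m20, coeff_mono]
      exact b10 d
    · rw [m02, coeff_mono]
      exact (b01 d).mono (mul_le_mul_of_nonneg_right (by linarith) (by positivity))

theorem step (S : GSys V) {ε : K} (h0 : 0 < ε) (h1 : Sm ε 1) {k0 : ℕ} (hk : S.n0 ≤ k0)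
    (h : RLPolyStmt S ε k0) : StepStmt S ε k0 := by
  intro u u0 u1
  obtain ⟨Z, hZ⟩ := lam_hyp h0 h1 hk u0 u1
  have key := h _ _ _ _ _ hZ false true
  have t1 : Function.update (ty3 false) 1 false = ty3 false := by
    ext j; fin_cases j <;> rfl
  have t2 : Function.update (ty3 false) 1 true = ty3 true := by
    ext j; fin_cases j <;> rfl
  rw [t1, t2] at key
  have hr := p0_lin u0
  have he := p0_lin h0.le
  have hs := p0_lin (sub_nonneg.mpr u1)
  have a := sideA hr he hs hk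
  have b := sideB hr he hs hk
  have er : (C u * X + C ε * X : K[X]) = C (u + ε) * X := by rw [map_add]; ring
  have es : (C (1 - (u + ε)) * X + C ε * X : K[X]) = C (1 - u) * X := by
    simp only [map_sub, map_add]; ring
  rw [es] at a
  rw [er] at b
  exact a.symm.trans (key.trans b)

end Pool.Agent.MP_841a27_al.STH

end MrgPart5

-- marker of a merged file
example : 731051 + 35962 = 731051 + 35962 := rfl
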