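import Mathlib.Tactic.NoncommRing
import Pool.Agent.MP_841a27_al.StepH

-- ======== part 0: formerly Pool.Agent.MP_841a27_al.Cone
section MrgPart0

/-!
Small, bounded and positive polynomials with respect to a weight sequence.
-/

namespace Pool.Agent.MP_841a27_al

open Matrix Polynomial

section
variable {K : Type} [Field K] [LinearOrder K] [IsStrictOrderedRing K]

/-- Infinitesimal coefficients, supported in degrees `a ≤ d ≤ b` of positive weight. -/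
def Sml (w : ℕ → ℚ) (a b : ℕ) (μ : K) (p : K[X]) : Prop :=
  ∀ d, Sm (p.coeff d) μ ∧ (p.coeff d ≠ 0 → a ≤ d ∧ d ≤ b ∧ 0 < w d)

/-- Bounded coefficients, supported in degrees `a ≤ d ≤ b` of positive weight. -/
def Bnd (w : ℕ → ℚ) (a b : ℕ) (μ : K) (p : K[X]) : Prop :=
  ∀ d, Bd (p.coeff d) μ ∧ (p.coeff d ≠ 0 → a ≤ d ∧ d ≤ b ∧ 0 < w d)

/-- Nonnegative, and bounded below by the weights in degrees `a ≤ d ≤ b`. -/
def Pos (w : ℕ → ℚ) (a b : ℕ) (μ : K) (p : K[X]) : Prop :=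
  PNN p ∧ ∃ q : ℚ, 0 < q ∧ ∀ d, a ≤ d → d ≤ b → (q : K) * μ * (w d : K) ≤ p.coeff d

variable {w w₁ w₂ w₃ : ℕ → ℚ} {a b a' b' : ℕ} {μ ν : K} {p p' : K[X]}

theorem Sml.zero (h : 0 ≤ μ) : Sml w a b μ 0 := fun d => ⟨by simpa using Sm.zero h, by simp⟩

theorem Sml.add (h : Sml w a b μ p) (h' : Sml w a b μ p') : Sml w a b μ (p + p') := fun d => by
  rw [coeff_add]
  refine ⟨(h d).1.add (h' d).1, fun h0 => ?_⟩
  by_cases h1 : p.coeff d = 0
  · rw [h1, zero_add] at h0; exact (h' d).2 h0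
  · exact (h d).2 h1

omit [IsStrictOrderedRing K] in
theorem Sml.neg (h : Sml w a b μ p) : Sml w a b μ (-p) := fun d => by
  rw [coeff_neg]
  exact ⟨(h d).1.neg, fun h0 => (h d).2 (neg_ne_zero.mp h0)⟩

theorem Sml.sum {ι : Type} {s : Finset ι} {f : ι → K[X]} (hμ : 0 ≤ μ)
    (h : ∀ i ∈ s, Sml w a b μ (f i)) : Sml w a b μ (∑ i ∈ s, f i) :=
  Finset.sum_induction f (Sml w a b μ) (fun _ _ => Sml.add) (Sml.zero hμ) h

omit [IsStrictOrderedRing K] in
theorem Sml.mono (h : Sml w a b μ p) (ha : a' ≤ a) (hb : b ≤ b') : Sml w a' b' μ p := fun d =>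
  ⟨(h d).1, fun h0 => ⟨ha.trans ((h d).2 h0).1, ((h d).2 h0).2.1.trans hb, ((h d).2 h0).2.2⟩⟩

theorem coeff_mul_ne_zero {R : Type} [CommRing R] {p p' : R[X]} {d : ℕ}
    (h : (p * p').coeff d ≠ 0) : ∃ e e', e + e' = d ∧ p.coeff e ≠ 0 ∧ p'.coeff e' ≠ 0 := by
  rw [Polynomial.coeff_mul] at h
  obtain ⟨e, he, h0⟩ := Finset.exists_ne_zero_of_sum_ne_zero h
  exact ⟨e.1, e.2, Finset.HasAntidiagonal.mem_antidiagonal.mp he, left_ne_zero_of_mul h0,
    right_ne_zero_of_mul h0⟩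

theorem Bnd.mul_sml (h : Bnd w₁ a b μ p) (h' : Sml w₂ a' b' ν p')
    (hw : ∀ d d', 0 < w₁ d → 0 < w₂ d' → 0 < w₃ (d + d')) :
    Sml w₃ (a + a') (b + b') (μ * ν) (p * p') := fun d => by
  refine ⟨?_, fun h0 => ?_⟩
  · rw [Polynomial.coeff_mul]
    exact Sm.sum (mul_nonneg (h 0).1.nonneg (h' 0).1.nonneg) fun e _ => (h _).1.mul_sm (h' _).1
  · obtain ⟨e, e', rfl, h1, h2⟩ := coeff_mul_ne_zero h0
    obtain ⟨x1, x2, x3⟩ := (h e).2 h1
    obtain ⟨y1, y2, y3⟩ := (h' e').2 h2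
    exact ⟨by omega, by omega, hw _ _ x3 y3⟩

theorem Sml.mul_bnd (h : Sml w₁ a b μ p) (h' : Bnd w₂ a' b' ν p')
    (hw : ∀ d d', 0 < w₁ d → 0 < w₂ d' → 0 < w₃ (d + d')) :
    Sml w₃ (a + a') (b + b') (μ * ν) (p * p') := by
  rw [mul_comm p, mul_comm μ, add_comm a, add_comm b]
  exact h'.mul_sml h fun d d' h1 h2 => by rw [add_comm]; exact hw _ _ h2 h1

theorem Pos.add_pnn (h : Pos w a b μ p) (h' : PNN p') : Pos w a b μ (p + p') := by
  obtain ⟨h1, q, hq, h2⟩ := h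
  refine ⟨h1.add h', q, hq, fun d x y => ?_⟩
  rw [coeff_add]; linarith [h2 d x y, h' d]

theorem Pos.add_sml (h : Pos w a b μ p) (h' : Sml w a b μ p') (hw : ∀ d, 0 ≤ w d) :
    Pos w a b μ (p + p') := by
  obtain ⟨h1, q, hq, h2⟩ := h
  have hμ := (h' 0).1.nonneg
  have hq' : (0 : K) < q := by exact_mod_cast hq
  have key : ∀ d, a ≤ d → d ≤ b → ((q / 2 : ℚ) : K) * μ * (w d : K) ≤ (p + p').coeff d := by
    intro d x y
    rw [coeff_add]
    have hwd : (0 : K) ≤ w d := by exact_mod_cast hw d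
    have := h2 d x y
    push_cast
    by_cases h0 : p'.coeff d = 0
    · rw [h0]
      have : 0 ≤ (q : K) * μ * w d := by positivity
      linarith
    · have h3 := (h' d).1 (q / 2 * w d) (by have := ((h' d).2 h0).2.2; positivity)
      push_cast at h3
      have := neg_abs_le (p'.coeff d)
      linarith
  refine ⟨fun d => ?_, q / 2, by positivity, key⟩
  by_cases h0 : p'.coeff d = 0
  · rw [coeff_add, h0, add_zero]; exact h1 d
  · obtain ⟨x, y, -⟩ := (h' d).2 h0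
    refine le_trans ?_ (key d x y)
    have hwd : (0 : K) ≤ w d := by exact_mod_cast hw d
    push_cast
    positivity

theorem exists_uniform {ι : Type} (s : Finset ι) (P : ι → ℚ → Prop)
    (hm : ∀ i q q', 0 < q' → q' ≤ q → P i q → P i q') (h : ∀ i ∈ s, ∃ q, 0 < q ∧ P i q) :
    ∃ q, 0 < q ∧ ∀ i ∈ s, P i q := by
  classical
  induction s using Finset.induction_on with
  | empty => exact ⟨1, one_pos, by simp⟩
  | insert i s _ ih =>
    obtain ⟨q, hq, h1⟩ := ih fun j hj => h j (Finset.mem_insert_of_mem hj)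
    obtain ⟨q', hq', h2⟩ := h i (Finset.mem_insert_self _ _)
    refine ⟨min q q', lt_min hq hq', fun j hj => ?_⟩
    rcases Finset.mem_insert.mp hj with rfl | hj
    · exact hm _ _ _ (lt_min hq hq') (min_le_right _ _) h2
    · exact hm _ _ _ (lt_min hq hq') (min_le_left _ _) (h1 j hj)

theorem Pos.uniform {ι : Type} (s : Finset ι) {u : ι → ℕ → ℚ} {f : ι → K[X]} (hμ : 0 ≤ μ)
    (hu : ∀ i d, 0 ≤ u i d) (h : ∀ i ∈ s, Pos (u i) a b μ (f i)) :
    ∃ q : ℚ, 0 < q ∧ ∀ i ∈ s, ∀ d, a ≤ d → d ≤ b → (q : K) * μ * (u i d : K) ≤ (f i).coeff d := by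
  refine exists_uniform s
    (fun i q => ∀ d, a ≤ d → d ≤ b → (q : K) * μ * (u i d : K) ≤ (f i).coeff d) ?_
    fun i hi => (h i hi).2
  intro i q q' _ hle hP d x y
  refine le_trans ?_ (hP d x y)
  have h1 : (q' : K) ≤ q := by exact_mod_cast hle
  have h2 : (0 : K) ≤ u i d := by exact_mod_cast hu i d
  gcongr

theorem Pos.sum_mul {ι : Type} (s : Finset ι) {u v : ι → ℕ → ℚ} {f g : ι → K[X]}
    (hμ : 0 ≤ μ) (hν : 0 ≤ ν) (hu : ∀ i d, 0 ≤ u i d) (hv : ∀ i d, 0 ≤ v i d)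
    (hf : ∀ i ∈ s, Pos (u i) a b μ (f i)) (hg : ∀ i ∈ s, Pos (v i) a' b' ν (g i))
    (hab : a ≤ b) (hab' : a' ≤ b')
    (hw : ∀ d d', a ≤ d → a' ≤ d' → ∑ i ∈ s, u i d * v i d' = w (d + d')) :
    Pos w (a + a') (b + b') (μ * ν) (∑ i ∈ s, f i * g i) := by
  obtain ⟨q, hq, h1⟩ := Pos.uniform s hμ hu hf
  obtain ⟨q', hq', h2⟩ := Pos.uniform s hν hv hg
  refine ⟨PNN.sum fun i hi => (hf i hi).1.mul (hg i hi).1, q * q', by positivity, fun d x y => ?_⟩
  obtain ⟨e, e', rfl, x1, x2, y1, y2⟩ : ∃ e e', e + e' = d ∧ a ≤ e ∧ e ≤ b ∧ a' ≤ e' ∧ e' ≤ b' :=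
    ⟨min b (d - a'), d - min b (d - a'), by omega, by omega, by omega, by omega, by omega⟩
  rw [← hw e e' x1 y1, finsetSum_coeff]
  push_cast
  rw [Finset.mul_sum]
  refine Finset.sum_le_sum fun i hi => le_trans ?_ ((hf i hi).1.le_coeff_mul (hg i hi).1 e e')
  have z1 := h1 i hi e x1 x2
  have z2 := h2 i hi e' y1 y2
  have hq0 : (0 : K) < q := by exact_mod_cast hq
  have hq1 : (0 : K) < q' := by exact_mod_cast hq'
  have u0 : (0 : K) ≤ u i e := by exact_mod_cast hu i e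
  have v0 : (0 : K) ≤ v i e' := by exact_mod_cast hv i e'
  calc (q : K) * q' * (μ * ν) * (u i e * v i e') = (q * μ * u i e) * (q' * ν * v i e') := by ring
    _ ≤ _ := mul_le_mul z1 z2 (by positivity) ((hf i hi).1 e)

end

end Pool.Agent.MP_841a27_al

end MrgPart0

-- ======== part 1: formerly Pool.Agent.MP_841a27_al.Frame
section MrgPart1

/-!
Virtually nonnegative matrices: a reservoir `Z` absorbs infinitesimal negative parts.
-/

set_option linter.unusedSectionVars false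

namespace Pool.Agent.MP_841a27_al

open Matrix Polynomial

/-- The data of a reservoir with scales and degrees. -/
structure Frame {V : Type} [Fintype V] [DecidableEq V] (S : GSys V) (K T : Type) [Field K]
    [LinearOrder K] where
  st : T → V
  Z : Finset T
  τ : Bool
  sumZ : ∀ f : V → ℚ, ∑ y ∈ Z, f (st y) = ∑ y ∈ Finset.univ.filter (fun y => S.side y = τ), f y
  sideZ : ∀ y ∈ Z, S.side (st y) = τ
  lam : T → K
  pi : T → K
  lam_nn : ∀ i, 0 ≤ lam i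
  pi_nn : ∀ i, 0 ≤ pi i
  lamZ : ∀ y ∈ Z, lam y = 1
  piZ : ∀ y ∈ Z, pi y = 1
  L1 : T → ℕ
  L2 : T → ℕ
  L1Z : ∀ y ∈ Z, L1 y = 0
  L2Z : ∀ y ∈ Z, L2 y = 0
  L1ok : ∀ i, i ∉ Z → 1 ≤ L1 i ∧ (S.side (st i) = τ ∨ S.n0 ≤ L1 i)
  L2ok : ∀ i, i ∉ Z → 1 ≤ L2 i ∧ (S.side (st i) = τ ∨ S.n0 ≤ L2 i)
  ρ : ℚ
  ρ_pos : 0 < ρ
  ρ_le : ρ ≤ 1

/-- Row operation. -/
noncomputable def rowop {R T : Type} [CommRing R] [Fintype T] (Ξ M : Matrix T T R) :
    Matrix T T R := M - Ξ + Ξ * M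

/-- Column operation. -/
noncomputable def colop {R T : Type} [CommRing R] [Fintype T] (Θ M : Matrix T T R) :
    Matrix T T R := M - Θ + M * Θ

theorem colop_tr {R T : Type} [CommRing R] [Fintype T] (Θ M : Matrix T T R) (i j : T) :
    colop Θ M i j = rowop Θᵀ Mᵀ j i := by
  simp [colop, rowop, Matrix.mul_apply, mul_comm]

theorem one_sub_rowop {R T : Type} [CommRing R] [Fintype T] [DecidableEq T] (Ξ M : Matrix T T R) :
    1 - rowop Ξ M = (1 + Ξ) * (1 - M) := by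
  simp only [rowop]; noncomm_ring

theorem one_sub_colop {R T : Type} [CommRing R] [Fintype T] [DecidableEq T] (Θ M : Matrix T T R) :
    1 - colop Θ M = (1 - M) * (1 + Θ) := by
  simp only [colop]; noncomm_ring

theorem eq_rowop {R T : Type} [CommRing R] [Fintype T] [DecidableEq T] {Ξ M M' : Matrix T T R}
    (h : 1 - M' = (1 + Ξ) * (1 - M)) : M' = M - Ξ + Ξ * M := by
  rw [← one_sub_rowop] at h
  exact sub_right_injective h

theorem eq_colop {R T : Type} [CommRing R] [Fintype T] [DecidableEq T] {Θ M M' : Matrix T T R}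
    (h : 1 - M' = (1 - M) * (1 + Θ)) : M' = M - Θ + M * Θ := by
  rw [← one_sub_colop] at h
  exact sub_right_injective h

namespace Frame
variable {V : Type} [Fintype V] [DecidableEq V] {S : GSys V}
variable {K : Type} [Field K] [LinearOrder K] [IsStrictOrderedRing K]
variable {T : Type} [Fintype T] [DecidableEq T] (F : Frame S K T)

/-- The transposed frame. -/
def tr : Frame S.tr K T where
  st := F.st
  Z := F.Z
  τ := F.τ
  sumZ := F.sumZ
  sideZ := F.sideZ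
  lam := F.pi
  pi := F.lam
  lam_nn := F.pi_nn
  pi_nn := F.lam_nn
  lamZ := F.piZ
  piZ := F.lamZ
  L1 := F.L2
  L2 := F.L1
  L1Z := F.L2Z
  L2Z := F.L1Z
  L1ok := F.L2ok
  L2ok := F.L1ok
  ρ := F.ρ
  ρ_pos := F.ρ_pos
  ρ_le := F.ρ_le

/-- The weights of an entry. -/
def w (i j : T) : ℕ → ℚ := fun d => S.z d (F.st i) (F.st j)

omit [IsStrictOrderedRing K] [Fintype T] [DecidableEq T] in
theorem w_nn (i j : T) (d : ℕ) : 0 ≤ F.w i j d := S.nonneg _ _ _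

omit [IsStrictOrderedRing K] [Fintype T] [DecidableEq T] in
theorem w_pos (i j l : T) (d d' : ℕ) (h : 0 < F.w i j d) (h' : 0 < F.w j l d') :
    0 < F.w i l (d + d') := S.pos h h'

omit [IsStrictOrderedRing K] [Fintype T] [DecidableEq T] in
theorem w_sum {i j : T} {a b : ℕ} (h1 : S.side (F.st i) = F.τ ∨ S.n0 ≤ a)
    (h2 : S.side (F.st j) = F.τ ∨ S.n0 ≤ b) :
    ∑ y ∈ F.Z, F.w i y a * F.w y j b = F.w i j (a + b) :=
  (F.sumZ fun y => S.z a (F.st i) y * S.z b y (F.st j)).trans (S.mul _ _ _ _ _ h1 h2)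

/-- The geometric sequence of constants. -/
def xi (j : ℕ) : ℚ := 1 / 4 * (F.ρ / 8) ^ j

omit [IsStrictOrderedRing K] [Fintype T] [DecidableEq T] in
theorem xi_pos (j : ℕ) : 0 < F.xi j := by
  have := F.ρ_pos
  unfold xi; positivity

omit [IsStrictOrderedRing K] [Fintype T] [DecidableEq T] in
theorem xi_anti {j j' : ℕ} (h : j ≤ j') : F.xi j' ≤ F.xi j := by
  have h1 := F.ρ_pos
  have h2 := F.ρ_le
  unfold xi
  have := pow_le_pow_of_le_one (a := F.ρ / 8) (by positivity) (by linarith) h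
  linarith

/-- The coefficients of the standard row operation. -/
def xiC (R : ℕ) (i j : T) (d : ℕ) : K :=
  if i ∉ F.Z ∧ j ∈ F.Z ∧ F.L1 i ≤ d ∧ d ≤ F.L1 i + R then
    (F.xi (d - F.L1 i) : K) * F.lam i * (F.w i j d : K) else 0

omit [Fintype T] in
theorem xiC_nn (R : ℕ) (i j : T) (d : ℕ) : 0 ≤ F.xiC R i j d := by
  unfold xiC
  split_ifs
  · have h1 : (0 : K) ≤ F.xi (d - F.L1 i) := by exact_mod_cast (F.xi_pos _).le
    have h2 : (0 : K) ≤ F.w i j d := by exact_mod_cast F.w_nn i j d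
    have h3 := F.lam_nn i
    positivity
  · exact le_rfl

/-- Admissible row operations. -/
def XiOK (R : ℕ) (Ξ : Matrix T T K[X]) : Prop :=
  ∀ i j d, F.xiC R i j d / 2 ≤ (Ξ i j).coeff d ∧ (Ξ i j).coeff d ≤ 2 * F.xiC R i j d

/-- The standard row operation. -/
noncomputable def Xi (R : ℕ) : Matrix T T K[X] :=
  Matrix.of fun i j => ∑ d ∈ Finset.range (F.L1 i + R + 1), monomial d (F.xiC R i j d)

omit [Fintype T] [IsStrictOrderedRing K] in
theorem coeff_Xi (R : ℕ) (i j : T) (d : ℕ) : (F.Xi R i j).coeff d = F.xiC R i j d := by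
  simp only [Xi, Matrix.of_apply, finsetSum_coeff, coeff_monomial]
  rw [Finset.sum_ite_eq']
  split_ifs with h
  · rfl
  · rw [Finset.mem_range] at h
    unfold xiC
    rw [if_neg (fun h' => h (by omega))]

omit [Fintype T] in
theorem XiOK_Xi (R : ℕ) : F.XiOK R (F.Xi R) := fun i j d => by
  rw [coeff_Xi]
  have := F.xiC_nn R i j d
  constructor <;> linarith

variable {F}

omit [Fintype T] [IsStrictOrderedRing K] in
theorem XiOK.coeff_eq_zero {R : ℕ} {Ξ : Matrix T T K[X]} (h : F.XiOK R Ξ) {i j : T} {d : ℕ}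
    (h0 : F.xiC R i j d = 0) : (Ξ i j).coeff d = 0 := by
  have := h i j d
  rw [h0] at this
  exact le_antisymm (by simpa using this.2) (by simpa using this.1)

omit [Fintype T] in
theorem XiOK.supp {R : ℕ} {Ξ : Matrix T T K[X]} (h : F.XiOK R Ξ) {i j : T} {d : ℕ}
    (h0 : (Ξ i j).coeff d ≠ 0) :
    i ∉ F.Z ∧ j ∈ F.Z ∧ F.L1 i ≤ d ∧ d ≤ F.L1 i + R ∧ 0 < F.w i j d := by
  by_cases hc : i ∉ F.Z ∧ j ∈ F.Z ∧ F.L1 i ≤ d ∧ d ≤ F.L1 i + R
  · refine ⟨hc.1, hc.2.1, hc.2.2.1, hc.2.2.2, (F.w_nn i j d).lt_of_ne fun e => h0 ?_⟩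
    apply h.coeff_eq_zero
    unfold xiC
    rw [if_pos hc, ← e]; simp
  · exact absurd (h.coeff_eq_zero (by unfold xiC; rw [if_neg hc])) h0

omit [Fintype T] in
theorem XiOK.supp' {R : ℕ} {Ξ : Matrix T T K[X]} (h : F.XiOK R Ξ) {i j : T}
    (h0 : Ξ i j ≠ 0) : i ∉ F.Z ∧ j ∈ F.Z := by
  obtain ⟨d, hd⟩ : ∃ d, (Ξ i j).coeff d ≠ 0 := by
    by_contra hc
    push Not at hc
    exact h0 (Polynomial.ext fun d => by rw [hc, coeff_zero])
  exact ⟨(h.supp hd).1, (h.supp hd).2.1⟩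

omit [Fintype T] in
theorem XiOK.row_zero {R : ℕ} {Ξ : Matrix T T K[X]} (h : F.XiOK R Ξ) {i : T} (hi : i ∈ F.Z)
    (j : T) : Ξ i j = 0 := by
  by_contra h0; exact (h.supp' h0).1 hi

omit [Fintype T] in
theorem XiOK.col_zero {R : ℕ} {Ξ : Matrix T T K[X]} (h : F.XiOK R Ξ) (i : T) {j : T}
    (hj : j ∉ F.Z) : Ξ i j = 0 := by
  by_contra h0; exact hj (h.supp' h0).2

omit [Fintype T] in
theorem XiOK.pnn {R : ℕ} {Ξ : Matrix T T K[X]} (h : F.XiOK R Ξ) (i j : T) : PNN (Ξ i j) :=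
  fun d => le_trans (by have := F.xiC_nn R i j d; linarith) (h i j d).1

omit [Fintype T] in
theorem XiOK.coeff_zero {R : ℕ} {Ξ : Matrix T T K[X]} (h : F.XiOK R Ξ) (i j : T) :
    (Ξ i j).coeff 0 = 0 := by
  by_contra h0
  obtain ⟨h1, -, h2, -⟩ := h.supp h0
  have := (F.L1ok i h1).1
  omega

omit [Fintype T] in
theorem XiOK.bnd {R : ℕ} {Ξ : Matrix T T K[X]} (h : F.XiOK R Ξ) (i j : T) :
    Bnd (F.w i j) (F.L1 i) (F.L1 i + R) (F.lam i) (Ξ i j) := fun d => by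
  refine ⟨?_, fun h0 => ⟨(h.supp h0).2.2.1, (h.supp h0).2.2.2.1, (h.supp h0).2.2.2.2⟩⟩
  by_cases h0 : (Ξ i j).coeff d = 0
  · rw [h0]; exact Bd.zero (F.lam_nn i)
  · obtain ⟨a, b, c, e, f⟩ := h.supp h0
    refine ⟨2 * F.xi (d - F.L1 i) * F.w i j d, by have := F.xi_pos (d - F.L1 i); positivity, ?_⟩
    rw [abs_of_nonneg (h.pnn i j d)]
    have := (h i j d).2
    unfold xiC at this
    rw [if_pos ⟨a, b, c, e⟩] at this
    push_cast
    linarith

omit [Fintype T] in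
theorem XiOK.pos {R : ℕ} {Ξ : Matrix T T K[X]} (h : F.XiOK R Ξ) {i j : T} (hi : i ∉ F.Z)
    (hj : j ∈ F.Z) : Pos (F.w i j) (F.L1 i) (F.L1 i + R) (F.lam i) (Ξ i j) := by
  refine ⟨h.pnn i j, F.xi R / 2, by have := F.xi_pos R; positivity, fun d x y => ?_⟩
  refine le_trans ?_ (h i j d).1
  unfold xiC
  rw [if_pos ⟨hi, hj, x, y⟩]
  have h1 : (F.xi R : K) ≤ F.xi (d - F.L1 i) := by exact_mod_cast F.xi_anti (by omega)
  have h2 : (0 : K) ≤ F.w i j d := by exact_mod_cast F.w_nn i j d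
  have h3 := F.lam_nn i
  have := mul_le_mul_of_nonneg_right h1 (mul_nonneg h3 h2)
  push_cast
  linarith

variable (F)

/-- Genuine matrices with room. -/
structure Gen (G : Matrix T T K[X]) : Prop where
  nn : NN0 G
  zz : ∀ y ∈ F.Z, ∀ w ∈ F.Z, (F.ρ : K) * (F.w y w 1 : K) ≤ (G y w).coeff 1
  iz : ∀ i, i ∉ F.Z → ∀ w ∈ F.Z, F.lam i * (F.w i w (F.L1 i) : K) ≤ (G i w).coeff (F.L1 i)
  zj : ∀ j, j ∉ F.Z → ∀ y ∈ F.Z, F.pi j * (F.w y j (F.L2 j) : K) ≤ (G y j).coeff (F.L2 j)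

/-- Perturbations. -/
structure Pert (R : ℕ) (E : Matrix T T K[X]) : Prop where
  sm : ∀ i j, Sml (F.w i j) (F.L1 i + F.L2 j) R (F.lam i * F.pi j) (E i j)
  zz : ∀ i ∈ F.Z, ∀ j ∈ F.Z, E i j = 0

variable {F}

omit [Fintype T] [DecidableEq T] [IsStrictOrderedRing K] in
theorem Gen.tr {G : Matrix T T K[X]} (h : F.Gen G) : F.tr.Gen Gᵀ :=
  ⟨h.nn.transpose, fun y hy w hw => h.zz w hw y hy, fun i hi w hw => h.zj i hi w hw,
    fun j hj y hy => h.iz j hj y hy⟩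

omit [Fintype T] [DecidableEq T] [IsStrictOrderedRing K] in
theorem Pert.tr {R : ℕ} {E : Matrix T T K[X]} (h : F.Pert R E) : F.tr.Pert R Eᵀ :=
  ⟨fun i j => by
    have := h.sm j i
    rw [add_comm, mul_comm] at this
    exact this, fun i hi j hj => h.zz j hj i hi⟩

omit [Fintype T] [DecidableEq T] [IsStrictOrderedRing K] in
theorem Pert.mono {R R' : ℕ} {E : Matrix T T K[X]} (h : F.Pert R E) (hR : R ≤ R') :
    F.Pert R' E := ⟨fun i j => (h.sm i j).mono le_rfl hR, h.zz⟩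

omit [Fintype T] [DecidableEq T] in
theorem Pert.zero (R : ℕ) : F.Pert R 0 :=
  ⟨fun i j => Sml.zero (mul_nonneg (F.lam_nn i) (F.pi_nn j)), fun _ _ _ _ => rfl⟩

omit [Fintype T] [IsStrictOrderedRing K] in
theorem Pert.coeff_zero {R : ℕ} {E : Matrix T T K[X]} (h : F.Pert R E) (i j : T) :
    (E i j).coeff 0 = 0 := by
  by_contra h0
  have h1 := ((h.sm i j 0).2 h0).1
  by_cases hi : i ∈ F.Z
  · by_cases hj : j ∈ F.Z
    · exact h0 (by rw [h.zz i hi j hj, Polynomial.coeff_zero])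
    · have := (F.L2ok j hj).1; omega
  · have := (F.L1ok i hi).1; omega

theorem XiOK.mul_apply {R : ℕ} {Ξ : Matrix T T K[X]} (h : F.XiOK R Ξ) (M : Matrix T T K[X])
    (i j : T) : (Ξ * M) i j = ∑ y ∈ F.Z, Ξ i y * M y j := by
  rw [Matrix.mul_apply]
  refine (Finset.sum_subset (Finset.subset_univ _) fun y _ hy => ?_).symm
  rw [h.col_zero i hy, zero_mul]

/-- The room in the row of `i` survives the row operation. -/
theorem rowPos {R : ℕ} {G E Ξ : Matrix T T K[X]} (hG : F.Gen G) (hE : F.Pert R E)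
    (hΞ : F.XiOK R Ξ) {i w : T} (hi : i ∉ F.Z) (hw : w ∈ F.Z) :
    Pos (F.w i w) (F.L1 i) (F.L1 i + R) (F.lam i) (rowop Ξ (G + E) i w) := by
  have e1 : rowop Ξ (G + E) i w = (G i w - Ξ i w + ∑ y ∈ F.Z, Ξ i y * G y w) + E i w := by
    simp only [rowop, Matrix.add_apply, Matrix.sub_apply, hΞ.mul_apply]
    rw [Finset.sum_congr rfl fun y hy => by rw [hE.zz y hy w hw, add_zero]]
    ring
  have hS : PNN (∑ y ∈ F.Z, Ξ i y * G y w) :=
    PNN.sum fun y _ => (hΞ.pnn i y).mul (hG.nn y w).2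
  have hl := F.lam_nn i
  have key : ∀ d, F.L1 i ≤ d → d ≤ F.L1 i + R →
      ((2 * F.xi (d - F.L1 i) : ℚ) : K) * F.lam i * (F.w i w d : K) ≤
        (G i w - Ξ i w + ∑ y ∈ F.Z, Ξ i y * G y w).coeff d := by
    intro d x y
    rw [coeff_add, coeff_sub]
    have h1 := (hΞ i w d).2
    unfold xiC at h1
    rw [if_pos ⟨hi, hw, x, y⟩] at h1
    rcases Nat.eq_or_lt_of_le x with rfl | hlt
    · have h2 := hG.iz i hi w hw
      have h3 := hS (F.L1 i)
      simp only [Nat.sub_self, xi, pow_zero] at h1 ⊢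
      push_cast at h1 ⊢
      linarith
    · obtain ⟨j, rfl⟩ : ∃ j, d = F.L1 i + j + 1 := ⟨d - F.L1 i - 1, by omega⟩
      have h2 := (hG.nn i w).2 (F.L1 i + j + 1)
      have e2 : F.L1 i + j + 1 - F.L1 i = j + 1 := by omega
      rw [e2] at h1 ⊢
      have h3 : (F.xi j : K) / 2 * F.ρ * F.lam i * (F.w i w (F.L1 i + j + 1) : K) ≤
          (∑ y ∈ F.Z, Ξ i y * G y w).coeff (F.L1 i + j + 1) := by
        rw [← F.w_sum ((F.L1ok i hi).2.imp id fun h => by omega) (Or.inl (F.sideZ w hw)),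
          finsetSum_coeff]
        push_cast
        rw [Finset.mul_sum]
        refine Finset.sum_le_sum fun y' hy' =>
          le_trans ?_ ((hΞ.pnn i y').le_coeff_mul (hG.nn y' w).2 _ _)
        have z1 := (hΞ i y' (F.L1 i + j)).1
        unfold xiC at z1
        rw [if_pos ⟨hi, hy', by omega, by omega⟩, Nat.add_sub_cancel_left] at z1
        have z2 := hG.zz y' hy' w hw
        have u1 : (0 : K) ≤ F.w y' w 1 := by exact_mod_cast F.w_nn _ _ _
        have u2 : (0 : K) ≤ F.ρ := by exact_mod_cast F.ρ_pos.le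
        calc _ = ((F.xi j : K) * F.lam i * (F.w i y' (F.L1 i + j) : K) / 2) *
              (F.ρ * (F.w y' w 1 : K)) := by ring
          _ ≤ _ := mul_le_mul z1 z2 (by positivity) (hΞ.pnn i y' _)
      have h4 : (F.xi (j + 1) : K) = F.xi j * F.ρ / 8 := by
        unfold xi; push_cast; ring
      push_cast
      rw [h4] at h1 ⊢
      linarith
  rw [e1]
  refine Pos.add_sml ⟨fun d => ?_, 2 * F.xi R, by have := F.xi_pos R; positivity,
    fun d x y => le_trans ?_ (key d x y)⟩ ?_ (F.w_nn i w)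
  · by_cases hd : F.L1 i ≤ d ∧ d ≤ F.L1 i + R
    · refine le_trans ?_ (key d hd.1 hd.2)
      have h1 : (0 : K) ≤ F.xi (d - F.L1 i) := by exact_mod_cast (F.xi_pos _).le
      have h2 : (0 : K) ≤ F.w i w d := by exact_mod_cast F.w_nn i w d
      push_cast
      positivity
    · have : (Ξ i w).coeff d = 0 := by
        by_contra h0
        exact hd ⟨(hΞ.supp h0).2.2.1, (hΞ.supp h0).2.2.2.1⟩
      rw [coeff_add, coeff_sub, this]
      linarith [(hG.nn i w).2 d, hS d]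
  · have h1 : (F.xi R : K) ≤ F.xi (d - F.L1 i) := by exact_mod_cast F.xi_anti (by omega)
    have h2 : (0 : K) ≤ F.w i w d := by exact_mod_cast F.w_nn i w d
    push_cast
    gcongr
  · have := hE.sm i w
    rw [F.L2Z w hw, F.piZ w hw, add_zero, mul_one] at this
    exact this.mono le_rfl (by omega)

omit [LinearOrder K] [IsStrictOrderedRing K] [DecidableEq T] in
theorem coeff_zero_mul_left {A B : Matrix T T K[X]} (h : ∀ i j, (A i j).coeff 0 = 0) (i j : T) :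
    ((A * B) i j).coeff 0 = 0 := by
  rw [Matrix.mul_apply, finsetSum_coeff]
  exact Finset.sum_eq_zero fun y _ => by rw [mul_coeff_zero, h, zero_mul]

omit [LinearOrder K] [IsStrictOrderedRing K] [DecidableEq T] in
theorem coeff_zero_mul_right {A B : Matrix T T K[X]} (h : ∀ i j, (B i j).coeff 0 = 0) (i j : T) :
    ((A * B) i j).coeff 0 = 0 := by
  rw [Matrix.mul_apply, finsetSum_coeff]
  exact Finset.sum_eq_zero fun y _ => by rw [mul_coeff_zero, h, mul_zero]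

/-- The main positivity statement. -/
theorem phi_nn {R : ℕ} {G E Ξ Θ : Matrix T T K[X]} (hG : F.Gen G) (hE : F.Pert R E)
    (hΞ : F.XiOK R Ξ) (hΘ : F.tr.XiOK R Θᵀ) : NN0 (rowop Ξ (colop Θ (G + E))) := by
  have c0 : ∀ i j, ((G + E) i j).coeff 0 = 0 := fun i j => by
    rw [Matrix.add_apply, coeff_add, (hG.nn i j).1, hE.coeff_zero, add_zero]
  have c1 : ∀ i j, (colop Θ (G + E) i j).coeff 0 = 0 := fun i j => by
    simp only [colop]
    rw [Matrix.add_apply, Matrix.sub_apply, coeff_add, coeff_sub, c0, coeff_zero_mul_left c0,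
      show (Θ i j).coeff 0 = 0 from hΘ.coeff_zero j i]
    simp
  have hb : ∀ i, ∀ j ∈ F.Z, colop Θ (G + E) i j = (G + E) i j := by
    intro i j hj
    have : ∀ y, Θ y j = 0 := fun y => hΘ.row_zero hj y
    simp [colop, Matrix.mul_apply, this]
  have ha : ∀ y ∈ F.Z, ∀ j, j ∉ F.Z →
      Pos (F.w y j) (F.L2 j) (F.L2 j + R) (F.pi j) (colop Θ (G + E) y j) := by
    intro y hy j hj
    rw [colop_tr, Matrix.transpose_add]
    exact rowPos hG.tr hE.tr hΘ hj hy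
  intro i j
  refine ⟨?_, ?_⟩
  · simp only [rowop]
    rw [Matrix.add_apply, Matrix.sub_apply, coeff_add, coeff_sub, c1, coeff_zero_mul_right c1,
      hΞ.coeff_zero]
    simp
  by_cases hi : i ∈ F.Z
  · have e : rowop Ξ (colop Θ (G + E)) i j = colop Θ (G + E) i j := by
      simp [rowop, Matrix.mul_apply, hΞ.row_zero hi]
    rw [e]
    by_cases hj : j ∈ F.Z
    · rw [hb i j hj, Matrix.add_apply, hE.zz i hi j hj, add_zero]; exact (hG.nn i j).2
    · exact (ha i hi j hj).1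
  by_cases hj : j ∈ F.Z
  · have e : rowop Ξ (colop Θ (G + E)) i j = rowop Ξ (G + E) i j := by
      simp only [rowop, Matrix.add_apply (A := _ - Ξ), Matrix.sub_apply, Matrix.mul_apply,
        hb _ j hj]
    rw [e]
    exact (rowPos hG hE hΞ hi hj).1
  · have e : rowop Ξ (colop Θ (G + E)) i j =
        (∑ y ∈ F.Z, Ξ i y * colop Θ (G + E) y j) + (G i j + ∑ y, G i y * Θ y j) +
          (E i j + ∑ y, E i y * Θ y j) := by
      rw [rowop, Matrix.add_apply, Matrix.sub_apply, hΞ.mul_apply, hΞ.col_zero i hj]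
      have : Θ i j = 0 := hΘ.col_zero j hi
      simp only [colop, Matrix.add_apply, Matrix.sub_apply, Matrix.mul_apply, this, add_mul]
      ring
    rw [e]
    have p1 := Pos.sum_mul F.Z (w := F.w i j) (F.lam_nn i) (F.pi_nn j) (fun y => F.w_nn i y)
      (fun y => F.w_nn y j) (fun y hy => hΞ.pos hi hy) (fun y hy => ha y hy j hj)
      (by omega) (by omega) (fun d d' x y => F.w_sum
        ((F.L1ok i hi).2.imp id fun h => by omega) ((F.L2ok j hj).2.imp id fun h => by omega))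
    have p2 : PNN (G i j + ∑ y, G i y * Θ y j) :=
      PNN.add (hG.nn i j).2 (PNN.sum fun y _ => PNN.mul (hG.nn i y).2 (hΘ.pnn j y))
    have hμ := mul_nonneg (F.lam_nn i) (F.pi_nn j)
    refine ((p1.add_pnn p2).add_sml (Sml.add ((hE.sm i j).mono le_rfl (by omega))
      (Sml.sum hμ fun y _ => ?_)) (F.w_nn i j)).1
    by_cases hy : y ∈ F.Z
    · have s1 := hE.sm i y
      rw [F.L2Z y hy, F.piZ y hy, add_zero, mul_one] at s1
      have s2 : Bnd (F.w y j) (F.L2 j) (F.L2 j + R) (F.pi j) (Θ y j) := hΘ.bnd j y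
      exact (s1.mul_bnd s2 (F.w_pos i y j)).mono le_rfl (by omega)
    · rw [show Θ y j = 0 from hΘ.col_zero j hy, mul_zero]
      exact Sml.zero hμ

/-- Positivity after the row operation alone, for genuine matrices. -/
theorem row_nn {R : ℕ} {G Ξ : Matrix T T K[X]} (hG : F.Gen G) (hΞ : F.XiOK R Ξ) :
    NN0 (rowop Ξ G) := by
  intro i j
  refine ⟨?_, ?_⟩
  · simp only [rowop]
    rw [Matrix.add_apply, Matrix.sub_apply, coeff_add, coeff_sub, (hG.nn i j).1,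
      coeff_zero_mul_left hΞ.coeff_zero, hΞ.coeff_zero]
    simp
  by_cases h : i ∉ F.Z ∧ j ∈ F.Z
  · have := (rowPos hG (Pert.zero R) hΞ h.1 h.2).1
    rwa [add_zero] at this
  · have : Ξ i j = 0 := by
      by_contra h0; exact h (hΞ.supp' h0)
    simp only [rowop, Matrix.add_apply, Matrix.sub_apply, this, sub_zero, Matrix.mul_apply]
    exact PNN.add (hG.nn i j).2 (PNN.sum fun y _ => PNN.mul (hΞ.pnn i y) (hG.nn y j).2)

end Frame

end Pool.Agent.MP_841a27_al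

end MrgPart1

-- ======== part 2: formerly Pool.Agent.MP_841a27_al.VEq
section MrgPart2

/-!
Moves between virtually nonnegative matrices.
-/

namespace Pool.Agent.MP_841a27_al

open Matrix Polynomial Filter

namespace Frame
variable {V : Type} [Fintype V] [DecidableEq V] {S : GSys V}
variable {K : Type} [Field K] [LinearOrder K] [IsStrictOrderedRing K]
variable {T : Type} [Fintype T] [DecidableEq T] (F : Frame S K T)

/-- The standard column operation. -/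
noncomputable def Th (R : ℕ) : Matrix T T K[X] := (F.tr.Xi R)ᵀ

omit [Fintype T] in
theorem ThOK (R : ℕ) : F.tr.XiOK R (F.Th R)ᵀ := F.tr.XiOK_Xi R

/-- The correction of a virtual matrix. -/
noncomputable def Phi (R : ℕ) (M : Matrix T T K[X]) : Matrix T T K[X] :=
  rowop (F.Xi R) (colop (F.Th R) M)

/-- Virtually nonnegative matrices. -/
def VN (M : Matrix T T K[X]) : Prop := ∃ G E R, F.Gen G ∧ F.Pert R E ∧ M = G + E

/-- Virtual equivalence. -/
def VEq (M M' : Matrix T T K[X]) : Prop := ∀ᶠ R in atTop, PEq (F.Phi R M) (F.Phi R M')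

variable {F}

omit [IsStrictOrderedRing K] in
theorem VEq.symm {M M' : Matrix T T K[X]} (h : F.VEq M M') : F.VEq M' M :=
  h.mono fun _ h => h.symm

theorem VEq.trans {M M' M'' : Matrix T T K[X]} (h : F.VEq M M') (h' : F.VEq M' M'') :
    F.VEq M M'' := (h.and h').mono fun _ h => h.1.trans h.2

theorem VN.ev {M : Matrix T T K[X]} (h : F.VN M) : ∀ᶠ R in atTop, ∀ Ξ Θ : Matrix T T K[X],
    F.XiOK R Ξ → F.tr.XiOK R Θᵀ → NN0 (rowop Ξ (colop Θ M)) := by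
  obtain ⟨G, E, R, hG, hE, rfl⟩ := h
  filter_upwards [eventually_ge_atTop R] with R' hR Ξ Θ hΞ hΘ
  exact phi_nn hG (hE.mono hR) hΞ hΘ

omit [LinearOrder K] [IsStrictOrderedRing K] in
theorem one_sub_phi (Ξ Θ M : Matrix T T K[X]) :
    1 - rowop Ξ (colop Θ M) = (1 + Ξ) * (1 - M) * (1 + Θ) := by
  rw [one_sub_rowop, one_sub_colop, Matrix.mul_assoc]

theorem XiOK.mul_eq_zero {R : ℕ} {Ξ : Matrix T T K[X]} (h : F.XiOK R Ξ) {M : Matrix T T K[X]}
    (hM : ∀ y ∈ F.Z, ∀ j, M y j = 0) : Ξ * M = 0 := by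
  ext1 i j
  rw [h.mul_apply]
  exact Finset.sum_eq_zero fun y hy => by rw [hM y hy, mul_zero]

theorem ThOK_mul_eq_zero {R : ℕ} {Θ : Matrix T T K[X]} (h : F.tr.XiOK R Θᵀ) {M : Matrix T T K[X]}
    (hM : ∀ y ∈ F.Z, ∀ j, M j y = 0) : M * Θ = 0 := by
  have := h.mul_eq_zero (M := Mᵀ) hM
  rw [← Matrix.transpose_mul] at this
  exact Matrix.transpose_eq_zero.mp this

omit [LinearOrder K] [IsStrictOrderedRing K] [DecidableEq T] in
theorem mul_ne_zero_entry {A B : Matrix T T K[X]} {i j : T} (h : (A * B) i j ≠ 0) :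
    ∃ y, A i y ≠ 0 ∧ B y j ≠ 0 := by
  rw [Matrix.mul_apply] at h
  obtain ⟨y, -, h0⟩ := Finset.exists_ne_zero_of_sum_ne_zero h
  exact ⟨y, left_ne_zero_of_mul h0, right_ne_zero_of_mul h0⟩

theorem vRow {M M' Ξ₀ : Matrix T T K[X]} (p : T → Prop) (hM : F.VN M) (hM' : F.VN M')
    (hs : ∀ i j, Ξ₀ i j ≠ 0 → p i ∧ ¬ p j ∧ i ∉ F.Z) (h0 : ∀ i j, (Ξ₀ i j).coeff 0 = 0)
    (h : 1 - M' = (1 + Ξ₀) * (1 - M)) : F.VEq M M' := by
  filter_upwards [hM.ev, hM'.ev] with R h1 h2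
  have hΞ := F.XiOK_Xi R
  refine PEq.row (Ξ := Ξ₀ - Ξ₀ * F.Xi R) (fun i => p i ∧ i ∉ F.Z) (h1 _ _ hΞ (F.ThOK R))
    (h2 _ _ hΞ (F.ThOK R)) (fun i j hn => ?_) (fun i j => ?_) (eq_rowop ?_)
  · by_cases e : Ξ₀ i j = 0
    · rw [Matrix.sub_apply, e, zero_sub, neg_ne_zero] at hn
      obtain ⟨y, a, b⟩ := mul_ne_zero_entry hn
      exact ⟨⟨(hs i y a).1, (hs i y a).2.2⟩, fun c => c.2 (hΞ.supp' b).2⟩
    · exact ⟨⟨(hs i j e).1, (hs i j e).2.2⟩, fun c => (hs i j e).2.1 c.1⟩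
  · rw [Matrix.sub_apply, coeff_sub, h0, coeff_zero_mul_left h0, sub_zero]
  · have a1 : F.Xi R * F.Xi R = 0 := hΞ.mul_eq_zero fun y hy j => hΞ.row_zero hy j
    have a2 : F.Xi R * Ξ₀ = 0 := hΞ.mul_eq_zero fun y hy j => by
      by_contra c; exact (hs y j c).2.2 hy
    have a3 : (1 + F.Xi R) * (1 + Ξ₀) = (1 + (Ξ₀ - Ξ₀ * F.Xi R)) * (1 + F.Xi R) := by
      have : (1 + (Ξ₀ - Ξ₀ * F.Xi R)) * (1 + F.Xi R) =
          (1 + F.Xi R) * (1 + Ξ₀) - F.Xi R * Ξ₀ - Ξ₀ * (F.Xi R * F.Xi R) := by noncomm_ring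
      rw [this, a1, a2]; simp
    simp only [Phi, one_sub_phi, h]
    rw [← Matrix.mul_assoc (1 + F.Xi R), a3]
    simp only [Matrix.mul_assoc]

theorem vCol {M M' Θ₀ : Matrix T T K[X]} (p : T → Prop) (hM : F.VN M) (hM' : F.VN M')
    (hs : ∀ i j, Θ₀ i j ≠ 0 → ¬ p i ∧ p j ∧ j ∉ F.Z) (h0 : ∀ i j, (Θ₀ i j).coeff 0 = 0)
    (h : 1 - M' = (1 - M) * (1 + Θ₀)) : F.VEq M M' := by
  filter_upwards [hM.ev, hM'.ev] with R h1 h2
  have hΞ := F.XiOK_Xi R
  have hΘ := F.ThOK R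
  refine PEq.col (Θ := Θ₀ - F.Th R * Θ₀) (fun i => p i ∧ i ∉ F.Z) (h1 _ _ hΞ hΘ)
    (h2 _ _ hΞ hΘ) (fun i j hn => ?_) (fun i j => ?_) (eq_colop ?_)
  · by_cases e : Θ₀ i j = 0
    · rw [Matrix.sub_apply, e, zero_sub, neg_ne_zero] at hn
      obtain ⟨y, a, b⟩ := mul_ne_zero_entry hn
      exact ⟨fun c => c.2 (hΘ.supp' (i := y) (j := i) a).2, (hs y j b).2.1, (hs y j b).2.2⟩
    · exact ⟨fun c => (hs i j e).1 c.1, (hs i j e).2.1, (hs i j e).2.2⟩
  · rw [Matrix.sub_apply, coeff_sub, h0, coeff_zero_mul_right h0, sub_zero]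
  · have a1 : F.Th R * F.Th R = 0 := ThOK_mul_eq_zero hΘ fun y hy j => hΘ.row_zero hy j
    have a2 : Θ₀ * F.Th R = 0 := ThOK_mul_eq_zero hΘ fun y hy j => by
      by_contra c; exact (hs j y c).2.2 hy
    have a3 : (1 + Θ₀) * (1 + F.Th R) = (1 + F.Th R) * (1 + (Θ₀ - F.Th R * Θ₀)) := by
      have : (1 + F.Th R) * (1 + (Θ₀ - F.Th R * Θ₀)) =
          (1 + Θ₀) * (1 + F.Th R) - Θ₀ * F.Th R - (F.Th R * F.Th R) * Θ₀ := by noncomm_ring
      rw [this, a1, a2]; simp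
    simp only [Phi, one_sub_phi, h]
    simp only [Matrix.mul_assoc]
    rw [a3]

omit [Fintype T] in
theorem XiOK_add {R : ℕ} {Δ : Matrix T T K[X]}
    (h : ∀ i j, Sml (F.w i j) (F.L1 i) (F.L1 i + R) (F.lam i) (Δ i j))
    (hs : ∀ i j, Δ i j ≠ 0 → i ∉ F.Z ∧ j ∈ F.Z) : F.XiOK R (F.Xi R + Δ) := by
  intro i j d
  rw [Matrix.add_apply, coeff_add, coeff_Xi]
  have h1 := F.xiC_nn R i j d
  by_cases h0 : (Δ i j).coeff d = 0
  · rw [h0]; constructor <;> linarith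
  · obtain ⟨a, b, c⟩ := (h i j d).2 h0
    obtain ⟨e, f⟩ := hs i j (fun h' => h0 (by rw [h', coeff_zero]))
    have h2 := (h i j d).1 (F.xi (d - F.L1 i) * F.w i j d / 2)
      (by have := F.xi_pos (d - F.L1 i); positivity)
    have h3 : F.xiC R i j d = (F.xi (d - F.L1 i) : K) * F.lam i * (F.w i j d : K) := by
      unfold xiC; rw [if_pos ⟨e, f, a, b⟩]
    push_cast at h2
    have h4 := abs_le.mp h2
    constructor <;> nlinarith [h4.1, h4.2]

theorem XiOK_conj {R : ℕ} {γ : Matrix T T K}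
    (hγ : ∀ i j, γ i j ≠ 0 → i ∉ F.Z ∧ F.lam i = F.lam j ∧ F.L1 i = F.L1 j ∧ Sm (γ i j) 1 ∧
      ∀ y d, F.L1 j ≤ d → 0 < F.w j y d → 0 < F.w i y d) :
    F.XiOK R (F.Xi R + cm γ * F.Xi R) := by
  have hΞ := F.XiOK_Xi R
  refine XiOK_add (fun i j => ?_) fun i j hn => ?_
  · rw [Matrix.mul_apply]
    refine Sml.sum (F.lam_nn i) fun l _ => ?_
    by_cases h0 : γ i l = 0
    · simp only [cm_apply, h0, map_zero, zero_mul]; exact Sml.zero (F.lam_nn i)
    · obtain ⟨-, b, c, e, f⟩ := hγ i l h0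
      intro d
      rw [cm_apply, coeff_C_mul]
      refine ⟨?_, fun hn => ?_⟩
      · have := e.mul_bd (hΞ.bnd l j d).1
        rwa [one_mul, ← b] at this
      · obtain ⟨x, y, z⟩ := (hΞ.bnd l j d).2 (right_ne_zero_of_mul hn)
        exact ⟨c ▸ x, c ▸ y, f j d x z⟩
  · obtain ⟨y, a, b⟩ := mul_ne_zero_entry hn
    exact ⟨(hγ i y fun h' => a (by simp [h'])).1, (hΞ.supp' b).2⟩

theorem vConj {M : Matrix T T K[X]} {γ : Matrix T T K} (hγ0 : MNN γ) (hγγ : γ * γ = 0)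
    (hγ : ∀ i j, γ i j ≠ 0 → (i ∉ F.Z ∧ F.lam i = F.lam j ∧ F.L1 i = F.L1 j ∧ Sm (γ i j) 1 ∧
      ∀ y d, F.L1 j ≤ d → 0 < F.w j y d → 0 < F.w i y d) ∧
      (j ∉ F.Z ∧ F.pi j = F.pi i ∧ F.L2 j = F.L2 i ∧
      ∀ y d, F.L2 i ≤ d → 0 < F.w y i d → 0 < F.w y j d))
    (hM : F.VN M) (hM₁ : F.VN ((1 - cm γ) * M)) :
    F.VEq M ((1 - cm γ) * M * (1 + cm γ)) := by
  filter_upwards [hM.ev, hM₁.ev] with R h1 h2
  have hΞ := F.XiOK_Xi R
  have hΘ := F.ThOK R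
  set Ξ := F.Xi R with eΞ
  set Θ := F.Th R with eΘ
  set g := cm γ with eg
  have hΞ' : F.XiOK R (Ξ + g * Ξ) := XiOK_conj fun i j h => (hγ i j h).1
  have hΘ' : F.tr.XiOK R (Θ - Θ * g)ᵀ := by
    have := XiOK_conj (F := F.tr) (R := R) (γ := -γᵀ) fun i j h => by
      have h' : γ j i ≠ 0 := by simpa using h
      obtain ⟨⟨-, -, -, a, -⟩, b, c, d, e⟩ := hγ j i h'
      exact ⟨b, c, d, a.neg, e⟩
    have e : (Θ - Θ * g)ᵀ = F.tr.Xi R + cm (-γᵀ) * F.tr.Xi R := by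
      have : cm (-γᵀ) = -gᵀ := by ext1; simp [eg]
      rw [this, Matrix.transpose_sub, Matrix.transpose_mul, Matrix.neg_mul, ← sub_eq_add_neg]
      rfl
    rwa [e]
  have gZ1 : ∀ y ∈ F.Z, ∀ j, g y j = 0 := fun y hy j => by
    have : γ y j = 0 := by
      by_contra c; exact (hγ y j c).1.1 hy
    simp [eg, this]
  have gZ2 : ∀ y ∈ F.Z, ∀ j, g j y = 0 := fun y hy j => by
    have : γ j y = 0 := by
      by_contra c; exact (hγ j y c).2.1 hy
    simp [eg, this]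
  have a1 : Ξ * Ξ = 0 := hΞ.mul_eq_zero fun y hy j => hΞ.row_zero hy j
  have a2 : Ξ * g = 0 := hΞ.mul_eq_zero gZ1
  have a3 : Θ * Θ = 0 := ThOK_mul_eq_zero hΘ fun y hy j => hΘ.row_zero hy j
  have a4 : g * Θ = 0 := ThOK_mul_eq_zero hΘ gZ2
  have a5 : g * g = 0 := by rw [eg, ← cm_mul, hγγ, cm_zero]
  have s1 : PEq (rowop Ξ (colop Θ M)) (rowop (Ξ + g * Ξ) (colop Θ M)) := by
    refine PEq.row (Ξ := g * Ξ) (fun i => i ∉ F.Z) (h1 _ _ hΞ hΘ) (h1 _ _ hΞ' hΘ)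
      (fun i j hn => ?_) (coeff_zero_mul_right hΞ.coeff_zero) (eq_rowop ?_)
    · obtain ⟨y, a, b⟩ := mul_ne_zero_entry hn
      exact ⟨fun hi => a (gZ1 i hi y), fun c => c (hΞ.supp' b).2⟩
    · have : 1 + (Ξ + g * Ξ) = (1 + g * Ξ) * (1 + Ξ) := by
        have : (1 + g * Ξ) * (1 + Ξ) = 1 + (Ξ + g * Ξ) + g * (Ξ * Ξ) := by noncomm_ring
        rw [this, a1]; simp
      rw [one_sub_phi, one_sub_phi, this]
      simp only [Matrix.mul_assoc]
  have s2 : PEq (rowop (Ξ + g * Ξ) (colop Θ M)) (rowop (Ξ + g * Ξ) (colop (Θ - Θ * g) M)) := by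
    refine PEq.col (Θ := -(Θ * g)) (fun i => i ∉ F.Z) (h1 _ _ hΞ' hΘ) (h1 _ _ hΞ' hΘ')
      (fun i j hn => ?_) (fun i j => ?_) (eq_colop ?_)
    · rw [Matrix.neg_apply, neg_ne_zero] at hn
      obtain ⟨y, a, b⟩ := mul_ne_zero_entry hn
      exact ⟨fun c => c (hΘ.supp' (i := y) (j := i) a).2, fun hj => b (gZ2 j hj y)⟩
    · rw [Matrix.neg_apply, coeff_neg, coeff_zero_mul_left (A := Θ) (fun i j => hΘ.coeff_zero j i),
        neg_zero]
    · have : 1 + (Θ - Θ * g) = (1 + Θ) * (1 + -(Θ * g)) := by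
        have : (1 + Θ) * (1 + -(Θ * g)) = 1 + (Θ - Θ * g) - (Θ * Θ) * g := by noncomm_ring
        rw [this, a3]; simp
      rw [one_sub_phi, one_sub_phi, this]
      simp only [Matrix.mul_assoc]
  have hR : MNN (1 + γ) := MNN.one.add hγ0
  have cR : cm (1 + γ) = 1 + g := by rw [cm_add, cm_one]
  set Θ' := Θ - Θ * g with eΘ'
  have b1 : g * Θ' = 0 := by rw [eΘ', Matrix.mul_sub, ← Matrix.mul_assoc, a4]; simp
  have b2 : (1 + Θ') * (1 + g) = (1 + g) * (1 + Θ) := by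
    have : (1 + Θ') * (1 + g) = (1 + g) * (1 + Θ) - g * Θ - Θ * (g * g) := by
      rw [eΘ']; noncomm_ring
    rw [this, a4, a5]; simp
  have b3 : (1 + g) * (1 - g) = 1 := by
    have : (1 + g) * (1 - g) = 1 - g * g := by noncomm_ring
    rw [this, a5, sub_zero]
  have b4 : (1 - g) * (1 + g) = 1 := by
    have : (1 - g) * (1 + g) = 1 - g * g := by noncomm_ring
    rw [this, a5, sub_zero]
  have b5 : (1 + g) * (1 + Ξ) * (1 - g) = 1 + (Ξ + g * Ξ) := by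
    have : (1 + g) * (1 + Ξ) * (1 - g) =
        1 + (Ξ + g * Ξ) - g * g - (1 + g) * (Ξ * g) := by noncomm_ring
    rw [this, a2, a5]; simp
  have hΨ : rowop Ξ (colop Θ' ((1 - g) * M)) =
      (1 - g) - (1 + Ξ) * (1 - g) * (1 - M) * (1 + Θ') := by
    have e := one_sub_phi Ξ Θ' ((1 - g) * M)
    have e' : (1 + Ξ) * (1 - (1 - g) * M) * (1 + Θ') =
        (1 + Ξ) * (1 - g) * (1 - M) * (1 + Θ') + g + Ξ * g * (1 + Θ') + g * Θ' := by
      noncomm_ring
    rw [e', a2, b1] at e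
    rw [← sub_sub_cancel 1 (rowop Ξ (colop Θ' ((1 - g) * M))), e]
    simp only [Matrix.zero_mul, add_zero]
    abel
  have s3 : PEq (rowop (Ξ + g * Ξ) (colop Θ' M))
      (rowop Ξ (colop Θ ((1 - g) * M * (1 + g)))) := by
    refine PEq.e0' (1 + γ) (rowop Ξ (colop Θ' ((1 - g) * M))) hR (h2 _ _ hΞ hΘ') ?_ ?_
    · rw [cR, hΨ, Matrix.mul_sub, b3, ← sub_sub_cancel 1 (rowop _ _), one_sub_phi, ← b5]
      simp only [Matrix.mul_assoc]
    · rw [cR, hΨ, Matrix.sub_mul (1 - g), b4, ← sub_sub_cancel 1 (rowop _ _), one_sub_phi]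
      have : 1 - (1 - g) * M * (1 + g) = (1 - g) * (1 - M) * (1 + g) := by
        rw [Matrix.mul_sub (1 - g), Matrix.mul_one, Matrix.sub_mul (1 - g), b4]
      rw [this]
      simp only [Matrix.mul_assoc]
      rw [b2]
  exact s1.trans (s2.trans s3)

theorem Gen.peq_phi {G : Matrix T T K[X]} (hG : F.Gen G) (R : ℕ) : PEq G (F.Phi R G) := by
  have hΞ := F.XiOK_Xi R
  have hΘ := F.ThOK R
  have n1 := row_nn hG hΞ
  have n2 : NN0 (F.Phi R G) := by
    have := phi_nn hG (Pert.zero R) hΞ hΘ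
    rwa [add_zero] at this
  refine (PEq.row (Ξ := F.Xi R) (fun i => i ∉ F.Z) hG.nn n1 (fun i j hn => ?_) hΞ.coeff_zero
    rfl).trans (PEq.col (Θ := F.Th R) (fun i => i ∉ F.Z) n1 n2 (fun i j hn => ?_)
      (fun i j => hΘ.coeff_zero j i) (eq_colop ?_))
  · exact ⟨(hΞ.supp' hn).1, fun c => c (hΞ.supp' hn).2⟩
  · exact ⟨fun c => c (hΘ.supp' (i := j) (j := i) hn).2, (hΘ.supp' (i := j) (j := i) hn).1⟩
  · rw [Phi, one_sub_phi, one_sub_rowop]

theorem vGen {G G' : Matrix T T K[X]} (hG : F.Gen G) (hG' : F.Gen G') (h : F.VEq G G') :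
    PEq G G' := by
  obtain ⟨R, hR⟩ := h.exists
  exact (hG.peq_phi R).trans (hR.trans (hG'.peq_phi R).symm)

end Frame

end Pool.Agent.MP_841a27_al

end MrgPart2

-- marker of a merged file
example : 731051 + 669614 = 731051 + 669614 := rfl
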