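import Mathlib.LinearAlgebra.Matrix.ToLinearEquiv
import Mathlib.Analysis.Normed.Field.Lemmas
import Mathlib.Algebra.Ring.IsFormallyReal
import Pool.Agent.MP_841a27_al.VEq
import Pool.Agent.MP_841a27_al.QDefs

-- ======== part 0: formerly Pool.Agent.MP_841a27_al.Allow
section MrgPart0

/-!
The allowed patterns of a periodic graded system, and evaluation of rational words.
-/

set_option linter.unusedSectionVars false

namespace Pool.Agent.MP_841a27_al.LCT

open Matrix Polynomial Filter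

section allow
variable {V : Type} [Fintype V] [DecidableEq V] (S : GSys V) (k0 P : ℕ)

/-- Allowed degrees. -/
def Al (d : ℕ) (x y : V) : Prop := 0 < S.z d x y ∨ 0 < S.z (d + k0 * P) x y

/-- Allowed degrees after dilation by `k`. -/
def AlK (k : ℕ) (x y : V) (m : ℕ) : Prop := Al S k0 P (k * m) x y

variable {S k0 P}

theorem per_add (h : S.Per k0 P) {e : ℕ} (he : k0 ≤ e) (j : ℕ) (x y : V) :
    0 < S.z (e + j * P) x y ↔ 0 < S.z e x y := by
  induction j with
  | zero => simp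
  | succ j ih =>
    rw [← ih, show e + (j + 1) * P = e + j * P + P by ring]
    exact h.2.2 _ (by omega) x y

theorem per_congr (h : S.Per k0 P) {e e' : ℕ} (he : k0 ≤ e) (he' : k0 ≤ e') (hc : e ≡ e' [MOD P])
    {x y : V} (h0 : 0 < S.z e x y) : 0 < S.z e' x y := by
  rcases le_total e e' with hle | hle
  · obtain ⟨j, hj⟩ := (Nat.modEq_iff_dvd' hle).mp hc
    rw [show e' = e + j * P by rw [mul_comm]; omega]
    exact (per_add h he j x y).mpr h0
  · obtain ⟨j, hj⟩ := (Nat.modEq_iff_dvd' hle).mp hc.symm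
    rw [show e = e' + j * P by rw [mul_comm]; omega] at h0
    exact (per_add h he' j x y).mp h0

theorem k0_le (h : S.Per k0 P) (d : ℕ) : k0 ≤ d + k0 * P :=
  le_add_left (Nat.le_mul_of_pos_right _ h.1)

theorem Al.of_large (h : S.Per k0 P) {e d : ℕ} (he : k0 ≤ e) (hc : e ≡ d [MOD P]) {x y : V}
    (h0 : 0 < S.z e x y) : Al S k0 P d x y :=
  Or.inr (per_congr h he (k0_le h d) (hc.trans (by simp [Nat.ModEq])) h0)

theorem Al.pos (h : S.Per k0 P) {d : ℕ} (hd : k0 ≤ d) {x y : V} (h0 : Al S k0 P d x y) :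
    0 < S.z d x y := h0.elim id (per_add h hd k0 x y).mp

theorem Al.rep {d : ℕ} {x y : V} (h0 : Al S k0 P d x y) :
    ∃ e, d ≤ e ∧ e ≡ d [MOD P] ∧ 0 < S.z e x y :=
  h0.elim (fun h => ⟨d, le_rfl, Nat.ModEq.refl _, h⟩)
    fun h => ⟨_, Nat.le_add_right _ _, by simp [Nat.ModEq], h⟩

theorem Al.trans (h : S.Per k0 P) {d d' : ℕ} {x y w : V} (h1 : Al S k0 P d x y)
    (h2 : Al S k0 P d' y w) : Al S k0 P (d + d') x w := by
  rcases h1 with h1 | h1
  · rcases h2 with h2 | h2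
    · exact Or.inl (S.pos h1 h2)
    · exact Or.inr (by rw [add_assoc]; exact S.pos h1 h2)
  · obtain ⟨e, -, hc, h2⟩ := h2.rep
    refine Al.of_large h (le_add_right (k0_le h d)) ?_ (S.pos h1 h2)
    exact Nat.ModEq.add (by simp [Nat.ModEq]) hc

theorem z_refl (x : V) : 0 < S.z 0 x x := by rw [S.zero]; simp

theorem z_cyc {a : ℕ} {x : V} (h : 0 < S.z a x x) (n : ℕ) : 0 < S.z (n * a) x x := by
  induction n with
  | zero => rw [zero_mul]; exact z_refl x
  | succ n ih => rw [add_mul, one_mul]; exact S.pos ih h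

theorem Al.inv (h : S.Per k0 P) {x y : V} {m₁ m₂ m m' : ℕ} (h1 : Al S k0 P m₁ x y)
    (h2 : Al S k0 P m₂ y x) (h0 : 0 < m₁ + m₂) (h3 : Al S k0 P m x y) (hd : P ∣ m + m') :
    Al S k0 P m' y x := by
  obtain ⟨d₁, l₁, -, p₁⟩ := h1.rep
  obtain ⟨d₂, l₂, -, p₂⟩ := h2.rep
  obtain ⟨d, -, c, p⟩ := h3.rep
  obtain ⟨Q, rfl⟩ : ∃ Q, P = Q + 1 := ⟨P - 1, by have := h.1; omega⟩
  have q1 := S.pos (S.pos p₂ (z_cyc (S.pos p p₂) Q)) (z_cyc (S.pos p₁ p₂) ((Q + 1) * k0))
  refine Al.of_large h ?_ ?_ q1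
  · have : k0 ≤ (Q + 1) * k0 * (d₁ + d₂) :=
      (Nat.le_mul_of_pos_left _ (by omega)).trans (Nat.le_mul_of_pos_right _ (by omega))
    omega
  · apply Nat.ModEq.add_right_cancel' m
    have a1 : m' + m ≡ 0 [MOD (Q + 1)] := by
      rw [add_comm m' m]; exact (Nat.modEq_zero_iff_dvd).mpr hd
    refine Nat.ModEq.trans ?_ a1.symm
    refine (Nat.ModEq.add_left _ c.symm).trans ((Nat.modEq_zero_iff_dvd).mpr ?_)
    exact ⟨d + d₂ + k0 * (d₁ + d₂), by ring⟩

theorem alAx (h : S.Per k0 P) {k : ℕ} (hk : 1 ≤ k) : AlAx (AlK S k0 P k) P where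
  pos := h.1
  refl x := Or.inl (by rw [mul_zero]; exact z_refl x)
  trans h1 h2 := by unfold AlK; rw [mul_add]; exact Al.trans h h1 h2
  inv h1 h2 h0 h3 hd := by
    refine Al.inv h h1 h2 ?_ h3 ?_
    · rw [← mul_add]; exact Nat.mul_pos hk h0
    · rw [← mul_add]; exact Dvd.dvd.mul_left hd _
  zero {x y} h0 hne := by
    have hk0 : 1 ≤ k0 := S.n0_pos.trans h.2.1
    refine ⟨k0 * P, Nat.mul_pos hk0 h.1, ?_⟩
    unfold AlK Al at h0
    rw [mul_zero, S.zero, if_neg hne] at h0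
    have h1 := h0.resolve_left (lt_irrefl _)
    refine Al.of_large h (k0_le h 0) ?_ h1
    have a : 0 + k0 * P ≡ 0 [MOD P] := by simp [Nat.ModEq]
    have b : k * (k0 * P) ≡ 0 [MOD P] := (Nat.modEq_zero_iff_dvd).mpr ⟨k * k0, by ring⟩
    exact a.trans b.symm

end allow

section group
variable {N : ℕ} {V : Type} [Fintype V] [DecidableEq V] {A : V → V → ℕ → Prop} {P : ℕ}

theorem alS_one (h : AlAx A P) : AlS A (1 : QM N V) := by
  intro i j m h0
  by_cases e : i = j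
  · subst e
    rw [Matrix.one_apply_eq, coeff_one] at h0
    have : m = 0 := by by_contra c; exact h0 (if_neg c)
    subst this; exact h.refl _
  · rw [Matrix.one_apply_ne e, coeff_zero] at h0; exact absurd rfl h0

theorem alS_add {M M' : QM N V} (h1 : AlS A M) (h2 : AlS A M') : AlS A (M + M') := by
  intro i j m h0
  rw [Matrix.add_apply, coeff_add] at h0
  by_cases e : (M i j).coeff m = 0
  · rw [e, zero_add] at h0; exact h2 i j m h0
  · exact h1 i j m e

theorem alS_neg {M : QM N V} (h1 : AlS A M) : AlS A (-M) := fun i j m h0 =>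
  h1 i j m (by simpa using h0)

theorem alS_sub {M M' : QM N V} (h1 : AlS A M) (h2 : AlS A M') : AlS A (M - M') := by
  rw [sub_eq_add_neg]; exact alS_add h1 (alS_neg h2)

theorem alS_mul (h : AlAx A P) {M M' : QM N V} (h1 : AlS A M) (h2 : AlS A M') :
    AlS A (M * M') := by
  intro i j m h0
  rw [Matrix.mul_apply, finsetSum_coeff] at h0
  obtain ⟨y, -, h0⟩ := Finset.exists_ne_zero_of_sum_ne_zero h0
  obtain ⟨e, e', rfl, a, b⟩ := coeff_mul_ne_zero h0
  exact h.trans (h1 _ _ _ a) (h2 _ _ _ b)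

theorem levUp_add {M M' : QM N V} (h1 : LevUp M) (h2 : LevUp M') : LevUp (M + M') := by
  intro i j h0
  rw [Matrix.add_apply, coeff_add] at h0
  by_cases e : (M i j).coeff 0 = 0
  · rw [e, zero_add] at h0; exact h2 i j h0
  · exact h1 i j e

theorem levUp_mul {M M' : QM N V} (h1 : LevUp M) (h2 : LevUp M') : LevUp (M * M') := by
  intro i j h0
  rw [Matrix.mul_apply, finsetSum_coeff] at h0
  obtain ⟨y, -, h0⟩ := Finset.exists_ne_zero_of_sum_ne_zero h0
  rw [mul_coeff_zero] at h0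
  exact (h1 _ _ (left_ne_zero_of_mul h0)).trans (h2 _ _ (right_ne_zero_of_mul h0))

theorem levUp_mul_sub {M M' : QM N V} (h1 : LevUp (M - 1)) (h2 : LevUp (M' - 1)) :
    LevUp (M * M' - 1) := by
  have : M * M' - 1 = (M - 1) * (M' - 1) + ((M - 1) + (M' - 1)) := by noncomm_ring
  rw [this]
  exact levUp_add (levUp_mul h1 h2) (levUp_add h1 h2)

theorem inG_one (h : AlAx A P) : InG A (1 : (QM N V)ˣ) :=
  ⟨alS_one h, fun i j h0 => by simp at h0, alS_one h, fun i j h0 => by simp at h0⟩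

theorem inG_mul (h : AlAx A P) {u v : (QM N V)ˣ} (hu : InG A u) (hv : InG A v) :
    InG A (u * v) := by
  refine ⟨alS_mul h hu.1 hv.1, levUp_mul_sub hu.2.1 hv.2.1, ?_, ?_⟩
  · rw [_root_.mul_inv_rev]; exact alS_mul h hv.2.2.1 hu.2.2.1
  · rw [_root_.mul_inv_rev]; exact levUp_mul_sub hv.2.2.2 hu.2.2.2

theorem inG_inv {u : (QM N V)ˣ} (hu : InG A u) : InG A u⁻¹ :=
  ⟨hu.2.2.1, hu.2.2.2, by rw [inv_inv]; exact hu.1, by rw [inv_inv]; exact hu.2.1⟩

theorem cong_mul_left {L : ℕ} {M M' : QM N V} (h : Cong L M M') (U : QM N V) :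
    Cong L (U * M) (U * M') := fun i j => by
  rw [← Matrix.sub_apply, ← Matrix.mul_sub, Matrix.mul_apply]
  exact Finset.dvd_sum fun y _ => Dvd.dvd.mul_left (h y j) _

theorem cong_mul_right {L : ℕ} {M M' : QM N V} (h : Cong L M M') (U : QM N V) :
    Cong L (M * U) (M' * U) := fun i j => by
  rw [← Matrix.sub_apply, ← Matrix.sub_mul, Matrix.mul_apply]
  exact Finset.dvd_sum fun y _ => Dvd.dvd.mul_right (h i y) _

theorem cong_trans {L : ℕ} {M M' M'' : QM N V} (h : Cong L M M') (h' : Cong L M' M'') :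
    Cong L M M'' := fun i j => by
  have := dvd_add (h i j) (h' i j)
  rwa [sub_add_sub_cancel] at this

theorem cong_symm {L : ℕ} {M M' : QM N V} (h : Cong L M M') : Cong L M' M := fun i j => by
  have := (h i j).neg_right
  rwa [neg_sub] at this

theorem cong_one_sub {L : ℕ} {M M' : QM N V} (h : Cong L M M') : Cong L (1 - M) (1 - M') :=
  fun i j => by
    have := (h i j).neg_right
    simp only [Matrix.sub_apply]
    rwa [show (1 : QM N V) i j - M i j - ((1 : QM N V) i j - M' i j) = -(M i j - M' i j) by ring]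

theorem lowNN_cong {L : ℕ} (hL : 1 ≤ L) {M M' : QM N V} (h : Cong L M M') (h' : LowNN L M') :
    LowNN L M := fun i j => by
  have e : ∀ m, m < L → (M i j).coeff m = (M' i j).coeff m := fun m hm => by
    have := X_pow_dvd_iff.mp (h i j) m hm
    rwa [coeff_sub, sub_eq_zero] at this
  exact ⟨by rw [e 0 hL]; exact (h' i j).1, fun m hm => by rw [e m hm]; exact (h' i j).2 m hm⟩

end group

section ev
variable {K : Type} [Field K] [LinearOrder K] [IsStrictOrderedRing K]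

/-- Substitution of `c X ^ k` for `X`. -/
noncomputable def sub (k : ℕ) (c : K) : ℚ[X] →+* K[X] :=
  (expand K k).toRingHom.comp ((compRingHom (C c * X)).comp (mapRingHom (Rat.castHom K)))

theorem coeff_sub' {k : ℕ} (hk : 1 ≤ k) (c : K) (p : ℚ[X]) (d : ℕ) :
    (sub k c p).coeff d = if k ∣ d then (p.coeff (d / k) : K) * c ^ (d / k) else 0 := by
  simp [sub, coeff_expand hk, comp_C_mul_X_coeff]

theorem sub_X (k : ℕ) (c : K) : sub k c X = monomial k c := by
  simp [sub, C_mul_X_pow_eq_monomial]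

theorem sub_C (k : ℕ) (c : K) (q : ℚ) : sub k c (C q) = C (q : K) := by
  simp [sub]

variable {N : ℕ} {V : Type} [Fintype V] [DecidableEq V]

/-- Evaluation of a rational word. -/
noncomputable def ev (k : ℕ) (c η : K) (U : QM N V) : Matrix (Ix N V) (Ix N V) K[X] :=
  Matrix.of fun i j => C (η ^ (j.1 : ℕ) / η ^ (i.1 : ℕ)) * sub k c (U i j)

variable {k : ℕ} {c η : K}

theorem ev_add (U W : QM N V) : ev k c η (U + W) = ev k c η U + ev k c η W := by
  ext1 i j; simp [ev, mul_add]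

theorem ev_sub (U W : QM N V) : ev k c η (U - W) = ev k c η U - ev k c η W := by
  ext1 i j; simp [ev, mul_sub]

theorem ev_one (hη : η ≠ 0) : ev k c η (1 : QM N V) = 1 := by
  ext1 i j
  by_cases h : i = j
  · subst h; simp [ev, div_self (pow_ne_zero _ hη)]
  · simp [ev, Matrix.one_apply_ne h]

theorem ev_mul (hη : η ≠ 0) (U W : QM N V) : ev k c η (U * W) = ev k c η U * ev k c η W := by
  ext1 i j
  simp only [ev, Matrix.of_apply, Matrix.mul_apply, map_sum, map_mul, Finset.mul_sum]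
  refine Finset.sum_congr rfl fun y _ => ?_
  have : η ^ (j.1 : ℕ) / η ^ (i.1 : ℕ) =
      η ^ (y.1 : ℕ) / η ^ (i.1 : ℕ) * (η ^ (j.1 : ℕ) / η ^ (y.1 : ℕ)) := by field_simp
  rw [this, map_mul]; ring

theorem coeff_ev (hk : 1 ≤ k) (U : QM N V) (i j : Ix N V) (d : ℕ) :
    (ev k c η U i j).coeff d = η ^ (j.1 : ℕ) / η ^ (i.1 : ℕ) *
      if k ∣ d then ((U i j).coeff (d / k) : K) * c ^ (d / k) else 0 := by
  simp only [ev, Matrix.of_apply, coeff_C_mul, coeff_sub' hk]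

theorem coeff_ev_ne (hk : 1 ≤ k) {U : QM N V} {i j : Ix N V} {d : ℕ}
    (h : (ev k c η U i j).coeff d ≠ 0) : ∃ m, d = k * m ∧ (U i j).coeff m ≠ 0 ∧
      (ev k c η U i j).coeff d = η ^ (j.1 : ℕ) / η ^ (i.1 : ℕ) * (((U i j).coeff m : K) * c ^ m) := by
  rw [coeff_ev hk] at h ⊢
  by_cases hd : k ∣ d
  · obtain ⟨m, rfl⟩ := hd
    rw [if_pos (dvd_mul_right _ _), Nat.mul_div_cancel_left _ hk] at h ⊢
    refine ⟨m, rfl, fun e => h ?_, rfl⟩
    rw [e]; simp
  · rw [if_neg hd, mul_zero] at h; exact absurd rfl h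

theorem sm_ev {ε : K} (hI : Infs ε η) (hc : Bd c ε) (a b : ℕ) (q : ℚ) {m M : ℕ} (hm : M + 1 ≤ m) :
    Sm (η ^ a / η ^ b * ((q : K) * c ^ m)) (ε ^ M) := by
  obtain ⟨h1, h2, h3, h4⟩ := hI
  have e1 : Bd ε 1 := by simpa using (h4 0).bd
  have s1 : Sm (ε / η ^ b) 1 := fun r hr => by
    have := h4 b r hr
    rw [abs_div, abs_of_pos (pow_pos h2 b), div_le_iff₀ (pow_pos h2 b)]
    simpa using this
  obtain ⟨j, rfl⟩ : ∃ j, m = M + 1 + j := ⟨m - (M + 1), by omega⟩
  have b1 : Bd (c ^ (M + 1 + j) / η ^ b) (ε ^ (M + 1 + j) / η ^ b) := by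
    rw [div_eq_mul_inv, div_eq_mul_inv]
    exact (hc.pow _).mul (Bd.self (by positivity))
  have s2 : Sm (ε ^ (M + 1 + j) / η ^ b) (ε ^ M) := by
    have := ((Bd.self (pow_pos h1 M).le).mul (e1.pow j)).mul_sm s1
    simp only [one_pow, mul_one] at this
    rwa [show ε ^ (M + 1 + j) / η ^ b = ε ^ M * ε ^ j * (ε / η ^ b) by ring]
  have := ((h3.bd.pow a).mul (Bd.ratCast q)).mul_sm (b1.trans_sm s2)
  simp only [one_pow, one_mul] at this
  rwa [show η ^ a / η ^ b * ((q : K) * c ^ (M + 1 + j)) =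
    η ^ a * (q : K) * (c ^ (M + 1 + j) / η ^ b) by ring]

theorem sm_lev {ε : K} (hI : Infs ε η) {a b : ℕ} (h : b < a) (q : ℚ) :
    Sm (η ^ a / η ^ b * (q : K)) 1 := by
  obtain ⟨h1, h2, h3, h4⟩ := hI
  obtain ⟨j, rfl⟩ : ∃ j, a = b + 1 + j := ⟨a - (b + 1), by omega⟩
  have := (h3.mul_bd (h3.bd.pow j)).mul_bd (Bd.ratCast q)
  simp only [one_pow, mul_one] at this
  rwa [show η ^ (b + 1 + j) / η ^ b = η * η ^ j by field_simp; ring]

end ev

end Pool.Agent.MP_841a27_al.LCT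

end MrgPart0

-- ======== part 1: formerly Pool.Agent.MP_841a27_al.LCT
section MrgPart1

/-!
Soundness of the word level moves in the presence of a reservoir.
-/

set_option linter.unusedSectionVars false

namespace Pool.Agent.MP_841a27_al.LCT

open Matrix Polynomial Filter Sum

variable {V : Type} [Fintype V] [DecidableEq V] {S : GSys V} {k0 P : ℕ}
variable {K : Type} [Field K] [LinearOrder K] [IsStrictOrderedRing K]

theorem vn_of {T : Type} [Fintype T] [DecidableEq T] {F : Frame S K T} {G E : Matrix T T K[X]}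
    (hG : F.Gen G) (h : ∀ i j d, Sm ((E i j).coeff d) (F.lam i * F.pi j) ∧
      ((E i j).coeff d ≠ 0 → F.L1 i + F.L2 j ≤ d ∧ 0 < F.w i j d))
    (hz : ∀ i ∈ F.Z, ∀ j ∈ F.Z, E i j = 0) : F.VN (G + E) := by
  obtain ⟨R, hR⟩ := cf_eventually_zero E
  refine ⟨G, E, R, hG, ⟨fun i j d => ⟨(h i j d).1, fun h0 => ⟨((h i j d).2 h0).1, ?_,
    ((h i j d).2 h0).2⟩⟩, hz⟩, rfl⟩
  by_contra hc
  exact h0 (congrFun (congrFun (hR d (by omega)) i) j)

/-- Truncation of a polynomial. -/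
noncomputable def lo (n : ℕ) (p : K[X]) : K[X] := ∑ d ∈ Finset.range n, monomial d (p.coeff d)

theorem coeff_lo (n : ℕ) (p : K[X]) (d : ℕ) :
    (lo n p).coeff d = if d < n then p.coeff d else 0 := by
  simp only [lo, finsetSum_coeff, coeff_monomial]
  rw [Finset.sum_ite_eq']
  simp

variable {O : Type} [Fintype O] [DecidableEq O] {N : ℕ}

/-- The standing hypotheses. -/
structure LHyp (S : GSys V) (k0 P : ℕ) (ε η c : K) (k L M : ℕ) (F : Frame S K (O ⊕ Ix N V))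
    (Coo : Matrix O O K[X]) (Cow : Matrix O (Ix N V) K[X]) (Cwo : Matrix (Ix N V) O K[X]) :
    Prop where
  per : S.Per k0 P
  inf : Infs ε η
  hk : 1 ≤ k
  c0 : 0 ≤ c
  cb : Bd c ε
  st : ∀ i, F.st (inr i) = i.2
  nZ : ∀ i, inr i ∉ F.Z
  lam : ∀ i j, F.lam (inr i) = F.lam (inr j)
  pi : ∀ i j, F.pi (inr i) = F.pi (inr j)
  L1 : ∀ i j, F.L1 (inr i) = F.L1 (inr j)
  L2 : ∀ i j, F.L2 (inr i) = F.L2 (inr j)
  k1 : ∀ i, k0 ≤ F.L1 (inr i)
  k2 : ∀ i, k0 ≤ F.L2 (inr i)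
  LL : ∀ i j, F.L1 (inr i) + F.L2 (inr j) ≤ L
  ML : M + 1 ≤ L
  sc : ∀ i j, Bd (ε ^ M) (F.lam (inr i) * F.pi (inr j))
  gen : F.Gen (fromBlocks Coo Cow Cwo 0)
  bwo : ∀ i a d, Bd ((Cwo i a).coeff d) (F.lam (inr i) * F.pi (inl a)) ∧
    ((Cwo i a).coeff d ≠ 0 → F.L1 (inr i) + F.L2 (inl a) ≤ d ∧ 0 < F.w (inr i) (inl a) d)
  bow : ∀ a j d, Bd ((Cow a j).coeff d) (F.lam (inl a) * F.pi (inr j)) ∧
    ((Cow a j).coeff d ≠ 0 → F.L1 (inl a) + F.L2 (inr j) ≤ d ∧ 0 < F.w (inl a) (inr j) d)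

variable {ε η c : K} {k L M : ℕ} {F : Frame S K (O ⊕ Ix N V)}
  {Coo : Matrix O O K[X]} {Cow : Matrix O (Ix N V) K[X]} {Cwo : Matrix (Ix N V) O K[X]}

theorem gen_block (hZ : ∀ i, inr i ∉ F.Z) (h : F.Gen (fromBlocks Coo Cow Cwo 0))
    {Q : Matrix (Ix N V) (Ix N V) K[X]} (hQ : NN0 Q) : F.Gen (fromBlocks Coo Cow Cwo Q) := by
  refine ⟨?_, ?_, ?_, ?_⟩
  · rintro (i | i) (j | j)
    · exact h.nn (inl i) (inl j)
    · exact h.nn (inl i) (inr j)
    · exact h.nn (inr i) (inl j)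
    · exact hQ i j
  · rintro (y | y) hy (w | w) hw
    · exact h.zz _ hy _ hw
    · exact h.zz _ hy _ hw
    · exact h.zz _ hy _ hw
    · exact absurd hw (hZ w)
  · rintro (y | y) hy (w | w) hw
    · exact h.iz _ hy _ hw
    · exact h.iz _ hy _ hw
    · exact h.iz _ hy _ hw
    · exact absurd hw (hZ w)
  · rintro (y | y) hy (w | w) hw
    · exact h.zj _ hy _ hw
    · exact h.zj _ hy _ hw
    · exact h.zj _ hy _ hw
    · exact absurd hw (hZ w)

theorem tiny (hP : S.Per k0 P) (hI : Infs ε η) (hk : 1 ≤ k) (hc : Bd c ε) {u : (QM N V)ˣ}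
    (hu : InG (AlK S k0 P k) u) (i j : Ix N V) (d : ℕ) :
    Sm (((ev k c η (u : QM N V) - 1) i j).coeff d) 1 ∧
      (((ev k c η (u : QM N V) - 1) i j).coeff d ≠ 0 → Al S k0 P d i.2 j.2) := by
  rw [← ev_one (k := k) (c := c) hI.2.1.ne', ← ev_sub]
  by_cases h0 : (ev k c η ((u : QM N V) - 1) i j).coeff d = 0
  · rw [h0]; exact ⟨Sm.zero zero_le_one, fun h => absurd rfl h⟩
  · obtain ⟨m, rfl, h1, h2⟩ := coeff_ev_ne hk h0
    refine ⟨?_, fun _ => alS_sub hu.1 (alS_one (alAx hP hk)) i j m h1⟩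
    rw [h2]
    rcases Nat.eq_zero_or_pos m with rfl | hm
    · rw [pow_zero, mul_one]
      exact sm_lev hI (hu.2.1 i j h1) _
    · rw [← pow_zero ε]; exact sm_ev hI hc j.1 i.1 _ (M := 0) hm

theorem ev_low (hI : Infs ε η) (hk : 1 ≤ k) (hc : 0 ≤ c) {Q : QM N V} (hQ : LowNN L Q)
    (i j : Ix N V) : (ev k c η Q i j).coeff 0 = 0 ∧
      ∀ d, d < k * L → 0 ≤ (ev k c η Q i j).coeff d := by
  constructor
  · rw [coeff_ev hk]; simp [(hQ i j).1]
  · intro d hd
    by_cases h0 : (ev k c η Q i j).coeff d = 0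
    · rw [h0]
    · obtain ⟨m, rfl, -, h2⟩ := coeff_ev_ne hk h0
      rw [h2]
      have h3 : (0 : K) ≤ (Q i j).coeff m := by
        exact_mod_cast (hQ i j).2 m (Nat.lt_of_mul_lt_mul_left hd)
      have := hI.2.1
      positivity

theorem ev_nn0 (hI : Infs ε η) (hk : 1 ≤ k) (hc : 0 ≤ c) {Q : QM N V} (hQ : ∀ L, LowNN L Q) :
    NN0 (ev k c η Q) := fun i j =>
  ⟨(ev_low hI hk hc (hQ 1) i j).1, fun d => (ev_low hI hk hc (hQ (d + 1)) i j).2 d
    (lt_of_lt_of_le (Nat.lt_succ_self d) (Nat.le_mul_of_pos_left _ hk))⟩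

/-- The state matrix. -/
noncomputable def CC (k : ℕ) (c η : K) (Coo : Matrix O O K[X]) (Cow : Matrix O (Ix N V) K[X])
    (Cwo : Matrix (Ix N V) O K[X]) (U W Q : QM N V) : Matrix (O ⊕ Ix N V) (O ⊕ Ix N V) K[X] :=
  fromBlocks Coo (Cow * ev k c η W) (ev k c η U * Cwo) (ev k c η Q)

theorem LHyp.vn (h : LHyp S k0 P ε η c k L M F Coo Cow Cwo) {U W : (QM N V)ˣ} {Q : QM N V}
    (hU : InG (AlK S k0 P k) U) (hW : InG (AlK S k0 P k) W) (hQ : AlS (AlK S k0 P k) Q)
    (hQ' : LowNN L Q) : F.VN (CC k c η Coo Cow Cwo U W Q) := by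
  set Qlo : Matrix (Ix N V) (Ix N V) K[X] := Matrix.of fun i j => lo (k * L) (ev k c η Q i j)
    with hlo
  have n1 : NN0 Qlo := fun i j => by
    simp only [hlo, Matrix.of_apply, coeff_lo]
    refine ⟨?_, fun d => ?_⟩
    · rw [(ev_low h.inf h.hk h.c0 hQ' i j).1]; simp
    · split_ifs with hd
      · exact (ev_low h.inf h.hk h.c0 hQ' i j).2 d hd
      · exact le_rfl
  have e : CC k c η Coo Cow Cwo U W Q = fromBlocks Coo Cow Cwo Qlo +
      fromBlocks 0 (Cow * (ev k c η (W : QM N V) - 1)) ((ev k c η (U : QM N V) - 1) * Cwo)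
        (ev k c η Q - Qlo) := by
    rw [fromBlocks_add, Matrix.mul_sub, Matrix.sub_mul]
    simp [CC]
  rw [e]
  refine vn_of (gen_block h.nZ h.gen n1) ?_ ?_
  · rintro (i | i) (j | j) d
    · simp only [fromBlocks_apply₁₁, Matrix.zero_apply, coeff_zero]
      exact ⟨Sm.zero (mul_nonneg (F.lam_nn _) (F.pi_nn _)), fun h => absurd rfl h⟩
    · rw [fromBlocks_apply₁₂, Matrix.mul_apply, finsetSum_coeff]
      refine ⟨Sm.sum (mul_nonneg (F.lam_nn _) (F.pi_nn _)) fun y _ => ?_, fun h0 => ?_⟩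
      · rw [Polynomial.coeff_mul]
        refine Sm.sum (mul_nonneg (F.lam_nn _) (F.pi_nn _)) fun x _ => ?_
        have := (h.bow i y x.1).1.mul_sm (tiny h.per h.inf h.hk h.cb hW y j x.2).1
        rwa [mul_one, h.pi y j] at this
      · obtain ⟨y, -, h0⟩ := Finset.exists_ne_zero_of_sum_ne_zero h0
        obtain ⟨x, x', rfl, a, b⟩ := coeff_mul_ne_zero h0
        obtain ⟨a1, a2⟩ := (h.bow i y x).2 a
        have b1 := (tiny h.per h.inf h.hk h.cb hW y j x').2 b
        have := h.k2 y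
        rw [h.L2 y j] at a1 this
        refine ⟨by omega, ?_⟩
        unfold Frame.w at a2 ⊢
        rw [h.st] at a2 ⊢
        exact (Al.trans h.per (Or.inl a2) b1).pos h.per (by omega)
    · rw [fromBlocks_apply₂₁, Matrix.mul_apply, finsetSum_coeff]
      refine ⟨Sm.sum (mul_nonneg (F.lam_nn _) (F.pi_nn _)) fun y _ => ?_, fun h0 => ?_⟩
      · rw [Polynomial.coeff_mul]
        refine Sm.sum (mul_nonneg (F.lam_nn _) (F.pi_nn _)) fun x _ => ?_
        have := (tiny h.per h.inf h.hk h.cb hU i y x.1).1.mul_bd (h.bwo y j x.2).1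
        rwa [one_mul, h.lam y i] at this
      · obtain ⟨y, -, h0⟩ := Finset.exists_ne_zero_of_sum_ne_zero h0
        obtain ⟨x, x', rfl, a, b⟩ := coeff_mul_ne_zero h0
        obtain ⟨b1, b2⟩ := (h.bwo y j x').2 b
        have a1 := (tiny h.per h.inf h.hk h.cb hU i y x).2 a
        have := h.k1 y
        rw [h.L1 y i] at b1 this
        refine ⟨by omega, ?_⟩
        unfold Frame.w at b2 ⊢
        rw [h.st] at b2 ⊢
        exact (Al.trans h.per a1 (Or.inl b2)).pos h.per (by omega)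
    · rw [fromBlocks_apply₂₂, Matrix.sub_apply, coeff_sub, hlo, Matrix.of_apply, coeff_lo]
      split_ifs with hd
      · rw [sub_self]
        exact ⟨Sm.zero (mul_nonneg (F.lam_nn _) (F.pi_nn _)), fun h => absurd rfl h⟩
      · rw [sub_zero]
        by_cases h0 : (ev k c η Q i j).coeff d = 0
        · rw [h0]
          exact ⟨Sm.zero (mul_nonneg (F.lam_nn _) (F.pi_nn _)), fun h => absurd rfl h⟩
        · obtain ⟨m, rfl, h1, h2⟩ := coeff_ev_ne h.hk h0
          have hm : L ≤ m := Nat.le_of_mul_le_mul_left (not_lt.mp hd) h.hk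
          have hm' : m ≤ k * m := Nat.le_mul_of_pos_left _ h.hk
          have := h.LL i j
          have := h.k1 i
          refine ⟨?_, fun _ => ⟨by omega, ?_⟩⟩
          · rw [h2]
            exact (sm_ev h.inf h.cb _ _ _ (h.ML.trans hm)).trans_bd (h.sc i j)
          · unfold Frame.w
            rw [h.st, h.st]
            exact Al.pos h.per (by omega) (hQ i j m h1)
  · rintro (i | i) hi (j | j) hj
    · rfl
    · exact absurd hj (h.nZ j)
    · exact absurd hi (h.nZ i)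
    · exact absurd hi (h.nZ i)

/-- Extension of the evaluation by the identity. -/
noncomputable def EE (O : Type) [DecidableEq O] (k : ℕ) (c η : K) (U : QM N V) :
    Matrix (O ⊕ Ix N V) (O ⊕ Ix N V) K[X] := fromBlocks 1 0 0 (ev k c η U)

theorem one_sub_CC (hη : η ≠ 0) (U W P₀ : QM N V) :
    1 - CC k c η Coo Cow Cwo U W (1 - P₀) =
      fromBlocks (1 - Coo) (-(Cow * ev k c η W)) (-(ev k c η U * Cwo)) (ev k c η P₀) := by
  rw [CC, ev_sub, ev_one hη, ← fromBlocks_one, sub_eq_add_neg, fromBlocks_neg, fromBlocks_add]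
  simp [sub_eq_add_neg]

theorem CC_left (hη : η ≠ 0) (u U W P₀ : QM N V) :
    1 - CC k c η Coo Cow Cwo (u * U) W (1 - u * P₀) =
      EE O k c η u * (1 - CC k c η Coo Cow Cwo U W (1 - P₀)) := by
  rw [one_sub_CC hη, one_sub_CC hη, EE, fromBlocks_multiply]
  simp [ev_mul hη, Matrix.mul_assoc]

theorem CC_right (hη : η ≠ 0) (u U W P₀ : QM N V) :
    1 - CC k c η Coo Cow Cwo U (W * u) (1 - P₀ * u) =
      (1 - CC k c η Coo Cow Cwo U W (1 - P₀)) * EE O k c η u := by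
  rw [one_sub_CC hη, one_sub_CC hη, EE, fromBlocks_multiply]
  simp [ev_mul hη, Matrix.mul_assoc]

theorem EE_one_add (hη : η ≠ 0) (Ξ : QM N V) :
    EE O k c η (1 + Ξ) = 1 + fromBlocks 0 0 0 (ev k c η Ξ) := by
  rw [EE, ev_add, ev_one hη, ← fromBlocks_one, fromBlocks_add]; simp

/-- Realizability. -/
def Re (S : GSys V) (k0 P : ℕ) (η c : K) (k L : ℕ) (F : Frame S K (O ⊕ Ix N V))
    (Coo : Matrix O O K[X]) (Cow : Matrix O (Ix N V) K[X]) (Cwo : Matrix (Ix N V) O K[X])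
    (PA : QM N V) (P₀ : QM N V) (U W : (QM N V)ˣ) : Prop :=
  InG (AlK S k0 P k) U ∧ InG (AlK S k0 P k) W ∧ ∀ U₀ W₀ : (QM N V)ˣ,
    InG (AlK S k0 P k) U₀ → InG (AlK S k0 P k) W₀ →
      Cong L ((U₀ : QM N V) * PA * (W₀ : QM N V)) P₀ →
        F.VEq (CC k c η Coo Cow Cwo U₀ W₀ (1 - (U₀ : QM N V) * PA * (W₀ : QM N V)))
          (CC k c η Coo Cow Cwo (U * U₀ : (QM N V)ˣ) (W₀ * W : (QM N V)ˣ)
            (1 - ((U * U₀ : (QM N V)ˣ) : QM N V) * PA * ((W₀ * W : (QM N V)ˣ) : QM N V)))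

theorem ev_ne_zero {U : QM N V} {i j : Ix N V} (h : ev k c η U i j ≠ 0) : U i j ≠ 0 := fun e =>
  h (by simp [ev, e])

theorem inG_of_sq (hA : AlAx (AlK S k0 P k) P) {u : (QM N V)ˣ} {Ξ : QM N V}
    (hu : (u : QM N V) = 1 + Ξ) (h2 : Ξ * Ξ = 0) (ha : AlS (AlK S k0 P k) Ξ) (hl : LevUp Ξ) :
    InG (AlK S k0 P k) u ∧ ((u⁻¹ : (QM N V)ˣ) : QM N V) = 1 - Ξ := by
  have e : ((u⁻¹ : (QM N V)ˣ) : QM N V) = 1 - Ξ := by
    apply Units.inv_eq_of_mul_eq_one_right
    have : (1 + Ξ) * (1 - Ξ) = 1 - Ξ * Ξ := by noncomm_ring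
    rw [hu, this, h2, sub_zero]
  refine ⟨⟨hu ▸ alS_add (alS_one hA) ha, by rw [hu, add_sub_cancel_left]; exact hl,
    e ▸ alS_sub (alS_one hA) ha, ?_⟩, e⟩
  rw [e, sub_sub_cancel_left]
  intro i j h0
  exact hl i j (by simpa using h0)

theorem sq_zero_of_supp {Ξ : QM N V} {p : Ix N V → Prop} (h : ∀ i j, Ξ i j ≠ 0 → p i ∧ ¬ p j) :
    Ξ * Ξ = 0 := by
  ext1 i j
  rw [Matrix.mul_apply]
  refine Finset.sum_eq_zero fun y _ => ?_
  by_cases h1 : Ξ i y = 0
  · rw [h1, zero_mul]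
  · by_cases h2 : Ξ y j = 0
    · rw [h2, mul_zero]
    · exact absurd (h y j h2).1 (h i y h1).2

theorem lowNN_mul_const {Q : QM N V} (hQ : LowNN L Q) {g : Matrix (Ix N V) (Ix N V) ℚ}
    (hg : ∀ i j, 0 ≤ g i j) : LowNN L (Q * (1 + g.map C)) := fun i j => by
  rw [Matrix.mul_add, Matrix.mul_one, Matrix.add_apply, Matrix.mul_apply]
  simp only [coeff_add, finsetSum_coeff, Matrix.map_apply, coeff_mul_C]
  refine ⟨?_, fun m hm => add_nonneg ((hQ i j).2 m hm)
    (Finset.sum_nonneg fun y _ => mul_nonneg ((hQ i y).2 m hm) (hg y j))⟩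
  rw [(hQ i j).1, zero_add]
  exact Finset.sum_eq_zero fun y _ => by rw [(hQ i y).1, zero_mul]

theorem LHyp.reAx (h : LHyp S k0 P ε η c k L M F Coo Cow Cwo) {PA : QM N V}
    (hPA : AlS (AlK S k0 P k) PA) :
    ReAx (AlK S k0 P k) L (Re S k0 P η c k L F Coo Cow Cwo PA) := by
  have hA := alAx h.per h.hk
  have hη := h.inf.2.1.ne'
  have hL : 1 ≤ L := by have := h.ML; omega
  have hal : ∀ {U W : (QM N V)ˣ}, InG (AlK S k0 P k) U → InG (AlK S k0 P k) W →
      AlS (AlK S k0 P k) (1 - (U : QM N V) * PA * (W : QM N V)) := fun hU hW =>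
    alS_sub (alS_one hA) (alS_mul hA (alS_mul hA hU.1 hPA) hW.1)
  refine ⟨?_, ?_, ?_, ?_, ?_, ?_⟩
  · rintro P₀ U W U' W' ⟨hU, hW, h1⟩ ⟨hU', hW', h2⟩
    refine ⟨inG_mul hA hU' hU, inG_mul hA hW hW', fun U₀ W₀ a b e => ?_⟩
    have := h2 (U * U₀) (W₀ * W) (inG_mul hA hU a) (inG_mul hA b hW) (by
      have := cong_mul_right (cong_mul_left e (U : QM N V)) (W : QM N V)
      simpa only [Units.val_mul, Matrix.mul_assoc] using this)
    rw [mul_assoc U' U U₀, ← mul_assoc W₀ W W']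
    exact (h1 U₀ W₀ a b e).trans this
  · rintro P₀ U W ⟨hU, hW, h1⟩
    refine ⟨inG_inv hU, inG_inv hW, fun U₀ W₀ a b e => ?_⟩
    have := h1 (U⁻¹ * U₀) (W₀ * W⁻¹) (inG_mul hA (inG_inv hU) a) (inG_mul hA b (inG_inv hW)) (by
      have := cong_mul_right (cong_mul_left e ((U⁻¹ : (QM N V)ˣ) : QM N V))
        ((W⁻¹ : (QM N V)ˣ) : QM N V)
      simpa only [Units.val_mul, Matrix.mul_assoc, Units.inv_mul_cancel_left, Units.mul_inv,
        Matrix.mul_one] using this)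
    rw [mul_inv_cancel_left, inv_mul_cancel_right] at this
    exact this.symm
  · rintro P₀ P₁ U W e ⟨hU, hW, h1⟩
    exact ⟨hU, hW, fun U₀ W₀ a b e' => h1 U₀ W₀ a b (cong_trans e' (cong_symm e))⟩
  · intro P₀ Ξ p u hu hs ha h0 l1 l2
    have hu' := (inG_of_sq hA hu (sq_zero_of_supp hs) ha fun i j e => absurd (h0 i j) e).1
    refine ⟨hu', inG_one hA, fun U₀ W₀ a b e => ?_⟩
    rw [mul_one]
    have e' := cong_mul_left e (u : QM N V)
    refine Frame.vRow (Ξ₀ := fromBlocks 0 0 0 (ev k c η Ξ)) (Sum.elim (fun _ => False) p)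
      (h.vn a b (hal a b) (lowNN_cong hL (cong_one_sub e) l1))
      (h.vn (inG_mul hA hu' a) b (hal (inG_mul hA hu' a) b) (lowNN_cong hL (cong_one_sub ?_) l2))
      ?_ ?_ ?_
    · simpa only [Units.val_mul, Matrix.mul_assoc] using e'
    · rintro (i | i) (j | j) hn
      · exact absurd rfl hn
      · exact absurd rfl hn
      · exact absurd rfl hn
      · exact ⟨(hs i j (ev_ne_zero hn)).1, (hs i j (ev_ne_zero hn)).2, h.nZ i⟩
    · rintro (i | i) (j | j)
      · rfl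
      · rfl
      · rfl
      · rw [fromBlocks_apply₂₂, coeff_ev h.hk]; simp [h0]
    · rw [← EE_one_add hη, ← hu, ← CC_left hη]
      simp only [Units.val_mul, Matrix.mul_assoc]
  · intro P₀ Θ p u hu hs ha h0 l1 l2
    have hu' := (inG_of_sq hA hu (sq_zero_of_supp (p := fun i => ¬ p i)
      fun i j e => ⟨(hs i j e).1, not_not.mpr (hs i j e).2⟩) ha
        fun i j e => absurd (h0 i j) e).1
    refine ⟨inG_one hA, hu', fun U₀ W₀ a b e => ?_⟩
    rw [one_mul]
    have e' := cong_mul_right e (u : QM N V)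
    refine Frame.vCol (Θ₀ := fromBlocks 0 0 0 (ev k c η Θ)) (Sum.elim (fun _ => False) p)
      (h.vn a b (hal a b) (lowNN_cong hL (cong_one_sub e) l1))
      (h.vn a (inG_mul hA b hu') (hal a (inG_mul hA b hu')) (lowNN_cong hL (cong_one_sub ?_) l2))
      ?_ ?_ ?_
    · simpa only [Units.val_mul, Matrix.mul_assoc] using e'
    · rintro (i | i) (j | j) hn
      · exact absurd rfl hn
      · exact absurd rfl hn
      · exact absurd rfl hn
      · exact ⟨(hs i j (ev_ne_zero hn)).1, (hs i j (ev_ne_zero hn)).2, h.nZ j⟩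
    · rintro (i | i) (j | j)
      · rfl
      · rfl
      · rfl
      · rw [fromBlocks_apply₂₂, coeff_ev h.hk]; simp [h0]
    · rw [← EE_one_add hη, ← hu, ← CC_right hη]
      simp only [Units.val_mul, Matrix.mul_assoc]
  · intro P₀ g u hu g0 gg hs l1 l2
    have gsq : (-g.map C : QM N V) * (-g.map C) = 0 := by
      rw [neg_mul_neg, ← Matrix.map_mul (f := (C : ℚ →+* ℚ[X])), gg]; simp
    have gne : ∀ i j m, ((-g.map C : QM N V) i j).coeff m ≠ 0 → m = 0 ∧ g i j ≠ 0 := by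
      intro i j m e
      simp only [Matrix.neg_apply, Matrix.map_apply, coeff_neg, coeff_C, ne_eq, neg_eq_zero] at e
      by_cases hm : m = 0
      · exact ⟨hm, fun e' => e (by simp [e'])⟩
      · exact absurd (if_neg hm) e
    obtain ⟨hu', hinv⟩ := inG_of_sq hA (Ξ := -g.map C) (by rw [hu, sub_eq_add_neg]) gsq
      (fun i j m e => by
        obtain ⟨rfl, e'⟩ := gne i j m e
        exact (hs i j e').1)
      (fun i j e => (hs i j (gne i j 0 e).2).2)
    rw [sub_neg_eq_add] at hinv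
    refine ⟨hu', inG_inv hu', fun U₀ W₀ a b e => ?_⟩
    set γ : Matrix (O ⊕ Ix N V) (O ⊕ Ix N V) K := fromBlocks 0 0 0
      (Matrix.of fun i j => η ^ (j.1 : ℕ) / η ^ (i.1 : ℕ) * (g i j : K)) with hγ
    have cγ : cm γ = fromBlocks 0 0 0 (ev k c η (g.map C)) := by
      rw [hγ, cm_fromBlocks, cm_zero, cm_zero, cm_zero]
      congr 1
      ext1 i j
      simp [ev, sub_C]
    have E1 : 1 + cm γ = EE O k c η ((u⁻¹ : (QM N V)ˣ) : QM N V) := by
      rw [hinv, EE_one_add hη, cγ]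
    have E2 : 1 - cm γ = EE O k c η (u : QM N V) := by
      rw [hu, cγ, EE, ev_sub, ev_one hη, ← fromBlocks_one, sub_eq_add_neg, fromBlocks_neg,
        fromBlocks_add]
      simp [sub_eq_add_neg]
    have EE1 : EE O k c η (u : QM N V) * EE O k c η ((u⁻¹ : (QM N V)ˣ) : QM N V) = 1 := by
      rw [EE, EE, fromBlocks_multiply, ← ev_mul hη]
      simp [ev_one hη]
    have γne : ∀ i j, γ i j ≠ 0 → ∃ i' j', i = inr i' ∧ j = inr j' ∧ g i' j' ≠ 0 := by
      rintro (i | i) (j | j) hn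
      · exact absurd rfl hn
      · exact absurd rfl hn
      · exact absurd rfl hn
      · exact ⟨i, j, rfl, rfl, fun e => hn (by simp [hγ, e])⟩
    set P₁ := (U₀ : QM N V) * PA * (W₀ : QM N V) with hP₁
    have M1 : (1 - cm γ) * CC k c η Coo Cow Cwo U₀ W₀ (1 - P₁) =
        CC k c η Coo Cow Cwo (u * U₀ : (QM N V)ˣ) W₀ ((u : QM N V) * (1 - P₁)) := by
      rw [E2, EE, CC, CC, fromBlocks_multiply]
      simp [ev_mul hη, Matrix.mul_assoc]
    have key := Frame.vConj (F := F) (M := CC k c η Coo Cow Cwo U₀ W₀ (1 - P₁)) (γ := γ)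
      ?_ ?_ ?_ (h.vn a b (hal a b) (lowNN_cong hL (cong_one_sub e) l1))
      (M1 ▸ h.vn (inG_mul hA hu' a) b (alS_mul hA hu'.1 (hal a b))
        (lowNN_cong hL (cong_mul_left (cong_one_sub e) _) l2))
    · have M2 : (1 - cm γ) * CC k c η Coo Cow Cwo U₀ W₀ (1 - P₁) * (1 + cm γ) =
          CC k c η Coo Cow Cwo (u * U₀ : (QM N V)ˣ) (W₀ * u⁻¹ : (QM N V)ˣ)
            (1 - ((u * U₀ : (QM N V)ˣ) : QM N V) * PA * ((W₀ * u⁻¹ : (QM N V)ˣ) : QM N V)) := by
        apply sub_right_injective (b := 1)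
        simp only
        have : ((u * U₀ : (QM N V)ˣ) : QM N V) * PA * ((W₀ * u⁻¹ : (QM N V)ˣ) : QM N V) =
            ((u : QM N V) * P₁) * ((u⁻¹ : (QM N V)ˣ) : QM N V) := by
          simp only [hP₁, Units.val_mul, Matrix.mul_assoc]
        rw [this, Units.val_mul, Units.val_mul, CC_right hη, CC_left hη, E1, E2,
          Matrix.mul_sub, Matrix.sub_mul, Matrix.mul_one, EE1]
      rwa [M2] at key
    · rintro (i | i) (j | j)
      · exact le_rfl
      · exact le_rfl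
      · exact le_rfl
      · have h1 : (0 : K) ≤ g i j := by exact_mod_cast g0 i j
        have h2 := h.inf.2.1
        simp only [hγ, fromBlocks_apply₂₂, Matrix.of_apply]
        positivity
    · have : cm (γ * γ) = 0 := by
        rw [cm_mul, cγ, fromBlocks_multiply, ← ev_mul hη,
          ← Matrix.map_mul (f := (C : ℚ →+* ℚ[X])), gg]
        ext (i | i) (j | j) <;> simp [ev]
      ext i j
      simpa using congrFun (congrFun this i) j
    · intro i j hn
      obtain ⟨i, j, rfl, rfl, hg⟩ := γne i j hn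
      have a0 : Al S k0 P 0 i.2 j.2 := by simpa [AlK] using (hs i j hg).1
      refine ⟨⟨h.nZ i, h.lam i j, h.L1 i j, sm_lev h.inf (hs i j hg).2 _, fun y d hd hw => ?_⟩,
        h.nZ j, h.pi j i, h.L2 j i, fun y d hd hw => ?_⟩
      · unfold Frame.w at hw ⊢
        rw [h.st] at hw ⊢
        have := Al.trans h.per a0 (Or.inl hw)
        rw [zero_add] at this
        exact this.pos h.per ((h.k1 j).trans hd)
      · unfold Frame.w at hw ⊢
        rw [h.st] at hw ⊢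
        exact (Al.trans h.per (Or.inl hw) a0).pos h.per ((h.k2 i).trans hd)

/-- The property of the number of levels supplied by the word level theorem. -/
def QTProp (A : V → V → ℕ → Prop) (L N : ℕ) : Prop :=
  ∀ Re : QM N V → (QM N V)ˣ → (QM N V)ˣ → Prop, ReAx A L Re →
    ∀ (P₀ : QM N V) (U W : (QM N V)ˣ), Lev0 P₀ → Lev0 (U : QM N V) → Lev0 (W : QM N V) →
      InG A U → InG A W → AlS A P₀ → (∀ L', LowNN L' (1 - P₀)) →
      (∀ L', LowNN L' (1 - (U : QM N V) * P₀ * (W : QM N V))) → Re P₀ U W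

theorem lct (hQ : QTProp (AlK S k0 P k) L N) (h : LHyp S k0 P ε η c k L M F Coo Cow Cwo)
    (P₀ : QM N V) (U W : (QM N V)ˣ) (l0 : Lev0 P₀) (l1 : Lev0 (U : QM N V))
    (l2 : Lev0 (W : QM N V)) (hU : InG (AlK S k0 P k) U) (hW : InG (AlK S k0 P k) W)
    (hP : AlS (AlK S k0 P k) P₀) (n1 : ∀ L', LowNN L' (1 - P₀))
    (n2 : ∀ L', LowNN L' (1 - (U : QM N V) * P₀ * (W : QM N V)))
    (hg : F.Gen (fromBlocks Coo (Cow * ev k c η (W : QM N V)) (ev k c η (U : QM N V) * Cwo) 0)) :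
    PEq (fromBlocks Coo Cow Cwo (ev k c η (1 - P₀)))
      (fromBlocks Coo (Cow * ev k c η (W : QM N V)) (ev k c η (U : QM N V) * Cwo)
        (ev k c η (1 - (U : QM N V) * P₀ * (W : QM N V)))) := by
  have hA := alAx h.per h.hk
  have hη := h.inf.2.1.ne'
  have key := (hQ _ (h.reAx hP) P₀ U W l0 l1 l2 hU hW hP n1 n2).2.2 1 1 (inG_one hA) (inG_one hA)
    (fun i j => by simp)
  simp only [Units.val_one, mul_one, one_mul, CC, ev_one hη, Matrix.mul_one, Matrix.one_mul] at key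
  exact Frame.vGen (gen_block h.nZ h.gen (ev_nn0 h.inf h.hk h.c0 n1))
    (gen_block h.nZ hg (ev_nn0 h.inf h.hk h.c0 n2)) key

end Pool.Agent.MP_841a27_al.LCT

end MrgPart1

-- ======== part 2: formerly Pool.Agent.MP_841a27_al.SK1Tau
section MrgPart2

/-!
Transvections `1 + x yᵀ` as units, and their basic calculus.
-/

namespace Pool.Agent.MP_841a27_al

open Matrix
open scoped commutatorElement

section
variable {ι R : Type} [Fintype ι] [DecidableEq ι] [CommRing R]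

theorem tv_mul (x y x' y' : ι → R) (h : y ⬝ᵥ x' = 0) :
    (1 + vecMulVec x y) * (1 + vecMulVec x' y') = 1 + vecMulVec x y + vecMulVec x' y' := by
  rw [add_mul, mul_add, mul_add, one_mul, mul_one, one_mul, vecMulVec_mul_vecMulVec, h, zero_smul,
    vecMulVec_zero]
  abel

open Classical in
/-- The transvection `1 + x yᵀ` as a unit (the identity when `y ⬝ᵥ x ≠ 0`). -/
noncomputable def tau (x y : ι → R) : (Matrix ι ι R)ˣ :=
  if h : y ⬝ᵥ x = 0 then
    ⟨1 + vecMulVec x y, 1 + vecMulVec x (-y),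
      by rw [tv_mul _ _ _ _ h, vecMulVec_neg]; abel,
      by rw [tv_mul _ _ _ _ (by rw [neg_dotProduct, h, neg_zero]), vecMulVec_neg]; abel⟩
  else 1

theorem tau_val {x y : ι → R} (h : y ⬝ᵥ x = 0) :
    ((tau x y : (Matrix ι ι R)ˣ) : Matrix ι ι R) = 1 + vecMulVec x y := by
  simp [tau, h]

theorem tau_of_ne {x y : ι → R} (h : y ⬝ᵥ x ≠ 0) : tau x y = 1 := by
  simp [tau, h]

theorem tau_add_right {x y y' : ι → R} (h : y ⬝ᵥ x = 0) (h' : y' ⬝ᵥ x = 0) :
    tau x (y + y') = tau x y * tau x y' := by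
  apply Units.ext
  rw [Units.val_mul, tau_val h, tau_val h', tau_val (by rw [add_dotProduct, h, h', add_zero]),
    tv_mul _ _ _ _ h, vecMulVec_add, add_assoc]

theorem tau_add_left {x x' y : ι → R} (h : y ⬝ᵥ x = 0) (h' : y ⬝ᵥ x' = 0) :
    tau (x + x') y = tau x y * tau x' y := by
  apply Units.ext
  rw [Units.val_mul, tau_val h, tau_val h', tau_val (by rw [dotProduct_add, h, h', add_zero]),
    tv_mul _ _ _ _ h', add_vecMulVec, add_assoc]

theorem tau_zero_right (x : ι → R) : tau x 0 = 1 := by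
  apply Units.ext
  rw [tau_val (zero_dotProduct _), vecMulVec_zero, add_zero, Units.val_one]

theorem tau_zero_left (y : ι → R) : tau 0 y = 1 := by
  apply Units.ext
  rw [tau_val (dotProduct_zero _), zero_vecMulVec, add_zero, Units.val_one]

theorem tau_inv (x y : ι → R) : (tau x y)⁻¹ = tau x (-y) := by
  by_cases h : y ⬝ᵥ x = 0
  · rw [inv_eq_iff_mul_eq_one, ← tau_add_right h (by rw [neg_dotProduct, h, neg_zero]),
      add_neg_cancel, tau_zero_right]
  · rw [tau_of_ne h, tau_of_ne (by rwa [neg_dotProduct, neg_ne_zero]), inv_one]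

theorem tau_smul (a : R) (x y : ι → R) : tau (a • x) y = tau x (a • y) := by
  by_cases h : y ⬝ᵥ (a • x) = 0
  · have h' : (a • y) ⬝ᵥ x = 0 := by rwa [smul_dotProduct, ← dotProduct_smul]
    apply Units.ext
    rw [tau_val h, tau_val h', smul_vecMulVec, vecMulVec_smul]
  · have h' : (a • y) ⬝ᵥ x ≠ 0 := by rwa [smul_dotProduct, ← dotProduct_smul]
    rw [tau_of_ne h, tau_of_ne h']

theorem tau_neg_left (x y : ι → R) : tau (-x) y = tau x (-y) := by
  rw [← neg_one_smul R x, tau_smul, neg_one_smul]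

theorem conj_tau (g : (Matrix ι ι R)ˣ) (x y : ι → R) :
    g * tau x y * g⁻¹ =
      tau ((g : Matrix ι ι R) *ᵥ x) (y ᵥ* ((g⁻¹ : (Matrix ι ι R)ˣ) : Matrix ι ι R)) := by
  have key : (y ᵥ* ((g⁻¹ : (Matrix ι ι R)ˣ) : Matrix ι ι R)) ⬝ᵥ ((g : Matrix ι ι R) *ᵥ x)
      = y ⬝ᵥ x := by
    rw [dotProduct_mulVec, vecMul_vecMul, Units.inv_mul, vecMul_one]
  by_cases h : y ⬝ᵥ x = 0
  · apply Units.ext
    rw [Units.val_mul, Units.val_mul, tau_val h, tau_val (key.trans h), mul_add, add_mul, mul_one,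
      Units.mul_inv, mul_vecMulVec, vecMulVec_mul]
  · rw [tau_of_ne h, tau_of_ne (by rwa [key]), mul_one, mul_inv_cancel]

theorem tau_mulVec {x y : ι → R} (h : y ⬝ᵥ x = 0) (z : ι → R) :
    ((tau x y : (Matrix ι ι R)ˣ) : Matrix ι ι R) *ᵥ z = z + (y ⬝ᵥ z) • x := by
  rw [tau_val h, add_mulVec, one_mulVec, vecMulVec_mulVec, op_smul_eq_smul]

theorem vecMul_tau {x y : ι → R} (h : y ⬝ᵥ x = 0) (z : ι → R) :
    z ᵥ* ((tau x y : (Matrix ι ι R)ˣ) : Matrix ι ι R) = z + (z ⬝ᵥ x) • y := by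
  rw [tau_val h, vecMul_add, vecMul_one, vecMul_vecMulVec]

theorem tau_conj_tau {x y : ι → R} (h : y ⬝ᵥ x = 0) (x' y' : ι → R) :
    tau x y * tau x' y' * (tau x y)⁻¹ = tau (x' + (y ⬝ᵥ x') • x) (y' - (y' ⬝ᵥ x) • y) := by
  rw [conj_tau, tau_mulVec h, tau_inv, vecMul_tau (by rw [neg_dotProduct, h, neg_zero]), smul_neg,
    sub_eq_add_neg]

/-- Commutator when `y' ⬝ᵥ x = 0`. -/
theorem comm_tau_left {x y x' y' : ι → R} (h : y ⬝ᵥ x = 0) (h' : y' ⬝ᵥ x' = 0)
    (h2 : y' ⬝ᵥ x = 0) : ⁅tau x y, tau x' y'⁆ = tau x ((y ⬝ᵥ x') • y') := by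
  rw [commutatorElement_def, tau_conj_tau h, h2, zero_smul, sub_zero, add_comm,
    tau_add_left (by rw [dotProduct_smul, h2, smul_zero]) h', mul_inv_cancel_right, tau_smul]

/-- Commutator when `y ⬝ᵥ x' = 0`. -/
theorem comm_tau_right {x y x' y' : ι → R} (h : y ⬝ᵥ x = 0) (h' : y' ⬝ᵥ x' = 0)
    (h2 : y ⬝ᵥ x' = 0) : ⁅tau x y, tau x' y'⁆ = tau x' (-((y' ⬝ᵥ x) • y)) := by
  rw [commutatorElement_def, tau_conj_tau h, h2, zero_smul, add_zero, sub_eq_neg_add,
    tau_add_right (by rw [neg_dotProduct, smul_dotProduct, h2, smul_zero, neg_zero]) h',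
    mul_inv_cancel_right]

theorem tau_sum_right {κ : Type} (s : Finset κ) (H : Subgroup (Matrix ι ι R)ˣ) (x : ι → R)
    (y : κ → ι → R) (h : ∀ k ∈ s, y k ⬝ᵥ x = 0) (hH : ∀ k ∈ s, tau x (y k) ∈ H) :
    tau x (∑ k ∈ s, y k) ∈ H := by
  classical
  induction s using Finset.induction_on with
  | empty => rw [Finset.sum_empty, tau_zero_right]; exact H.one_mem
  | insert a s ha ih =>
    rw [Finset.sum_insert ha, tau_add_right (h a (Finset.mem_insert_self _ _))]
    · exact H.mul_mem (hH a (Finset.mem_insert_self _ _))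
        (ih (fun k hk => h k (Finset.mem_insert_of_mem hk))
          (fun k hk => hH k (Finset.mem_insert_of_mem hk)))
    · rw [sum_dotProduct]
      exact Finset.sum_eq_zero fun k hk => h k (Finset.mem_insert_of_mem hk)

/-- Transvections are natural with respect to ring homomorphisms. -/
theorem map_tau {S : Type} [CommRing S] (f : R →+* S) {x y : ι → R} (h : y ⬝ᵥ x = 0) :
    Units.map (f.mapMatrix : Matrix ι ι R →+* Matrix ι ι S).toMonoidHom (tau x y)
      = tau (f ∘ x) (f ∘ y) := by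
  have h' : (f ∘ y) ⬝ᵥ (f ∘ x) = 0 := by rw [← RingHom.map_dotProduct, h, map_zero]
  apply Units.ext
  rw [Units.coe_map, tau_val h, tau_val h']
  change f.mapMatrix (1 + vecMulVec x y) = _
  rw [map_add, map_one]
  congr 1
  ext i j
  simp [vecMulVec_apply]

/-- A transvection whose first vector has an invertible entry is conjugate to a row
transvection by a transvection fixing the corresponding coordinate. -/
theorem tau_eq_conj {x y : ι → R} (h : y ⬝ᵥ x = 0) (j : ι) (c : R) (hc : c * x j = 1) :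
    tau x y = tau (c • x - Pi.single j 1) (Pi.single j 1) *
      tau (Pi.single j 1) (x j • (y - y j • Pi.single j 1)) *
      (tau (c • x - Pi.single j 1) (Pi.single j 1))⁻¹ := by
  have h0 : (Pi.single j (1 : R) : ι → R) ⬝ᵥ (c • x - Pi.single j 1) = 0 := by
    simp [hc]
  rw [tau_conj_tau h0]
  have e1 : (Pi.single j 1 + ((Pi.single j (1 : R) : ι → R) ⬝ᵥ Pi.single j 1) •
      (c • x - Pi.single j 1) : ι → R) = c • x := by simp
  have e2 : (x j • (y - y j • Pi.single j 1) - ((x j • (y - y j • Pi.single j 1)) ⬝ᵥ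
      (c • x - Pi.single j 1)) • Pi.single j 1 : ι → R) = x j • y := by
    have : (x j • (y - y j • Pi.single j 1)) ⬝ᵥ (c • x - Pi.single j 1) = -(x j * y j) := by
      simp only [smul_dotProduct, sub_dotProduct, dotProduct_sub, dotProduct_smul, h,
        single_dotProduct, dotProduct_single, smul_eq_mul, Pi.single_eq_same, Pi.sub_apply,
        Pi.smul_apply]
      linear_combination (-(x j * y j)) * hc
    rw [this, smul_sub, smul_smul, neg_smul]
    abel
  rw [e1, e2, tau_smul, smul_smul, hc, one_smul]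

end

end Pool.Agent.MP_841a27_al

end MrgPart2

-- ======== part 3: formerly Pool.Agent.MP_841a27_al.SK1Base
section MrgPart3

/-!
Invertible matrices over `ℚ[X]` that are congruent to the identity modulo `X` are products of
transvections `1 + X v wᵀ` with `v` constant.
-/

namespace Pool.Agent.MP_841a27_al

open Matrix Polynomial

theorem coeff_prod_of_le {κ : Type} (s : Finset κ) (f : κ → ℚ[X]) (n : κ → ℕ)
    (h : ∀ i ∈ s, (f i).natDegree ≤ n i) :
    (∏ i ∈ s, f i).natDegree ≤ ∑ i ∈ s, n i ∧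
      (∏ i ∈ s, f i).coeff (∑ i ∈ s, n i) = ∏ i ∈ s, (f i).coeff (n i) := by
  classical
  induction s using Finset.induction_on with
  | empty => simp
  | insert a s ha ih =>
    obtain ⟨i1, i2⟩ := ih fun i hi => h i (Finset.mem_insert_of_mem hi)
    have ha' := h a (Finset.mem_insert_self _ _)
    rw [Finset.prod_insert ha, Finset.sum_insert ha, Finset.prod_insert ha]
    exact ⟨natDegree_mul_le.trans (add_le_add ha' i1),
      by rw [coeff_mul_add_eq_of_natDegree_le ha' i1, i2]⟩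

section
variable {ι : Type} [Fintype ι] [DecidableEq ι]

theorem coeff_det_of_le (M : Matrix ι ι ℚ[X]) (d : ι → ℕ) (h : ∀ i j, (M i j).natDegree ≤ d i) :
    M.det.coeff (∑ i, d i) = (Matrix.of fun i j => (M i j).coeff (d i)).det := by
  rw [det_apply', det_apply', finsetSum_coeff]
  refine Finset.sum_congr rfl fun σ _ => ?_
  have := (coeff_prod_of_le Finset.univ (fun i => M (σ i) i) (fun i => d (σ i))
    (fun i _ => h _ _)).2
  rw [Equiv.sum_comp σ d] at this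
  rw [← map_intCast (C : ℚ →+* ℚ[X]), coeff_C_mul, this]
  rfl

/-- The constant term, as an endomorphism of `ℚ[X]`. -/
noncomputable def ev0r : ℚ[X] →+* ℚ[X] := C.comp constantCoeff

theorem ev0r_apply (p : ℚ[X]) : ev0r p = C (p.coeff 0) := rfl

/-- The constant term, as an endomorphism of the group of invertible matrices. -/
noncomputable def ev0 : (Matrix ι ι ℚ[X])ˣ →* (Matrix ι ι ℚ[X])ˣ :=
  Units.map (ev0r.mapMatrix : Matrix ι ι ℚ[X] →+* Matrix ι ι ℚ[X]).toMonoidHom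

theorem ev0_apply (u : (Matrix ι ι ℚ[X])ˣ) (i j : ι) :
    ((ev0 u : (Matrix ι ι ℚ[X])ˣ) : Matrix ι ι ℚ[X]) i j
      = C (((u : Matrix ι ι ℚ[X]) i j).coeff 0) := rfl

theorem ev0_tau {x y : ι → ℚ[X]} (h : y ⬝ᵥ x = 0) :
    ev0 (tau x y) = tau (ev0r ∘ x) (ev0r ∘ y) := map_tau ev0r h

variable (ι) in
/-- Transvections `1 + X v wᵀ` with a constant first vector. -/
def TcSet : Set (Matrix ι ι ℚ[X])ˣ :=
  {u | ∃ (v : ι → ℚ) (w : ι → ℚ[X]), w ⬝ᵥ (C ∘ v) = 0 ∧ u = tau (C ∘ v) ((X : ℚ[X]) • w)}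

theorem conj_mem_Tc (g t : (Matrix ι ι ℚ[X])ˣ) (ht : t ∈ Subgroup.closure (TcSet ι)) :
    ev0 g * t * (ev0 g)⁻¹ ∈ Subgroup.closure (TcSet ι) := by
  induction ht using Subgroup.closure_induction with
  | mem x hx =>
    obtain ⟨v, w, h, rfl⟩ := hx
    apply Subgroup.subset_closure
    have e1 : ((ev0 g : (Matrix ι ι ℚ[X])ˣ) : Matrix ι ι ℚ[X]) *ᵥ (C ∘ v)
        = C ∘ ((Matrix.of fun i j => ((g : Matrix ι ι ℚ[X]) i j).coeff 0) *ᵥ v) := by
      funext i
      simp [mulVec, dotProduct, ev0_apply]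
    refine ⟨(Matrix.of fun i j => ((g : Matrix ι ι ℚ[X]) i j).coeff 0) *ᵥ v,
      w ᵥ* (((ev0 g)⁻¹ : (Matrix ι ι ℚ[X])ˣ) : Matrix ι ι ℚ[X]), ?_, ?_⟩
    · rw [← e1, dotProduct_mulVec, vecMul_vecMul, Units.inv_mul, vecMul_one, h]
    · rw [conj_tau, e1, smul_vecMul]
  | one => simp
  | mul x y _ _ hx hy =>
    have : ev0 g * (x * y) * (ev0 g)⁻¹ = (ev0 g * x * (ev0 g)⁻¹) * (ev0 g * y * (ev0 g)⁻¹) := by
      group
    rw [this]
    exact Subgroup.mul_mem _ hx hy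
  | inv x _ hx =>
    have : ev0 g * x⁻¹ * (ev0 g)⁻¹ = (ev0 g * x * (ev0 g)⁻¹)⁻¹ := by group
    rw [this]
    exact Subgroup.inv_mem _ hx

theorem phi_mul {u u' : (Matrix ι ι ℚ[X])ˣ} (h : u * (ev0 u)⁻¹ ∈ Subgroup.closure (TcSet ι))
    (h' : u' * (ev0 u')⁻¹ ∈ Subgroup.closure (TcSet ι)) :
    (u * u') * (ev0 (u * u'))⁻¹ ∈ Subgroup.closure (TcSet ι) := by
  have : (u * u') * (ev0 (u * u'))⁻¹
      = (u * (ev0 u)⁻¹) * (ev0 u * (u' * (ev0 u')⁻¹) * (ev0 u)⁻¹) := by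
    rw [map_mul]; group
  rw [this]
  exact Subgroup.mul_mem _ h (conj_mem_Tc _ _ h')

omit [Fintype ι] in
theorem C_comp_single (i : ι) :
    (C ∘ (Pi.single i (1 : ℚ) : ι → ℚ) : ι → ℚ[X]) = Pi.single i 1 := by
  funext j
  by_cases h : j = i
  · subst h; simp
  · simp [h]

omit [Fintype ι] in
theorem ev0r_comp_single (i : ι) :
    (ev0r ∘ (Pi.single i (1 : ℚ[X]) : ι → ℚ[X]) : ι → ℚ[X]) = Pi.single i 1 := by
  funext j
  by_cases h : j = i
  · subst h; simp
  · simp [h]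

omit [Fintype ι] [DecidableEq ι] in
theorem sub_ev0r (y : ι → ℚ[X]) : y = (X : ℚ[X]) • (fun j => divX (y j)) + ev0r ∘ y := by
  funext j
  simp only [Pi.add_apply, Pi.smul_apply, smul_eq_mul, Function.comp, ev0r_apply]
  rw [mul_comm, divX_mul_X_add]

theorem phi_row (i : ι) (y : ι → ℚ[X]) (hy : y i = 0) :
    tau (Pi.single i 1) y * (ev0 (tau (Pi.single i 1) y))⁻¹ ∈ Subgroup.closure (TcSet ι) := by
  have h0 : y ⬝ᵥ Pi.single i 1 = 0 := by simp [hy]
  have h1 : (fun j => divX (y j)) ⬝ᵥ (Pi.single i 1 : ι → ℚ[X]) = 0 := by simp [hy]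
  have h2 : (ev0r ∘ y) ⬝ᵥ (Pi.single i 1 : ι → ℚ[X]) = 0 := by simp [hy]
  rw [ev0_tau h0, ev0r_comp_single]
  have : tau (Pi.single i 1) y = tau (Pi.single i 1) ((X : ℚ[X]) • fun j => divX (y j)) *
      tau (Pi.single i 1) (ev0r ∘ y) := by
    rw [← tau_add_right (by rw [smul_dotProduct, h1, smul_zero]) h2, ← sub_ev0r]
  rw [this, mul_inv_cancel_right]
  exact Subgroup.subset_closure ⟨Pi.single i 1, _, by rw [C_comp_single, h1],
    by rw [C_comp_single]⟩

theorem phi_all (n : ℕ) : ∀ (u : (Matrix ι ι ℚ[X])ˣ) (d : ι → ℕ),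
    (∀ i j, ((u : Matrix ι ι ℚ[X]) i j).natDegree ≤ d i) → ∑ i, d i = n →
    u * (ev0 u)⁻¹ ∈ Subgroup.closure (TcSet ι) := by
  induction n using Nat.strong_induction_on with
  | _ n ih =>
  intro u d hd hn
  by_cases hL : (Matrix.of fun i j => ((u : Matrix ι ι ℚ[X]) i j).coeff (d i)).det = 0
  · obtain ⟨c, hc0, hc⟩ := Matrix.exists_vecMul_eq_zero_iff.mpr hL
    have hne : (Finset.univ.filter fun i => c i ≠ 0).Nonempty := by
      by_contra hcon
      apply hc0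
      funext i
      by_contra hi
      exact hcon ⟨i, Finset.mem_filter.mpr ⟨Finset.mem_univ _, hi⟩⟩
    obtain ⟨i0, hi0, hmax⟩ := Finset.exists_max_image _ d hne
    have hc1 : c i0 ≠ 0 := (Finset.mem_filter.mp hi0).2
    have hmax' : ∀ i, c i ≠ 0 → d i ≤ d i0 := fun i hi =>
      hmax i (Finset.mem_filter.mpr ⟨Finset.mem_univ _, hi⟩)
    let z : ι → ℚ[X] := fun i => C (c i / c i0) * X ^ (d i0 - d i)
    let y : ι → ℚ[X] := z - Pi.single i0 1
    have hy : y i0 = 0 := by simp [y, z, hc1]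
    have h0 : y ⬝ᵥ Pi.single i0 1 = 0 := by simp [hy]
    set u' := tau (Pi.single i0 1) y * u with hu'
    have hval : (u' : Matrix ι ι ℚ[X]) = u + vecMulVec (Pi.single i0 1)
        (y ᵥ* (u : Matrix ι ι ℚ[X])) := by
      rw [hu', Units.val_mul, tau_val h0, add_mul, one_mul, vecMulVec_mul]
    have hne' : ∀ i j, i ≠ i0 → (u' : Matrix ι ι ℚ[X]) i j = (u : Matrix ι ι ℚ[X]) i j := by
      intro i j hi
      rw [hval]
      simp [vecMulVec_apply, hi]
    have heq : ∀ j, (u' : Matrix ι ι ℚ[X]) i0 j = ∑ i, z i * (u : Matrix ι ι ℚ[X]) i j := by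
      intro j
      rw [hval]
      simp [vecMulVec_apply, y, sub_vecMul, vecMul, dotProduct]
    have hdeg : ∀ j, ((u' : Matrix ι ι ℚ[X]) i0 j).natDegree ≤ d i0 := by
      intro j
      rw [heq]
      refine natDegree_sum_le_of_forall_le _ _ fun i _ => ?_
      by_cases hi : c i = 0
      · simp [z, hi]
      · have := hmax' i hi
        calc (z i * (u : Matrix ι ι ℚ[X]) i j).natDegree
            ≤ (z i).natDegree + ((u : Matrix ι ι ℚ[X]) i j).natDegree := natDegree_mul_le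
          _ ≤ (d i0 - d i) + d i := add_le_add (natDegree_C_mul_X_pow_le _ _) (hd i j)
          _ = d i0 := by omega
    have hcoef : ∀ j, ((u' : Matrix ι ι ℚ[X]) i0 j).coeff (d i0) = 0 := by
      intro j
      rw [heq, finsetSum_coeff]
      have h1 : ∀ i, (z i * (u : Matrix ι ι ℚ[X]) i j).coeff (d i0)
          = (c i0)⁻¹ * (c i * ((u : Matrix ι ι ℚ[X]) i j).coeff (d i)) := by
        intro i
        by_cases hi : c i = 0
        · simp [z, hi]
        · have := hmax' i hi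
          have e : d i0 = d i + (d i0 - d i) := by omega
          simp only [z]
          rw [mul_assoc, coeff_C_mul]
          conv_lhs => rw [e]
          rw [Nat.add_sub_cancel_left, coeff_X_pow_mul]
          ring
      simp only [h1]
      rw [← Finset.mul_sum]
      have := congrFun hc j
      simp only [vecMul, dotProduct, Matrix.of_apply, Pi.zero_apply] at this
      rw [this, mul_zero]
    by_cases hd0 : d i0 = 0
    · exfalso
      have hz : ∀ j, (u' : Matrix ι ι ℚ[X]) i0 j = 0 := by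
        intro j
        have h1 := hdeg j
        have h2 := hcoef j
        rw [hd0] at h1 h2
        rw [eq_C_of_natDegree_le_zero h1, h2, map_zero]
      have := congrFun (congrFun (Units.mul_inv u') i0) i0
      rw [Matrix.mul_apply] at this
      simp [hz] at this
    · have hlt : ∑ i, Function.update d i0 (d i0 - 1) i < n := by
        rw [← hn]
        apply Finset.sum_lt_sum
        · intro i _
          by_cases hi : i = i0
          · subst hi; simp
          · simp [hi]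
        · exact ⟨i0, Finset.mem_univ _, by simp; omega⟩
      have h1 := ih _ hlt u' (Function.update d i0 (d i0 - 1)) (by
        intro i j
        by_cases hi : i = i0
        · subst hi
          rw [Function.update_self]
          exact natDegree_le_pred (hdeg j) (hcoef j)
        · rw [Function.update_of_ne hi, hne' i j hi]
          exact hd i j) rfl
      have h2 := phi_row i0 (-y) (by simp [hy])
      have h3 := phi_mul h2 h1
      rwa [← tau_inv, hu', inv_mul_cancel_left] at h3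
  · rw [← coeff_det_of_le _ d hd] at hL
    have hu : IsUnit (u : Matrix ι ι ℚ[X]).det := (Matrix.isUnit_iff_isUnit_det _).mp u.isUnit
    have h0 := natDegree_eq_zero_of_isUnit hu
    have h1 : ∑ i, d i = 0 := by
      have := le_natDegree_of_ne_zero hL
      omega
    have h2 : ev0 u = u := by
      apply Units.ext
      ext1 i j
      have : d i = 0 := (Finset.sum_eq_zero_iff.mp h1) i (Finset.mem_univ _)
      rw [ev0_apply, ← eq_C_of_natDegree_le_zero (this ▸ hd i j)]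
    rw [h2, mul_inv_cancel]
    exact Subgroup.one_mem _

theorem mem_Tc_of_ev0 (u : (Matrix ι ι ℚ[X])ˣ) (hu : ev0 u = 1) :
    u ∈ Subgroup.closure (TcSet ι) := by
  have := phi_all _ u (fun i => ∑ j, ((u : Matrix ι ι ℚ[X]) i j).natDegree)
    (fun i j => Finset.single_le_sum (f := fun j => ((u : Matrix ι ι ℚ[X]) i j).natDegree)
      (fun _ _ => Nat.zero_le _) (Finset.mem_univ j)) rfl
  rwa [hu, inv_one, mul_one] at this

theorem ev0_tau_X {x y : ι → ℚ[X]} (h : y ⬝ᵥ x = 0) (hy : ∀ i, (y i).coeff 0 = 0) :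
    ev0 (tau x y) = 1 := by
  rw [ev0_tau h]
  have : ev0r ∘ y = 0 := by
    funext i
    simp [ev0r_apply, hy]
  rw [this, tau_zero_right]

theorem Tc_eq_ker : Subgroup.closure (TcSet ι) = (ev0 (ι := ι)).ker := by
  apply le_antisymm
  · rw [Subgroup.closure_le]
    rintro _ ⟨v, w, h, rfl⟩
    exact ev0_tau_X (by rw [smul_dotProduct, h, smul_zero]) (by simp)
  · exact fun u hu => mem_Tc_of_ev0 u hu

end

end Pool.Agent.MP_841a27_al

end MrgPart3

-- ======== part 4: formerly Pool.Agent.MP_841a27_al.SK1Sym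
section MrgPart4

/-!
Symbols `[x_ij(a), x_ji(b)]` in a quotient of `GL(ℚ[X])` that kills the transvections of
level `n`.
-/

namespace Pool.Agent.MP_841a27_al

open Matrix Polynomial
open scoped commutatorElement

section general
variable {ι R : Type} [Fintype ι] [DecidableEq ι] [CommRing R]

theorem commute_tau {x y x' y' : ι → R} (h : y ⬝ᵥ x = 0) (h' : y' ⬝ᵥ x' = 0)
    (h1 : (y ⬝ᵥ x') • y' = 0) (h2 : (y' ⬝ᵥ x) • y = 0) : Commute (tau x y) (tau x' y') := by
  apply Units.ext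
  rw [Units.val_mul, Units.val_mul, tau_val h, tau_val h']
  simp only [add_mul, mul_add, one_mul, mul_one, vecMulVec_mul_vecMulVec, h1, h2, vecMulVec_zero]
  abel

omit [Fintype ι] in
theorem smul_single_mul (i : ι) (a b : R) :
    a • (Pi.single i b : ι → R) = Pi.single i (a * b) := by
  rw [← smul_eq_mul, Pi.single_smul]

omit [Fintype ι] in
theorem comp_single {S : Type} [CommRing S] (f : R →+* S) (i : ι) (a : R) :
    (f ∘ (Pi.single i a : ι → R) : ι → S) = Pi.single i (f a) := by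
  funext j
  by_cases h : j = i
  · subst h; simp
  · simp [h]

/-- Units fixing the coordinate `k` on both sides. -/
def Stab (k : ι) : Subgroup (Matrix ι ι R)ˣ where
  carrier := {g | (g : Matrix ι ι R) *ᵥ Pi.single k 1 = Pi.single k 1 ∧
    Pi.single k 1 ᵥ* (g : Matrix ι ι R) = Pi.single k 1}
  mul_mem' := by
    rintro a b ⟨ha, ha'⟩ ⟨hb, hb'⟩
    refine ⟨?_, ?_⟩
    · rw [Units.val_mul, ← mulVec_mulVec, hb, ha]
    · rw [Units.val_mul, ← vecMul_vecMul, ha', hb']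
  one_mem' := ⟨by rw [Units.val_one, one_mulVec], by rw [Units.val_one, vecMul_one]⟩
  inv_mem' := by
    rintro a ⟨ha, ha'⟩
    refine ⟨?_, ?_⟩
    · conv_lhs => rw [← ha]
      rw [mulVec_mulVec, Units.inv_mul, one_mulVec]
    · conv_lhs => rw [← ha']
      rw [vecMul_vecMul, Units.mul_inv, vecMul_one]

theorem tau_mem_Stab {x y : ι → R} (h : y ⬝ᵥ x = 0) {k : ι} (hx : x k = 0) (hy : y k = 0) :
    tau x y ∈ Stab (R := R) k :=
  ⟨by rw [tau_mulVec h]; simp [hy], by rw [vecMul_tau h]; simp [hx]⟩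

end general

section
variable {ι : Type} [Fintype ι] [DecidableEq ι]

/-- The congruence subgroup of level `X ^ n`. -/
noncomputable def Kn (n : ℕ) : Subgroup (Matrix ι ι ℚ[X])ˣ :=
  (Units.map ((Ideal.Quotient.mk (Ideal.span {(X : ℚ[X]) ^ n})).mapMatrix :
    Matrix ι ι ℚ[X] →+* Matrix ι ι _).toMonoidHom).ker

theorem mem_Kn {n : ℕ} {u : (Matrix ι ι ℚ[X])ˣ} : u ∈ Kn n ↔
    ∀ i j, (X : ℚ[X]) ^ n ∣ (u : Matrix ι ι ℚ[X]) i j - (1 : Matrix ι ι ℚ[X]) i j := by
  rw [Kn, MonoidHom.mem_ker, Units.ext_iff, Units.coe_map, Units.val_one]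
  change (Ideal.Quotient.mk (Ideal.span {(X : ℚ[X]) ^ n})).mapMatrix (u : Matrix ι ι ℚ[X]) = 1 ↔ _
  rw [← map_one (Ideal.Quotient.mk (Ideal.span {(X : ℚ[X]) ^ n})).mapMatrix, ← Matrix.ext_iff]
  refine forall_congr' fun i => forall_congr' fun j => ?_
  rw [RingHom.mapMatrix_apply, RingHom.mapMatrix_apply, Matrix.map_apply, Matrix.map_apply,
    Ideal.Quotient.eq, Ideal.mem_span_singleton]

theorem comm_mem_Kn {n : ℕ} {i j : ι} (hij : i ≠ j) {a b : ℚ[X]} (h : X ^ n ∣ a * b) :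
    ⁅tau (Pi.single i (1 : ℚ[X])) (Pi.single j a), tau (Pi.single j 1) (Pi.single i b)⁆
      ∈ Kn (ι := ι) n := by
  have hab : Ideal.Quotient.mk (Ideal.span {(X : ℚ[X]) ^ n}) a *
      Ideal.Quotient.mk (Ideal.span {(X : ℚ[X]) ^ n}) b = 0 := by
    rw [← map_mul, Ideal.Quotient.eq_zero_iff_mem, Ideal.mem_span_singleton]
    exact h
  rw [Kn, MonoidHom.mem_ker, map_commutatorElement, map_tau _ (by simp [hij.symm]),
    map_tau _ (by simp [hij]), commutatorElement_eq_one_iff_commute]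
  simp only [comp_single, map_one]
  apply commute_tau
  · simp [hij.symm]
  · simp [hij]
  · rw [single_dotProduct, Pi.single_eq_same, mul_one, smul_single_mul, hab, Pi.single_zero]
  · rw [single_dotProduct, Pi.single_eq_same, mul_one, smul_single_mul, mul_comm, hab,
      Pi.single_zero]

theorem Kn_mulVec {n : ℕ} {u : (Matrix ι ι ℚ[X])ˣ} (hu : u ∈ Kn n) (x : ι → ℚ[X]) (i : ι) :
    X ^ n ∣ ((u : Matrix ι ι ℚ[X]) *ᵥ x - x) i := by
  have : (u : Matrix ι ι ℚ[X]) *ᵥ x - x = ((u : Matrix ι ι ℚ[X]) - 1) *ᵥ x := by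
    rw [sub_mulVec, one_mulVec]
  rw [this]
  exact Finset.dvd_sum fun j _ => Dvd.dvd.mul_right (mem_Kn.mp hu i j) _

theorem Kn_vecMul {n : ℕ} {u : (Matrix ι ι ℚ[X])ˣ} (hu : u ∈ Kn n) (y : ι → ℚ[X]) (j : ι) :
    X ^ n ∣ (y ᵥ* (u : Matrix ι ι ℚ[X]) - y) j := by
  have : y ᵥ* (u : Matrix ι ι ℚ[X]) - y = y ᵥ* ((u : Matrix ι ι ℚ[X]) - 1) := by
    rw [vecMul_sub, vecMul_one]
  rw [this]
  exact Finset.dvd_sum fun i _ => Dvd.dvd.mul_left (mem_Kn.mp hu i j) _

variable {Γ : Type} [Group Γ]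

/-- The homomorphism kills all transvections of level `n`. -/
def Kills (π : (Matrix ι ι ℚ[X])ˣ →* Γ) (n : ℕ) : Prop :=
  ∀ x y : ι → ℚ[X], y ⬝ᵥ x = 0 → (∀ i, X ^ n ∣ y i) → π (tau x y) = 1

variable {π : (Matrix ι ι ℚ[X])ˣ →* Γ} {n : ℕ}

theorem Kills.left (hK : Kills π n) {x y : ι → ℚ[X]} (h : y ⬝ᵥ x = 0) (hx : ∀ i, X ^ n ∣ x i) :
    π (tau x y) = 1 := by
  choose x' hx' using hx
  have e : x = (X ^ n : ℚ[X]) • x' := funext hx'
  rw [e, tau_smul]
  refine hK _ _ ?_ fun i => Dvd.intro _ rfl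
  rwa [smul_dotProduct, ← dotProduct_smul, ← e]

theorem Kills.commute_of_vecMul (hK : Kills π n) {γ : (Matrix ι ι ℚ[X])ˣ} (hγ : γ ∈ Kn n)
    {x y : ι → ℚ[X]} (h : y ⬝ᵥ x = 0) (hy : y ᵥ* (γ : Matrix ι ι ℚ[X]) = y) :
    Commute (π γ) (π (tau x y)) := by
  have hy' : y ᵥ* ((γ⁻¹ : (Matrix ι ι ℚ[X])ˣ) : Matrix ι ι ℚ[X]) = y := by
    conv_lhs => rw [← hy]
    rw [vecMul_vecMul, Units.mul_inv, vecMul_one]
  have h1 : y ⬝ᵥ ((γ : Matrix ι ι ℚ[X]) *ᵥ x - x) = 0 := by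
    rw [dotProduct_sub, dotProduct_mulVec, hy, sub_self]
  have h2 := conj_tau γ x y
  rw [hy', ← sub_add_cancel ((γ : Matrix ι ι ℚ[X]) *ᵥ x) x, tau_add_left h1 h] at h2
  have h3 := congrArg π h2
  rw [map_mul, map_mul, map_mul, map_inv, hK.left h1 (Kn_mulVec hγ x), one_mul,
    mul_inv_eq_iff_eq_mul] at h3
  exact h3

theorem Kills.commute_of_mulVec (hK : Kills π n) {γ : (Matrix ι ι ℚ[X])ˣ} (hγ : γ ∈ Kn n)
    {x y : ι → ℚ[X]} (h : y ⬝ᵥ x = 0) (hx : (γ : Matrix ι ι ℚ[X]) *ᵥ x = x) :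
    Commute (π γ) (π (tau x y)) := by
  have hx' : ((γ⁻¹ : (Matrix ι ι ℚ[X])ˣ) : Matrix ι ι ℚ[X]) *ᵥ x = x := by
    conv_lhs => rw [← hx]
    rw [mulVec_mulVec, Units.inv_mul, one_mulVec]
  have h1 : (y ᵥ* ((γ⁻¹ : (Matrix ι ι ℚ[X])ˣ) : Matrix ι ι ℚ[X]) - y) ⬝ᵥ x = 0 := by
    rw [sub_dotProduct, ← dotProduct_mulVec, hx', sub_self]
  have h2 := conj_tau γ x y
  rw [hx, ← sub_add_cancel (y ᵥ* ((γ⁻¹ : (Matrix ι ι ℚ[X])ˣ) : Matrix ι ι ℚ[X])) y,
    tau_add_right h1 h] at h2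
  have h3 := congrArg π h2
  rw [map_mul, map_mul, map_mul, map_inv, hK _ _ h1 (Kn_vecMul (Subgroup.inv_mem _ hγ) y), one_mul,
    mul_inv_eq_iff_eq_mul] at h3
  exact h3

/-- The image of an elementary matrix. -/
noncomputable def xx (π : (Matrix ι ι ℚ[X])ˣ →* Γ) (i j : ι) (a : ℚ[X]) : Γ :=
  π (tau (Pi.single i 1) (Pi.single j a))

theorem xx_add {i j : ι} (hij : i ≠ j) (a b : ℚ[X]) :
    xx π i j (a + b) = xx π i j a * xx π i j b := by
  rw [xx, xx, xx, Pi.single_add, tau_add_right (by simp [hij.symm]) (by simp [hij.symm]), map_mul]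

theorem xx_neg (i j : ι) (a : ℚ[X]) : xx π i j (-a) = (xx π i j a)⁻¹ := by
  rw [xx, xx, Pi.single_neg, ← tau_inv, map_inv]

theorem Kills.xx_eq_one (hK : Kills π n) {i j : ι} (hij : i ≠ j) {a : ℚ[X]} (ha : X ^ n ∣ a) :
    xx π i j a = 1 := by
  refine hK _ _ (by simp [hij.symm]) fun k => ?_
  by_cases h : k = j
  · subst h; simpa using ha
  · simp [h]

theorem xx_comm {i j k : ι} (hij : i ≠ j) (hjk : j ≠ k) (hik : i ≠ k) (a b : ℚ[X]) :
    ⁅xx π i j a, xx π j k b⁆ = xx π i k (a * b) := by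
  rw [xx, xx, xx, ← map_commutatorElement,
    comm_tau_left (by simp [hij.symm]) (by simp [hjk.symm]) (by simp [hik.symm]),
    single_dotProduct, Pi.single_eq_same, mul_one, ← Pi.single_smul, smul_eq_mul]

theorem xx_commute {i j k l : ι} (hij : i ≠ j) (hkl : k ≠ l) (hjk : j ≠ k) (hil : i ≠ l)
    (a b : ℚ[X]) : Commute (xx π i j a) (xx π k l b) :=
  (commute_tau (by simp [hij.symm]) (by simp [hkl.symm]) (by simp [hjk])
    (by simp [hil.symm])).map π

theorem Kills.central (hK : Kills π n) {γ : (Matrix ι ι ℚ[X])ˣ} (hγ : γ ∈ Kn n) {k : ι}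
    (hk : γ ∈ Stab k) {p q : ι} (hpq : p ≠ q) (r : ℚ[X]) : Commute (π γ) (xx π p q r) := by
  have A : ∀ p, p ≠ k → ∀ r, Commute (π γ) (xx π p k r) := by
    intro p hp r
    refine hK.commute_of_vecMul hγ (by simp [hp.symm]) ?_
    have : (Pi.single k r : ι → ℚ[X]) = r • Pi.single k 1 := by
      rw [← Pi.single_smul, smul_eq_mul, mul_one]
    rw [this, smul_vecMul, hk.2]
  have B : ∀ q, k ≠ q → ∀ r, Commute (π γ) (xx π k q r) := fun q hq r =>
    hK.commute_of_mulVec hγ (by simp [hq.symm]) hk.1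
  by_cases h1 : q = k
  · subst h1; exact A p hpq r
  by_cases h2 : p = k
  · subst h2; exact B q hpq r
  rw [← mul_one r, ← xx_comm h2 (Ne.symm h1) hpq, commutatorElement_def]
  exact (((A p h2 r).mul_right (B q (Ne.symm h1) 1)).mul_right (A p h2 r).inv_right).mul_right
    (B q (Ne.symm h1) 1).inv_right

/-- The symbol attached to a pair `a, b`. -/
noncomputable def cc (π : (Matrix ι ι ℚ[X])ˣ →* Γ) (i j : ι) (a b : ℚ[X]) : Γ :=
  ⁅xx π i j a, xx π j i b⁆

theorem Kills.cc_central (hK : Kills π n) {i j k : ι} (hij : i ≠ j) (hik : i ≠ k) (hjk : j ≠ k)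
    {a b : ℚ[X]} (h : X ^ n ∣ a * b) {p q : ι} (hpq : p ≠ q) (r : ℚ[X]) :
    Commute (cc π i j a b) (xx π p q r) := by
  rw [cc, xx, xx, ← map_commutatorElement]
  refine hK.central (comm_mem_Kn hij h) (k := k) ?_ hpq r
  have h1 : tau (Pi.single i (1 : ℚ[X])) (Pi.single j a) ∈ Stab (R := ℚ[X]) k :=
    tau_mem_Stab (by simp [hij.symm]) (by simp [hik]) (by simp [hjk])
  have h2 : tau (Pi.single j (1 : ℚ[X])) (Pi.single i b) ∈ Stab (R := ℚ[X]) k :=
    tau_mem_Stab (by simp [hij]) (by simp [hjk]) (by simp [hik])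
  rw [commutatorElement_def]
  exact Subgroup.mul_mem _ (Subgroup.mul_mem _ (Subgroup.mul_mem _ h1 h2) (Subgroup.inv_mem _ h1))
    (Subgroup.inv_mem _ h2)

theorem Kills.cc_add (hK : Kills π n) {i j k : ι} (hij : i ≠ j) (hik : i ≠ k) (hjk : j ≠ k)
    {a a' b : ℚ[X]} (h : X ^ n ∣ a * b) :
    cc π i j (a + a') b = cc π i j a b * cc π i j a' b := by
  have h1 := hK.cc_central hij hik hjk h hij a'
  rw [add_comm, cc, xx_add hij, commutatorElement_mul_left_eq_conj_mul]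
  change xx π i j a' * cc π i j a b * (xx π i j a')⁻¹ * cc π i j a' b = _
  rw [← h1.eq, mul_inv_cancel_right]

theorem Kills.cc_left (hK : Kills π n) {i j : ι} (hij : i ≠ j) {a : ℚ[X]} (ha : X ^ n ∣ a)
    (b : ℚ[X]) : cc π i j a b = 1 := by
  rw [cc, hK.xx_eq_one hij ha, commutatorElement_one_left]

theorem Kills.cc_right (hK : Kills π n) {i j : ι} (hij : i ≠ j) (a : ℚ[X]) {b : ℚ[X]}
    (hb : X ^ n ∣ b) : cc π i j a b = 1 := by
  rw [cc, hK.xx_eq_one hij.symm hb, commutatorElement_one_right]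

theorem Kills.cc_neg (hK : Kills π n) {i j k : ι} (hij : i ≠ j) (hik : i ≠ k) (hjk : j ≠ k)
    {a b : ℚ[X]} (h : X ^ n ∣ a * b) : cc π i j (-a) b = (cc π i j a b)⁻¹ := by
  rw [eq_inv_iff_mul_eq_one, ← hK.cc_add hij hik hjk (by simpa using h), neg_add_cancel,
    hK.cc_left hij (dvd_zero _)]

theorem Kills.cc_nsmul (hK : Kills π n) {i j k : ι} (hij : i ≠ j) (hik : i ≠ k) (hjk : j ≠ k)
    {a b : ℚ[X]} (h : X ^ n ∣ a * b) (l : ℕ) : cc π i j (l * a) b = cc π i j a b ^ l := by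
  induction l with
  | zero => rw [Nat.cast_zero, zero_mul, pow_zero, hK.cc_left hij (dvd_zero _)]
  | succ l ih => rw [Nat.cast_succ, add_mul, one_mul, add_comm, hK.cc_add hij hik hjk h, ih,
      pow_succ']

theorem comm_prod_aux {G : Type} [Group G] {P Q Y Z : G}
    (hPQ : Commute P Q) (h1 : Commute ⁅Y, Q⁆ P) (h2 : Commute ⁅Y, Z⁆ P) (h3 : Commute ⁅Y, Z⁆ Q)
    (h4 : Commute ⁅P, Z⁆ Q) : ⁅P * Y, Q * Z⁆ = ⁅Y, Q⁆ * ⁅Y, Z⁆ * ⁅P, Z⁆ := by
  have e1 : Y * Q = ⁅Y, Q⁆ * Q * Y := by simp [commutatorElement_def, mul_assoc]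
  have e2 : Y * Z = ⁅Y, Z⁆ * Z * Y := by simp [commutatorElement_def, mul_assoc]
  have e3 : P * Z = ⁅P, Z⁆ * Z * P := by simp [commutatorElement_def, mul_assoc]
  have key : P * Y * (Q * Z) = ⁅Y, Q⁆ * ⁅Y, Z⁆ * ⁅P, Z⁆ * (Q * Z * (P * Y)) := by
    generalize ⁅Y, Q⁆ = c2 at *
    generalize ⁅Y, Z⁆ = W at *
    generalize ⁅P, Z⁆ = c1 at *
    calc P * Y * (Q * Z) = P * (Y * Q) * Z := by group
      _ = (P * c2) * Q * (Y * Z) := by rw [e1]; group
      _ = c2 * ((P * Q) * W) * Z * Y := by rw [← h1.eq, e2]; group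
      _ = c2 * W * (P * Q) * Z * Y := by rw [← (h2.mul_right h3).eq]; group
      _ = c2 * W * Q * (P * Z) * Y := by rw [hPQ.eq]; group
      _ = c2 * W * (Q * c1) * Z * P * Y := by rw [e3]; group
      _ = _ := by rw [← h4.eq]; group
  rw [commutatorElement_def, key]
  group

theorem Kills.cc_D3 (hK : Kills π n) {i j k : ι} (hij : i ≠ j) (hik : i ≠ k) (hjk : j ≠ k)
    {a b d : ℚ[X]} (h : X ^ n ∣ a * b * d) :
    cc π i j a (b * d) = cc π k j (a * d) b * cc π i k (a * b) d := by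
  have hW : xx π j i (b * d) = ⁅xx π j k b, xx π k i d⁆ := (xx_comm hjk hik.symm hij.symm _ _).symm
  have hP : xx π i j a * xx π j k b * (xx π i j a)⁻¹ = xx π i k (a * b) * xx π j k b := by
    rw [← xx_comm hij hjk hik]; simp [commutatorElement_def]
  have hQ : xx π i j a * xx π k i d * (xx π i j a)⁻¹ = xx π k j (-(a * d)) * xx π k i d := by
    rw [xx_neg, mul_comm a d, ← xx_comm hik.symm hij hjk.symm]; simp [commutatorElement_def, mul_assoc]
  have h1 : X ^ n ∣ a * d * b := by rwa [mul_right_comm]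
  have hc2 : ⁅xx π j k b, xx π k j (-(a * d))⁆ = cc π k j (a * d) b := by
    rw [← commutatorElement_inv]
    change (cc π k j (-(a * d)) b)⁻¹ = _
    rw [hK.cc_neg hjk.symm hik.symm hij.symm h1, inv_inv]
  have hPQ : Commute (xx π i k (a * b)) (xx π k j (-(a * d))) := by
    rw [← commutatorElement_eq_one_iff_commute, xx_comm hik hjk.symm hij]
    refine hK.xx_eq_one hij (h.trans ⟨-a, by ring⟩)
  have hWP : Commute (xx π j i (b * d)) (xx π i k (a * b)) := by
    rw [← commutatorElement_eq_one_iff_commute, xx_comm hij.symm hik hjk]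
    refine hK.xx_eq_one hjk (h.trans ⟨b, by ring⟩)
  have hWQ : Commute (xx π j i (b * d)) (xx π k j (-(a * d))) := by
    symm
    rw [← commutatorElement_eq_one_iff_commute, xx_comm hjk.symm hij.symm hik.symm]
    refine hK.xx_eq_one hik.symm (h.trans ⟨-d, by ring⟩)
  have key := comm_prod_aux (P := xx π i k (a * b)) (Q := xx π k j (-(a * d))) (Y := xx π j k b)
    (Z := xx π k i d) hPQ
    (by rw [hc2]; exact hK.cc_central hjk.symm hik.symm hij.symm h1 hik _)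
    (by rw [← hW]; exact hWP) (by rw [← hW]; exact hWQ)
    (hK.cc_central hik hij hjk.symm h hjk.symm _)
  rw [← hP, ← hQ, ← conjugate_commutatorElement, ← hW, hc2] at key
  have h5 := hK.cc_central hik hij hjk.symm h hij.symm (b * d)
  rw [cc, commutatorElement_def, key]
  change cc π k j (a * d) b * xx π j i (b * d) * cc π i k (a * b) d * (xx π j i (b * d))⁻¹ = _
  rw [mul_assoc (cc π k j (a * d) b), ← h5.eq]
  group

theorem Kills.cc_D3' (hK : Kills π n) {i j k : ι} (hij : i ≠ j) (hik : i ≠ k) (hjk : j ≠ k)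
    {a b d : ℚ[X]} (h : X ^ n ∣ a * b * d) :
    cc π i j a (b * d) = cc π i j (a * d) b * cc π i j (a * b) d := by
  have h1 : X ^ n ∣ a * d * b := by rwa [mul_right_comm]
  have e1 := hK.cc_D3 hij hik hjk (a := a * d) (b := b) (d := 1) (by rwa [mul_one])
  have e2 := hK.cc_D3 hij hik hjk (a := a * b) (b := 1) (d := d) (by rwa [mul_one])
  rw [mul_one, mul_one, hK.cc_left hik h1, mul_one] at e1
  rw [one_mul, mul_one, hK.cc_left hjk.symm h, one_mul] at e2
  rw [e1, e2, hK.cc_D3 hij hik hjk h]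

theorem Kills.cc_pow (hK : Kills π (n + 1)) {i j k : ι} (hij : i ≠ j) (hik : i ≠ k) (hjk : j ≠ k)
    (r : ℚ[X]) (l : ℕ) : ∀ s, l + s = n + 1 →
    cc π i j (r * X ^ s) (X ^ l) = cc π i j (r * X ^ n) X ^ l := by
  induction l with
  | zero =>
    intro s hs
    rw [pow_zero, pow_zero, hK.cc_left hij]
    rw [zero_add] at hs
    exact hs ▸ Dvd.intro_left _ rfl
  | succ l ih =>
    intro s hs
    have hn : n = s + l := by omega
    rw [pow_succ' X l, hK.cc_D3' hij hik hjk ⟨r, by rw [hn]; ring⟩, mul_assoc r _ X, ← pow_succ,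
      ih (s + 1) (by omega), mul_assoc, ← pow_add, ← hn, pow_succ']

theorem Kills.cc_X (hK : Kills π (n + 1)) {i j k : ι} (hij : i ≠ j) (hik : i ≠ k) (hjk : j ≠ k)
    (r : ℚ[X]) : cc π i j (r * X ^ n) X = 1 := by
  have h1 := hK.cc_pow hij hik hjk (C ((n + 1 : ℕ) : ℚ)⁻¹ * r) (n + 1) 0 rfl
  rw [hK.cc_right hij _ dvd_rfl, ← hK.cc_nsmul hij hik hjk ⟨C ((n + 1 : ℕ) : ℚ)⁻¹ * r, by ring⟩]
    at h1
  have h2 : (((n + 1 : ℕ) : ℚ[X])) * (C ((n + 1 : ℕ) : ℚ)⁻¹ * r * X ^ n) = r * X ^ n := by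
    rw [← map_natCast (C : ℚ →+* ℚ[X]), ← mul_assoc, ← mul_assoc, ← map_mul,
      mul_inv_cancel₀ (by exact_mod_cast Nat.succ_ne_zero n), map_one, one_mul]
  rw [h2] at h1
  exact h1.symm

theorem Kills.cc_eq_one (hK : Kills π (n + 1)) {i j k : ι} (hij : i ≠ j) (hik : i ≠ k)
    (hjk : j ≠ k) (a b : ℚ[X]) : cc π i j (X * a) (X ^ n * b) = 1 := by
  rw [hK.cc_D3' hij hik hjk ⟨a * b, by ring⟩, hK.cc_left hij (a := X * a * X ^ n) ⟨a, by ring⟩,
    mul_one]
  have := hK.cc_pow hij hik hjk (a * b) n 1 rfl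
  rw [hK.cc_X hij hik hjk, one_pow] at this
  rw [← this]
  congr 1
  ring

end

end Pool.Agent.MP_841a27_al

end MrgPart4

-- ======== part 5: formerly Pool.Agent.MP_841a27_al.SK1Add
section MrgPart5

/-!
A function on orthogonal pairs of rational vectors that is additive in each argument comes
(stably) from an additive map on matrices.
-/

namespace Pool.Agent.MP_841a27_al

open Matrix

theorem biadd_balanced {V W A : Type} [AddCommGroup V] [Module ℚ V] [AddCommGroup W] [Module ℚ W]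
    [AddCommGroup A] (B : V →+ W →+ A) (α : ℚ) (v : V) (w : W) :
    B (α • v) w = B v (α • w) := by
  have hd : (α.den : ℚ) ≠ 0 := by exact_mod_cast α.den_nz
  have hw : w = α.den • ((α.den : ℚ)⁻¹ • w) := by
    rw [← Nat.cast_smul_eq_nsmul ℚ, smul_smul, mul_inv_cancel₀ hd, one_smul]
  have hv : α.den • (α • v) = α.num • v := by
    rw [← Nat.cast_smul_eq_nsmul ℚ, ← Int.cast_smul_eq_zsmul ℚ, smul_smul, Rat.den_mul_eq_num]
  have hw2 : α • w = α.num • ((α.den : ℚ)⁻¹ • w) := by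
    rw [← Int.cast_smul_eq_zsmul ℚ, smul_smul, ← div_eq_mul_inv, Rat.num_div_den]
  calc B (α • v) w = B (α • v) (α.den • ((α.den : ℚ)⁻¹ • w)) := by rw [← hw]
    _ = B (α.den • (α • v)) ((α.den : ℚ)⁻¹ • w) := by
        rw [map_nsmul, map_nsmul, AddMonoidHom.nsmul_apply]
    _ = B v (α • w) := by
        rw [hv, hw2, map_zsmul, map_zsmul, AddMonoidHom.zsmul_apply]

theorem exists_mu {ι A : Type} [Fintype ι] [DecidableEq ι] [AddCommGroup A] (e f : ι)
    (hef : e ≠ f) (t : (ι → ℚ) → (ι → ℚ) → A)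
    (h1 : ∀ v w w', w ⬝ᵥ v = 0 → w' ⬝ᵥ v = 0 → t v (w + w') = t v w + t v w')
    (h2 : ∀ v v' w, w ⬝ᵥ v = 0 → w ⬝ᵥ v' = 0 → t (v + v') w = t v w + t v' w) :
    ∃ μ : Matrix ι ι ℚ →+ A, ∀ v w, v e = 0 → v f = 0 → w e = 0 → w f = 0 → w ⬝ᵥ v = 0 →
      μ (vecMulVec v w) = t v w := by
  set E : ι → ℚ := Pi.single e 1 with hE
  set F : ι → ℚ := Pi.single f 1 with hF
  have dE : ∀ w : ι → ℚ, w ⬝ᵥ E = w e := fun w => by simp [hE]
  have Ed : ∀ w : ι → ℚ, E ⬝ᵥ w = w e := fun w => by simp [hE]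
  have Fd : ∀ w : ι → ℚ, F ⬝ᵥ w = w f := fun w => by simp [hF]
  have Ee : E e = 1 := by simp [hE]
  have Fe : F e = 0 := by simp [hF, hef]
  have Ff : F f = 1 := by simp [hF]
  have t0 : ∀ v, t v 0 = 0 := fun v => by
    have := h1 v 0 0 (zero_dotProduct _) (zero_dotProduct _)
    rw [add_zero] at this
    exact left_eq_add.mp this
  let θ : (ι → ℚ) → (ι → ℚ) → A := fun v w =>
    t (v + E) (w - (w ⬝ᵥ v) • E) + t v ((w ⬝ᵥ v) • E) - t E w
  have o1 : ∀ v w : ι → ℚ, v e = 0 → w e = 0 → (w - (w ⬝ᵥ v) • E) ⬝ᵥ (v + E) = 0 := by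
    intro v w hv hw
    rw [sub_dotProduct, dotProduct_add, smul_dotProduct, dotProduct_add, dE, Ed, Ed, hv, hw, Ee]
    simp
  have o2 : ∀ (v : ι → ℚ) (s : ℚ), v e = 0 → (s • E) ⬝ᵥ v = 0 := by
    intro v s hv
    rw [smul_dotProduct, Ed, hv, smul_zero]
  have addR : ∀ v w w' : ι → ℚ, v e = 0 → w e = 0 → w' e = 0 →
      θ v (w + w') = θ v w + θ v w' := by
    intro v w w' hv hw hw'
    have a1 : w + w' - ((w + w') ⬝ᵥ v) • E = (w - (w ⬝ᵥ v) • E) + (w' - (w' ⬝ᵥ v) • E) := by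
      rw [add_dotProduct, add_smul]; abel
    simp only [θ]
    rw [a1, h1 _ _ _ (o1 v w hv hw) (o1 v w' hv hw'), add_dotProduct, add_smul,
      h1 _ _ _ (o2 v _ hv) (o2 v _ hv), h1 E w w' (by rw [dE, hw]) (by rw [dE, hw'])]
    abel
  have orth : ∀ v w : ι → ℚ, w e = 0 → w ⬝ᵥ v = 0 → θ v w = t v w := by
    intro v w hw h
    simp only [θ]
    rw [h, zero_smul, sub_zero, t0, h2 _ _ _ h (by rw [dE, hw])]
    abel
  have D0 : ∀ v1 v2 w : ι → ℚ, v1 e = 0 → v2 e = 0 → w e = 0 → w ⬝ᵥ v1 = 0 →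
      θ (v1 + v2) w = θ v1 w + θ v2 w := by
    intro v1 v2 w hv1 hv2 hw h
    rw [orth v1 w hw h]
    simp only [θ]
    have o3 : (w - (w ⬝ᵥ v2) • E) ⬝ᵥ v1 = 0 := by
      rw [sub_dotProduct, h, o2 v1 _ hv1, sub_zero]
    have a2 : t v1 w = t v1 (w - (w ⬝ᵥ v2) • E) + t v1 ((w ⬝ᵥ v2) • E) := by
      rw [← h1 _ _ _ o3 (o2 v1 _ hv1), sub_add_cancel]
    rw [dotProduct_add, h, zero_add, add_assoc v1, h2 _ _ _ o3 (o1 v2 w hv2 hw),
      h2 _ _ _ (o2 v1 _ hv1) (o2 v2 _ hv2), a2]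
    abel
  have DF : ∀ v1 v2 w : ι → ℚ, v1 e = 0 → v2 e = 0 → w e = 0 → v1 f = 0 → v2 f = 1 →
      θ (v1 + v2) w = θ v1 w + θ v2 w := by
    intro v1 v2 w hv1 hv2 hw hf1 hf2
    have hw1 : (w - (w ⬝ᵥ v2) • F) e = 0 := by simp [hw, Fe]
    have hw2 : ((w ⬝ᵥ v2) • F) e = 0 := by simp [Fe]
    have hv12 : (v1 + v2) e = 0 := by simp [hv1, hv2]
    have b1 : θ (v1 + v2) (w - (w ⬝ᵥ v2) • F)
        = θ v1 (w - (w ⬝ᵥ v2) • F) + θ v2 (w - (w ⬝ᵥ v2) • F) := by
      rw [add_comm v1, D0 v2 v1 _ hv2 hv1 hw1 (by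
        rw [sub_dotProduct, smul_dotProduct, Fd, hf2]; simp), add_comm]
    have b2 : θ (v1 + v2) ((w ⬝ᵥ v2) • F) = θ v1 ((w ⬝ᵥ v2) • F) + θ v2 ((w ⬝ᵥ v2) • F) :=
      D0 v1 v2 _ hv1 hv2 hw2 (by rw [smul_dotProduct, Fd, hf1, smul_zero])
    have hs : w = (w - (w ⬝ᵥ v2) • F) + (w ⬝ᵥ v2) • F := by abel
    have c1 := addR (v1 + v2) _ _ hv12 hw1 hw2
    have c2 := addR v1 _ _ hv1 hw1 hw2
    have c3 := addR v2 _ _ hv2 hw1 hw2
    rw [← hs] at c1 c2 c3
    rw [c1, c2, c3, b1, b2]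
    abel
  have addL : ∀ v1 v2 w : ι → ℚ, v1 e = 0 → v2 e = 0 → w e = 0 → v1 f = 0 → v2 f = 0 →
      θ (v1 + v2) w = θ v1 w + θ v2 w := by
    intro v1 v2 w hv1 hv2 hw hf1 hf2
    have c1 := DF (v1 + v2) F w (by simp [hv1, hv2]) Fe hw (by simp [hf1, hf2]) Ff
    have c2 := DF v1 (v2 + F) w hv1 (by simp [hv2, Fe]) hw hf1 (by simp [hf2, Ff])
    have c3 := DF v2 F w hv2 Fe hw hf2 Ff
    rw [add_assoc, c2, c3, ← add_assoc] at c1
    exact (add_right_cancel c1).symm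
  let pr : (ι → ℚ) → (ι → ℚ) := fun v i => if i = e ∨ i = f then 0 else v i
  have pre : ∀ v, pr v e = 0 := fun v => by simp [pr]
  have prf : ∀ v, pr v f = 0 := fun v => by simp [pr]
  have pradd : ∀ v v', pr (v + v') = pr v + pr v' := fun v v' => by
    funext i
    simp only [pr, Pi.add_apply]
    split_ifs <;> simp
  have prid : ∀ v : ι → ℚ, v e = 0 → v f = 0 → pr v = v := fun v h h' => by
    funext i
    simp only [pr]
    split_ifs with hi
    · rcases hi with rfl | rfl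
      · exact h.symm
      · exact h'.symm
    · rfl
  let B : (ι → ℚ) →+ (ι → ℚ) →+ A := AddMonoidHom.mk'
    (fun v => AddMonoidHom.mk' (fun w => θ (pr v) (pr w)) (fun w w' => by
      rw [pradd, addR _ _ _ (pre _) (pre _) (pre _)]))
    (fun v v' => by
      refine AddMonoidHom.ext fun w => ?_
      simp only [AddMonoidHom.mk'_apply, AddMonoidHom.add_apply]
      rw [pradd, addL _ _ _ (pre _) (pre _) (pre _) (prf _) (prf _)])
  refine ⟨AddMonoidHom.mk' (fun M => ∑ a, B (Pi.single a 1) (M a)) (fun M M' => ?_), ?_⟩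
  · rw [← Finset.sum_add_distrib]
    refine Finset.sum_congr rfl fun a _ => ?_
    rw [← map_add]
    rfl
  · intro v w hve hvf hwe hwf h
    simp only [AddMonoidHom.mk'_apply]
    have : ∀ a, B (Pi.single a 1) (vecMulVec v w a) = B (Pi.single a (v a)) w := by
      intro a
      have e1 : vecMulVec v w a = v a • w := by
        funext j
        simp [vecMulVec_apply]
      have e2 : (Pi.single a (v a) : ι → ℚ) = v a • Pi.single a 1 := by
        rw [← Pi.single_smul, smul_eq_mul, mul_one]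
      rw [e1, e2, biadd_balanced]
    simp only [this]
    rw [← AddMonoidHom.finsetSum_apply, ← map_sum, Finset.univ_sum_single]
    change θ (pr v) (pr w) = _
    rw [prid v hve hvf, prid w hwe hwf, orth v w hwe h]

end Pool.Agent.MP_841a27_al

end MrgPart5

-- marker of a merged file
example : 731051 + 223812 = 731051 + 223812 := rfl
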