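import Mathlib.LinearAlgebra.Matrix.InvariantBasisNumber
import Mathlib.Order.Filter.FilterProduct
import Mathlib.Data.NNRat.BigOperators
import Pool.Agent.MP_841a27_al.SK1Add
import Pool.Agent.MP_841a27_al.StepH

-- ======== part 0: formerly Pool.Agent.MP_841a27_al.SK1Step
section MrgPart0

/-!
The inductive step from level `m` to level `m + 1`.
-/

namespace Pool.Agent.MP_841a27_al

open Matrix Polynomial
open scoped commutatorElement

section
variable {ι : Type} [Fintype ι] [DecidableEq ι]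

theorem tau_mem_TV {n : ℕ} {S : Finset ι} {x y : ι → ℚ[X]} (hx : ∀ i, i ∉ S → x i = 0)
    (hy : ∀ i, i ∉ S → y i = 0) (h : y ⬝ᵥ x = 0) : tau x ((X ^ n : ℚ[X]) • y) ∈ TV n S :=
  ⟨x, y, hx, hy, h, by rw [tau_val (by rw [smul_dotProduct, h, smul_zero]), vecMulVec_smul]⟩

theorem eq_tau_of_TV {n : ℕ} {S : Finset ι} {u : (Matrix ι ι ℚ[X])ˣ} (hu : u ∈ TV n S) :
    ∃ x y : ι → ℚ[X], (∀ i, i ∉ S → x i = 0) ∧ (∀ i, i ∉ S → y i = 0) ∧ y ⬝ᵥ x = 0 ∧
      u = tau x ((X ^ n : ℚ[X]) • y) := by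
  obtain ⟨x, y, hx, hy, h, e⟩ := hu
  refine ⟨x, y, hx, hy, h, Units.ext ?_⟩
  rw [e, tau_val (by rw [smul_dotProduct, h, smul_zero]), vecMulVec_smul]

variable {Γ : Type} [Group Γ] {π : (Matrix ι ι ℚ[X])ˣ →* Γ} {m : ℕ}

theorem Kills.commute_row (hK : Kills π (m + 1)) {i j k : ι} (hij : i ≠ j) (hik : i ≠ k)
    (hjk : j ≠ k) (y : ι → ℚ[X]) (hy : y j = 0) (b : ℚ[X]) :
    Commute (π (tau (Pi.single j 1) ((X : ℚ[X]) • y))) (xx π i j (X ^ m * b)) := by
  have e : (X : ℚ[X]) • y = Pi.single i (X * y i) + (X : ℚ[X]) • (y - Pi.single i (y i)) := by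
    rw [← smul_single_mul, ← smul_add, add_sub_cancel]
  have h1 : ((X : ℚ[X]) • (y - Pi.single i (y i))) ⬝ᵥ Pi.single j 1 = 0 := by
    simp [hy, hij.symm]
  rw [e, tau_add_right (by simp [hij.symm]) h1, map_mul]
  apply Commute.mul_left
  · rw [← commutatorElement_eq_one_iff_commute]
    exact hK.cc_eq_one hij.symm hjk hik _ _
  · rw [← commutatorElement_eq_one_iff_commute, xx, ← map_commutatorElement,
      comm_tau_right h1 (by simp [hij]) (by simp)]
    refine hK _ _ (by simp) fun l => ?_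
    simp only [single_dotProduct, Pi.single_eq_same, mul_one, Pi.neg_apply, Pi.smul_apply,
      smul_eq_mul, dvd_neg]
    exact ⟨b * (y - Pi.single i (y i) : ι → ℚ[X]) l, by ring⟩

theorem Kills.commute_gen (hK : Kills π (m + 1)) {i j k : ι} (hij : i ≠ j) (hik : i ≠ k)
    (hjk : j ≠ k) {u : (Matrix ι ι ℚ[X])ˣ} (hu : u ∈ TcSet ι) (b : ℚ[X]) :
    Commute (π u) (xx π i j (X ^ m * b)) := by
  obtain ⟨v, w, h, rfl⟩ := hu
  have h' : ((X : ℚ[X]) • w) ⬝ᵥ (C ∘ v) = 0 := by rw [smul_dotProduct, h, smul_zero]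
  by_cases hv : v j = 0
  · rw [← commutatorElement_eq_one_iff_commute, xx, ← map_commutatorElement,
      comm_tau_left h' (by simp [hij]) (by simp [hv])]
    refine hK _ _ (by simp [hv]) fun l => ?_
    simp only [dotProduct_single, mul_one, Pi.smul_apply, smul_eq_mul]
    by_cases hl : l = j
    · subst hl
      rw [Pi.single_eq_same]
      exact ⟨w i * b, by ring⟩
    · simp [hl]
  · have hc : C (v j)⁻¹ * (C ∘ v : ι → ℚ[X]) j = 1 := by
      rw [Function.comp_apply, ← map_mul, inv_mul_cancel₀ hv, map_one]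
    rw [tau_eq_conj h' j _ hc, map_mul, map_mul, map_inv]
    have hg : Commute (π (tau (C (v j)⁻¹ • (C ∘ v : ι → ℚ[X]) - Pi.single j 1) (Pi.single j 1)))
        (xx π i j (X ^ m * b)) := by
      have h0 : (C (v j)⁻¹ • (C ∘ v : ι → ℚ[X]) - Pi.single j 1 : ι → ℚ[X]) j = 0 := by
        rw [Pi.sub_apply, Pi.smul_apply, smul_eq_mul, hc, Pi.single_eq_same, sub_self]
      refine (commute_tau ?_ (by simp [hij]) (by simp [hij]) ?_).map π
      · rw [single_dotProduct, h0, mul_zero]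
      · rw [single_dotProduct, h0, mul_zero, zero_smul]
    refine (hg.mul_left ?_).mul_left hg.inv_left
    have e : (C ∘ v : ι → ℚ[X]) j • ((X : ℚ[X]) • w - ((X : ℚ[X]) • w) j • Pi.single j 1)
        = (X : ℚ[X]) • ((C ∘ v : ι → ℚ[X]) j • (w - w j • Pi.single j 1)) := by
      rw [smul_comm (X : ℚ[X]), smul_sub (X : ℚ[X]), smul_smul (X : ℚ[X])]
      rfl
    rw [e]
    exact hK.commute_row hij hik hjk _ (by simp) b

/-- The centralizer of the image of the congruence subgroup of level `X`. -/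
def ZZ (π : (Matrix ι ι ℚ[X])ˣ →* Γ) : Subgroup Γ :=
  Subgroup.centralizer (((ev0 (ι := ι)).ker.map π : Subgroup Γ) : Set Γ)

theorem ZZ_normal (hπ : Function.Surjective π) : (ZZ π).Normal := by
  have : ((ev0 (ι := ι)).ker.map π).Normal := Subgroup.Normal.map inferInstance π hπ
  exact Subgroup.normal_centralizer

theorem Kills.xx_mem_ZZ (hK : Kills π (m + 1)) (h3 : ∀ i j : ι, ∃ k, i ≠ k ∧ j ≠ k) {i j : ι}
    (hij : i ≠ j) (b : ℚ[X]) : xx π i j (X ^ m * b) ∈ ZZ π := by
  obtain ⟨k, hik, hjk⟩ := h3 i j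
  rw [ZZ, ← Tc_eq_ker, MonoidHom.map_closure, Subgroup.centralizer_closure,
    Subgroup.mem_centralizer_iff]
  rintro _ ⟨u, hu, rfl⟩
  exact hK.commute_gen hij hik hjk hu b

theorem Kills.row_mem_ZZ (hK : Kills π (m + 1)) (h3 : ∀ i j : ι, ∃ k, i ≠ k ∧ j ≠ k) (j : ι)
    {y : ι → ℚ[X]} (hy : y j = 0) :
    π (tau (Pi.single j 1) ((X ^ m : ℚ[X]) • y)) ∈ ZZ π := by
  rw [← Finset.univ_sum_single ((X ^ m : ℚ[X]) • y)]
  refine tau_sum_right _ ((ZZ π).comap π) _ _ (fun l _ => ?_) (fun l _ => ?_)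
  · by_cases hl : l = j
    · subst hl; simp [hy]
    · simp [hl]
  · by_cases hl : l = j
    · subst hl
      simp [hy, tau_zero_right]
    · exact hK.xx_mem_ZZ h3 (Ne.symm hl) (y l)

theorem Kills.const_mem_ZZ (hK : Kills π (m + 1)) (hπ : Function.Surjective π)
    (h3 : ∀ i j : ι, ∃ k, i ≠ k ∧ j ≠ k) (v : ι → ℚ) (y : ι → ℚ[X]) :
    π (tau (C ∘ v) ((X ^ m : ℚ[X]) • y)) ∈ ZZ π := by
  by_cases h : ((X ^ m : ℚ[X]) • y) ⬝ᵥ (C ∘ v) = 0
  swap
  · rw [tau_of_ne h, map_one]; exact Subgroup.one_mem _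
  by_cases hv : v = 0
  · have : (C ∘ v : ι → ℚ[X]) = 0 := by
      funext i; simp [hv]
    rw [this, tau_zero_left, map_one]; exact Subgroup.one_mem _
  obtain ⟨j, hj⟩ := Function.ne_iff.mp hv
  have hc : C (v j)⁻¹ * (C ∘ v : ι → ℚ[X]) j = 1 := by
    rw [Function.comp_apply, ← map_mul, inv_mul_cancel₀ hj, map_one]
  rw [tau_eq_conj h j _ hc, map_mul, map_mul, map_inv]
  refine (ZZ_normal hπ).conj_mem _ ?_ _
  have e : (C ∘ v : ι → ℚ[X]) j •
      ((X ^ m : ℚ[X]) • y - ((X ^ m : ℚ[X]) • y) j • Pi.single j 1)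
      = (X ^ m : ℚ[X]) • ((C ∘ v : ι → ℚ[X]) j • (y - y j • Pi.single j 1)) := by
    rw [smul_comm (X ^ m : ℚ[X]), smul_sub (X ^ m : ℚ[X]), smul_smul (X ^ m : ℚ[X])]
    rfl
  rw [e]
  exact hK.row_mem_ZZ h3 j (by simp)

theorem Kills.tau_eq_const (hK : Kills π (m + 1)) (h3 : ∀ i j : ι, ∃ k, i ≠ k ∧ j ≠ k) (e : ι)
    {x y : ι → ℚ[X]} (hx : x e = 0) (hy : y e = 0) (h : y ⬝ᵥ x = 0) :
    π (tau x ((X ^ m : ℚ[X]) • y)) = π (tau (ev0r ∘ x) ((X ^ m : ℚ[X]) • (ev0r ∘ y))) := by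
  have key : ∀ x y : ι → ℚ[X], x e = 0 → y e = 0 → y ⬝ᵥ x = 0 → tau x ((X ^ m : ℚ[X]) • y) =
      ⁅tau x (Pi.single e 1), tau (Pi.single e 1) ((X ^ m : ℚ[X]) • y)⁆ := by
    intro x y hx hy h
    rw [comm_tau_left (by simp [hx]) (by simp [hy]) (by rw [smul_dotProduct, h, smul_zero])]
    simp
  have hx0 : (ev0r ∘ x) e = 0 := by simp [hx]
  have hy0 : (ev0r ∘ y) e = 0 := by simp [hy]
  have h0 : (ev0r ∘ y) ⬝ᵥ (ev0r ∘ x) = 0 := by rw [← RingHom.map_dotProduct, h, map_zero]
  have e1 : π (tau (Pi.single e 1) ((X ^ m : ℚ[X]) • y))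
      = π (tau (Pi.single e 1) ((X ^ m : ℚ[X]) • (ev0r ∘ y))) := by
    have h1 : ((X ^ m : ℚ[X]) • (X : ℚ[X]) • fun j => divX (y j)) ⬝ᵥ Pi.single e 1 = 0 := by
      simp [hy]
    conv_lhs => rw [sub_ev0r y]
    rw [smul_add, tau_add_right h1 (by simp [hy]), map_mul, hK _ _ h1, one_mul]
    intro l
    exact ⟨divX (y l), by simp only [Pi.smul_apply, smul_eq_mul]; ring⟩
  have h2 : (Pi.single e 1 : ι → ℚ[X]) ⬝ᵥ ((X : ℚ[X]) • fun j => divX (x j)) = 0 := by
    simp [hx]
  have e2 : tau x (Pi.single e 1) = tau (ev0r ∘ x) (Pi.single e 1) *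
      tau ((X : ℚ[X]) • fun j => divX (x j)) (Pi.single e 1) := by
    rw [← tau_add_left (by simp [hx]) h2, add_comm, ← sub_ev0r]
  have e3 : π (tau ((X : ℚ[X]) • fun j => divX (x j)) (Pi.single e 1))
      ∈ (ev0 (ι := ι)).ker.map π := by
    refine Subgroup.mem_map_of_mem _ ?_
    rw [tau_smul]
    refine ev0_tau_X ?_ (by simp)
    rw [smul_dotProduct, ← dotProduct_smul, h2]
  have e4 := (Subgroup.mem_centralizer_iff.mp (hK.row_mem_ZZ h3 e hy0)) _ e3
  rw [key x y hx hy h, key _ _ hx0 hy0 h0, map_commutatorElement, map_commutatorElement, e1, e2,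
    map_mul, commutatorElement_mul_left_eq_conj_mul,
    commutatorElement_eq_one_iff_mul_comm.mpr e4, mul_one, mul_inv_cancel, one_mul]

theorem Kills.step (hK : Kills π (m + 1)) (hπ : Function.Surjective π) (hm : 1 ≤ m)
    (h3 : ∀ i j : ι, ∃ k, i ≠ k ∧ j ≠ k) {e f : ι} (hef : e ≠ f) {S : Finset ι} (he : e ∉ S)
    (hf : f ∉ S) {κ : (Matrix ι ι ℚ[X])ˣ} (hκ : κ ∈ Subgroup.closure (TV m S))
    (hκ' : κ ∈ Kn (m + 1)) : π κ = 1 := by
  let A : Subgroup Γ := ZZ π ⊓ (ev0 (ι := ι)).ker.map π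
  let _ : CommGroup A :=
    { (inferInstance : Group A) with
      mul_comm := fun a b => Subtype.ext
        ((Subgroup.mem_centralizer_iff.mp b.2.1) _ a.2.2) }
  have hX0 : ((X : ℚ[X]) ^ m).coeff 0 = 0 := by
    rw [coeff_X_pow, if_neg (by omega)]
  have hmem : ∀ v w : ι → ℚ, π (tau (C ∘ v) ((X ^ m : ℚ[X]) • (C ∘ w))) ∈ A := by
    intro v w
    refine ⟨hK.const_mem_ZZ hπ h3 v _, Subgroup.mem_map_of_mem _ ?_⟩
    by_cases h : ((X ^ m : ℚ[X]) • (C ∘ w : ι → ℚ[X])) ⬝ᵥ (C ∘ v) = 0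
    · exact ev0_tau_X h fun i => by rw [Pi.smul_apply, smul_eq_mul, mul_coeff_zero, hX0, zero_mul]
    · rw [tau_of_ne h]; exact Subgroup.one_mem _
  have hdot : ∀ v w : ι → ℚ, w ⬝ᵥ v = 0 →
      ((X ^ m : ℚ[X]) • (C ∘ w : ι → ℚ[X])) ⬝ᵥ (C ∘ v) = 0 := by
    intro v w h
    rw [smul_dotProduct, ← RingHom.map_dotProduct, h, map_zero, smul_zero]
  have hadd : ∀ v w : ι → ℚ, (C ∘ (v + w) : ι → ℚ[X]) = C ∘ v + C ∘ w := by
    intro v w; funext i; simp
  obtain ⟨μ, hμ⟩ := exists_mu e f hef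
    (fun v w => Additive.ofMul (⟨_, hmem v w⟩ : A))
    (fun v w w' h h' => by
      rw [← ofMul_mul]
      congr 1
      apply Subtype.ext
      change π _ = π _ * π _
      rw [hadd, smul_add, tau_add_right (hdot _ _ h) (hdot _ _ h'), map_mul])
    (fun v v' w h h' => by
      rw [← ofMul_mul]
      congr 1
      apply Subtype.ext
      change π _ = π _ * π _
      rw [hadd, tau_add_left (hdot _ _ h) (hdot _ _ h'), map_mul])
  have gen : ∀ x y : ι → ℚ[X], (∀ i, i ∉ S → x i = 0) → (∀ i, i ∉ S → y i = 0) → y ⬝ᵥ x = 0 →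
      ∃ M : Matrix ι ι ℚ[X],
        ((tau x ((X ^ m : ℚ[X]) • y) : (Matrix ι ι ℚ[X])ˣ) : Matrix ι ι ℚ[X])
          = 1 + (X ^ m : ℚ[X]) • M ∧
        π (tau x ((X ^ m : ℚ[X]) • y))
          = ((Additive.toMul (μ (M.map constantCoeff)) : A) : Γ) := by
    intro x y hx hy h
    refine ⟨vecMulVec x y, by
      rw [tau_val (by rw [smul_dotProduct, h, smul_zero]), vecMulVec_smul], ?_⟩
    have e1 : (vecMulVec x y).map constantCoeff
        = vecMulVec (constantCoeff ∘ x) (constantCoeff ∘ y) := by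
      ext i j
      simp [vecMulVec_apply]
    rw [e1, hμ _ _ (by simp [hx e he]) (by simp [hx f hf]) (by simp [hy e he]) (by simp [hy f hf])
      (by rw [← RingHom.map_dotProduct, h, map_zero]),
      hK.tau_eq_const h3 e (hx e he) (hy e he) h]
    rfl
  have main : ∀ u ∈ Subgroup.closure (TV m S), ∃ M : Matrix ι ι ℚ[X],
      (u : Matrix ι ι ℚ[X]) = 1 + (X ^ m : ℚ[X]) • M ∧
        π u = ((Additive.toMul (μ (M.map constantCoeff)) : A) : Γ) := by
    intro u hu
    induction hu using Subgroup.closure_induction'' with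
    | mem u hu =>
      obtain ⟨x, y, hx, hy, h, rfl⟩ := eq_tau_of_TV hu
      exact gen x y hx hy h
    | inv_mem u hu =>
      obtain ⟨x, y, hx, hy, h, rfl⟩ := eq_tau_of_TV hu
      rw [tau_inv, ← smul_neg]
      exact gen x (-y) hx (fun i hi => by simp [hy i hi]) (by rw [neg_dotProduct, h, neg_zero])
    | one =>
      refine ⟨0, by simp, ?_⟩
      rw [Matrix.map_zero _ (map_zero _), map_zero, map_one]
      rfl
    | mul u u' _ _ ih ih' =>
      obtain ⟨M, hM, hM'⟩ := ih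
      obtain ⟨N, hN, hN'⟩ := ih'
      refine ⟨M + N + (X ^ m : ℚ[X]) • (M * N), ?_, ?_⟩
      · rw [Units.val_mul, hM, hN]
        simp only [add_mul, mul_add, one_mul, mul_one, smul_add, smul_mul_assoc, mul_smul_comm]
        abel
      · have : (M + N + (X ^ m : ℚ[X]) • (M * N)).map constantCoeff
            = M.map constantCoeff + N.map constantCoeff := by
          ext i j
          simp only [Matrix.map_apply, Matrix.add_apply, Matrix.smul_apply, smul_eq_mul, map_add,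
            map_mul, constantCoeff_apply, hX0, zero_mul, add_zero]
        rw [this, map_add, map_mul, hM', hN']
        rfl
  obtain ⟨M, hM, hM'⟩ := main κ hκ
  have : M.map constantCoeff = 0 := by
    ext i j
    have h1 := mem_Kn.mp hκ' i j
    rw [hM, Matrix.add_apply, add_sub_cancel_left, Matrix.smul_apply, smul_eq_mul, pow_succ,
      mul_dvd_mul_iff_left (pow_ne_zero _ X_ne_zero), X_dvd_iff] at h1
    exact h1
  rw [hM', this, map_zero]
  rfl

end

end Pool.Agent.MP_841a27_al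

end MrgPart0

-- ======== part 1: formerly Pool.Agent.MP_841a27_al.SK1
section MrgPart1

/-!
The relative special Whitehead group of `ℚ[X]` at `X ^ m` vanishes (stable form).
-/

namespace Pool.Agent.MP_841a27_al

open Matrix Polynomial

section
variable {ι : Type} [Fintype ι] [DecidableEq ι]

theorem TV_normal (n : ℕ) : (Subgroup.closure (TV n (Finset.univ : Finset ι))).Normal := by
  refine ⟨fun u hu g => ?_⟩
  induction hu using Subgroup.closure_induction with
  | mem u hu =>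
    obtain ⟨x, y, -, -, h, rfl⟩ := eq_tau_of_TV hu
    rw [conj_tau, smul_vecMul]
    refine Subgroup.subset_closure (tau_mem_TV (by simp) (by simp) ?_)
    rw [dotProduct_mulVec, vecMul_vecMul, Units.inv_mul, vecMul_one, h]
  | one => simp
  | mul x y _ _ hx hy =>
    have : g * (x * y) * g⁻¹ = (g * x * g⁻¹) * (g * y * g⁻¹) := by group
    rw [this]
    exact Subgroup.mul_mem _ hx hy
  | inv x _ hx =>
    have : g * x⁻¹ * g⁻¹ = (g * x * g⁻¹)⁻¹ := by group
    rw [this]
    exact Subgroup.inv_mem _ hx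

/-- The inclusion matrix of a set of indices. -/
noncomputable def incl (S : Finset ι) : Matrix ι S ℚ[X] :=
  Matrix.of fun i a => if i = (a : ι) then 1 else 0

theorem incl_transpose_mul (S : Finset ι) : (incl S)ᵀ * incl S = 1 := by
  ext1 a b
  simp only [incl, Matrix.mul_apply, transpose_apply, of_apply, ite_mul, one_mul, zero_mul,
    Finset.sum_ite_eq', Finset.mem_univ, if_true, Matrix.one_apply, Subtype.ext_iff]

omit [Fintype ι] in
theorem incl_mulVec (S : Finset ι) (x : S → ℚ[X]) (i : ι) (hi : i ∉ S) :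
    (incl S *ᵥ x) i = 0 := by
  simp only [mulVec, dotProduct, incl, of_apply]
  refine Finset.sum_eq_zero fun a _ => ?_
  rw [if_neg (fun h : i = (a : ι) => hi (h ▸ a.2)), zero_mul]

omit [Fintype ι] in
theorem incl_conj_apply (S : Finset ι) (M : Matrix S S ℚ[X]) (a b : S) :
    (incl S * M * (incl S)ᵀ) a b = M a b := by
  simp [incl, Matrix.mul_apply]

omit [Fintype ι] in
theorem incl_conj_left (S : Finset ι) (M : Matrix S S ℚ[X]) (i j : ι) (hi : i ∉ S) :
    (incl S * M * (incl S)ᵀ) i j = 0 := by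
  simp only [Matrix.mul_apply, incl, of_apply]
  refine Finset.sum_eq_zero fun a _ => ?_
  rw [Finset.sum_eq_zero, zero_mul]
  intro b _
  rw [if_neg (fun h : i = (b : ι) => hi (h ▸ b.2)), zero_mul]

omit [Fintype ι] in
theorem incl_conj_right (S : Finset ι) (M : Matrix S S ℚ[X]) (i j : ι) (hj : j ∉ S) :
    (incl S * M * (incl S)ᵀ) i j = 0 := by
  simp only [Matrix.mul_apply, incl, of_apply, transpose_apply]
  refine Finset.sum_eq_zero fun a _ => ?_
  rw [if_neg (fun h : j = (a : ι) => hj (h ▸ a.2)), mul_zero]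

/-- Extension of a matrix by the identity. -/
noncomputable def extHom (S : Finset ι) : Matrix S S ℚ[X] →* Matrix ι ι ℚ[X] where
  toFun M := 1 + incl S * (M - 1) * (incl S)ᵀ
  map_one' := by simp
  map_mul' M N := by
    have : incl S * (M - 1) * (incl S)ᵀ * (incl S * (N - 1) * (incl S)ᵀ)
        = incl S * ((M - 1) * (N - 1)) * (incl S)ᵀ := by
      simp only [Matrix.mul_assoc]
      rw [← Matrix.mul_assoc (incl S)ᵀ, incl_transpose_mul, Matrix.one_mul]
    rw [add_mul, mul_add, mul_add, one_mul, one_mul, mul_one, this, add_assoc, ← add_assoc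
      (incl S * (N - 1) * (incl S)ᵀ), ← Matrix.add_mul, ← Matrix.add_mul, ← Matrix.mul_add,
      ← Matrix.mul_add]
    congr 3
    noncomm_ring

theorem extHom_apply (S : Finset ι) (M : Matrix S S ℚ[X]) :
    extHom S M = 1 + incl S * (M - 1) * (incl S)ᵀ := rfl

theorem extHom_submatrix (S : Finset ι) (M : Matrix ι ι ℚ[X])
    (hM : ∀ i j, (i ∉ S ∨ j ∉ S) → M i j = (1 : Matrix ι ι ℚ[X]) i j) :
    extHom S (M.submatrix (↑) (↑)) = M := by
  ext1 i j
  rw [extHom_apply, Matrix.add_apply]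
  by_cases hi : i ∈ S
  · by_cases hj : j ∈ S
    · have := incl_conj_apply S (M.submatrix (↑) (↑) - 1) ⟨i, hi⟩ ⟨j, hj⟩
      simp only at this
      rw [this]
      simp [Matrix.one_apply]
    · rw [incl_conj_right _ _ _ _ hj, add_zero, hM i j (Or.inr hj)]
  · rw [incl_conj_left _ _ _ _ hi, add_zero, hM i j (Or.inl hi)]

theorem isUnit_submatrix (S : Finset ι) (κ : (Matrix ι ι ℚ[X])ˣ)
    (hM : ∀ i j, (i ∉ S ∨ j ∉ S) → (κ : Matrix ι ι ℚ[X]) i j = (1 : Matrix ι ι ℚ[X]) i j) :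
    IsUnit ((κ : Matrix ι ι ℚ[X]).submatrix ((↑) : S → ι) ((↑) : S → ι)) := by
  refine IsUnit.of_mul_eq_one
    (((κ⁻¹ : (Matrix ι ι ℚ[X])ˣ) : Matrix ι ι ℚ[X]).submatrix (↑) (↑)) ?_
  ext1 a b
  have h1 := congrFun (congrFun (Units.mul_inv κ) a) b
  rw [Matrix.mul_apply] at h1 ⊢
  simp only [submatrix_apply]
  rw [Finset.sum_coe_sort S (fun k => (κ : Matrix ι ι ℚ[X]) a k *
    ((κ⁻¹ : (Matrix ι ι ℚ[X])ˣ) : Matrix ι ι ℚ[X]) k b), Finset.sum_subset (Finset.subset_univ S),
    h1]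
  · simp [Matrix.one_apply]
  · intro k _ hk
    rw [hM _ _ (Or.inr hk), Matrix.one_apply_ne (fun h : (a : ι) = k => hk (h ▸ a.2)), zero_mul]

theorem extHom_mem (n : ℕ) (S : Finset ι) (u : (Matrix S S ℚ[X])ˣ)
    (hu : u ∈ Subgroup.closure (TV n (Finset.univ : Finset S))) :
    Units.map (extHom S) u ∈ Subgroup.closure (TV n S) := by
  have : Subgroup.closure (TV n (Finset.univ : Finset S))
      ≤ (Subgroup.closure (TV n S)).comap (Units.map (extHom S)) := by
    rw [Subgroup.closure_le]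
    rintro u ⟨x, y, -, -, h, e⟩
    refine Subgroup.subset_closure ⟨incl S *ᵥ x, incl S *ᵥ y, incl_mulVec S x, incl_mulVec S y,
      ?_, ?_⟩
    · rw [dotProduct_mulVec, ← vecMul_transpose, vecMul_vecMul, incl_transpose_mul, vecMul_one, h]
    · rw [Units.coe_map, extHom_apply, e, add_sub_cancel_left, Matrix.mul_smul, Matrix.smul_mul,
        mul_vecMulVec, vecMulVec_mul, vecMul_transpose]
  exact this hu

end

/-- The statement for a fixed level, with the big index set equal to everything. -/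
def SK1Univ (m : ℕ) : Prop :=
  ∀ (ι : Type) [Fintype ι] [DecidableEq ι] (S : Finset ι), S.card + 2 * m ≤ Fintype.card ι →
    ∀ κ : (Matrix ι ι ℚ[X])ˣ,
    (∀ i j, (i ∉ S ∨ j ∉ S) → (κ : Matrix ι ι ℚ[X]) i j = (1 : Matrix ι ι ℚ[X]) i j) →
    κ ∈ Kn m → κ ∈ Subgroup.closure (TV m (Finset.univ : Finset ι))

/-- The statement for a fixed level. -/
def SK1At (m : ℕ) : Prop :=
  ∀ (ι : Type) [Fintype ι] [DecidableEq ι] (S S' : Finset ι), S ⊆ S' →
    S.card + 2 * m ≤ S'.card → ∀ κ : (Matrix ι ι ℚ[X])ˣ,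
    (∀ i j, (i ∉ S ∨ j ∉ S) → (κ : Matrix ι ι ℚ[X]) i j = (1 : Matrix ι ι ℚ[X]) i j) →
    κ ∈ Kn m → κ ∈ Subgroup.closure (TV m S')

theorem sk1At_of_univ {m : ℕ} (h : SK1Univ m) : SK1At m := by
  intro ι _ _ S S' hS hc κ hκ hκ'
  have hκ2 : ∀ i j, (i ∉ S' ∨ j ∉ S') →
      (κ : Matrix ι ι ℚ[X]) i j = (1 : Matrix ι ι ℚ[X]) i j := fun i j hij =>
    hκ i j (hij.imp (fun h h' => h (hS h')) (fun h h' => h (hS h')))
  obtain ⟨u, hu⟩ := isUnit_submatrix S' κ hκ2
  have h1 : ∀ a b : S', (1 : Matrix S' S' ℚ[X]) a b = (1 : Matrix ι ι ℚ[X]) a b := by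
    intro a b
    simp [Matrix.one_apply]
  have h2 := h S' (S.subtype (· ∈ S')) (by
      rw [Finset.card_subtype, Finset.filter_true_of_mem (fun x hx => hS hx), Fintype.card_coe]
      exact hc) u
    (by
      intro a b hab
      rw [hu, h1, submatrix_apply]
      exact hκ _ _ (by simpa using hab))
    (by
      rw [mem_Kn]
      intro a b
      rw [hu, h1, submatrix_apply]
      exact mem_Kn.mp hκ' _ _)
  have h3 := extHom_mem m S' u h2
  have h4 : Units.map (extHom S') u = κ := by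
    apply Units.ext
    rw [Units.coe_map, hu, extHom_submatrix S' _ hκ2]
  rwa [h4] at h3

theorem sk1Univ_one : SK1Univ 1 := by
  intro ι _ _ S _ κ _ hκ'
  have h1 : ev0 κ = 1 := by
    apply Units.ext
    ext1 i j
    have := mem_Kn.mp hκ' i j
    rw [pow_one, X_dvd_iff, coeff_sub, sub_eq_zero] at this
    rw [ev0_apply, this, Units.val_one, Matrix.one_apply]
    split_ifs <;> simp
  refine Subgroup.closure_mono ?_ (mem_Tc_of_ev0 κ h1)
  rintro _ ⟨v, w, h, rfl⟩
  have := tau_mem_TV (n := 1) (S := Finset.univ) (by simp) (by simp) h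
  rwa [pow_one] at this

theorem sk1Univ_succ {m : ℕ} (hm : 1 ≤ m) (h : SK1At m) : SK1Univ (m + 1) := by
  intro ι _ _ S hc κ hκ hκ'
  have hc1 : 1 < (Finset.univ \ S).card := by
    rw [Finset.card_univ_sdiff]; omega
  obtain ⟨e, he, f, hf, hef⟩ := Finset.one_lt_card.mp hc1
  have he' : e ∉ S := (Finset.mem_sdiff.mp he).2
  have hf' : f ∉ S := (Finset.mem_sdiff.mp hf).2
  have h1 := h ι S (Finset.univ \ {e, f}) (by
      intro i hi
      simp only [Finset.mem_sdiff, Finset.mem_univ, Finset.mem_insert, Finset.mem_singleton,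
        true_and, not_or]
      exact ⟨fun h => he' (h ▸ hi), fun h => hf' (h ▸ hi)⟩)
    (by rw [Finset.card_univ_sdiff, Finset.card_pair hef]; omega) κ hκ
    (mem_Kn.mpr fun i j => (pow_dvd_pow _ (Nat.le_succ m)).trans (mem_Kn.mp hκ' i j))
  have := TV_normal (ι := ι) (m + 1)
  have hK : Kills (QuotientGroup.mk' (Subgroup.closure (TV (m + 1) (Finset.univ : Finset ι))))
      (m + 1) := by
    intro x y hxy hy
    choose y' hy' using hy
    have e : y = (X ^ (m + 1) : ℚ[X]) • y' := funext hy'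
    rw [QuotientGroup.mk'_apply, QuotientGroup.eq_one_iff, e]
    refine Subgroup.subset_closure (tau_mem_TV (by simp) (by simp) ?_)
    rw [e, smul_dotProduct, smul_eq_mul] at hxy
    exact (mul_eq_zero.mp hxy).resolve_left (pow_ne_zero _ X_ne_zero)
  have h3 : ∀ i j : ι, ∃ k, i ≠ k ∧ j ≠ k := by
    intro i j
    have : 0 < (Finset.univ \ ({i, j} : Finset ι)).card := by
      have := Finset.card_le_two (a := i) (b := j)
      rw [Finset.card_univ_sdiff]; omega
    obtain ⟨k, hk⟩ := Finset.card_pos.mp this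
    simp only [Finset.mem_sdiff, Finset.mem_univ, Finset.mem_insert, Finset.mem_singleton,
      true_and, not_or] at hk
    exact ⟨k, Ne.symm hk.1, Ne.symm hk.2⟩
  have h4 := hK.step (QuotientGroup.mk'_surjective _) hm h3 hef (by simp) (by simp) h1 hκ'
  rwa [QuotientGroup.mk'_apply, QuotientGroup.eq_one_iff] at h4

theorem sk1At (m : ℕ) (hm : 1 ≤ m) : SK1At m := by
  induction m, hm using Nat.le_induction with
  | base => exact sk1At_of_univ sk1Univ_one
  | succ m hm ih => exact sk1At_of_univ (sk1Univ_succ hm ih)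

theorem sk1 : SK1Stmt := by
  intro ι _ _ m hm S S' hS hc κ hκ hκ'
  refine sk1At m hm ι S S' hS ?_ κ hκ (mem_Kn.mpr hκ')
  have := Finset.card_sdiff_add_card_eq_card hS
  omega

end Pool.Agent.MP_841a27_al

end MrgPart1

-- ======== part 2: formerly Pool.Agent.MP_841a27_al.FinTrans
section MrgPart2

/-!
Transfer from an ultrapower of the rationals to the rationals.
-/

namespace Pool.Agent.MP_841a27_al.FN

open Matrix Polynomial Filter

/-- The ultrafilter. -/
noncomputable abbrev UF : Filter ℕ := (hyperfilter ℕ : Filter ℕ)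

/-- The ultrapower of the rationals. -/
abbrev KK : Type := Germ UF ℚ

/-- The quotient map from sequences to the ultrapower. -/
noncomputable def ph : (ℕ → ℚ) →+* KK := Germ.coeRingHom UF

/-- Evaluation of sequences. -/
def ev (n : ℕ) : (ℕ → ℚ) →+* ℚ := Pi.evalRingHom (fun _ => ℚ) n

@[simp] lemma ev_apply (n : ℕ) (f : ℕ → ℚ) : ev n f = f n := rfl

lemma ph_surj : Function.Surjective ph := fun x => Germ.inductionOn x fun f => ⟨f, rfl⟩

lemma ph_eq {f g : ℕ → ℚ} : ph f = ph g ↔ ∀ᶠ n in UF, f n = g n := Germ.coe_eq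

lemma ph_le {f g : ℕ → ℚ} : ph f ≤ ph g ↔ ∀ᶠ n in UF, f n ≤ g n := Germ.coe_le

lemma ph_lt {f g : ℕ → ℚ} : ph f < ph g ↔ ∀ᶠ n in UF, f n < g n := Germ.coe_lt

lemma ph_const (q : ℚ) : ph (fun _ => q) = (q : KK) :=
  eq_ratCast (ph.comp (Pi.constRingHom ℕ ℚ)) q

variable {I J I' : Type}

lemma mat_lift (M : Matrix I J KK) : ∃ M' : Matrix I J (ℕ → ℚ), M'.map ph = M := by
  choose g hg using ph_surj
  exact ⟨M.map g, by ext i j; simp [hg]⟩

lemma mat_eq [Finite I] [Finite J] {M M' : Matrix I J (ℕ → ℚ)} (h : M.map ph = M'.map ph) :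
    ∀ᶠ n in UF, M.map (ev n) = M'.map (ev n) := by
  have : ∀ᶠ n in UF, ∀ i j, M i j n = M' i j n :=
    eventually_all.mpr fun i => eventually_all.mpr fun j => ph_eq.mp (congrFun (congrFun h i) j)
  exact this.mono fun n hn => by ext i j; exact hn i j

lemma mat_nn [Finite I] [Finite J] {M : Matrix I J (ℕ → ℚ)} (h : MNN (M.map ph)) :
    ∀ᶠ n in UF, MNN (M.map (ev n)) := by
  refine eventually_all.mpr fun i => eventually_all.mpr fun j => ?_
  have h1 : ph 0 ≤ ph (M i j) := by rw [map_zero]; exact h i j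
  exact ph_le.mp h1

lemma sse_transfer {X Y : Obj KK} (h : Relation.ReflTransGen (Step (K := KK)) X Y)
    (hX : Finite X.1) (M : Matrix X.1 X.1 (ℕ → ℚ)) (hM : M.map ph = X.2) :
    ∀ M' : Matrix Y.1 Y.1 (ℕ → ℚ), M'.map ph = Y.2 →
      ∀ᶠ n in UF, SSE (M.map (ev n)) (M'.map (ev n)) := by
  induction h with
  | refl =>
    intro M' hM'
    exact (mat_eq (hM.trans hM'.symm)).mono fun n hn => SSE.of_eq hn
  | tail _ hs ih =>
    intro M' hM'
    obtain ⟨i1, i2, R, S, hR, hS, h1, h2⟩ := hs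
    obtain ⟨R', rfl⟩ := mat_lift R
    obtain ⟨S', rfl⟩ := mat_lift S
    have e1 := ih (R' * S') (by rw [h1, Matrix.map_mul])
    have e2 := mat_eq (M := M') (M' := S' * R') (by rw [hM', h2, Matrix.map_mul])
    filter_upwards [e1, e2, mat_nn hR, mat_nn hS] with n k1 k2 k3 k4
    refine k1.trans (SSE.step' _ _ k3 k4 ?_ ?_)
    · rw [Matrix.map_mul]
    · rw [k2, Matrix.map_mul]

section pm
variable {R R' : Type} [CommRing R] [CommRing R'] (f : R →+* R')

/-- Change of coefficients in a polynomial matrix. -/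
noncomputable def pm (M : Matrix I J R[X]) : Matrix I J R'[X] := M.map (mapRingHom f)

lemma pm_mul [Fintype J] (M : Matrix I J R[X]) (M' : Matrix J I' R[X]) :
    pm f (M * M') = pm f M * pm f M' := Matrix.map_mul

lemma pm_add (M M' : Matrix I J R[X]) : pm f (M + M') = pm f M + pm f M' := by
  ext1; simp [pm]

lemma pm_sub (M M' : Matrix I J R[X]) : pm f (M - M') = pm f M - pm f M' := by
  ext1; simp [pm]

lemma pm_one [DecidableEq I] : pm f (1 : Matrix I I R[X]) = 1 :=
  Matrix.map_one _ (map_zero _) (map_one _)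

lemma pm_X (M : Matrix I J R[X]) : pm f ((X : R[X]) • M) = (X : R'[X]) • pm f M := by
  ext1; simp [pm]

lemma pm_X2 (M : Matrix I J R[X]) : pm f ((X : R[X]) ^ 2 • M) = (X : R'[X]) ^ 2 • pm f M := by
  ext1; simp [pm]

lemma pm_cm (a : Matrix I J R) : pm f (cm a) = cm (a.map f) := by
  ext1; simp [pm]

lemma pm_path (p : ℕ) (u : R) : pm f (pathM p u) = pathM p (f u) := by
  ext1 i j
  fin_cases i <;> fin_cases j <;> simp [pm, pathM, th, Polynomial.map_sum]

end pm

lemma pm_lift (M : Matrix I J KK[X]) : ∃ M' : Matrix I J (ℕ → ℚ)[X], pm ph M' = M := by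
  choose g hg using Polynomial.map_surjective ph ph_surj
  exact ⟨M.map g, by ext1 i j; simp [pm, hg]⟩

lemma poly_eq {p q : (ℕ → ℚ)[X]} (h : p.map ph = q.map ph) :
    ∀ᶠ n in UF, p.map (ev n) = q.map (ev n) := by
  have h1 : ∀ d, ∀ᶠ n in UF, p.coeff d n = q.coeff d n := fun d => by
    apply ph_eq.mp
    rw [← coeff_map, h, coeff_map]
  have h2 : ∀ᶠ n in UF, ∀ d ∈ p.support ∪ q.support, p.coeff d n = q.coeff d n :=
    (eventually_all_finset _).mpr fun d _ => h1 d
  refine h2.mono fun n hn => ?_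
  ext d
  rw [coeff_map, coeff_map]
  by_cases hd : d ∈ p.support ∪ q.support
  · exact hn d hd
  · rw [Finset.mem_union, not_or, notMem_support_iff, notMem_support_iff] at hd
    rw [hd.1, hd.2]

lemma pm_eq [Finite I] [Finite J] {M M' : Matrix I J (ℕ → ℚ)[X]} (h : pm ph M = pm ph M') :
    ∀ᶠ n in UF, pm (ev n) M = pm (ev n) M' := by
  have : ∀ᶠ n in UF, ∀ i j, (M i j).map (ev n) = (M' i j).map (ev n) :=
    eventually_all.mpr fun i => eventually_all.mpr fun j => poly_eq (congrFun (congrFun h i) j)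
  exact this.mono fun n hn => by ext1 i j; exact hn i j

lemma real_transfer [Finite I] {M : Matrix I I (ℕ → ℚ)[X]} {r : RData KK I I}
    (h : Real (pm ph M) r) : ∃ A : Matrix (I ⊕ r.J) (I ⊕ r.J) (ℕ → ℚ), A.map ph = r.mat ∧
      ∀ᶠ n in UF, ∃ a b c q, Real (pm (ev n) M) ⟨r.J, a, b, c, q⟩ ∧
        A.map (ev n) = fromBlocks a b c q := by
  obtain ⟨J, a, b, c, q⟩ := r
  obtain ⟨ha, hb, hc, hq, ⟨k, hk⟩, Y, h1, h2, h3⟩ := h
  dsimp only at *
  obtain ⟨a, rfl⟩ := mat_lift a
  obtain ⟨b, rfl⟩ := mat_lift b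
  obtain ⟨c, rfl⟩ := mat_lift c
  obtain ⟨q, rfl⟩ := mat_lift q
  obtain ⟨Y, rfl⟩ := pm_lift Y
  refine ⟨fromBlocks a b c q, fromBlocks_map _ _ _ _ _, ?_⟩
  have e0 := mat_eq (M := q ^ k) (M' := 0) (by
    have : (q ^ k).map ph = (q.map ph) ^ k := map_pow ph.mapMatrix q k
    rw [this, hk]; simp)
  have e1 := pm_eq (M := Y * (1 - (X : (ℕ → ℚ)[X]) • cm q)) (M' := 1) (by
    rw [pm_mul, pm_sub, pm_one, pm_X, pm_cm, h1])
  have e2 := pm_eq (M := (1 - (X : (ℕ → ℚ)[X]) • cm q) * Y) (M' := 1) (by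
    rw [pm_mul, pm_sub, pm_one, pm_X, pm_cm, h2])
  have e3 := pm_eq (M := M)
    (M' := (X : (ℕ → ℚ)[X]) • cm a + (X : (ℕ → ℚ)[X]) ^ 2 • (cm b * Y * cm c)) (by
    rw [pm_add, pm_X, pm_X2, pm_mul, pm_mul, pm_cm, pm_cm, pm_cm, h3])
  filter_upwards [e0, e1, e2, e3, mat_nn ha, mat_nn hb, mat_nn hc, mat_nn hq]
    with n k0 k1 k2 k3 l1 l2 l3 l4
  refine ⟨_, _, _, _, ⟨l1, l2, l3, l4, ⟨k, ?_⟩, pm (ev n) Y, ?_, ?_, ?_⟩, fromBlocks_map _ _ _ _ _⟩
  · have : (q ^ k).map (ev n) = (q.map (ev n)) ^ k := map_pow (ev n).mapMatrix q k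
    exact this.symm.trans (k0.trans (by simp))
  · rwa [pm_mul, pm_sub, pm_one, pm_X, pm_cm] at k1
  · rwa [pm_mul, pm_sub, pm_one, pm_X, pm_cm] at k2
  · rwa [pm_add, pm_X, pm_X2, pm_mul, pm_mul, pm_cm, pm_cm, pm_cm] at k3

lemma peq_transfer [Finite I] [Finite J] {M : Matrix I I (ℕ → ℚ)[X]} {M' : Matrix J J (ℕ → ℚ)[X]}
    (h : PEq (pm ph M) (pm ph M')) : ∀ᶠ n in UF, PEq (pm (ev n) M) (pm (ev n) M') := by
  obtain ⟨r, r', h1, h2, h3⟩ := h
  obtain ⟨A, k1, k2⟩ := real_transfer h1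
  obtain ⟨A', l1, l2⟩ := real_transfer h2
  have := sse_transfer h3 (inferInstanceAs (Finite (I ⊕ r.J))) A k1 A' l1
  filter_upwards [k2, l2, this] with n ⟨a, b, c, q, g1, g2⟩ ⟨a', b', c', q', g3, g4⟩ g5
  refine ⟨_, _, g1, g3, ?_⟩
  rw [g2, g4] at g5
  exact g5

variable {V : Type} [Fintype V] [DecidableEq V]

lemma seq_transfer (S : GSys V) (p : ℕ) (u u' : ℕ → ℚ)
    (h : SEq S ty2 (pathM p (ph u)) ty2 (pathM p (ph u'))) :
    ∀ᶠ n in UF, SEq S ty2 (pathM p (u n)) ty2 (pathM p (u' n)) := by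
  let ζ : ℕ → V → V → ℕ → ℚ := fun d x y _ => S.z d x y
  have e1 : ∀ w : ℕ → ℚ, pm ph (hyb S.side ζ ty2 ty2 (pathM p w)) =
      S.H ty2 ty2 (pathM p (ph w)) := by
    intro w
    have := hyb_map ph S.side ζ ty2 ty2 (pathM p w)
    rw [← pm_path]
    refine this.trans ?_
    congr 1
    funext d x y
    exact ph_const _
  have e2 : ∀ (n : ℕ) (w : ℕ → ℚ), pm (ev n) (hyb S.side ζ ty2 ty2 (pathM p w)) =
      S.H ty2 ty2 (pathM p (w n)) := by
    intro n w
    have := hyb_map (ev n) S.side ζ ty2 ty2 (pathM p w)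
    rw [← ev_apply n w, ← pm_path]
    exact this
  unfold SEq at h
  rw [← e1, ← e1] at h
  refine (peq_transfer h).mono fun n hn => ?_
  rw [e2, e2] at hn
  exact hn

/-- The number of steps. -/
def steps (n : ℕ) : ℕ := (n + 1) ^ n

lemma steps_pos (n : ℕ) : 0 < steps n := Nat.pos_of_ne_zero (by simp [steps])

lemma small (q : ℚ) (hq : 0 < q) : ∀ᶠ n : ℕ in atTop, 1 / ((n : ℚ) + 1) ≤ q := by
  obtain ⟨N, hN⟩ := exists_nat_gt (1 / q)
  filter_upwards [eventually_ge_atTop N] with n hn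
  have h1 : (N : ℚ) ≤ n := by exact_mod_cast hn
  rw [div_le_iff₀ (by positivity)]
  rw [div_lt_iff₀ hq] at hN
  nlinarith

lemma infs : Infs (ph fun n => 1 / (steps n : ℚ)) (ph fun n => 1 / ((n : ℚ) + 1)) := by
  have h1 : 0 < ph fun n => 1 / (steps n : ℚ) := by
    rw [← map_zero ph, ph_lt]
    exact Eventually.of_forall fun n => by have := steps_pos n; simp; exact_mod_cast this
  have h2 : 0 < ph fun n : ℕ => 1 / ((n : ℚ) + 1) := by
    rw [← map_zero ph, ph_lt]
    exact Eventually.of_forall fun n => by simp; positivity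
  refine ⟨h1, h2, fun q hq => ?_, fun N q hq => ?_⟩
  · rw [abs_of_pos h2, mul_one, ← ph_const, ph_le]
    exact (small q hq).filter_mono Nat.hyperfilter_le_atTop
  · rw [abs_of_pos h1, ← ph_const, ← map_pow, ← map_mul, ph_le]
    refine Eventually.filter_mono Nat.hyperfilter_le_atTop ?_
    filter_upwards [small q hq, eventually_ge_atTop (N + 1)] with n k1 k2
    obtain ⟨t, rfl⟩ := Nat.exists_eq_add_of_le k2
    simp only [steps, Pi.mul_apply, Pi.pow_apply]
    set x : ℚ := 1 / (((N + 1 + t : ℕ) : ℚ) + 1) with hx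
    have hx0 : 0 < x := by positivity
    have hx1 : x ≤ 1 := by
      rw [hx, div_le_one (by positivity)]
      have : (0 : ℚ) ≤ ((N + 1 + t : ℕ) : ℚ) := by positivity
      linarith
    have e : (1 : ℚ) / (((N + 1 + t + 1) ^ (N + 1 + t) : ℕ) : ℚ) = x ^ t * x * x ^ N := by
      rw [← pow_succ, ← pow_add, hx, _root_.one_div_pow]
      push_cast
      congr 2; omega
    rw [e]
    refine mul_le_mul_of_nonneg_right ?_ (by positivity)
    have := pow_le_one₀ hx0.le hx1 (n := t)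
    nlinarith

lemma path_zero {p : ℕ} (hp : 1 ≤ p) : pathM p (0 : ℚ) = !![X, 0; 0, 0] := by
  obtain ⟨p, rfl⟩ : ∃ k, p = k + 1 := ⟨p - 1, by omega⟩
  ext1 i j
  fin_cases i <;> fin_cases j <;> simp [pathM, th]

lemma path_one (p : ℕ) : pathM p (1 : ℚ) = !![0, X ^ (p + 1); 0, X] := by
  ext1 i j
  fin_cases i <;> fin_cases j <;> simp [pathM]

lemma nn_xpow {k : ℕ} (hk : 1 ≤ k) :
    ((X : ℚ[X]) ^ k).coeff 0 = 0 ∧ ∀ d, 0 ≤ ((X : ℚ[X]) ^ k).coeff d :=
  ⟨by rw [coeff_X_pow, if_neg (by omega)], PNN.X.pow k⟩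

lemma nn_x : (X : ℚ[X]).coeff 0 = 0 ∧ ∀ d, 0 ≤ (X : ℚ[X]).coeff d := by
  simpa using nn_xpow le_rfl

lemma path_connect (h : AllSteps) (S : GSys V) {k0 P : ℕ} (hS : S.Per k0 P) :
    SEq S ty2 (pathM k0 (0 : ℚ)) ty2 (pathM k0 (1 : ℚ)) := by
  have hk : 1 ≤ k0 := S.n0_pos.trans hS.2.1
  have key : ∃ n, ∀ j, j < steps n → SEq S ty2 (pathM k0 ((j : ℚ) / steps n)) ty2
      (pathM k0 (((j + 1 : ℕ) : ℚ) / steps n)) := by
    by_contra hc
    push Not at hc
    choose j hj1 hj2 using hc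
    have h1 := h V S k0 P hS KK _ _ infs (ph fun n => (j n : ℚ) / steps n) (by
      rw [← map_zero ph, ph_le]
      exact Eventually.of_forall fun n => by simp; positivity) (by
      rw [← map_add, ← map_one ph, ph_le]
      refine Eventually.of_forall fun n => ?_
      have h2 : ((j n + 1 : ℕ) : ℚ) ≤ steps n := by exact_mod_cast hj1 n
      have h3 : (0 : ℚ) < steps n := by exact_mod_cast steps_pos n
      simp only [Pi.add_apply, Pi.one_apply]
      rw [← add_div, div_le_one h3]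
      exact_mod_cast h2)
    rw [← map_add] at h1
    obtain ⟨n, hn⟩ := (seq_transfer S k0 _ _ h1).exists
    apply hj2 n
    simp only [Pi.add_apply] at hn
    rw [← add_div] at hn
    push_cast
    exact hn
  obtain ⟨n, hn⟩ := key
  have h3 : (steps n : ℚ) ≠ 0 := by exact_mod_cast (steps_pos n).ne'
  have chain : ∀ j, j ≤ steps n →
      SEq S ty2 (pathM k0 (0 : ℚ)) ty2 (pathM k0 ((j : ℚ) / steps n)) := by
    intro j
    induction j with
    | zero =>
      intro _
      rw [Nat.cast_zero, zero_div]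
      apply SEq.refl
      rw [path_zero hk]
      intro a b
      fin_cases a <;> fin_cases b <;> simp [nn_x.2]
    | succ j ih => exact fun hj => (ih (by omega)).trans (hn j (by omega))
  have := chain _ le_rfl
  rwa [div_self h3] at this

end Pool.Agent.MP_841a27_al.FN

end MrgPart2

-- ======== part 3: formerly Pool.Agent.MP_841a27_al.Fin
section MrgPart3

/-!
Assembly: the step statement implies that shift equivalence implies strong shift equivalence.
-/

namespace Pool.Agent.MP_841a27_al.FN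

open Matrix Polynomial

section Per
variable {V : Type} [Fintype V] [DecidableEq V]

lemma exists_per (S : GSys V) : ∃ k0 P, S.Per k0 P := by
  classical
  have step : ∀ d, S.n0 ≤ d → ∀ x w, (0 < S.z (d + 1) x w ↔
      ∃ y, S.side y = S.side w ∧ 0 < S.z d x y ∧ 0 < S.z 1 y w) := by
    intro d hd x w
    constructor
    · intro h
      rw [← S.mul (S.side w) d 1 x w (Or.inr hd) (Or.inl rfl)] at h
      obtain ⟨y, hy, h1⟩ := Finset.exists_ne_zero_of_sum_ne_zero h.ne'
      exact ⟨y, (Finset.mem_filter.mp hy).2,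
        lt_of_le_of_ne (S.nonneg _ _ _) (left_ne_zero_of_mul h1).symm,
        lt_of_le_of_ne (S.nonneg _ _ _) (right_ne_zero_of_mul h1).symm⟩
    · rintro ⟨y, -, h1, h2⟩
      exact S.pos h1 h2
  have main : ∀ a b, a < b → (fun x y => 0 < S.z (S.n0 + a) x y) =
      (fun x y => 0 < S.z (S.n0 + b) x y) → ∃ k0 P, S.Per k0 P := by
    intro a b hab h
    refine ⟨S.n0 + a, b - a, by omega, by omega, fun d hd => ?_⟩
    induction d, hd using Nat.le_induction with
    | base =>
      intro x y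
      have e : S.n0 + a + (b - a) = S.n0 + b := by omega
      rw [e]
      exact (iff_of_eq (congrFun (congrFun h x) y)).symm
    | succ d hd ih =>
      intro x w
      have e : d + 1 + (b - a) = d + (b - a) + 1 := by omega
      rw [e, step _ (by omega), step _ (by omega)]
      simp only [ih]
  obtain ⟨a, b, hab, h⟩ := Finite.exists_ne_map_eq_of_infinite
    (fun d : ℕ => fun x y => 0 < S.z (S.n0 + d) x y)
  rcases lt_or_gt_of_ne hab with h1 | h1
  · exact main a b h1 h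
  · exact main b a h1 h.symm

end Per

section Sys
variable {I J : Type} [Fintype I] [Fintype J] [DecidableEq I] [DecidableEq J]

/-- The two sides. -/
def sd : I ⊕ J → Bool := Sum.elim (fun _ => false) (fun _ => true)

/-- The weights attached to a shift equivalence. -/
def zz (A : Matrix I I ℚ) (B : Matrix J J ℚ) (S : Matrix I J ℚ) (T : Matrix J I ℚ) (l d : ℕ) :
    Matrix (I ⊕ J) (I ⊕ J) ℚ :=
  fromBlocks (A ^ d) (if l ≤ d then A ^ d * S else 0) (if l ≤ d then B ^ (d - l) * T else 0)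
    (B ^ d)

omit [DecidableEq I] [DecidableEq J] in
lemma sum_false (f : I ⊕ J → ℚ) :
    ∑ y ∈ Finset.univ.filter (fun y => sd y = false), f y = ∑ i, f (Sum.inl i) := by
  rw [Finset.sum_filter, Fintype.sum_sum_type]; simp [sd]

omit [DecidableEq I] [DecidableEq J] in
lemma sum_true (f : I ⊕ J → ℚ) :
    ∑ y ∈ Finset.univ.filter (fun y => sd y = true), f y = ∑ j, f (Sum.inr j) := by
  rw [Finset.sum_filter, Fintype.sum_sum_type]; simp [sd]

lemma mnn_pow {A : Matrix I I ℚ} (hA : MNN A) (d : ℕ) : MNN (A ^ d) := by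
  induction d with
  | zero => simpa using MNN.one
  | succ d ih => rw [pow_succ]; exact ih.mul hA

variable {A : Matrix I I ℚ} {B : Matrix J J ℚ} {S : Matrix I J ℚ} {T : Matrix J I ℚ} {l : ℕ}

lemma zz_nn (hA : MNN A) (hB : MNN B) (hS : MNN S) (hT : MNN T) (d : ℕ) :
    MNN (zz A B S T l d) := by
  refine (mnn_pow hA d).fromBlocks ?_ ?_ (mnn_pow hB d)
  · split_ifs
    · exact (mnn_pow hA d).mul hS
    · exact MNN.zero
  · split_ifs
    · exact (mnn_pow hB _).mul hT
    · exact MNN.zero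

lemma zz_mul (h1 : A ^ l = S * T) (h2 : B ^ l = T * S) (h3 : A * S = S * B) (h4 : T * A = B * T)
    (τ : Bool) (a b : ℕ) (x w : I ⊕ J) (hx : sd x = τ ∨ l ≤ a) (hw : sd w = τ ∨ l ≤ b) :
    ∑ y ∈ Finset.univ.filter (fun y => sd y = τ), zz A B S T l a x y * zz A B S T l b y w =
      zz A B S T l (a + b) x w := by
  have p3 : ∀ k, S * B ^ k = A ^ k * S := by
    intro k
    induction k with
    | zero => simp
    | succ k ih => rw [pow_succ, ← Matrix.mul_assoc, ih, Matrix.mul_assoc, ← h3, pow_succ,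
        Matrix.mul_assoc]
  have p4 : ∀ k, T * A ^ k = B ^ k * T := by
    intro k
    induction k with
    | zero => simp
    | succ k ih => rw [pow_succ, ← Matrix.mul_assoc, ih, Matrix.mul_assoc, h4, pow_succ,
        Matrix.mul_assoc]
  cases τ
  · rw [sum_false]
    rcases x with x | x <;> rcases w with w | w
    · simp only [zz, fromBlocks_apply₁₁]
      rw [← Matrix.mul_apply, pow_add]
    · have hb : l ≤ b := by simpa [sd] using hw
      simp only [zz, fromBlocks_apply₁₁, fromBlocks_apply₁₂, if_pos hb,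
        if_pos (show l ≤ a + b by omega)]
      rw [← Matrix.mul_apply, pow_add, Matrix.mul_assoc]
    · have ha : l ≤ a := by simpa [sd] using hx
      simp only [zz, fromBlocks_apply₁₁, fromBlocks_apply₂₁, if_pos ha,
        if_pos (show l ≤ a + b by omega)]
      rw [← Matrix.mul_apply, Matrix.mul_assoc, p4, ← Matrix.mul_assoc, ← pow_add,
        show a - l + b = a + b - l by omega]
    · have ha : l ≤ a := by simpa [sd] using hx
      have hb : l ≤ b := by simpa [sd] using hw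
      simp only [zz, fromBlocks_apply₁₂, fromBlocks_apply₂₁, fromBlocks_apply₂₂, if_pos ha,
        if_pos hb]
      rw [← Matrix.mul_apply, Matrix.mul_assoc, ← Matrix.mul_assoc T, p4, Matrix.mul_assoc, ← h2,
        ← pow_add, ← pow_add, show a - l + (b + l) = a + b by omega]
  · rw [sum_true]
    rcases x with x | x <;> rcases w with w | w
    · have ha : l ≤ a := by simpa [sd] using hx
      have hb : l ≤ b := by simpa [sd] using hw
      simp only [zz, fromBlocks_apply₁₁, fromBlocks_apply₁₂, fromBlocks_apply₂₁, if_pos ha,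
        if_pos hb]
      rw [← Matrix.mul_apply, Matrix.mul_assoc, ← Matrix.mul_assoc S, p3, Matrix.mul_assoc, ← h1,
        ← pow_add, ← pow_add, show a + (b - l + l) = a + b by omega]
    · have ha : l ≤ a := by simpa [sd] using hx
      simp only [zz, fromBlocks_apply₁₂, fromBlocks_apply₂₂, if_pos ha,
        if_pos (show l ≤ a + b by omega)]
      rw [← Matrix.mul_apply, Matrix.mul_assoc, p3, ← Matrix.mul_assoc, ← pow_add]
    · have hb : l ≤ b := by simpa [sd] using hw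
      simp only [zz, fromBlocks_apply₂₁, fromBlocks_apply₂₂, if_pos hb,
        if_pos (show l ≤ a + b by omega)]
      rw [← Matrix.mul_apply, ← Matrix.mul_assoc, ← pow_add, show a + (b - l) = a + b - l by omega]
    · simp only [zz, fromBlocks_apply₂₂]
      rw [← Matrix.mul_apply, pow_add]

lemma zz_cross {d : ℕ} {x y : I ⊕ J} (h : zz A B S T l d x y ≠ 0) : sd x = sd y ∨ l ≤ d := by
  by_cases hd : l ≤ d
  · exact Or.inr hd
  · rcases x with x | x <;> rcases y with y | y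
    · exact Or.inl rfl
    · simp [zz, hd] at h
    · simp [zz, hd] at h
    · exact Or.inl rfl

/-- The graded system of a shift equivalence. -/
def sys (hA : MNN A) (hB : MNN B) (hS : MNN S) (hT : MNN T) (hl : 1 ≤ l)
    (h1 : A ^ l = S * T) (h2 : B ^ l = T * S) (h3 : A * S = S * B) (h4 : T * A = B * T) :
    GSys (I ⊕ J) where
  side := sd
  z d x y := zz A B S T l d x y
  n0 := l
  n0_pos := hl
  nonneg d := zz_nn hA hB hS hT d
  zero x y := by
    have : zz A B S T l 0 = 1 := by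
      rw [zz, if_neg (by omega), if_neg (by omega), pow_zero, pow_zero, fromBlocks_one]
    rw [this, Matrix.one_apply]
  mul := zz_mul h1 h2 h3 h4
  pos := by
    intro a b x y w k1 k2
    rw [← zz_mul h1 h2 h3 h4 (sd y) a b x w (zz_cross k1.ne')
      ((zz_cross k2.ne').imp Eq.symm id)]
    refine lt_of_lt_of_le (mul_pos k1 k2) (Finset.single_le_sum
      (f := fun y => zz A B S T l a x y * zz A B S T l b y w)
      (fun y _ => mul_nonneg (zz_nn hA hB hS hT _ _ _) (zz_nn hA hB hS hT _ _ _)) (by simp))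

end Sys

/-- The one by one matrix with entry `X`. -/
noncomputable def mX : Matrix Unit Unit ℚ[X] := Matrix.of fun _ _ => X

section Ends
variable {V : Type} [Fintype V] [DecidableEq V]

lemma end_zero (S : GSys V) : SEq S (fun _ => false) mX ty2 !![X, 0; 0, 0] := by
  refine sE0 (Matrix.of fun _ j => ![1, 0] j) (Matrix.of fun j _ => ![X, 0] j) ?_ ?_ ?_ ?_ ?_ ?_
  · intro i j; fin_cases j <;> simp
  · intro i j; fin_cases j <;> simp [ty2]
  · intro j i; fin_cases j <;> simp [nn_x.2]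
  · intro j i; fin_cases j <;> simp [ty2]
  · ext1 i j; simp [mX, Matrix.mul_apply, Fin.sum_univ_two]
  · ext1 i j; fin_cases i <;> fin_cases j <;> simp [Matrix.mul_apply]

lemma end_one (S : GSys V) {p : ℕ} (hp : S.n0 ≤ p) :
    SEq S (fun _ => true) mX ty2 !![0, X ^ (p + 1); 0, X] := by
  refine sE0 (Matrix.of fun _ j => ![0, 1] j) (Matrix.of fun j _ => ![X ^ (p + 1), X] j)
    ?_ ?_ ?_ ?_ ?_ ?_
  · intro i j; fin_cases j <;> simp
  · intro i j; fin_cases j <;> simp [ty2]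
  · intro j i
    fin_cases j
    · exact nn_xpow (by omega)
    · exact nn_x
  · intro j i
    fin_cases j
    · intro _; exact pow_dvd_pow _ (by omega)
    · simp [ty2]
  · ext1 i j; simp [mX, Matrix.mul_apply, Fin.sum_univ_two]
  · ext1 i j; fin_cases i <;> fin_cases j <;> simp [Matrix.mul_apply]

lemma end_reindex (S : GSys V) (b : Bool) {I : Type} [Fintype I] (g : I → V)
    (hg : Function.Injective g) (h1 : ∀ i, S.side (g i) = b) (h2 : ∀ x, S.side x = b → ∃ i, g i = x)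
    (A : Matrix I I ℚ) (hA : ∀ i j, S.z 1 (g i) (g j) = A i j) :
    PEq (S.H (fun _ => b) (fun _ => b) mX) ((X : ℚ[X]) • cm A) := by
  let f : I → HI S.side (fun _ : Unit => b) := fun i => ⟨((), g i), h1 i⟩
  have hf : Function.Bijective f := by
    constructor
    · intro i j hij
      exact hg (congrArg (fun p => p.1.2) hij)
    · rintro ⟨⟨u, x⟩, hx⟩
      obtain ⟨i, rfl⟩ := h2 x hx
      exact ⟨i, rfl⟩
  have key := PEq.reindex (S.H_NN0 (ty := fun _ : Unit => b) (ty' := fun _ : Unit => b)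
    (m := mX) fun _ _ => nn_x) (Equiv.ofBijective f hf)
  have e : (S.H (fun _ => b) (fun _ => b) mX).submatrix (Equiv.ofBijective f hf)
      (Equiv.ofBijective f hf) = (X : ℚ[X]) • cm A := by
    ext i j d
    rw [Matrix.submatrix_apply, coeff_hyb]
    simp only [mX, Matrix.of_apply, Equiv.ofBijective_apply, f, GSys.zc, Rat.cast_id,
      Matrix.smul_apply, cm_apply, smul_eq_mul, coeff_mul_C, coeff_X]
    split_ifs with h
    · rw [← h, hA]
    · simp
  rwa [e] at key

end Ends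

/-- Shift equivalence implies strong shift equivalence, for rational matrices. -/
theorem sse_rat (h : AllSteps) {I J : Type} [Fintype I] [Fintype J] [DecidableEq I]
    [DecidableEq J] {A : Matrix I I ℚ} {B : Matrix J J ℚ} {S : Matrix I J ℚ} {T : Matrix J I ℚ}
    {l : ℕ} (hA : MNN A) (hB : MNN B) (hS : MNN S) (hT : MNN T) (hl : 1 ≤ l)
    (h1 : A ^ l = S * T) (h2 : B ^ l = T * S) (h3 : A * S = S * B) (h4 : T * A = B * T) :
    SSE A B := by
  set G := sys hA hB hS hT hl h1 h2 h3 h4 with hG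
  obtain ⟨k0, P, hP⟩ := exists_per G
  have c := path_connect h G hP
  rw [path_zero (G.n0_pos.trans hP.2.1), path_one] at c
  have c2 : SEq G (fun _ => false) mX (fun _ => true) mX :=
    ((end_zero G).trans c).trans (end_one G hP.2.1).symm
  have e1 := end_reindex G false Sum.inl Sum.inl_injective (fun _ => rfl) (by
    rintro (x | x) hx
    · exact ⟨x, rfl⟩
    · simp [hG, sys, sd] at hx) A (fun i j => by simp [hG, sys, zz])
  have e2 := end_reindex G true Sum.inr Sum.inr_injective (fun _ => rfl) (by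
    rintro (x | x) hx
    · simp [hG, sys, sd] at hx
    · exact ⟨x, rfl⟩) B (fun i j => by simp [hG, sys, zz])
  exact SSE.of_PEq hA hB ((e1.symm.trans c2).trans e2)

section Conv
variable {I J L α β γ : Type}

/-- Padding of a matrix by a zero row and a zero column. -/
def pad (M : Matrix I J ℚ) : Option I → Option J → ℚ
  | some i, some j => M i j
  | _, _ => 0

/-- The padded matrix with entries in the nonnegative rationals. -/
def conv (e : α → Option I) (e' : β → Option J) (M : Matrix I J ℚ) : Matrix α β NNRat :=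
  Matrix.of fun a b => (pad M (e a) (e' b)).toNNRat

/-- Every index is hit exactly once. -/
def Once (e : α → Option I) : Prop :=
  ∃ g : I → α, (∀ i, e (g i) = some i) ∧ ∀ a i, e a = some i → a = g i

lemma pad_nn {M : Matrix I J ℚ} (h : MNN M) (a : Option I) (b : Option J) : 0 ≤ pad M a b := by
  cases a <;> cases b <;> simp [pad, h _ _]

lemma conv_mul [Fintype J] [Fintype β] (e : α → Option I) {e' : β → Option J}
    (e'' : γ → Option L) (h : Once e') {M : Matrix I J ℚ} {M' : Matrix J L ℚ} (hM : MNN M)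
    (hM' : MNN M') : conv e e'' (M * M') = conv e e' M * conv e' e'' M' := by
  obtain ⟨g, h1, h2⟩ := h
  ext a c
  rw [Matrix.mul_apply, NNRat.cast_sum]
  simp only [conv, Matrix.of_apply, NNRat.coe_mul, Rat.coe_toNNRat _ (pad_nn hM _ _),
    Rat.coe_toNNRat _ (pad_nn hM' _ _), Rat.coe_toNNRat _ (pad_nn (hM.mul hM') _ _)]
  rw [← Fintype.sum_of_injective g (fun i j hij => by
      have := h1 i; rw [hij, h1] at this; exact (Option.some.inj this).symm)
    (fun j => pad M (e a) (some j) * pad M' (some j) (e'' c)) _ (by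
      intro b hb
      cases hb' : e' b with
      | none => cases e a <;> simp [pad]
      | some j => exact absurd ⟨j, (h2 b j hb').symm⟩ hb) (fun j => by rw [h1])]
  cases e a <;> cases e'' c <;> simp [pad, Matrix.mul_apply]

/-- Objects of the frozen statement. -/
abbrev Sg : Type := Σ k : ℕ, Matrix (Fin (k + 1)) (Fin (k + 1)) NNRat

/-- The relation of the frozen statement. -/
def FR (X Y : Sg) : Prop :=
  ∃ S : Matrix (Fin (X.1 + 1)) (Fin (Y.1 + 1)) NNRat,
    ∃ T : Matrix (Fin (Y.1 + 1)) (Fin (X.1 + 1)) NNRat, X.2 = S * T ∧ Y.2 = T * S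

/-- `Y` represents `X`. -/
def Rep (X : Obj ℚ) (Y : Sg) : Prop :=
  ∃ e : Fin (Y.1 + 1) → Option X.1, Once e ∧ Y.2 = conv e e X.2

lemma rep_step {X X' : Obj ℚ} (h : Step X X') {Y Y' : Sg} (h1 : Rep X Y) (h2 : Rep X' Y') :
    FR Y Y' := by
  obtain ⟨i1, i2, R, S, hR, hS, k1, k2⟩ := h
  obtain ⟨e, he, l1⟩ := h1
  obtain ⟨e', he', l2⟩ := h2
  exact ⟨conv e e' R, conv e' e S, by rw [l1, k1, conv_mul e e he' hR hS],
    by rw [l2, k2, conv_mul e' e' he hS hR]⟩

lemma rep_exists (X : Obj ℚ) [Fintype X.1] : ∃ Y, Rep X Y := by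
  let e : Fin (Fintype.card X.1 + 1) ≃ Option X.1 :=
    (Fintype.equivFinOfCardEq (Fintype.card_option)).symm
  exact ⟨⟨Fintype.card X.1, conv e e X.2⟩, e, ⟨fun i => e.symm (some i), fun i => by simp,
    fun a i h => (e.eq_symm_apply).mpr h⟩, rfl⟩

lemma rep_chain {X X' : Obj ℚ} (h : Relation.ReflTransGen (Step (K := ℚ)) X X') [Fintype X.1]
    (hX : MNN X.2) {Y : Sg} (h1 : Rep X Y) :
    ∀ Y', Rep X' Y' → Relation.ReflTransGen FR Y Y' := by
  induction h with
  | refl =>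
    intro Y' h2
    classical
    exact Relation.ReflTransGen.single (rep_step
      ⟨inferInstance, inferInstance, X.2, 1, hX, MNN.one, by simp, by simp⟩ h1 h2)
  | @tail X1 X2 _ hs ih =>
    intro Y' h2
    obtain ⟨Y1, k⟩ := @rep_exists X1 hs.choose
    exact (ih Y1 k).tail (rep_step hs k h2)

lemma rep_self (m : ℕ) (A : Matrix (Fin (m + 1)) (Fin (m + 1)) NNRat) :
    Rep ⟨Fin (m + 1), A.map NNRat.coeHom⟩ ⟨m, A⟩ := by
  refine ⟨some, ⟨id, fun _ => rfl, fun a i h => Option.some.inj h⟩, ?_⟩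
  ext1 i j
  simp [conv, pad]

end Conv

end Pool.Agent.MP_841a27_al.FN

namespace Pool.Agent.MP_841a27_al

open FN

theorem final_of (h : AllSteps) :
    ∀ (m n : ℕ) (A : Matrix (Fin (m + 1)) (Fin (m + 1)) NNRat)
      (B : Matrix (Fin (n + 1)) (Fin (n + 1)) NNRat),
      (∃ ℓ : ℕ, 1 ≤ ℓ ∧
        ∃ S : Matrix (Fin (m + 1)) (Fin (n + 1)) NNRat,
        ∃ T : Matrix (Fin (n + 1)) (Fin (m + 1)) NNRat,
          A ^ ℓ = S * T ∧ B ^ ℓ = T * S ∧ A * S = S * B ∧ T * A = B * T) →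
      Relation.ReflTransGen
        (fun X Y : (Σ k : ℕ, Matrix (Fin (k + 1)) (Fin (k + 1)) NNRat) =>
          ∃ S : Matrix (Fin (X.1 + 1)) (Fin (Y.1 + 1)) NNRat,
          ∃ T : Matrix (Fin (Y.1 + 1)) (Fin (X.1 + 1)) NNRat,
            X.2 = S * T ∧ Y.2 = T * S)
        ⟨m, A⟩ ⟨n, B⟩ := by
  rintro m n A B ⟨l, hl, S, T, h1, h2, h3, h4⟩
  have nn : ∀ {I J : Type} (M : Matrix I J NNRat), MNN (M.map NNRat.coeHom) :=
    fun M i j => NNRat.coe_nonneg _
  have pw : ∀ {k : ℕ} (M : Matrix (Fin k) (Fin k) NNRat),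
      (M.map NNRat.coeHom) ^ l = (M ^ l).map NNRat.coeHom :=
    fun M => (map_pow NNRat.coeHom.mapMatrix M l).symm
  have key := sse_rat h (nn A) (nn B) (nn S) (nn T) hl
    (by rw [pw, h1, Matrix.map_mul]) (by rw [pw, h2, Matrix.map_mul])
    (by rw [← Matrix.map_mul, h3, Matrix.map_mul]) (by rw [← Matrix.map_mul, h4, Matrix.map_mul])
  exact @rep_chain _ _ key (inferInstanceAs (Fintype (Fin (m + 1)))) (nn A) _ (rep_self m A) _
    (rep_self n B)

end Pool.Agent.MP_841a27_al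

end MrgPart3

-- marker of a merged file
example : 731051 + 582255 = 731051 + 582255 := rfl
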