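import Pool.Agent.MP_841a27_al.SK1Add

-- ======== part 0: formerly Pool.Agent.MP_841a27_al.RLa
section MrgPart0

/-!
Hybrid words on the working levels.
-/

set_option linter.unusedSectionVars false

namespace Pool.Agent.MP_841a27_al.LCT

open Matrix Polynomial Filter Sum

/-- Scalar working indices: a level and a type. -/
abbrev WI (N : ℕ) : Type := Fin (N + 1) × Bool

section scalar
variable {R : Type} [CommRing R] {N : ℕ}

/-- A two by two matrix indexed by `Bool`. -/
def m22 (ff ft tf tt : R) : Matrix Bool Bool R :=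
  Matrix.of fun b b' => cond b (cond b' tt tf) (cond b' ft ff)

theorem m22_mul (a b c d a' b' c' d' : R) : m22 a b c d * m22 a' b' c' d' =
    m22 (a * a' + b * c') (a * b' + b * d') (c * a' + d * c') (c * b' + d * d') := by
  ext (_ | _) (_ | _) <;> simp [m22, Matrix.mul_apply, add_comm]

theorem m22_one : m22 (1 : R) 0 0 1 = 1 := by
  ext (_ | _) (_ | _) <;> simp [m22]

/-- Extension of a two by two matrix on level zero by the identity. -/
def lift (N : ℕ) (ω : Matrix Bool Bool R) : Matrix (WI N) (WI N) R :=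
  Matrix.of fun w w' => if w.1 = 0 ∧ w'.1 = 0 then ω w.2 w'.2 else (1 : Matrix (WI N) (WI N) R) w w'

theorem lift_one : lift N (1 : Matrix Bool Bool R) = 1 := by
  ext ⟨l, b⟩ ⟨l', b'⟩
  simp only [lift, Matrix.of_apply]
  split_ifs with h
  · obtain ⟨rfl, rfl⟩ := h
    simp [Matrix.one_apply]
  · rfl

theorem lift_mul_apply {A : Type} (ω : Matrix Bool Bool R) (M : Matrix (WI N) A R) (w : WI N)
    (a : A) : (lift N ω * M) w a =
      if w.1 = 0 then ω w.2 false * M (0, false) a + ω w.2 true * M (0, true) a else M w a := by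
  obtain ⟨l, b⟩ := w
  rw [Matrix.mul_apply]
  by_cases h : l = 0
  · subst h
    rw [Fintype.sum_prod_type, Fin.sum_univ_succ]
    simp [lift, Matrix.one_apply, (Fin.succ_ne_zero _).symm, add_comm]
  · simp [lift, h, Matrix.one_apply]

theorem mul_lift_apply {A : Type} (ω : Matrix Bool Bool R) (M : Matrix A (WI N) R) (w : WI N)
    (a : A) : (M * lift N ω) a w =
      if w.1 = 0 then M a (0, false) * ω false w.2 + M a (0, true) * ω true w.2 else M a w := by
  obtain ⟨l, b⟩ := w
  rw [Matrix.mul_apply]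
  by_cases h : l = 0
  · subst h
    rw [Fintype.sum_prod_type, Fin.sum_univ_succ]
    simp [lift, Matrix.one_apply, add_comm]
  · simp [lift, h, Matrix.one_apply]

theorem lift_mul (ω ω' : Matrix Bool Bool R) : lift N ω * lift N ω' = lift N (ω * ω') := by
  ext ⟨l, b⟩ ⟨l', b'⟩
  rw [lift_mul_apply]
  by_cases h : l = 0
  · subst h
    by_cases h' : l' = 0
    · subst h'
      simp [lift, Matrix.mul_apply, add_comm]
    · simp [lift, h', Matrix.one_apply, Ne.symm h']
  · simp [lift, h]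

theorem lift_map {R' : Type} [CommRing R'] (f : R →+* R') (ω : Matrix Bool Bool R) :
    (lift N ω).map f = lift N (ω.map f) := by
  ext w w'
  simp only [lift, Matrix.map_apply, Matrix.of_apply, Matrix.one_apply]
  split_ifs <;> simp

theorem m22_map {R' : Type} [CommRing R'] (f : R →+* R') (a b c d : R) :
    (m22 a b c d).map f = m22 (f a) (f b) (f c) (f d) := by
  ext (_ | _) (_ | _) <;> simp [m22]

theorem map_th {R' : Type} [CommRing R'] (f : R →+* R') (n : ℕ) (r : R) :
    f (th n r) = th n (f r) := by simp [th]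

theorem lift_lev {ω : Matrix Bool Bool R} {w w' : WI N} (h : lift N ω w w' ≠ 0) : w.1 = w'.1 := by
  by_contra c
  apply h
  simp only [lift, Matrix.of_apply]
  rw [if_neg (fun e => c (e.1.trans e.2.symm)), Matrix.one_apply_ne fun e => c (by rw [e])]

/-- The loop at the vertex `(0, b)`. -/
def loopM (N : ℕ) (b : Bool) (s : R) : Matrix (WI N) (WI N) R :=
  Matrix.of fun w w' => if w = (0, b) ∧ w' = (0, b) then s else 0

theorem one_sub_lift_false (s : R) : 1 - lift N (m22 (1 - s) 0 0 1) = loopM N false s := by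
  ext ⟨l, b⟩ ⟨l', b'⟩
  by_cases h : l = 0 <;> by_cases h' : l' = 0 <;> cases b <;> cases b' <;>
    simp [lift, loopM, m22, h, h', Matrix.one_apply]

theorem one_sub_lift_true (s : R) : 1 - lift N (m22 1 0 0 (1 - s)) = loopM N true s := by
  ext ⟨l, b⟩ ⟨l', b'⟩
  by_cases h : l = 0 <;> by_cases h' : l' = 0 <;> cases b <;> cases b' <;>
    simp [lift, loopM, m22, h, h', Matrix.one_apply]

end scalar

theorem graded_lift {R : Type} [CommRing R] {N n : ℕ} {a b c d : R[X]} (hb : X ^ n ∣ b)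
    (hc : X ^ n ∣ c) : Graded n (Prod.snd : WI N → Bool) Prod.snd (lift N (m22 a b c d)) := by
  rintro ⟨l, t⟩ ⟨l', t'⟩ h
  simp only [lift, Matrix.of_apply]
  split_ifs with e
  · cases t <;> cases t' <;> simp_all [m22]
  · rw [Matrix.one_apply_ne fun e => h (congrArg Prod.snd e)]; exact dvd_zero _

section idx
variable {V : Type} (side : V → Bool)

/-- Working indices. -/
def eW (N : ℕ) : Ix N V ≃ HI side (Prod.snd : WI N → Bool) where
  toFun i := ⟨((i.1, side i.2), i.2), rfl⟩
  invFun p := (p.1.1.1, p.1.2)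
  left_inv _ := rfl
  right_inv := by
    rintro ⟨⟨⟨l, b⟩, x⟩, h⟩
    simp only at h
    subst h
    rfl

/-- Hybrid indices of a sum. -/
def eS {J J' : Type} (ty : J → Bool) (ty' : J' → Bool) :
    HI side ty ⊕ HI side ty' ≃ HI side (Sum.elim ty ty') where
  toFun := Sum.elim (fun p => ⟨(inl p.1.1, p.1.2), p.2⟩) (fun p => ⟨(inr p.1.1, p.1.2), p.2⟩)
  invFun p := match p with
    | ⟨(inl j, x), h⟩ => inl ⟨(j, x), h⟩
    | ⟨(inr j, x), h⟩ => inr ⟨(j, x), h⟩
  left_inv := by rintro (p | p) <;> rfl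
  right_inv := by rintro ⟨⟨j | j, x⟩, h⟩ <;> rfl

end idx

variable {V : Type} [Fintype V] [DecidableEq V] (S : GSys V)

/-- The rational word attached to a scalar matrix on the working indices. -/
noncomputable def qh (k : ℕ) (hk : 1 ≤ k) {N : ℕ} (μ : Matrix (WI N) (WI N) ℚ[X]) : QM N V :=
  ((S.dil k hk).H Prod.snd Prod.snd μ).submatrix (eW S.side N) (eW S.side N)

variable {k : ℕ} (hk : 1 ≤ k) {N : ℕ}

theorem coeff_qh (μ : Matrix (WI N) (WI N) ℚ[X]) (i j : Ix N V) (m : ℕ) :
    (qh S k hk μ i j).coeff m =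
      (μ (i.1, S.side i.2) (j.1, S.side j.2)).coeff m * S.z (k * m) i.2 j.2 := by
  simp only [qh, Matrix.submatrix_apply]
  exact (coeff_hyb _ _ _ _ _ _ _ _).trans (by simp [GSys.zc, GSys.dil, eW])

theorem qh_one : qh S k hk (1 : Matrix (WI N) (WI N) ℚ[X]) = 1 := by
  rw [qh, GSys.H_one]; exact Matrix.submatrix_one_equiv _

theorem qh_sub (μ μ' : Matrix (WI N) (WI N) ℚ[X]) :
    qh S k hk (μ - μ') = qh S k hk μ - qh S k hk μ' := by
  ext i j m; simp [coeff_qh, sub_mul]

theorem qh_mul {μ μ' : Matrix (WI N) (WI N) ℚ[X]} (h : Graded S.n0 Prod.snd Prod.snd μ)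
    (h' : Graded S.n0 Prod.snd Prod.snd μ') : qh S k hk (μ * μ') = qh S k hk μ * qh S k hk μ' := by
  rw [qh, (S.dil k hk).H_mul h h']
  exact (Matrix.submatrix_mul_equiv _ _ _ (eW S.side N) _).symm

theorem qh_alS (k0 P : ℕ) (μ : Matrix (WI N) (WI N) ℚ[X]) : AlS (AlK S k0 P k) (qh S k hk μ) := by
  intro i j m h
  rw [coeff_qh] at h
  exact Or.inl ((S.nonneg _ _ _).lt_of_ne (right_ne_zero_of_mul h).symm)

theorem qh_levUp {μ : Matrix (WI N) (WI N) ℚ[X]} (h : ∀ w w', ((μ - 1) w w').coeff 0 = 0) :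
    LevUp (qh S k hk μ - 1) := by
  intro i j h0
  rw [← qh_one S hk, ← qh_sub, coeff_qh, h, zero_mul] at h0
  exact absurd rfl h0

theorem qh_lev0 (ω : Matrix Bool Bool ℚ[X]) : Lev0 (qh S k hk (lift N ω)) := by
  intro i j h
  rw [← qh_one S hk]
  ext m
  rw [coeff_qh, coeff_qh]
  simp only [lift, Matrix.of_apply]
  rw [if_neg (by tauto)]

theorem qh_lowNN {μ : Matrix (WI N) (WI N) ℚ[X]} (h : NN0 μ) (L : ℕ) : LowNN L (qh S k hk μ) :=
  fun i j => ⟨by rw [coeff_qh, (h _ _).1, zero_mul], fun m _ => by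
    rw [coeff_qh]; exact mul_nonneg ((h _ _).2 m) (S.nonneg _ _ _)⟩

/-- The unit attached to an invertible two by two matrix. -/
noncomputable def qu (N : ℕ) {a b c d a' b' c' d' : ℚ[X]} (hb : X ^ S.n0 ∣ b) (hc : X ^ S.n0 ∣ c)
    (hb' : X ^ S.n0 ∣ b') (hc' : X ^ S.n0 ∣ c') (h : m22 a b c d * m22 a' b' c' d' = 1)
    (h' : m22 a' b' c' d' * m22 a b c d = 1) : (QM N V)ˣ where
  val := qh S k hk (lift N (m22 a b c d))
  inv := qh S k hk (lift N (m22 a' b' c' d'))
  val_inv := by rw [← qh_mul S hk (graded_lift hb hc) (graded_lift hb' hc'), lift_mul, h, lift_one,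
    qh_one]
  inv_val := by rw [← qh_mul S hk (graded_lift hb' hc') (graded_lift hb hc), lift_mul, h', lift_one,
    qh_one]

theorem lift_const {a b c d : ℚ[X]} (ha : a.coeff 0 = 1) (hb : b.coeff 0 = 0) (hc : c.coeff 0 = 0)
    (hd : d.coeff 0 = 1) (w w' : WI N) : ((lift N (m22 a b c d) - 1) w w').coeff 0 = 0 := by
  obtain ⟨l, t⟩ := w
  obtain ⟨l', t'⟩ := w'
  by_cases h : l = 0 <;> by_cases h' : l' = 0 <;> cases t <;> cases t' <;>
    simp [lift, m22, h, h', Matrix.one_apply, ha, hb, hc, hd]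

variable {K : Type} [Field K] [LinearOrder K] [IsStrictOrderedRing K]

theorem ev_qh {c η : K} (hη : η ≠ 0) {μ : Matrix (WI N) (WI N) ℚ[X]}
    (h : ∀ w w', μ w w' ≠ 0 → w.1 = w'.1) :
    ev k c η (qh S k hk μ) = (S.H Prod.snd Prod.snd (μ.map (sub k c))).submatrix
      (eW S.side N) (eW S.side N) := by
  ext i j d
  rw [coeff_ev hk, Matrix.submatrix_apply, coeff_hyb, Matrix.map_apply, coeff_sub' hk, coeff_qh]
  simp only [eW, Equiv.coe_fn_mk, GSys.zc]
  by_cases h0 : μ (i.1, S.side i.2) (j.1, S.side j.2) = 0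
  · simp [h0]
  · have := h _ _ h0
    simp only at this
    rw [this, div_self (pow_ne_zero _ hη), one_mul]
    split_ifs with hd
    · rw [Nat.mul_div_cancel' hd]; push_cast; ring
    · rw [zero_mul]

theorem H_blocks {J : Type} (ty : J → Bool) (a : Matrix J J K[X]) (b : Matrix J (WI N) K[X])
    (c : Matrix (WI N) J K[X]) (d : Matrix (WI N) (WI N) K[X]) :
    (S.H (Sum.elim ty Prod.snd) (Sum.elim ty Prod.snd) (fromBlocks a b c d)).submatrix
      ((Equiv.sumCongr (Equiv.refl _) (eW S.side N)).trans (eS S.side ty Prod.snd))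
      ((Equiv.sumCongr (Equiv.refl _) (eW S.side N)).trans (eS S.side ty Prod.snd)) =
    fromBlocks (S.H ty ty a) ((S.H ty Prod.snd b).submatrix id (eW S.side N))
      ((S.H Prod.snd ty c).submatrix (eW S.side N) id)
      ((S.H Prod.snd Prod.snd d).submatrix (eW S.side N) (eW S.side N)) := by
  ext1 (i | i) (j | j) <;> rfl

end Pool.Agent.MP_841a27_al.LCT

end MrgPart0

-- ======== part 1: formerly Pool.Agent.MP_841a27_al.RLb
section MrgPart1

/-!
Exchanging the types of the vertex with the loop and of its companion.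
-/

set_option linter.unusedSectionVars false

namespace Pool.Agent.MP_841a27_al.LCT

open Matrix Polynomial Filter Sum

section scalar
variable {R J : Type} [CommRing R] {N : ℕ}

/-- Row factors. -/
noncomputable def rho (a : ℕ) (s : R) (b : Bool) (w : WI N) : R :=
  if w.1 = 0 ∧ w.2 ≠ b then th a s else 1

/-- Column factors. -/
def gam (a : ℕ) (s q κ : R) (b : Bool) (w : WI N) : R :=
  if w.1 = 0 then (if w.2 = b then q * (1 + s ^ a) else q) else κ

/-- The rows of the working vertices. -/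
noncomputable def rowM (N a : ℕ) (s : R) (y : J → R) (b : Bool) : Matrix (WI N) J R :=
  Matrix.of fun w j => rho a s b w * y j

/-- The columns of the working vertices. -/
def colM (N a : ℕ) (s q κ : R) (x : J → R) (b : Bool) : Matrix J (WI N) R :=
  Matrix.of fun j w => x j * gam a s q κ b w

theorem lift_rowM (a : ℕ) (s : R) (y : J → R) :
    lift N (m22 (th (2 * a) s) (-s ^ a) (s ^ a) (1 - s)) * rowM N a s y false =
      rowM N a s y true := by
  ext ⟨l, b⟩ j
  rw [lift_mul_apply]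
  have h1 := th_add a a s
  have h2 := th_mul a s
  rw [← two_mul] at h1
  by_cases h : l = 0
  · cases b
    · simp [rowM, rho, m22, h]
      rw [h1]; ring
    · simp [rowM, rho, m22, h]
      linear_combination y j * h2
  · simp [rowM, rho, h]

theorem colM_lift (a : ℕ) (s q κ : R) (x : J → R) :
    colM N a s q κ x false * lift N (m22 1 (s ^ a) (-s ^ a) (1 - s ^ (2 * a))) =
      colM N a s q κ x true := by
  ext j ⟨l, b⟩
  rw [mul_lift_apply]
  by_cases h : l = 0
  · cases b
    · simp [colM, gam, m22, h]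
      ring
    · simp [colM, gam, m22, h]
      ring
  · simp [colM, gam, h]

theorem loopM_map {R' : Type} [CommRing R'] (f : R →+* R') (b : Bool) (s : R) :
    (loopM N b s).map f = loopM N b (f s) := by
  ext w w'
  simp only [loopM, Matrix.map_apply, Matrix.of_apply]
  split_ifs <;> simp

theorem omega_inv (a : ℕ) (s : R) : m22 (th (2 * a) s) (-s ^ a) (s ^ a) (1 - s) *
    m22 (1 - s) (s ^ a) (-s ^ a) (th (2 * a) s) = 1 := by
  have h := th_mul (2 * a) s
  rw [m22_mul, ← m22_one]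
  congr 1
  · linear_combination h
  · ring
  · ring
  · linear_combination h

theorem omega_inv' (a : ℕ) (s : R) : m22 (1 - s) (s ^ a) (-s ^ a) (th (2 * a) s) *
    m22 (th (2 * a) s) (-s ^ a) (s ^ a) (1 - s) = 1 := by
  have h := th_mul (2 * a) s
  rw [m22_mul, ← m22_one]
  congr 1
  · linear_combination h
  · ring
  · ring
  · linear_combination h

theorem vee_inv (a : ℕ) (s : R) : m22 1 (s ^ a) (-s ^ a) (1 - s ^ (2 * a)) *
    m22 (1 - s ^ (2 * a)) (-s ^ a) (s ^ a) 1 = 1 := by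
  rw [m22_mul, ← m22_one]
  congr 1 <;> ring

theorem vee_inv' (a : ℕ) (s : R) : m22 (1 - s ^ (2 * a)) (-s ^ a) (s ^ a) 1 *
    m22 1 (s ^ a) (-s ^ a) (1 - s ^ (2 * a)) = 1 := by
  rw [m22_mul, ← m22_one]
  congr 1 <;> ring

theorem omega_swap (a : ℕ) (s : R) : m22 (th (2 * a) s) (-s ^ a) (s ^ a) (1 - s) *
    m22 (1 - s) 0 0 1 * m22 1 (s ^ a) (-s ^ a) (1 - s ^ (2 * a)) = m22 1 0 0 (1 - s) := by
  have h := th_mul (2 * a) s
  rw [m22_mul, m22_mul]
  congr 1
  · linear_combination h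
  · linear_combination s ^ a * h
  · ring
  · ring

end scalar

variable {V : Type} [Fintype V] [DecidableEq V] {S : GSys V} {k0 P : ℕ}
variable {K : Type} [Field K] [LinearOrder K] [IsStrictOrderedRing K]
variable {J : Type} [Fintype J] [DecidableEq J]

/-- The tailored matrix. -/
noncomputable def NM (N a : ℕ) (s : K[X]) (moo : Matrix J J K[X]) (x y : J → K[X]) (b : Bool) :
    Matrix (J ⊕ WI N) (J ⊕ WI N) K[X] :=
  fromBlocks moo (colM N a s (C (1 / 4) * (1 + s)) (C (1 / (4 * N + 4))) x b) (rowM N a s y b)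
    (loopM N b s)

/-- Scalar hypotheses. -/
structure SHyp (S : GSys V) (k0 : ℕ) (ε : K) (ty : J → Bool) (Z : J) (moo : Matrix J J K[X])
    (x y : J → K[X]) (lamJ piJ : J → K) (L1J L2J : J → ℕ) (lam pi : K) (L1 L2 M : ℕ) : Prop where
  nn : NN0 moo
  xnn : ∀ a, PNN (x a)
  ynn : ∀ a, PNN (y a)
  lam_nn : ∀ a, 0 ≤ lamJ a
  pi_nn : ∀ a, 0 ≤ piJ a
  lamZ : lamJ Z = 1
  piZ : piJ Z = 1
  L1Z : L1J Z = 0
  L2Z : L2J Z = 0
  L1ok : ∀ a, a ≠ Z → 1 ≤ L1J a ∧ (ty a = ty Z ∨ S.n0 ≤ L1J a)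
  L2ok : ∀ a, a ≠ Z → 1 ≤ L2J a ∧ (ty a = ty Z ∨ S.n0 ≤ L2J a)
  zz : ∃ δ : ℚ, 0 < δ ∧ (δ : K) ≤ (moo Z Z).coeff 1
  iz : ∀ a, a ≠ Z → lamJ a ≤ (moo a Z).coeff (L1J a)
  zj : ∀ a, a ≠ Z → piJ a ≤ (moo Z a).coeff (L2J a)
  lam0 : 0 ≤ lam
  pi0 : 0 ≤ pi
  yZ : lam ≤ (y Z).coeff L1
  xZ : pi ≤ (x Z).coeff L2
  k1 : k0 ≤ L1
  k2 : k0 ≤ L2
  sc : Bd (ε ^ M) (lam * pi)
  ydiv : ∀ a, (X : K[X]) ^ (L1 + L2J a) ∣ y a
  ybd : ∀ a d, Bd ((y a).coeff d) (lam * piJ a)
  xdiv : ∀ a, (X : K[X]) ^ (L1J a + L2) ∣ x a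
  xbd : ∀ a d, Bd ((x a).coeff d) (lamJ a * pi)

section factors
variable {N a k : ℕ} {c : K}

theorem coeff_zero_th {R : Type} [CommRing R] {s : R[X]} (hs : s.coeff 0 = 0) {a : ℕ}
    (ha : 1 ≤ a) : (th a s).coeff 0 = 1 := by
  obtain ⟨a, rfl⟩ : ∃ a', a = a' + 1 := ⟨a - 1, by omega⟩
  rw [th_succ, coeff_add, mul_coeff_zero, hs]; simp

theorem coeff_zero_pow {R : Type} [CommRing R] {s : R[X]} (hs : s.coeff 0 = 0) {a : ℕ}
    (ha : 1 ≤ a) : (s ^ a).coeff 0 = 0 := by
  obtain ⟨a, rfl⟩ : ∃ a', a = a' + 1 := ⟨a - 1, by omega⟩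
  rw [pow_succ', mul_coeff_zero, hs, zero_mul]

theorem rho_pnn {s : K[X]} (hs : PNN s) (b : Bool) (w : WI N) : PNN (rho a s b w) := by
  unfold rho; split_ifs
  · exact hs.th a
  · exact PNN.one

theorem bd_one (d : ℕ) : Bd ((1 : K[X]).coeff d) 1 := by
  simpa using Bd.coeff_pow (p := (0 : K[X])) (μ := 1) (fun d => by simpa using Bd.zero zero_le_one)
    0 d

theorem bd_C {q : K} (hq : Bd q 1) (d : ℕ) : Bd ((C q : K[X]).coeff d) 1 := by
  rw [coeff_C]; split_ifs
  · exact hq
  · exact Bd.zero zero_le_one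

theorem rho_bd {s : K[X]} (hs : ∀ d, Bd (s.coeff d) 1) (b : Bool) (w : WI N) (d : ℕ) :
    Bd ((rho a s b w).coeff d) 1 := by
  unfold rho; split_ifs
  · exact Bd.coeff_th hs a d
  · exact bd_one d

theorem rho_zero {s : K[X]} (hs : s.coeff 0 = 0) (ha : 1 ≤ a) (b : Bool) (w : WI N) :
    (rho a s b w).coeff 0 = 1 := by
  unfold rho; split_ifs
  · exact coeff_zero_th hs ha
  · simp

theorem kap_pos (N : ℕ) : (0 : K) < 1 / (4 * N + 4) := by positivity

theorem kap_le (N : ℕ) : (1 : K) / (4 * N + 4) ≤ 1 / 4 := by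
  have : (0 : K) ≤ N := Nat.cast_nonneg N
  exact one_div_le_one_div_of_le (by norm_num) (by linarith)

theorem gam_pnn {s : K[X]} (hs : PNN s) (b : Bool) (w : WI N) :
    PNN (gam a s (C (1 / 4) * (1 + s)) (C (1 / (4 * N + 4))) b w) := by
  have hq : PNN (C (1 / 4 : K) * (1 + s)) := (PNN.C (by norm_num)).mul (PNN.one.add hs)
  unfold gam; split_ifs
  · exact hq.mul (PNN.one.add (hs.pow a))
  · exact hq
  · exact PNN.C (kap_pos N).le

theorem gam_bd {s : K[X]} (hs : ∀ d, Bd (s.coeff d) 1) (b : Bool) (w : WI N) (d : ℕ) :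
    Bd ((gam a s (C (1 / 4) * (1 + s)) (C (1 / (4 * N + 4))) b w).coeff d) 1 := by
  have hq : ∀ d, Bd ((C (1 / 4 : K) * (1 + s)).coeff d) 1 := fun d => by
    have := Bd.coeff_mul (p := C (1 / 4 : K)) (q := 1 + s)
      (bd_C (Bd.of_le (by norm_num) (by norm_num)))
      (fun d => by rw [coeff_add]; exact (bd_one d).add (hs d)) d
    rwa [one_mul] at this
  unfold gam; split_ifs
  · have := Bd.coeff_mul (q := 1 + s ^ a) (ν := 1) hq (fun d => by
      rw [coeff_add]; exact (bd_one d).add (by simpa using Bd.coeff_pow hs a d)) d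
    rwa [one_mul] at this
  · exact hq d
  · exact bd_C (Bd.of_le (kap_pos N).le ((kap_le N).trans (by norm_num))) d

theorem gam_zero {s : K[X]} (hs : s.coeff 0 = 0) (ha : 1 ≤ a) (b : Bool) (w : WI N) :
    1 / (4 * N + 4) ≤ (gam a s (C (1 / 4) * (1 + s)) (C (1 / (4 * N + 4))) b w).coeff 0 := by
  unfold gam; split_ifs
  · simpa [mul_coeff_zero, hs, coeff_zero_pow hs ha] using kap_le (K := K) N
  · simpa [mul_coeff_zero, hs] using kap_le (K := K) N
  · simp

theorem loopM_nn {s : K[X]} (hs : PNN s) (h0 : s.coeff 0 = 0) (b : Bool) : NN0 (loopM N b s) := by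
  intro w w'
  simp only [loopM, Matrix.of_apply]
  split_ifs
  · exact ⟨h0, hs⟩
  · exact ⟨coeff_zero 0, PNN.zero⟩

end factors

theorem nn0_fromBlocks {I I' L L' : Type} {a : Matrix I I' K[X]} {b : Matrix I L' K[X]}
    {c : Matrix L I' K[X]} {d : Matrix L L' K[X]} (ha : NN0 a) (hb : NN0 b) (hc : NN0 c)
    (hd : NN0 d) : NN0 (fromBlocks a b c d) := by
  rintro (i | i) (j | j)
  · exact ha i j
  · exact hb i j
  · exact hc i j
  · exact hd i j

theorem coeff_zero_of_dvd {p : K[X]} {n : ℕ} (hn : 1 ≤ n) (h : (X : K[X]) ^ n ∣ p) :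
    p.coeff 0 = 0 := X_pow_dvd_iff.mp h 0 hn

variable {ε : K} {ty : J → Bool} {Z : J} {moo : Matrix J J K[X]} {x y : J → K[X]}
  {lamJ piJ : J → K} {L1J L2J : J → ℕ} {lam pi : K} {L1 L2 M : ℕ}

theorem SHyp.row_nn (h : SHyp S k0 ε ty Z moo x y lamJ piJ L1J L2J lam pi L1 L2 M)
    (hk0 : 1 ≤ k0) {N a : ℕ} {s : K[X]} (hs : PNN s) (b : Bool) : NN0 (rowM N a s y b) :=
  fun w j => ⟨by
    simp only [rowM, Matrix.of_apply]
    rw [mul_coeff_zero, coeff_zero_of_dvd (by have := h.k1; omega) (h.ydiv j), mul_zero],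
    (rho_pnn hs b w).mul (h.ynn j)⟩

theorem SHyp.col_nn (h : SHyp S k0 ε ty Z moo x y lamJ piJ L1J L2J lam pi L1 L2 M)
    (hk0 : 1 ≤ k0) {N a : ℕ} {s : K[X]} (hs : PNN s) (b : Bool) :
    NN0 (colM N a s (C (1 / 4) * (1 + s)) (C (1 / (4 * N + 4))) x b) :=
  fun j w => ⟨by
    simp only [colM, Matrix.of_apply]
    rw [mul_coeff_zero, coeff_zero_of_dvd (by have := h.k2; omega) (h.xdiv j), zero_mul],
    (h.xnn j).mul (gam_pnn hs b w)⟩

/-- The frame attached to the scalar data. -/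
noncomputable def SHyp.frame (h : SHyp S k0 ε ty Z moo x y lamJ piJ L1J L2J lam pi L1 L2 M)
    (hk : S.n0 ≤ k0) (N : ℕ) (ρ : ℚ) (h0 : 0 < ρ) (h1 : ρ ≤ 1) :
    Frame S K (HI S.side ty ⊕ Ix N V) where
  st := Sum.elim (fun p => p.1.2) (fun i => i.2)
  Z := (Finset.univ.filter fun p : HI S.side ty => p.1.1 = Z).map Function.Embedding.inl
  τ := ty Z
  sumZ f := by
    rw [Finset.sum_map, Finset.sum_filter]
    have := sum_HI S.side ty (fun j y => if j = Z then f y else 0)
    simp only [Function.Embedding.inl_apply, Sum.elim_inl]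
    rw [this, Finset.sum_eq_single Z (fun j _ hj => by simp [hj]) (by simp)]
    simp
  sideZ := by
    intro t ht
    obtain ⟨p, hp, rfl⟩ := Finset.mem_map.mp ht
    have hp' : p.1.1 = Z := (Finset.mem_filter.mp hp).2
    rw [← hp']
    exact p.2
  lam := Sum.elim (fun p => lamJ p.1.1) (fun _ => lam)
  pi := Sum.elim (fun p => piJ p.1.1) (fun _ => 1 / (4 * N + 4) * pi)
  lam_nn := by
    rintro (p | p)
    · exact h.lam_nn _
    · exact h.lam0
  pi_nn := by
    rintro (p | p)
    · exact h.pi_nn _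
    · exact mul_nonneg (kap_pos N).le h.pi0
  lamZ := by
    intro t ht
    obtain ⟨p, hp, rfl⟩ := Finset.mem_map.mp ht
    show lamJ p.1.1 = 1
    rw [show p.1.1 = Z from (Finset.mem_filter.mp hp).2, h.lamZ]
  piZ := by
    intro t ht
    obtain ⟨p, hp, rfl⟩ := Finset.mem_map.mp ht
    show piJ p.1.1 = 1
    rw [show p.1.1 = Z from (Finset.mem_filter.mp hp).2, h.piZ]
  L1 := Sum.elim (fun p => L1J p.1.1) (fun _ => L1)
  L2 := Sum.elim (fun p => L2J p.1.1) (fun _ => L2)
  L1Z := by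
    intro t ht
    obtain ⟨p, hp, rfl⟩ := Finset.mem_map.mp ht
    show L1J p.1.1 = 0
    rw [show p.1.1 = Z from (Finset.mem_filter.mp hp).2, h.L1Z]
  L2Z := by
    intro t ht
    obtain ⟨p, hp, rfl⟩ := Finset.mem_map.mp ht
    show L2J p.1.1 = 0
    rw [show p.1.1 = Z from (Finset.mem_filter.mp hp).2, h.L2Z]
  L1ok := by
    rintro (p | p) hp
    · have : p.1.1 ≠ Z := fun e => hp (Finset.mem_map.mpr ⟨p, by simp [e], rfl⟩)
      have := h.L1ok _ this
      rw [← p.2] at this
      exact this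
    · have := h.k1
      have := S.n0_pos
      exact ⟨show 1 ≤ L1 by omega, Or.inr (show S.n0 ≤ L1 by omega)⟩
  L2ok := by
    rintro (p | p) hp
    · have : p.1.1 ≠ Z := fun e => hp (Finset.mem_map.mpr ⟨p, by simp [e], rfl⟩)
      have := h.L2ok _ this
      rw [← p.2] at this
      exact this
    · have := h.k2
      have := S.n0_pos
      exact ⟨show 1 ≤ L2 by omega, Or.inr (show S.n0 ≤ L2 by omega)⟩
  ρ := ρ
  ρ_pos := h0
  ρ_le := h1

theorem SHyp.mem_Z (h : SHyp S k0 ε ty Z moo x y lamJ piJ L1J L2J lam pi L1 L2 M)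
    (hk : S.n0 ≤ k0) (N : ℕ) (ρ : ℚ) (h0 : 0 < ρ) (h1 : ρ ≤ 1) (t : HI S.side ty ⊕ Ix N V) :
    t ∈ (h.frame hk N ρ h0 h1).Z ↔ ∃ p : HI S.side ty, p.1.1 = Z ∧ t = inl p := by
  simp only [SHyp.frame, Finset.mem_map, Finset.mem_filter, Finset.mem_univ, true_and,
    Function.Embedding.inl_apply]
  exact ⟨fun ⟨p, a, b⟩ => ⟨p, a, b.symm⟩, fun ⟨p, a, b⟩ => ⟨p, a, b.symm⟩⟩

theorem SHyp.gen (h : SHyp S k0 ε ty Z moo x y lamJ piJ L1J L2J lam pi L1 L2 M)
    (hk : S.n0 ≤ k0) (N : ℕ) (ρ : ℚ) (h0 : 0 < ρ) (h1 : ρ ≤ 1) (hρ : (ρ : K) ≤ (moo Z Z).coeff 1)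
    {s : K[X]} (hs : PNN s) (hs0 : s.coeff 0 = 0) (b : Bool) :
    (h.frame hk N ρ h0 h1).Gen (fromBlocks (S.H ty ty moo)
      ((S.H ty Prod.snd (colM N S.n0 s (C (1 / 4) * (1 + s)) (C (1 / (4 * N + 4))) x b)).submatrix
        id (eW S.side N))
      ((S.H Prod.snd ty (rowM N S.n0 s y b)).submatrix (eW S.side N) id) 0) := by
  have hk0 : 1 ≤ k0 := S.n0_pos.trans hk
  refine ⟨nn0_fromBlocks (S.H_NN0 h.nn) ((S.H_NN0 (h.col_nn hk0 hs b)).submatrix _ _)
    ((S.H_NN0 (h.row_nn hk0 hs b)).submatrix _ _) (fun _ _ => ⟨coeff_zero 0, PNN.zero⟩),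
    ?_, ?_, ?_⟩
  · intro t ht t' ht'
    obtain ⟨p, hp, rfl⟩ := (h.mem_Z hk N ρ h0 h1 t).mp ht
    obtain ⟨p', hp', rfl⟩ := (h.mem_Z hk N ρ h0 h1 t').mp ht'
    rw [fromBlocks_apply₁₁, coeff_hyb, hp, hp']
    exact mul_le_mul_of_nonneg_right hρ (S.zc_nonneg _ _ _)
  · intro t ht t' ht'
    obtain ⟨p', hp', rfl⟩ := (h.mem_Z hk N ρ h0 h1 t').mp ht'
    rcases t with p | i
    · have : p.1.1 ≠ Z := fun e => ht ((h.mem_Z hk N ρ h0 h1 _).mpr ⟨p, e, rfl⟩)
      rw [fromBlocks_apply₁₁, coeff_hyb, hp']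
      exact mul_le_mul_of_nonneg_right (h.iz _ this) (S.zc_nonneg _ _ _)
    · rw [fromBlocks_apply₂₁, Matrix.submatrix_apply, coeff_hyb]
      refine mul_le_mul_of_nonneg_right ?_ (S.zc_nonneg _ _ _)
      have := (rho_pnn (N := N) (a := S.n0) hs b (i.1, S.side i.2)).le_coeff_mul (h.ynn Z) 0 L1
      rw [rho_zero hs0 S.n0_pos, one_mul, zero_add] at this
      show lam ≤ (rho S.n0 s b (i.1, S.side i.2) * y p'.1.1).coeff L1
      rw [hp']
      exact h.yZ.trans this
  · intro t ht t' ht'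
    obtain ⟨p', hp', rfl⟩ := (h.mem_Z hk N ρ h0 h1 t').mp ht'
    rcases t with p | i
    · have : p.1.1 ≠ Z := fun e => ht ((h.mem_Z hk N ρ h0 h1 _).mpr ⟨p, e, rfl⟩)
      rw [fromBlocks_apply₁₁, coeff_hyb, hp']
      exact mul_le_mul_of_nonneg_right (h.zj _ this) (S.zc_nonneg _ _ _)
    · rw [fromBlocks_apply₁₂, Matrix.submatrix_apply, coeff_hyb]
      refine mul_le_mul_of_nonneg_right ?_ (S.zc_nonneg _ _ _)
      have := (h.xnn Z).le_coeff_mul (gam_pnn (N := N) (a := S.n0) hs b (i.1, S.side i.2)) L2 0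
      rw [add_zero] at this
      show 1 / (4 * N + 4) * pi ≤ (x p'.1.1 * gam S.n0 s (C (1 / 4) * (1 + s))
        (C (1 / (4 * N + 4))) b (i.1, S.side i.2)).coeff L2
      rw [hp', mul_comm]
      exact (mul_le_mul h.xZ (gam_zero hs0 S.n0_pos b _) (kap_pos N).le (h.xnn Z L2)).trans this

theorem bd_kap (N : ℕ) : Bd (1 : K) (1 / (4 * N + 4)) :=
  ⟨4 * N + 4, by positivity, by
    push_cast
    rw [abs_one, mul_one_div_cancel (by positivity)]⟩

theorem X_pow_dvd_monomial_pow {k : ℕ} (hk : 1 ≤ k) (c : K) (a : ℕ) :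
    (X : K[X]) ^ a ∣ (monomial k c) ^ a := by
  refine pow_dvd_pow_of_dvd ?_ a
  rw [X_dvd_iff, coeff_monomial, if_neg (by omega)]

theorem sLCT (hP : S.Per k0 P) {η : K} (hI : Infs ε η) {k : ℕ} (hk : 1 ≤ k) {c : K} (c0 : 0 ≤ c)
    (cb : Bd c ε) (h : SHyp S k0 ε ty Z moo x y lamJ piJ L1J L2J lam pi L1 L2 M) {L N : ℕ}
    (hL1 : L1 + L2 ≤ L) (hL2 : M + 1 ≤ L) (hQ : QTProp (AlK S k0 P k) L N) :
    SEq S (Sum.elim ty Prod.snd) (NM N S.n0 (monomial k c) moo x y false)
      (Sum.elim ty Prod.snd) (NM N S.n0 (monomial k c) moo x y true) := by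
  have hn := hP.2.1
  have hk0 : 1 ≤ k0 := S.n0_pos.trans hn
  have hη := hI.2.1.ne'
  obtain ⟨δ, δ0, hδ⟩ := h.zz
  have r0 : 0 < min δ 1 := lt_min δ0 one_pos
  have r1 : min δ 1 ≤ 1 := min_le_right _ _
  have r2 : ((min δ 1 : ℚ) : K) ≤ (moo Z Z).coeff 1 :=
    le_trans (by exact_mod_cast min_le_left _ _) hδ
  set s : K[X] := monomial k c with hs
  have s1 : PNN s := PNN.monomial c0 k
  have s0 : s.coeff 0 = 0 := by rw [hs, coeff_monomial, if_neg (by omega)]
  have e1 : Bd ε 1 := by simpa using (hI.2.2.2 0).bd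
  have sb : ∀ d, Bd (s.coeff d) 1 := fun d => by
    rw [hs, coeff_monomial]; split_ifs
    · exact cb.trans e1
    · exact Bd.zero zero_le_one
  have hL : LHyp S k0 P ε η c k L M (h.frame hn N _ r0 r1) (S.H ty ty moo)
      ((S.H ty Prod.snd (colM N S.n0 s (C (1 / 4) * (1 + s)) (C (1 / (4 * N + 4))) x
        false)).submatrix id (eW S.side N))
      ((S.H Prod.snd ty (rowM N S.n0 s y false)).submatrix (eW S.side N) id) := by
    refine ⟨hP, hI, hk, c0, cb, fun _ => rfl, fun i hi => ?_, fun _ _ => rfl, fun _ _ => rfl,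
      fun _ _ => rfl, fun _ _ => rfl, fun _ => h.k1, fun _ => h.k2, fun _ _ => hL1, hL2,
      fun _ _ => ?_, h.gen hn N _ r0 r1 r2 s1 s0 false, fun i a d => ?_, fun a j d => ?_⟩
    · obtain ⟨p, -, e⟩ := (h.mem_Z hn N _ r0 r1 _).mp hi
      exact absurd e (by simp)
    · refine h.sc.trans ?_
      have := (Bd.self h.lam0).mul ((bd_kap N).mul (Bd.self h.pi0))
      rwa [one_mul] at this
    · rw [Matrix.submatrix_apply, coeff_hyb]
      refine ⟨?_, fun h0 => ⟨?_, ?_⟩⟩
      · have := (Bd.coeff_mul (rho_bd (N := N) (a := S.n0) sb false (i.1, S.side i.2))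
          (h.ybd a.1.1) d).mul (Bd.ratCast (S.z d i.2 a.1.2))
        rw [one_mul, mul_one] at this
        exact this
      · by_contra hc
        exact left_ne_zero_of_mul h0 (X_pow_dvd_iff.mp (Dvd.dvd.mul_left (h.ydiv a.1.1) _) d
          (not_le.mp hc))
      · exact S.zc_pos.mp ((S.zc_nonneg _ _ _).lt_of_ne (right_ne_zero_of_mul h0).symm)
    · rw [Matrix.submatrix_apply, coeff_hyb]
      refine ⟨?_, fun h0 => ⟨?_, ?_⟩⟩
      · have := (Bd.coeff_mul (h.xbd a.1.1) (gam_bd (N := N) (a := S.n0) sb false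
          (j.1, S.side j.2)) d).mul (Bd.ratCast (S.z d a.1.2 j.2))
        rw [mul_one, mul_one] at this
        refine this.trans ?_
        have := (Bd.self (h.lam_nn a.1.1)).mul ((bd_kap N).mul (Bd.self h.pi0))
        rwa [one_mul] at this
      · by_contra hc
        exact left_ne_zero_of_mul h0 (X_pow_dvd_iff.mp (Dvd.dvd.mul_right (h.xdiv a.1.1) _) d
          (not_le.mp hc))
      · exact S.zc_pos.mp ((S.zc_nonneg _ _ _).lt_of_ne (right_ne_zero_of_mul h0).symm)
  have d1 : (X : ℚ[X]) ^ S.n0 ∣ X ^ S.n0 := dvd_rfl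
  have d2 : (X : ℚ[X]) ^ S.n0 ∣ -X ^ S.n0 := d1.neg_right
  have d3 : (X : K[X]) ^ S.n0 ∣ s ^ S.n0 := X_pow_dvd_monomial_pow hk c _
  have x0 : (X : ℚ[X]).coeff 0 = 0 := coeff_X_zero
  have x1 : ((X : ℚ[X]) ^ S.n0).coeff 0 = 0 := coeff_zero_pow x0 S.n0_pos
  have x2 : (-(X : ℚ[X]) ^ S.n0).coeff 0 = 0 := by rw [coeff_neg, x1, neg_zero]
  have x3 : (1 - (X : ℚ[X])).coeff 0 = 1 := by simp
  have x4 : (th (2 * S.n0) (X : ℚ[X])).coeff 0 = 1 :=
    coeff_zero_th x0 (by have := S.n0_pos; omega)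
  have x5 : (1 - (X : ℚ[X]) ^ (2 * S.n0)).coeff 0 = 1 := by
    rw [coeff_sub, coeff_zero_pow x0 (by have := S.n0_pos; omega)]; simp
  have x6 : (1 : ℚ[X]).coeff 0 = 1 := by simp
  set U := qu S hk N d2 d1 d1 d2 (omega_inv S.n0 X) (omega_inv' S.n0 X) with hU
  set W := qu S hk N d1 d2 d2 d1 (vee_inv S.n0 X) (vee_inv' S.n0 X) with hW
  have eU : (U : QM N V) = qh S k hk
    (lift N (m22 (th (2 * S.n0) X) (-X ^ S.n0) (X ^ S.n0) (1 - X))) := rfl
  have eW' : (W : QM N V) = qh S k hk
    (lift N (m22 1 (X ^ S.n0) (-X ^ S.n0) (1 - X ^ (2 * S.n0)))) := rfl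
  have gU : InG (AlK S k0 P k) U := ⟨qh_alS S hk k0 P _, qh_levUp S hk (lift_const x4 x2 x1 x3),
    qh_alS S hk k0 P _, qh_levUp S hk (lift_const x3 x1 x2 x4)⟩
  have gW : InG (AlK S k0 P k) W := ⟨qh_alS S hk k0 P _, qh_levUp S hk (lift_const x6 x1 x2 x5),
    qh_alS S hk k0 P _, qh_levUp S hk (lift_const x5 x2 x1 x6)⟩
  have f1 : 1 - qh S k hk (lift N (m22 (1 - X) 0 0 1)) = qh S k hk (loopM N false X) := by
    rw [← one_sub_lift_false, qh_sub, qh_one]
  have f2 : 1 - (U : QM N V) * qh S k hk (lift N (m22 (1 - X) 0 0 1)) * (W : QM N V) =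
      qh S k hk (loopM N true X) := by
    rw [eU, eW', ← qh_mul S hk (graded_lift d2 d1) (graded_lift (dvd_zero _) (dvd_zero _)),
      ← qh_mul S hk ((graded_lift d2 d1).mul (graded_lift (dvd_zero _) (dvd_zero _)))
        (graded_lift d1 d2), lift_mul, lift_mul, omega_swap, ← one_sub_lift_true, qh_sub, qh_one]
  have lv : ∀ b (w w' : WI N), loopM N b (X : ℚ[X]) w w' ≠ 0 → w.1 = w'.1 := by
    intro b w w' h0
    simp only [loopM, Matrix.of_apply] at h0
    by_cases e : w = (0, b) ∧ w' = (0, b)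
    · rw [e.1, e.2]
    · exact absurd (if_neg e) h0
  have g1 : ev k c η (U : QM N V) *
      (S.H Prod.snd ty (rowM N S.n0 s y false)).submatrix (eW S.side N) id =
      (S.H Prod.snd ty (rowM N S.n0 s y true)).submatrix (eW S.side N) id := by
    rw [eU, ev_qh S hk hη fun w w' => lift_lev, Matrix.submatrix_mul_equiv, lift_map, m22_map]
    simp only [map_th, map_neg, map_pow, map_sub, map_one, sub_X]
    rw [← S.H_mul (graded_lift d3.neg_right d3), lift_rowM]
    intro w j _
    exact Dvd.dvd.mul_left ((pow_dvd_pow _ (by have := h.k1; omega)).trans (h.ydiv j)) _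
  have g2 : (S.H ty Prod.snd (colM N S.n0 s (C (1 / 4) * (1 + s)) (C (1 / (4 * N + 4))) x
        false)).submatrix id (eW S.side N) * ev k c η (W : QM N V) =
      (S.H ty Prod.snd (colM N S.n0 s (C (1 / 4) * (1 + s)) (C (1 / (4 * N + 4))) x
        true)).submatrix id (eW S.side N) := by
    rw [eW', ev_qh S hk hη fun w w' => lift_lev, Matrix.submatrix_mul_equiv, lift_map, m22_map]
    simp only [map_neg, map_pow, map_sub, map_one, sub_X]
    rw [← S.H_mul _ (graded_lift d3 d3.neg_right), colM_lift]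
    intro j w _
    exact Dvd.dvd.mul_right ((pow_dvd_pow _ (by have := h.k2; omega)).trans (h.xdiv j)) _
  have key := lct hQ hL (qh S k hk (lift N (m22 (1 - X) 0 0 1))) U W (qh_lev0 S hk _)
    (qh_lev0 S hk _) (qh_lev0 S hk _) gU gW (qh_alS S hk k0 P _)
    (fun L' => f1 ▸ qh_lowNN S hk (loopM_nn PNN.X x0 _) L')
    (fun L' => f2 ▸ qh_lowNN S hk (loopM_nn PNN.X x0 _) L')
    (by rw [g1, g2]; exact h.gen hn N _ r0 r1 r2 s1 s0 true)
  rw [f1, f2, g1, g2, ev_qh S hk hη (lv false), ev_qh S hk hη (lv true), loopM_map, loopM_map,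
    sub_X, ← H_blocks, ← H_blocks] at key
  have nn : ∀ b, NN0 (NM N S.n0 s moo x y b) := fun b =>
    nn0_fromBlocks h.nn (h.col_nn hk0 s1 b) (h.row_nn hk0 s1 b) (loopM_nn s1 s0 b)
  exact (PEq.reindex (S.H_NN0 (nn false)) _).trans
    (key.trans (PEq.reindex (S.H_NN0 (nn true)) _).symm)

end Pool.Agent.MP_841a27_al.LCT

end MrgPart1

-- ======== part 2: formerly Pool.Agent.MP_841a27_al.RL
section MrgPart2

/-!
Switching the type of a vertex with a small monomial loop.
-/

set_option linter.unusedSectionVars false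

namespace Pool.Agent.MP_841a27_al.LCT

open Matrix Polynomial Filter Sum

variable {V : Type} [Fintype V] [DecidableEq V] {S : GSys V} {k0 P : ℕ}
variable {K : Type} [Field K] [LinearOrder K] [IsStrictOrderedRing K]
variable {J : Type} [Fintype J] [DecidableEq J]

theorem sEmbed {J' : Type} [Fintype J'] [DecidableEq J'] (g : J → J') (hg : Function.Injective g)
    {ty : J → Bool} {ty' : J' → Bool} (ht : ∀ a, ty' (g a) = ty a) {m : Matrix J J K[X]}
    {m' : Matrix J' J' K[X]} (hm' : Good S ty' m') (h1 : ∀ a b, m' (g a) (g b) = m a b)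
    (h2 : ∀ j j', (∀ a, g a ≠ j) → m' j j' = 0) : SEq S ty' m' ty m := by
  refine sE0 (Matrix.of fun j a => if j = g a then 1 else 0) (m'.submatrix g id)
    (fun j a => ?_) (fun j a h => ?_) (hm'.1.submatrix _ _)
    (fun a j h => hm'.2 _ _ (by rwa [ht])) ?_ ?_
  · simp only [Matrix.of_apply]; split_ifs <;> simp
  · by_cases e : j = g a
    · rw [e, ht]
    · exact absurd (if_neg e) h
  · ext1 j j'
    simp only [Matrix.mul_apply, cm_apply, Matrix.of_apply, Matrix.submatrix_apply, id]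
    by_cases e : ∃ a, g a = j
    · obtain ⟨a, rfl⟩ := e
      rw [Finset.sum_eq_single a (fun b _ hb => by rw [if_neg fun e => hb (hg e).symm]; simp)
        (by simp)]
      simp
    · push Not at e
      rw [h2 j j' e]
      exact (Finset.sum_eq_zero fun a _ => by rw [if_neg (e a).symm]; simp).symm
  · ext1 a b
    simp only [Matrix.mul_apply, cm_apply, Matrix.of_apply, Matrix.submatrix_apply, id]
    rw [Finset.sum_eq_single (g b) (fun j _ hj => by rw [if_neg hj]; simp) (by simp)]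
    simp [h1]

theorem rlhyp_tr {ε : K} {ty : J → Bool} {m : Matrix J J K[X]} {v Z : J}
    (h : RLHyp S ε k0 ty m v Z) : RLHyp S ε k0 ty mᵀ v Z :=
  ⟨h.ne, h.nn.transpose, fun j j' a b c => h.gr j' j b a (Ne.symm c), h.coldiv, h.rowdiv, h.loop,
    h.zz, h.zv, h.vz, h.zvfin, h.vzfin, h.colbd, h.rowbd⟩

theorem scales {ε : K} {ty : J → Bool} {m : Matrix J J K[X]} {v Z : J}
    (h : RLHyp S ε k0 ty m v Z) : ∃ (lamJ : J → K) (L1J : J → ℕ), lamJ Z = 1 ∧ L1J Z = 0 ∧
      (∀ a, 0 ≤ lamJ a) ∧ (∀ a, a ≠ Z → 1 ≤ L1J a ∧ (ty a = ty Z ∨ S.n0 ≤ L1J a)) ∧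
      (∀ a, a ≠ Z → lamJ a ≤ (if a = v then 0 else m a Z).coeff (L1J a)) ∧
      (∀ a d, Bd ((if a = v then 0 else m a v).coeff d) (lamJ a)) := by
  have key : ∀ a, ∃ (l : K) (L : ℕ), (a = Z → l = 1 ∧ L = 0) ∧ 0 ≤ l ∧
      (a ≠ Z → 1 ≤ L ∧ (ty a = ty Z ∨ S.n0 ≤ L)) ∧
      (a ≠ Z → l ≤ (if a = v then 0 else m a Z).coeff L) ∧
      (∀ d, Bd ((if a = v then 0 else m a v).coeff d) l) := by
    intro a
    by_cases hZ : a = Z
    · subst hZ
      refine ⟨1, 0, fun _ => ⟨rfl, rfl⟩, zero_le_one, fun e => absurd rfl e, fun e => absurd rfl e,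
        fun d => ?_⟩
      rw [if_neg h.ne.symm]; exact h.zvfin d
    by_cases hv : a = v
    · refine ⟨0, S.n0, fun e => absurd e hZ, le_rfl, fun _ => ⟨S.n0_pos, Or.inr le_rfl⟩,
        fun _ => by simp [hv], fun d => ?_⟩
      rw [if_pos hv, coeff_zero]; exact Bd.zero le_rfl
    obtain ⟨d, hd⟩ := h.colbd a hv hZ
    simp only [if_neg hv]
    by_cases h0 : (m a Z).coeff d = 0
    · exact ⟨0, S.n0, fun e => absurd e hZ, le_rfl, fun _ => ⟨S.n0_pos, Or.inr le_rfl⟩,
        fun _ => (h.nn a Z).2 _, fun k => h0 ▸ hd k⟩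
    · refine ⟨_, d, fun e => absurd e hZ, (h.nn a Z).2 d, fun _ => ⟨?_, ?_⟩, fun _ => le_rfl, hd⟩
      · by_contra c
        have : d = 0 := by omega
        exact h0 (this ▸ (h.nn a Z).1)
      · by_contra c
        push Not at c
        exact h0 (X_pow_dvd_iff.mp (h.gr a Z hv h.ne.symm c.1) d c.2)
  choose lamJ L1J h1 h2 h3 h4 h5 using key
  exact ⟨lamJ, L1J, (h1 Z rfl).1, (h1 Z rfl).2, h2, h3, h4, h5⟩

theorem push_vec {ε : K} (h0 : 0 < ε) (h1 : Bd ε 1) {Z : J} {y : J → K[X]} (hy : ∀ a, PNN (y a))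
    (hd : ∀ a, (X : K[X]) ^ k0 ∣ y a) {piJ : J → K} {L2J : J → ℕ} (hpZ : piJ Z = 1)
    (hLZ : L2J Z = 0) (hb : ∀ a d, Bd ((y a).coeff d) (piJ a)) {L1 M : ℕ} {δ : ℚ} (δ0 : 0 < δ)
    (hδ : (δ : K) * ε ^ M ≤ (y Z).coeff L1) {s : K[X]} (s1 : PNN s) (sx : X ∣ s)
    (sb : ∀ d, Bd (s.coeff d) ε) {n : ℕ} (n1 : M ≤ n) (n2 : ∀ a, L1 + L2J a ≤ n) :
    ∃ (yr y' : J → K[X]) (lam : K), (∀ a, PNN (yr a)) ∧ (∀ a, PNN (y' a)) ∧
      (∀ a, (X : K[X]) ^ k0 ∣ yr a) ∧ (∀ a, y' a = y a - (1 - s ^ n) * yr a) ∧ 0 ≤ lam ∧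
      lam ≤ (y' Z).coeff L1 ∧ k0 ≤ L1 ∧ Bd (ε ^ M) lam ∧
      (∀ a, (X : K[X]) ^ (L1 + L2J a) ∣ y' a) ∧ ∀ a d, Bd ((y' a).coeff d) (lam * piJ a) := by
  set lam := (y Z).coeff L1 with hl
  have δ1 : (0 : K) < δ := by exact_mod_cast δ0
  have l0 : 0 < lam := lt_of_lt_of_le (by positivity) hδ
  have kL : k0 ≤ L1 := by
    by_contra c
    exact l0.ne' (X_pow_dvd_iff.mp (hd Z) L1 (not_le.mp c))
  have lb : Bd (ε ^ M) lam := ⟨1 / δ, by positivity, by
    push_cast
    rw [abs_of_pos (pow_pos h0 M), one_div, ← div_eq_inv_mul, le_div_iff₀ δ1, mul_comm]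
    exact hδ⟩
  set yk : J → K[X] := fun a => if a = Z then monomial L1 lam else 0 with hyk
  have k1 : ∀ a, PNN (yk a) := fun a => by
    simp only [hyk]; split_ifs
    · exact PNN.monomial l0.le _
    · exact PNN.zero
  have k2 : ∀ a, PNN (y a - yk a) := fun a d => by
    simp only [hyk]; split_ifs with e
    · subst e
      rw [coeff_sub, coeff_monomial]
      split_ifs with e'
      · rw [← e', hl, sub_self]
      · rw [sub_zero]; exact hy a d
    · rw [sub_zero]; exact hy a d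
  have k3 : ∀ a, (X : K[X]) ^ (L1 + L2J a) ∣ yk a := fun a => by
    simp only [hyk]; split_ifs with e
    · rw [e, hLZ, add_zero, ← C_mul_X_pow_eq_monomial]; exact dvd_mul_left _ _
    · exact dvd_zero _
  have k4 : ∀ a d, Bd ((yk a).coeff d) (lam * piJ a) := fun a d => by
    simp only [hyk]; split_ifs with e
    · rw [e, hpZ, mul_one, coeff_monomial]
      split_ifs
      · exact Bd.self l0.le
      · exact Bd.zero l0.le
    · rw [coeff_zero]; exact Bd.zero (mul_nonneg l0.le (hb a 0).nonneg)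
  have k5 : ∀ a d, Bd ((y a - yk a).coeff d) (piJ a) := fun a d =>
    (Bd.of_le (μ := (y a).coeff d) (k2 a d) (by rw [coeff_sub]; linarith [k1 a d])).trans
      (hb a d)
  have k6 : Bd (ε ^ n) lam := by
    obtain ⟨j, rfl⟩ : ∃ j, n = M + j := ⟨n - M, by omega⟩
    have := lb.mul (h1.pow j)
    rwa [one_pow, mul_one, ← pow_add] at this
  refine ⟨fun a => y a - yk a, fun a => yk a + s ^ n * (y a - yk a), lam, k2,
    fun a => (k1 a).add ((s1.pow n).mul (k2 a)),
    fun a => dvd_sub (hd a) ((pow_dvd_pow _ (by omega)).trans (k3 a)), fun a => by ring, l0.le,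
    ?_, kL, lb, fun a => dvd_add (k3 a) (Dvd.dvd.mul_right
      ((pow_dvd_pow _ (n2 a)).trans (pow_dvd_pow_of_dvd sx n)) _), fun a d => ?_⟩
  · rw [coeff_add]
    have := ((s1.pow n).mul (k2 Z)) L1
    have e : (yk Z).coeff L1 = lam := by simp [hyk]
    linarith
  · rw [coeff_add]
    refine (k4 a d).add ((Bd.coeff_mul (Bd.coeff_pow sb n) (k5 a) d).trans ?_)
    exact k6.mul (Bd.self (hb a 0).nonneg)

theorem sum_WI {R : Type} [CommRing R] (N : ℕ) (b : Bool) (A B C : R) (f : WI N → R)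
    (h1 : f (0, b) = A) (h2 : f (0, !b) = B) (h3 : ∀ l b', f (Fin.succ l, b') = C) :
    ∑ w, f w = A + B + 2 * N * C := by
  rw [Fintype.sum_prod_type, Fin.sum_univ_succ]
  simp only [Fintype.sum_bool, h3, Finset.sum_const, Finset.card_univ, Fintype.card_fin,
    nsmul_eq_mul, Fintype.card_bool, Nat.cast_ofNat]
  cases b
  · simp only [Bool.not_false] at h2
    rw [h1, h2]; ring
  · simp only [Bool.not_true] at h2
    rw [h1, h2]; ring

theorem graded_fromBlocks {N n : ℕ} {ty : J → Bool} {a : Matrix J J K[X]}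
    {b : Matrix J (WI N) K[X]} {c : Matrix (WI N) J K[X]} {d : Matrix (WI N) (WI N) K[X]}
    (ha : Graded n ty ty a) (hb : ∀ i j, (X : K[X]) ^ n ∣ b i j)
    (hc : ∀ i j, (X : K[X]) ^ n ∣ c i j) (hd : Graded n Prod.snd Prod.snd d) :
    Graded n (Sum.elim ty Prod.snd) (Sum.elim ty Prod.snd) (fromBlocks a b c d) := by
  rintro (i | i) (j | j) h
  · exact ha i j h
  · exact hb i j
  · exact hc i j
  · exact hd i j h

theorem graded_loopM {N n : ℕ} (b : Bool) (s : K[X]) :
    Graded n (Prod.snd : WI N → Bool) Prod.snd (loopM N b s) := by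
  intro w w' h
  simp only [loopM, Matrix.of_apply]
  rw [if_neg fun e => h (by rw [e.1, e.2])]
  exact dvd_zero _

theorem nn0_of {I I' : Type} {a : Matrix I I' K[X]} {n : ℕ} (hn : 1 ≤ n) (h : ∀ i j, PNN (a i j))
    (h' : ∀ i j, (X : K[X]) ^ n ∣ a i j) : NN0 a :=
  fun i j => ⟨coeff_zero_of_dvd hn (h' i j), h i j⟩

/-- From the matrix with the vertex `v` to the tailored matrix. -/
theorem tailor {ty : J → Bool} {m : Matrix J J K[X]} {v : J} (hk0 : S.n0 ≤ k0) (hm : NN0 m)
    (hg : ∀ j j', j ≠ v → j' ≠ v → ty j ≠ ty j' → (X : K[X]) ^ S.n0 ∣ m j j')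
    {x y xr yr x' y' : J → K[X]} (ex : ∀ a, x a = if a = v then 0 else m a v)
    (ey : ∀ a, y a = if a = v then 0 else m v a) (dx : ∀ a, (X : K[X]) ^ k0 ∣ x a)
    (dy : ∀ a, (X : K[X]) ^ k0 ∣ y a) (dxr : ∀ a, (X : K[X]) ^ k0 ∣ xr a)
    (dyr : ∀ a, (X : K[X]) ^ k0 ∣ yr a) (pyr : ∀ a, PNN (yr a)) (py' : ∀ a, PNN (y' a))
    {n : ℕ} (ex' : ∀ a, x' a = x a - (1 - m v v ^ n) * xr a)
    (ey' : ∀ a, y' a = y a - (1 - m v v ^ n) * yr a) (N : ℕ) (b : Bool)
    {moo : Matrix J J K[X]} (hmoo : ∀ a a', moo a a' =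
      (if a = v ∨ a' = v then 0 else m a a') + x a * (th n (m v v) * yr a') +
        xr a * th n (m v v) * y' a' + C (1 / 2 - 2 * N * (1 / (4 * N + 4)) : K) * x' a * y' a')
    (hNM : NN0 (NM N S.n0 (m v v) moo x' y' b)) :
    SEq S (Function.update ty v b) m (Sum.elim ty Prod.snd) (NM N S.n0 (m v v) moo x' y' b) := by
  set s := m v v with hs
  have s1 : PNN s := (hm v v).2
  have s0 : s.coeff 0 = 0 := (hm v v).1
  have hk1 : 1 ≤ k0 := S.n0_pos.trans hk0
  have px : ∀ a, PNN (x a) := fun a => by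
    rw [ex]; split_ifs
    · exact PNN.zero
    · exact (hm a v).2
  have py : ∀ a, PNN (y a) := fun a => by
    rw [ey]; split_ifs
    · exact PNN.zero
    · exact (hm v a).2
  have dn : (X : K[X]) ^ S.n0 ∣ X ^ k0 := pow_dvd_pow _ hk0
  have dx' : ∀ a, (X : K[X]) ^ k0 ∣ x' a := fun a => by
    rw [ex']; exact dvd_sub (dx a) (Dvd.dvd.mul_left (dxr a) _)
  have dy' : ∀ a, (X : K[X]) ^ k0 ∣ y' a := fun a => by
    rw [ey']; exact dvd_sub (dy a) (Dvd.dvd.mul_left (dyr a) _)
  set m0 : Matrix J J K[X] := Matrix.of fun a a' => if a = v ∨ a' = v then 0 else m a a' with hm0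
  set xe : Matrix J (WI N) K[X] := Matrix.of fun a w => if w = (0, b) then x a else 0 with hxe
  set ye : Matrix (WI N) J K[X] := Matrix.of fun w a => if w = (0, b) then y a else 0 with hye
  have n0 : NN0 m0 := fun a a' => by
    simp only [hm0, Matrix.of_apply]; split_ifs
    · exact ⟨coeff_zero 0, PNN.zero⟩
    · exact hm a a'
  have g0 : Graded S.n0 ty ty m0 := fun a a' e => by
    simp only [hm0, Matrix.of_apply]; split_ifs with c
    · exact dvd_zero _
    · push Not at c; exact hg a a' c.1 c.2 e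
  have dxe : ∀ a w, (X : K[X]) ^ k0 ∣ xe a w := fun a w => by
    simp only [hxe, Matrix.of_apply]; split_ifs
    · exact dx a
    · exact dvd_zero _
  have dye : ∀ w a, (X : K[X]) ^ k0 ∣ ye w a := fun w a => by
    simp only [hye, Matrix.of_apply]; split_ifs
    · exact dy a
    · exact dvd_zero _
  have nxe : NN0 xe := nn0_of hk1 (fun a w => by
    simp only [hxe, Matrix.of_apply]; split_ifs
    · exact px a
    · exact PNN.zero) dxe
  have nye : NN0 ye := nn0_of hk1 (fun w a => by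
    simp only [hye, Matrix.of_apply]; split_ifs
    · exact py a
    · exact PNN.zero) dye
  have G0 : Good S (Sum.elim ty Prod.snd) (fromBlocks m0 xe ye (loopM N b s)) :=
    ⟨nn0_fromBlocks n0 nxe nye (loopM_nn s1 s0 b), graded_fromBlocks g0
      (fun i j => dn.trans (dxe i j)) (fun i j => dn.trans (dye i j)) (graded_loopM b s)⟩
  have step1 : SEq S (Sum.elim ty Prod.snd) (fromBlocks m0 xe ye (loopM N b s))
      (Function.update ty v b) m := by
    refine sEmbed (fun a => if a = v then inr (0, b) else inl a) (fun a a' e => ?_) (fun a => ?_)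
      G0 (fun a a' => ?_) (fun j j' e => ?_)
    · by_cases h1 : a = v <;> by_cases h2 : a' = v <;> simp_all
    · by_cases h1 : a = v
      · subst h1; simp
      · simp [h1]
    · by_cases h1 : a = v <;> by_cases h2 : a' = v <;>
        simp [h1, h2, hm0, hxe, hye, loopM, ex, ey, hs]
    · rcases j with j | w
      · have hj : j = v := by
          by_contra c
          exact e j (by simp [c])
        rcases j' with j' | w'
        · simp [hm0, hj]
        · simp [hxe, hj, ex]
      · have hw : w ≠ (0, b) := fun c => e v (by simp [c])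
        rcases j' with j' | w'
        · simp [hye, hw]
        · simp [loopM, hw]
  set m1 : Matrix J J K[X] := m0 + Matrix.of fun a a' => x a * (th n s * yr a') with hm1
  have drow : ∀ w a, (X : K[X]) ^ k0 ∣ rowM N S.n0 s y' b w a := fun w a =>
    Dvd.dvd.mul_left (dy' a) _
  have G1 : Good S (Sum.elim ty Prod.snd)
      (fromBlocks m1 xe (rowM N S.n0 s y' b) (loopM N b s)) := by
    refine ⟨nn0_fromBlocks (fun a a' => ?_) nxe
      (nn0_of hk1 (fun w a => (rho_pnn s1 b w).mul (py' a)) drow) (loopM_nn s1 s0 b),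
      graded_fromBlocks (g0.add fun a a' _ => Dvd.dvd.mul_right (dn.trans (dx a)) _)
      (fun i j => dn.trans (dxe i j)) (fun i j => dn.trans (drow i j)) (graded_loopM b s)⟩
    refine ⟨?_, PNN.add (n0 a a').2 ((px a).mul ((s1.th n).mul (pyr a')))⟩
    rw [hm1, Matrix.add_apply, coeff_add, (n0 a a').1, Matrix.of_apply, mul_coeff_zero,
      coeff_zero_of_dvd hk1 (dx a), zero_mul, add_zero]
  have tm := th_mul n s
  have ta := th_mul S.n0 s
  set θ : Matrix (WI N) J K[X] := Matrix.of fun w a =>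
    if w = (0, b) then th n s * yr a else -(rho S.n0 s b w * y' a) with hθ
  have dθ : ∀ w a, (X : K[X]) ^ k0 ∣ θ w a := fun w a => by
    simp only [hθ, Matrix.of_apply]; split_ifs
    · exact Dvd.dvd.mul_left (dyr a) _
    · exact (Dvd.dvd.mul_left (dy' a) _).neg_right
  have step2 : SEq S (Sum.elim ty Prod.snd) (fromBlocks m0 xe ye (loopM N b s))
      (Sum.elim ty Prod.snd) (fromBlocks m1 xe (rowM N S.n0 s y' b) (loopM N b s)) := by
    refine sCol (θ := fromBlocks 0 0 θ 0) (Sum.elim (fun _ => True) fun _ => False) G0 G1.1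
      (graded_fromBlocks (fun _ _ _ => dvd_zero _) (fun _ _ => dvd_zero _)
        (fun i j => dn.trans (dθ i j)) fun _ _ _ => dvd_zero _) ?_ ?_ ?_
    · rintro (i | i) (j | j) e
      · exact absurd rfl e
      · exact absurd rfl e
      · exact ⟨not_false, trivial⟩
      · exact absurd rfl e
    · rintro (i | i) (j | j)
      · rfl
      · rfl
      · exact coeff_zero_of_dvd hk1 (dθ i j)
      · rfl
    · have e1 : ∀ i j, (xe * θ) i j = x i * θ (0, b) j := fun i j => by
        simp [Matrix.mul_apply, hxe]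
      have e2 : ∀ i j, (loopM N b s * θ) i j = if i = (0, b) then s * θ (0, b) j else 0 :=
        fun i j => by
          by_cases e : i = (0, b) <;> simp [Matrix.mul_apply, loopM, e]
      have e3 : ∀ j, θ (0, b) j = th n s * yr j := fun j => by simp [hθ]
      have e4 : ∀ i j, i ≠ (0, b) → θ i j = -(rho S.n0 s b i * y' j) := fun i j e => by
        simp [hθ, e]
      rw [fromBlocks_multiply]
      ext1 (i | i) (j | j)
      · simp [hm1, e1, e3]
      · simp
      · by_cases e : i = (0, b)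
        · simp [e, rowM, rho, hye, e3, e2, ey']
          linear_combination (yr j) * tm
        · simp [e, rowM, hye, e4 i j e, e2]
      · simp
  set q : K[X] := C (1 / 4) * (1 + s) with hq
  set κ : K[X] := C (1 / (4 * N + 4)) with hκ
  set ξ : Matrix J (WI N) K[X] := Matrix.of fun a w =>
    if w = (0, b) then xr a * th n s + x' a * (C (1 / 2) + q * th S.n0 s)
    else -(x' a * gam S.n0 s q κ b w) with hξ
  have dξ : ∀ a w, (X : K[X]) ^ k0 ∣ ξ a w := fun a w => by
    simp only [hξ, Matrix.of_apply]; split_ifs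
    · exact dvd_add (Dvd.dvd.mul_right (dxr a) _) (Dvd.dvd.mul_right (dx' a) _)
    · exact (Dvd.dvd.mul_right (dx' a) _).neg_right
  have c2 : (C (1 / 2 : K) : K[X]) * 2 = 1 := by
    rw [show (2 : K[X]) = C 2 from rfl, ← C_mul]; norm_num
  have c4 : (C (1 / 4 : K) : K[X]) * 2 = C (1 / 2) := by
    rw [show (2 : K[X]) = C 2 from rfl, ← C_mul]; norm_num
  have step3 : SEq S (Sum.elim ty Prod.snd) (fromBlocks m1 xe (rowM N S.n0 s y' b) (loopM N b s))
      (Sum.elim ty Prod.snd) (NM N S.n0 s moo x' y' b) := by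
    refine sRow (ξ := fromBlocks 0 ξ 0 0) (Sum.elim (fun _ => True) fun _ => False) G1 hNM
      (graded_fromBlocks (fun _ _ _ => dvd_zero _) (fun i j => dn.trans (dξ i j))
        (fun _ _ => dvd_zero _) fun _ _ _ => dvd_zero _) ?_ ?_ ?_
    · rintro (i | i) (j | j) e
      · exact absurd rfl e
      · exact ⟨trivial, not_false⟩
      · exact absurd rfl e
      · exact absurd rfl e
    · rintro (i | i) (j | j)
      · rfl
      · exact coeff_zero_of_dvd hk1 (dξ i j)
      · rfl
      · rfl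
    · rw [fromBlocks_multiply, NM, ← hq, ← hκ]
      ext1 (i | i) (j | j)
      · have e : (ξ * rowM N S.n0 s y' b) i j =
            (xr i * th n s + x' i * (C (1 / 2) + q * th S.n0 s)) * y' j +
              -(x' i * q) * (th S.n0 s * y' j) + 2 * (N : K[X]) * (-(x' i * κ) * y' j) := by
          rw [Matrix.mul_apply]
          refine sum_WI N b _ _ _ _ ?_ ?_ fun l b' => ?_
          · simp [hξ, rowM, rho]
          · simp [hξ, rowM, rho, gam]
          · simp [hξ, rowM, rho, gam]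
        simp only [Matrix.add_apply, Matrix.sub_apply, fromBlocks_apply₁₁, Matrix.zero_mul,
          Matrix.zero_apply, e, hmoo, hm1, hm0, Matrix.of_apply, map_sub, map_mul, ← hκ,
          map_natCast, show (C (2 : K) : K[X]) = 2 from rfl]
        ring
      · by_cases e : j = (0, b)
        · have e1 : (ξ * loopM N b s) i j = ξ i j * s := by
            simp [e, loopM, Matrix.mul_apply]
          simp only [Matrix.add_apply, Matrix.sub_apply, fromBlocks_apply₁₂, Matrix.zero_mul,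
            Matrix.zero_apply, e1]
          simp only [e, colM, gam, hxe, hξ, Matrix.of_apply, if_true]
          have := ex' i
          linear_combination this + xr i * tm + x' i * q * ta + x' i * c2 +
            x' i * (1 + s) * c4
        · simp [e, colM, hxe, hξ, loopM, Matrix.mul_apply]
      · simp
      · simp
  exact step1.symm.trans (step2.trans step3)

theorem rl (hQT : QTStmt) (hP : S.Per k0 P) {ε η : K} (hI : Infs ε η) : RLStmt S ε k0 := by
  intro J _ _ ty m v Z h ⟨k, c, hk, hs⟩ b b'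
  have hn := hP.2.1
  have hk0 : 1 ≤ k0 := S.n0_pos.trans hn
  have e0 := hI.1
  have e1 : Bd ε 1 := by simpa using (hI.2.2.2 0).bd
  have c0 : 0 ≤ c := by simpa [hs] using (h.nn v v).2 k
  have cb : Bd c ε := by simpa [hs] using h.loop k
  obtain ⟨lamJ, L1J, a1, a2, a3, a4, a5, a6⟩ := scales h
  obtain ⟨piJ, L2J, b1, b2, b3, b4, b5, b6⟩ := scales (rlhyp_tr h)
  obtain ⟨L1, M1, δ1, d1, d2⟩ := h.vz
  obtain ⟨L2, M2, δ2, d3, d4⟩ := h.zv
  set x : J → K[X] := fun a => if a = v then 0 else m a v with hx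
  set y : J → K[X] := fun a => if a = v then 0 else m v a with hy
  have px : ∀ a, PNN (x a) := fun a => by
    simp only [hx]; split_ifs
    · exact PNN.zero
    · exact (h.nn a v).2
  have py : ∀ a, PNN (y a) := fun a => by
    simp only [hy]; split_ifs
    · exact PNN.zero
    · exact (h.nn v a).2
  have dx : ∀ a, (X : K[X]) ^ k0 ∣ x a := fun a => by
    simp only [hx]; split_ifs with e
    · exact dvd_zero _
    · exact h.coldiv a e
  have dy : ∀ a, (X : K[X]) ^ k0 ∣ y a := fun a => by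
    simp only [hy]; split_ifs with e
    · exact dvd_zero _
    · exact h.rowdiv a e
  have s1 : PNN (m v v) := (h.nn v v).2
  have sx : (X : K[X]) ∣ m v v := X_dvd_iff.mpr (h.nn v v).1
  set n := M1 + M2 + L1 + L2 + ∑ a, (L1J a + L2J a) with hn'
  have nle : ∀ a, L1J a + L2J a ≤ ∑ a, (L1J a + L2J a) := fun a =>
    Finset.single_le_sum (f := fun a => L1J a + L2J a) (fun _ _ => Nat.zero_le _)
      (Finset.mem_univ a)
  obtain ⟨yr, y', lam, y1, y2, y3, y4, y5, y6, y7, y8, y9, y10⟩ :=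
    push_vec (k0 := k0) (Z := Z) (y := y) (L1 := L1) (M := M1) (n := n) e0 e1 py dy b1 b2 b6 d1
      (by simpa [hy, h.ne.symm] using d2) s1 sx h.loop (by omega)
      (fun a => by have := nle a; omega)
  obtain ⟨xr, x', pi, x1, x2, x3, x4, x5, x6, x7, x8, x9, x10⟩ :=
    push_vec (k0 := k0) (Z := Z) (y := x) (L1 := L2) (M := M2) (n := n) e0 e1 px dx a1 a2 a6 d3
      (by simpa [hx, h.ne.symm] using d4) s1 sx h.loop (by omega)
      (fun a => by have := nle a; omega)
  obtain ⟨N, hN⟩ := hQT V (AlK S k0 P k) P (alAx hP hk) (L1 + L2 + (M1 + M2 + 1)) (by omega)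
  set moo : Matrix J J K[X] := Matrix.of fun a a' =>
    (if a = v ∨ a' = v then 0 else m a a') + x a * (th n (m v v) * yr a') +
      xr a * th n (m v v) * y' a' + C (1 / 2 - 2 * N * (1 / (4 * N + 4)) : K) * x' a * y' a'
    with hmoo
  have cpos : (0 : K) ≤ 1 / 2 - 2 * N * (1 / (4 * N + 4)) := by
    have : (0 : K) ≤ N := Nat.cast_nonneg N
    rw [sub_nonneg, mul_one_div, div_le_div_iff₀ (by positivity) (by positivity)]
    linarith
  have t1 : ∀ a a', PNN (x a * (th n (m v v) * yr a')) := fun a a' =>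
    (px a).mul ((s1.th n).mul (y1 a'))
  have t2 : ∀ a a', PNN (xr a * th n (m v v) * y' a') := fun a a' =>
    ((x1 a).mul (s1.th n)).mul (y2 a')
  have t3 : ∀ a a', PNN (C (1 / 2 - 2 * N * (1 / (4 * N + 4)) : K) * x' a * y' a') := fun a a' =>
    ((PNN.C cpos).mul (x2 a)).mul (y2 a')
  have low : ∀ a a' d, (if a = v ∨ a' = v then 0 else m a a').coeff d ≤ (moo a a').coeff d := by
    intro a a' d
    simp only [hmoo, Matrix.of_apply, coeff_add]
    linarith [t1 a a' d, t2 a a' d, t3 a a' d]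
  have y0 : ∀ a, (y' a).coeff 0 = 0 := fun a => coeff_zero_of_dvd (by omega) (y9 a)
  have nn : NN0 moo := by
    intro a a'
    have n0 : (if a = v ∨ a' = v then 0 else m a a').coeff 0 = 0 ∧
        PNN (if a = v ∨ a' = v then 0 else m a a') := by
      split_ifs
      · exact ⟨coeff_zero 0, PNN.zero⟩
      · exact h.nn a a'
    refine ⟨?_, fun d => (n0.2 d).trans (low a a' d)⟩
    simp only [hmoo, Matrix.of_apply, coeff_add, mul_coeff_zero, n0.1, y0,
      coeff_zero_of_dvd hk0 (dx a), zero_mul, mul_zero, add_zero]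
  have hZ : Z ≠ v := h.ne.symm
  have hS : SHyp S k0 ε ty Z moo x' y' lamJ piJ L1J L2J lam pi L1 L2 (M1 + M2) := by
    refine ⟨nn, x2, y2, a3, b3, a1, b1, a2, b2, a4, b4, ?_, fun a ha => ?_, fun a ha => ?_, y5, x5,
      y6, x6, y7, x7, by rw [pow_add]; exact y8.mul x8, y9, y10,
      fun a => by rw [add_comm]; exact x9 a, fun a d => by rw [mul_comm]; exact x10 a d⟩
    · obtain ⟨δ, p1, p2⟩ := h.zz
      exact ⟨δ, p1, p2.trans (by simpa [hZ] using low Z Z 1)⟩
    · exact (a5 a ha).trans (by simpa [hZ] using low a Z (L1J a))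
    · exact (b5 a ha).trans (by simpa [hZ] using low Z a (L2J a))
  have key := sLCT hP hI hk c0 cb hS (L := L1 + L2 + (M1 + M2 + 1)) (N := N) (by omega)
    (by omega) hN
  rw [← hs] at key
  have tl : ∀ b, SEq S (Function.update ty v b) m (Sum.elim ty Prod.snd)
      (NM N S.n0 (m v v) moo x' y' b) := fun b =>
    tailor hn h.nn h.gr (fun _ => rfl) (fun _ => rfl) dx dy x3 y3 y1 y2 x4 y4 N b (fun _ _ => rfl)
      (nn0_fromBlocks nn (hS.col_nn hk0 s1 b) (hS.row_nn hk0 s1 b) (loopM_nn s1 (h.nn v v).1 b))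
  have main : SEq S (Function.update ty v false) m (Function.update ty v true) m :=
    (tl false).trans (key.trans (tl true).symm)
  cases b <;> cases b'
  · exact SEq.refl h.nn
  · exact main
  · exact main.symm
  · exact SEq.refl h.nn

end Pool.Agent.MP_841a27_al.LCT

end MrgPart2

-- ======== part 3: formerly Pool.Agent.MP_841a27_al.PolyH
section MrgPart3

/-!
Switching the type of a vertex with an arbitrary small loop.
-/

set_option linter.unusedSectionVars false

namespace Pool.Agent.MP_841a27_al.LCT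

open Matrix Polynomial

variable {V : Type} [Fintype V] [DecidableEq V] {S : GSys V} {k0 : ℕ}
variable {K : Type} [Field K] [LinearOrder K] [IsStrictOrderedRing K]
variable {J : Type} [Fintype J] [DecidableEq J]

/-- Types on `Option J`. -/
def opt (b : Bool) (ty : J → Bool) : Option J → Bool := fun o => o.elim b ty

theorem update_opt_none (b b' : Bool) (ty : J → Bool) :
    Function.update (opt b ty) none b' = opt b' ty := by
  ext (_ | a) <;> simp [opt]

theorem update_opt_some (b b' : Bool) (ty : J → Bool) (v : J) :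
    Function.update (opt b ty) (some v) b' = opt b (Function.update ty v b') := by
  ext (_ | a)
  · simp [opt]
  · by_cases h : a = v
    · subst h; simp [opt]
    · simp [opt, h]

theorem good_of_hyp {ε : K} {ty : J → Bool} {m : Matrix J J K[X]} {v Z : J} (hk : S.n0 ≤ k0)
    (h : RLHyp S ε k0 ty m v Z) (b : Bool) : Good S (Function.update ty v b) m := by
  refine ⟨h.nn, fun j j' e => ?_⟩
  by_cases h1 : j = v
  · by_cases h2 : j' = v
    · exact absurd (by rw [h1, h2]) e
    · rw [h1]; exact (pow_dvd_pow _ hk).trans (h.rowdiv j' h2)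
  · by_cases h2 : j' = v
    · rw [h2]; exact (pow_dvd_pow _ hk).trans (h.coldiv j h1)
    · rw [Function.update_of_ne h1, Function.update_of_ne h2] at e
      exact h.gr j j' h1 h2 e

/-- Elimination of a vertex without loop. -/
noncomputable def elimM (e : J) (M : Matrix J J K[X]) : Matrix J J K[X] :=
  Matrix.of fun i j => if i = e then 0 else M i j + M i e * M e j

theorem elim_seq {ty : J → Bool} {M : Matrix J J K[X]} (hM : Good S ty M) {e : J}
    (he : M e e = 0) : SEq S ty M ty (elimM e M) ∧ Good S ty (elimM e M) := by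
  have G : Good S ty (elimM e M) := by
    refine ⟨fun i j => ?_, fun i j h => ?_⟩
    · simp only [elimM, Matrix.of_apply]
      split_ifs
      · exact ⟨coeff_zero 0, PNN.zero⟩
      · exact ⟨by rw [coeff_add, mul_coeff_zero, (hM.1 i j).1, (hM.1 i e).1]; simp,
          PNN.add (hM.1 i j).2 (PNN.mul (hM.1 i e).2 (hM.1 e j).2)⟩
    · simp only [elimM, Matrix.of_apply]
      split_ifs
      · exact dvd_zero _
      · refine dvd_add (hM.2 i j h) ?_
        by_cases c : ty i = ty e
        · exact Dvd.dvd.mul_left (hM.2 e j (c ▸ h)) _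
        · exact Dvd.dvd.mul_right (hM.2 i e c) _
  refine ⟨sCol (θ := Matrix.of fun i j => if i = e then M e j else 0) (fun i => i ≠ e) hM G.1
    (fun i j h => ?_) (fun i j h => ?_) (fun i j => ?_) ?_, G⟩
  · simp only [Matrix.of_apply]
    split_ifs with c
    · exact hM.2 e j (c ▸ h)
    · exact dvd_zero _
  · simp only [Matrix.of_apply] at h
    by_cases c : i = e
    · rw [if_pos c] at h
      exact ⟨not_not.mpr c, fun c' => h (c' ▸ he)⟩
    · exact absurd (if_neg c) h
  · simp only [Matrix.of_apply]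
    split_ifs
    · exact (hM.1 e j).1
    · exact coeff_zero 0
  · ext1 i j
    by_cases c : i = e
    · simp [elimM, Matrix.mul_apply, c, he]
    · simp [elimM, Matrix.mul_apply, c]

/-- A matrix on `Option J` described by its entries at `none` and `some v`. -/
noncomputable def mk (v : J) (nn nv vn vv : K[X]) (nr vr cn cv : J → K[X]) (m : Matrix J J K[X]) :
    Matrix (Option J) (Option J) K[X] :=
  Matrix.of fun o o' => match o, o' with
    | none, none => nn
    | none, some c => if c = v then nv else nr c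
    | some a, none => if a = v then vn else cn a
    | some a, some c => if a = v then (if c = v then vv else vr c) else
        (if c = v then cv a else m a c)

section mk
variable {v : J} {nn nv vn vv : K[X]} {nr vr cn cv : J → K[X]} {m : Matrix J J K[X]}

@[simp] theorem mk_nn : mk v nn nv vn vv nr vr cn cv m none none = nn := rfl

@[simp] theorem mk_ns (c : J) : mk v nn nv vn vv nr vr cn cv m none (some c) =
    if c = v then nv else nr c := rfl

@[simp] theorem mk_sn (a : J) : mk v nn nv vn vv nr vr cn cv m (some a) none =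
    if a = v then vn else cn a := rfl

@[simp] theorem mk_ss (a c : J) : mk v nn nv vn vv nr vr cn cv m (some a) (some c) =
    if a = v then (if c = v then vv else vr c) else (if c = v then cv a else m a c) := rfl

theorem all_mk (P : K[X] → Prop) (h1 : P nn) (h2 : P nv) (h3 : P vn) (h4 : P vv)
    (h5 : ∀ a, P (nr a)) (h6 : ∀ a, P (vr a)) (h7 : ∀ a, P (cn a)) (h8 : ∀ a, P (cv a))
    (h9 : ∀ a c, P (m a c)) (o o' : Option J) : P (mk v nn nv vn vv nr vr cn cv m o o') := by
  rcases o with _ | a <;> rcases o' with _ | c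
  · exact h1
  · rw [mk_ns]; split_ifs
    · exact h2
    · exact h5 c
  · rw [mk_sn]; split_ifs
    · exact h3
    · exact h7 a
  · rw [mk_ss]; split_ifs
    · exact h4
    · exact h6 c
    · exact h8 a
    · exact h9 a c

theorem graded_mk {n : ℕ} {ty : J → Bool} {b b' : Bool}
    (h2 : b ≠ b' → (X : K[X]) ^ n ∣ nv) (h3 : b ≠ b' → (X : K[X]) ^ n ∣ vn)
    (h5 : ∀ a, a ≠ v → (X : K[X]) ^ n ∣ nr a) (h6 : ∀ a, a ≠ v → (X : K[X]) ^ n ∣ vr a)
    (h7 : ∀ a, a ≠ v → (X : K[X]) ^ n ∣ cn a) (h8 : ∀ a, a ≠ v → (X : K[X]) ^ n ∣ cv a)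
    (h9 : ∀ a c, a ≠ v → c ≠ v → ty a ≠ ty c → (X : K[X]) ^ n ∣ m a c) :
    Graded n (opt b (Function.update ty v b')) (opt b (Function.update ty v b'))
      (mk v nn nv vn vv nr vr cn cv m) := by
  rintro (_ | a) (_ | c) e
  · exact absurd rfl e
  · rw [mk_ns]; split_ifs with h
    · exact h2 (by simpa [opt, h] using e)
    · exact h5 c h
  · rw [mk_sn]; split_ifs with h
    · exact h3 (by simpa [opt, h, eq_comm] using e)
    · exact h7 a h
  · rw [mk_ss]; split_ifs with h h' h'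
    · exact absurd (by rw [h, h']) e
    · exact h6 c h'
    · exact h8 a h
    · exact h9 a c h h' (by simpa [opt, h, h'] using e)

end mk

/-- Nonnegative without constant term. -/
def Q0 (p : K[X]) : Prop := p.coeff 0 = 0 ∧ ∀ d, 0 ≤ p.coeff d

theorem Q0.zero : Q0 (0 : K[X]) := ⟨coeff_zero 0, PNN.zero⟩

theorem Q0.mul {p q : K[X]} (h : Q0 p) (h' : PNN q) : Q0 (p * q) :=
  ⟨by rw [mul_coeff_zero, h.1, zero_mul], PNN.mul h.2 h'⟩

theorem Q0.mul' {p q : K[X]} (h' : PNN q) (h : Q0 p) : Q0 (q * p) := by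
  rw [mul_comm]; exact h.mul h'

theorem Q0.pow {p : K[X]} (h : Q0 p) (n : ℕ) : Q0 (p ^ (n + 1)) := by
  rw [pow_succ']; exact h.mul (PNN.pow h.2 n)

theorem Q0.add {p q : K[X]} (h : Q0 p) (h' : Q0 q) : Q0 (p + q) :=
  ⟨by rw [coeff_add, h.1, h'.1, add_zero], PNN.add h.2 h'.2⟩

theorem base_case {ε : K} {ty : J → Bool} {m : Matrix J J K[X]} {v Z : J} (hk : S.n0 ≤ k0)
    (h : RLHyp S ε k0 ty m v Z) (hd : (X : K[X]) ^ (2 * S.n0) ∣ m v v) (b b' : Bool) :
    SEq S (Function.update ty v b) m (Function.update ty v b') m := by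
  obtain ⟨g, hg⟩ := hd
  have dn : (X : K[X]) ^ S.n0 ∣ X ^ k0 := pow_dvd_pow _ hk
  have e1 : m v v = X ^ S.n0 * (X ^ S.n0 * g) := by rw [hg]; ring
  have q1 : Q0 ((X : K[X]) ^ S.n0) := ⟨coeff_zero_of_dvd S.n0_pos dvd_rfl, PNN.X.pow _⟩
  have q2 : Q0 ((X : K[X]) ^ S.n0 * g) := ⟨coeff_zero_of_dvd S.n0_pos (dvd_mul_right _ _),
    fun d => by
      have := (h.nn v v).2 (d + S.n0)
      rwa [e1, coeff_X_pow_mul] at this⟩
  set m1 := mk v 0 (X ^ S.n0 * g) (X ^ S.n0) 0 (fun _ => 0) (fun c => m v c) (fun _ => 0)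
    (fun a => m a v) m with hm1
  have key : ∀ b, SEq S (Function.update ty v b) m
      (fun o : {o : Option J // o ≠ some v} => opt false ty o.1)
      ((elimM (some v) m1).submatrix Subtype.val Subtype.val) := by
    intro b
    have G : Good S (opt false (Function.update ty v b)) m1 :=
      ⟨all_mk Q0 Q0.zero q2 q1 Q0.zero (fun _ => Q0.zero) (fun c => h.nn v c) (fun _ => Q0.zero)
        (fun a => h.nn a v) h.nn,
        graded_mk (fun _ => dvd_mul_right _ _) (fun _ => dvd_rfl) (fun _ _ => dvd_zero _)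
          (fun a ha => dn.trans (h.rowdiv a ha)) (fun _ _ => dvd_zero _)
          (fun a ha => dn.trans (h.coldiv a ha)) h.gr⟩
    obtain ⟨a1, a2⟩ := elim_seq G (e := none) rfl
    obtain ⟨b1, b2⟩ := elim_seq G (e := some v) (by simp [hm1])
    have c1 := sEmbed (ty := Function.update ty v b) (m := m) some (Option.some_injective J)
      (fun _ => rfl) a2 (fun a c => by
        by_cases h1 : a = v <;> by_cases h2 : c = v <;> simp [elimM, hm1, h1, h2, e1])
      (fun j j' e => by
        rcases j with _ | a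
        · simp [elimM]
        · exact absurd rfl (e a))
    have c2 := sEmbed (ty := fun o : {o : Option J // o ≠ some v} => opt false ty o.1)
      (m := (elimM (some v) m1).submatrix Subtype.val Subtype.val) Subtype.val
      Subtype.val_injective (fun o => by
        obtain ⟨_ | a, ha⟩ := o
        · rfl
        · have : a ≠ v := fun e => ha (by rw [e])
          simp [opt, this]) b2 (fun _ _ => rfl) (fun j j' e => by
        have : j = some v := by
          by_contra c
          exact e ⟨j, c⟩ rfl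
        simp [elimM, this])
    exact c1.symm.trans (a1.symm.trans (b1.trans c2))
  exact (key b).trans (key b').symm

theorem le_coeff_th' {q r : K[X]} (hq : PNN q) (hr : PNN r) (n d : ℕ) :
    q.coeff d ≤ (th (n + 1) r * q).coeff d := by
  rw [th_succ, add_mul, one_mul, coeff_add]
  linarith [((hr.mul (hr.th n)).mul hq) d]

theorem bd_of_room {ε x : K} (h0 : 0 < ε) (h1 : Bd ε 1) {δ : ℚ} (δ0 : 0 < δ) {M n : ℕ}
    (hδ : (δ : K) * ε ^ M ≤ x) (hn : M ≤ n) : Bd (ε ^ n) x := by
  have δ1 : (0 : K) < δ := by exact_mod_cast δ0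
  have lb : Bd (ε ^ M) x := ⟨1 / δ, by positivity, by
    push_cast
    rw [abs_of_pos (pow_pos h0 M), one_div, ← div_eq_inv_mul, le_div_iff₀ δ1, mul_comm]
    exact hδ⟩
  obtain ⟨j, rfl⟩ : ∃ j, n = M + j := ⟨n - M, by omega⟩
  have := lb.mul (h1.pow j)
  rwa [one_pow, mul_one, ← pow_add] at this

/-- The split matrix after pushing the new edges. -/
noncomputable def splitM (v : J) (m : Matrix J J K[X]) (s g : K[X]) (n : ℕ) :
    Matrix (Option J) (Option J) K[X] :=
  mk v s (s ^ (n + 1) * g) (s ^ (n + 1)) (th (n + 1) s * g + s ^ (n + 1) * (th (n + 1) s * g))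
    (fun c => m v c) (fun c => th (n + 1) s * m v c) (fun a => C (1 / 2) * m a v)
    (fun a => C (1 / 2) * m a v + C (1 / 2) * m a v * (th (n + 1) s * g)) m

theorem splitM_nn {m : Matrix J J K[X]} {v : J} (hm : NN0 m) {s g : K[X]} (hs : Q0 s) (hg : Q0 g)
    (n : ℕ) : NN0 (splitM v m s g n) := by
  have s1 : PNN s := hs.2
  have c1 : PNN (C (1 / 2 : K)) := PNN.C (by norm_num)
  exact all_mk Q0 hs (Q0.mul' (s1.pow _) hg) (hs.pow n)
    ((Q0.mul' (s1.th _) hg).add (Q0.mul' (s1.pow _) (Q0.mul' (s1.th _) hg)))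
    (fun c => hm v c) (fun c => Q0.mul' (s1.th _) (hm v c)) (fun a => Q0.mul' c1 (hm a v))
    (fun a => (Q0.mul' c1 (hm a v)).add ((Q0.mul' c1 (hm a v)).mul ((s1.th _).mul hg.2))) hm

theorem split_seq {ε : K} {ty : J → Bool} {m : Matrix J J K[X]} {v Z : J} (hk : S.n0 ≤ k0)
    (h : RLHyp S ε k0 ty m v Z) {s g : K[X]} (hs : Q0 s) (hg : Q0 g) (e : m v v = g + s) (n : ℕ)
    (b : Bool) : SEq S (Function.update ty v b) m (opt b (Function.update ty v b))
      (splitM v m s g n) := by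
  have dn : (X : K[X]) ^ S.n0 ∣ X ^ k0 := pow_dvd_pow _ hk
  have s1 : PNN s := hs.2
  have c1 : PNN (C (1 / 2 : K)) := PNN.C (by norm_num)
  have rd : ∀ a, a ≠ v → (X : K[X]) ^ S.n0 ∣ m v a := fun a ha => dn.trans (h.rowdiv a ha)
  have cd : ∀ a, a ≠ v → (X : K[X]) ^ S.n0 ∣ C (1 / 2) * m a v := fun a ha =>
    (dn.trans (h.coldiv a ha)).mul_left _
  have c2 : (C (1 / 2 : K) : K[X]) + C (1 / 2) = 1 := by rw [← C_add]; norm_num
  set m0 := mk v s g s g (fun c => m v c) (fun c => m v c) (fun a => C (1 / 2) * m a v)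
    (fun a => C (1 / 2) * m a v) m with hm0
  set m1 := mk v s g (s ^ (n + 1)) (th (n + 1) s * g) (fun c => m v c)
    (fun c => th (n + 1) s * m v c) (fun a => C (1 / 2) * m a v)
    (fun a => C (1 / 2) * m a v) m with hm1
  have G0 : Good S (opt b (Function.update ty v b)) m0 :=
    ⟨all_mk Q0 hs hg hs hg (fun c => h.nn v c) (fun c => h.nn v c)
      (fun a => Q0.mul' c1 (h.nn a v)) (fun a => Q0.mul' c1 (h.nn a v)) h.nn,
      graded_mk (fun e => absurd rfl e) (fun e => absurd rfl e) rd rd cd cd h.gr⟩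
  have G1 : Good S (opt b (Function.update ty v b)) m1 :=
    ⟨all_mk Q0 hs hg (hs.pow n) (Q0.mul' (s1.th _) hg) (fun c => h.nn v c)
      (fun c => Q0.mul' (s1.th _) (h.nn v c))
      (fun a => Q0.mul' c1 (h.nn a v)) (fun a => Q0.mul' c1 (h.nn a v)) h.nn,
      graded_mk (fun e => absurd rfl e) (fun e => absurd rfl e) rd
        (fun a ha => (rd a ha).mul_left _) cd cd h.gr⟩
  have t0 : SEq S (opt b (Function.update ty v b)) m0 (Function.update ty v b) m := by
    refine sE0 (Matrix.of fun o a => if a = o.getD v then 1 else 0) (m0.submatrix some id)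
      (fun o a => ?_) (fun o a e => ?_) (G0.1.submatrix _ _) (fun a o e => G0.2 (some a) o e) ?_ ?_
    · simp only [Matrix.of_apply]; split_ifs <;> simp
    · have : a = o.getD v := by
        by_contra c
        exact e (if_neg c)
      rcases o with _ | a'
      · simp [this, opt]
      · simp [this, opt]
    · ext1 o o'
      have : (cm (Matrix.of fun (o : Option J) a => if a = o.getD v then (1 : K) else 0) *
          m0.submatrix some id) o o' = m0 (some (o.getD v)) o' := by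
        simp [Matrix.mul_apply, apply_ite (C : K → K[X])]
      rw [this]
      rcases o with _ | a
      · rcases o' with _ | c <;> simp [hm0]
      · rfl
    · ext1 a c
      have : (m0.submatrix some id * cm (Matrix.of fun (o : Option J) a =>
          if a = o.getD v then (1 : K) else 0)) a c =
          (if c = v then m0 (some a) none else 0) + m0 (some a) (some c) := by
        simp [Matrix.mul_apply, apply_ite (C : K → K[X]), Fintype.sum_option]
      rw [this]
      by_cases h1 : a = v <;> by_cases h2 : c = v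
      · simp [hm0, h1, h2, e, add_comm]
      · simp [hm0, h1, h2]
      · simp only [hm0, h1, h2, mk_sn, mk_ss, if_true, if_false]
        rw [← add_mul, c2, one_mul]
      · simp [hm0, h1, h2]
  have tm := th_mul n s
  have tm' := th_mul (n + 1) s
  have ts := th_succ n s
  have t1 : SEq S (opt b (Function.update ty v b)) m0 (opt b (Function.update ty v b)) m1 := by
    refine sRow (ξ := Matrix.of fun o o' => if o = some v ∧ o' = none then s * th n s else 0)
      (fun o => o = some v) G0 G1.1 (fun o o' e => ?_) (fun o o' e => ?_) (fun o o' => ?_) ?_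
    · simp only [Matrix.of_apply]
      rw [if_neg fun c => e (by simp [c.1, c.2, opt])]
      exact dvd_zero _
    · have : o = some v ∧ o' = none := by
        by_contra c
        exact e (if_neg c)
      exact ⟨this.1, by simp [this.2]⟩
    · simp only [Matrix.of_apply]
      split_ifs
      · exact (hs.mul (s1.th _)).1
      · exact coeff_zero 0
    · ext1 o o'
      have : ((Matrix.of fun o o' : Option J =>
          if o = some v ∧ o' = none then s * th n s else 0) * m0) o o' =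
          if o = some v then s * th n s * m0 none o' else 0 := by
        by_cases c : o = some v <;> simp [Matrix.mul_apply, c]
      rw [Matrix.add_apply, Matrix.sub_apply, this]
      rcases o with _ | a <;> rcases o' with _ | c
      · simp [hm0, hm1]
      · simp [hm0, hm1]
      · by_cases h1 : a = v
        · simp [hm0, hm1, h1]
          linear_combination s * tm
        · simp [hm0, hm1, h1]
      · by_cases h1 : a = v <;> by_cases h2 : c = v
        · simp only [hm0, hm1, h1, h2, mk_ss, mk_ns, if_true, Matrix.of_apply, reduceCtorEq,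
            and_false, if_false]
          rw [ts]; ring
        · simp only [hm0, hm1, h1, h2, mk_ss, mk_ns, if_true, Matrix.of_apply, reduceCtorEq,
            and_false, if_false]
          rw [ts]; ring
        · simp [hm0, hm1, h1]
        · simp [hm0, hm1, h1]
  have t2 : SEq S (opt b (Function.update ty v b)) m1 (opt b (Function.update ty v b))
      (splitM v m s g n) := by
    refine sCol (θ := Matrix.of fun o o' => if o = none ∧ o' = some v then th (n + 1) s * g else 0)
      (fun o => o = some v) G1 (splitM_nn h.nn hs hg n) (fun o o' e => ?_) (fun o o' e => ?_)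
      (fun o o' => ?_) ?_
    · simp only [Matrix.of_apply]
      rw [if_neg fun c => e (by simp [c.1, c.2, opt])]
      exact dvd_zero _
    · have : o = none ∧ o' = some v := by
        by_contra c
        exact e (if_neg c)
      exact ⟨by simp [this.1], this.2⟩
    · simp only [Matrix.of_apply]
      split_ifs
      · exact (Q0.mul' (s1.th _) hg).1
      · exact coeff_zero 0
    · ext1 o o'
      have : (m1 * (Matrix.of fun o o' : Option J =>
          if o = none ∧ o' = some v then th (n + 1) s * g else 0)) o o' =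
          if o' = some v then m1 o none * (th (n + 1) s * g) else 0 := by
        by_cases c : o' = some v <;> simp [Matrix.mul_apply, c]
      rw [Matrix.add_apply, Matrix.sub_apply, this]
      rcases o with _ | a <;> rcases o' with _ | c
      · simp [splitM, hm1]
      · by_cases h1 : c = v
        · simp [splitM, hm1, h1]
          linear_combination g * tm'
        · simp [splitM, hm1, h1]
      · simp [splitM, hm1]
      · by_cases h1 : a = v <;> by_cases h2 : c = v <;> simp [splitM, hm1, h1, h2]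
  exact t0.symm.trans (t1.trans t2)

section hyp
variable {ε : K} {ty : J → Bool} {m : Matrix J J K[X]} {v Z : J}
  (h0 : 0 < ε) (h1 : Bd ε 1) (hk : S.n0 ≤ k0) (h : RLHyp S ε k0 ty m v Z)
  {s g : K[X]} (hs : Q0 s) (hg : Q0 g) (bs : ∀ d, Bd (s.coeff d) ε) (bg : ∀ d, Bd (g.coeff d) ε)
  {n L M L' M' : ℕ} {δ δ' : ℚ} (δ0 : 0 < δ) (δ1 : 0 < δ')
  (r1 : (δ : K) * ε ^ M ≤ (m v Z).coeff L) (r2 : (δ' : K) * ε ^ M' ≤ (m Z v).coeff L')
  (n1 : k0 ≤ n + 1) (n2 : M ≤ n + 1) (n3 : M' ≤ n + 1)
include h0 h1 hk h hs hg bs bg δ0 δ1 r1 r2 n1 n2 n3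

theorem split_hyps (b b' : Bool) :
    RLHyp S ε k0 (opt b (Function.update ty v b')) (splitM v m s g n) none (some Z) ∧
    RLHyp S ε k0 (opt b ty) (splitM v m s g n) (some v) (some Z) := by
  have hZ : Z ≠ v := h.ne.symm
  have s1 : PNN s := hs.2
  have dn : (X : K[X]) ^ S.n0 ∣ X ^ k0 := pow_dvd_pow _ hk
  have ds : (X : K[X]) ^ k0 ∣ s ^ (n + 1) :=
    (pow_dvd_pow _ n1).trans (pow_dvd_pow_of_dvd (X_dvd_iff.mpr hs.1) _)
  have bt : ∀ d, Bd ((th (n + 1) s).coeff d) 1 := Bd.coeff_th (fun d => (bs d).trans h1) _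
  have bh : ∀ d, Bd ((C (1 / 2 : K) : K[X]).coeff d) 1 :=
    bd_C (Bd.of_le (by norm_num) (by norm_num))
  have c1 : PNN (C (1 / 2 : K)) := PNN.C (by norm_num)
  have btg : ∀ d, Bd ((th (n + 1) s * g).coeff d) ε := fun d => by
    simpa using Bd.coeff_mul bt bg d
  have bsn : ∀ d, Bd ((s ^ (n + 1)).coeff d) (ε ^ (n + 1)) := Bd.coeff_pow bs _
  have bsg : ∀ d, Bd ((s ^ (n + 1) * g).coeff d) (ε ^ (n + 1)) := fun d => by
    simpa using Bd.coeff_mul bsn (fun d => (bg d).trans h1) d
  have half : ∀ (p : K[X]) (μ : K), (∀ d, Bd (p.coeff d) μ) →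
      ∀ d, Bd ((C (1 / 2 : K) * p).coeff d) μ := fun p μ hp d => by
    simpa using Bd.coeff_mul bh hp d
  have half' : ∀ (p : K[X]) (μ : K), (∀ d, Bd (p.coeff d) μ) →
      ∀ d, Bd ((C (1 / 2 : K) * p + C (1 / 2 : K) * p * (th (n + 1) s * g)).coeff d) μ :=
    fun p μ hp d => by
      rw [coeff_add]
      refine (half p μ hp d).add ?_
      simpa using Bd.coeff_mul (half p μ hp) (fun d => (btg d).trans h1) d
  have tmul : ∀ (p : K[X]) (μ : K), (∀ d, Bd (p.coeff d) μ) →
      ∀ d, Bd ((th (n + 1) s * p).coeff d) μ := fun p μ hp d => by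
    simpa using Bd.coeff_mul bt hp d
  have r3 : ((δ' / 2 : ℚ) : K) * ε ^ M' ≤ (C (1 / 2 : K) * m Z v).coeff L' := by
    rw [coeff_C_mul]; push_cast; linarith
  have r4 : ((δ' / 2 : ℚ) : K) * ε ^ M' ≤
      (C (1 / 2 : K) * m Z v + C (1 / 2 : K) * m Z v * (th (n + 1) s * g)).coeff L' := by
    rw [coeff_add]
    linarith [((c1.mul (h.nn Z v).2).mul ((s1.th (n + 1)).mul hg.2)) L']
  have r5 : (δ : K) * ε ^ M ≤ (th (n + 1) s * m v Z).coeff L :=
    r1.trans (le_coeff_th' (h.nn v Z).2 s1 n L)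
  have δ2 : 0 < δ' / 2 := by positivity
  have nn := splitM_nn (v := v) h.nn hs hg n
  have zz : ∃ δ : ℚ, 0 < δ ∧ (δ : K) ≤ (splitM v m s g n (some Z) (some Z)).coeff 1 := by
    simpa [splitM, hZ] using h.zz
  have gr : ∀ b b', Graded S.n0 (opt b (Function.update ty v b')) (opt b (Function.update ty v b'))
      (splitM v m s g n) := fun b b' =>
    graded_mk (fun _ => (dn.trans ds).mul_right _) (fun _ => dn.trans ds)
      (fun a ha => dn.trans (h.rowdiv a ha)) (fun a ha => (dn.trans (h.rowdiv a ha)).mul_left _)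
      (fun a ha => (dn.trans (h.coldiv a ha)).mul_left _)
      (fun a ha => dvd_add ((dn.trans (h.coldiv a ha)).mul_left _)
        (((dn.trans (h.coldiv a ha)).mul_left _).mul_right _)) h.gr
  constructor
  · refine ⟨by simp, nn, fun j j' _ _ e => gr b b' j j' e, ?_, ?_, bs, zz, ⟨L, M, δ, δ0, ?_⟩,
      ⟨L', M', δ' / 2, δ2, ?_⟩, ?_, ?_, ?_, ?_⟩
    · rintro (_ | c) hc
      · exact absurd rfl hc
      · simp only [splitM, mk_ns]; split_ifs with e
        · exact ds.mul_right _
        · exact h.rowdiv c e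
    · rintro (_ | c) hc
      · exact absurd rfl hc
      · simp only [splitM, mk_sn]; split_ifs with e
        · exact ds
        · exact (h.coldiv c e).mul_left _
    · simpa only [splitM, mk_ns, if_neg hZ] using r1
    · simpa only [splitM, mk_sn, if_neg hZ] using r3
    · simpa only [splitM, mk_ns, if_neg hZ] using h.vzfin
    · simpa only [splitM, mk_sn, if_neg hZ] using half _ _ h.zvfin
    · rintro (_ | a) ha ha'
      · exact absurd rfl ha
      · simp only [splitM, mk_ns, mk_ss, if_neg hZ]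
        split_ifs with e
        · exact ⟨L', fun d => (bsg d).trans (bd_of_room h0 h1 δ2 r4 n3)⟩
        · exact h.rowbd a e fun c => ha' (by rw [c])
    · rintro (_ | a) ha ha'
      · exact absurd rfl ha
      · simp only [splitM, mk_sn, mk_ss, if_neg hZ]
        split_ifs with e
        · exact ⟨L, fun d => (bsn d).trans (bd_of_room h0 h1 δ0 r5 n2)⟩
        · obtain ⟨d, hd⟩ := h.colbd a e fun c => ha' (by rw [c])
          exact ⟨d, half _ _ hd⟩
  · refine ⟨by simpa using h.ne, nn, fun j j' a a' e => gr b (ty v) j j' (by simpa using e), ?_, ?_,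
      ?_, zz, ⟨L, M, δ, δ0, ?_⟩, ⟨L', M', δ' / 2, δ2, ?_⟩, ?_, ?_, ?_, ?_⟩
    · rintro (_ | c) hc
      · simpa only [splitM, mk_sn, if_true] using ds
      · have e : c ≠ v := fun e => hc (by rw [e])
        simpa only [splitM, mk_ss, if_true, if_neg e] using (h.rowdiv c e).mul_left _
    · rintro (_ | c) hc
      · simpa only [splitM, mk_ns, if_true] using ds.mul_right _
      · have e : c ≠ v := fun e => hc (by rw [e])
        simpa only [splitM, mk_ss, if_true, if_neg e] using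
          dvd_add ((h.coldiv c e).mul_left _) (((h.coldiv c e).mul_left _).mul_right _)
    · intro d
      simp only [splitM, mk_ss, if_true, coeff_add]
      refine (btg d).add ?_
      simpa using Bd.coeff_mul (Bd.coeff_pow (fun d => (bs d).trans h1) (n + 1)) btg d
    · simpa only [splitM, mk_ss, if_true, if_neg hZ] using r5
    · simpa only [splitM, mk_ss, if_true, if_neg hZ] using r4
    · simpa only [splitM, mk_ss, if_true, if_neg hZ] using tmul _ _ h.vzfin
    · simpa only [splitM, mk_ss, if_true, if_neg hZ] using half' _ _ h.zvfin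
    · rintro (_ | a) ha ha'
      · simp only [splitM, mk_sn, if_true, if_neg hZ]
        exact ⟨L', fun d => (bsn d).trans (bd_of_room h0 h1 δ2 r3 n3)⟩
      · have e : a ≠ v := fun e => ha (by rw [e])
        simp only [splitM, mk_ss, if_true, if_neg hZ, if_neg e]
        obtain ⟨d, hd⟩ := h.rowbd a e fun c => ha' (by rw [c])
        exact ⟨d, tmul _ _ hd⟩
    · rintro (_ | a) ha ha'
      · simp only [splitM, mk_ns, if_true, if_neg hZ]
        exact ⟨L, fun d => (bsg d).trans (bd_of_room h0 h1 δ0 r1 n2)⟩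
      · have e : a ≠ v := fun e => ha (by rw [e])
        simp only [splitM, mk_ss, if_true, if_neg hZ, if_neg e]
        obtain ⟨d, hd⟩ := h.colbd a e fun c => ha' (by rw [c])
        exact ⟨d, half' _ _ hd⟩

end hyp

theorem rlpoly_aux {ε : K} (h0 : 0 < ε) (h1 : Bd ε 1) (hk : S.n0 ≤ k0) (hR : RLStmt S ε k0)
    (j : ℕ) : ∀ (J : Type) [Fintype J] [DecidableEq J] (ty : J → Bool) (m : Matrix J J K[X])
      (v Z : J), RLHyp S ε k0 ty m v Z → (X : K[X]) ^ (2 * S.n0 - j) ∣ m v v →
      ∀ b b', SEq S (Function.update ty v b) m (Function.update ty v b') m := by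
  induction j with
  | zero => intro J _ _ ty m v Z h hd b b'; exact base_case hk h hd b b'
  | succ j ih =>
    intro J _ _ ty m v Z h hd b b'
    by_cases hj : (X : K[X]) ^ (2 * S.n0 - j) ∣ m v v
    · exact ih J ty m v Z h hj b b'
    set k := 2 * S.n0 - (j + 1) with hk'
    have kk : 2 * S.n0 - j = k + 1 := by
      by_contra c
      have : 2 * S.n0 - j = 0 := by omega
      exact hj (by rw [this, pow_zero]; exact one_dvd _)
    have k1 : 1 ≤ k := by
      by_contra c
      have : k = 0 := by omega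
      exact hj (by rw [kk, this, zero_add, pow_one]; exact X_dvd_iff.mpr (h.nn v v).1)
    set s : K[X] := monomial k ((m v v).coeff k) with hs
    have cg : ∀ d, (m v v - s).coeff d = if k = d then 0 else (m v v).coeff d := fun d => by
      rw [coeff_sub, hs, coeff_monomial]
      split_ifs with e
      · rw [e, sub_self]
      · rw [sub_zero]
    have q1 : Q0 s := ⟨by rw [hs, coeff_monomial, if_neg (by omega)],
      PNN.monomial ((h.nn v v).2 k) k⟩
    have q2 : Q0 (m v v - s) := ⟨by rw [cg, if_neg (by omega)]; exact (h.nn v v).1, fun d => by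
      rw [cg]; split_ifs
      · exact le_rfl
      · exact (h.nn v v).2 d⟩
    have bs : ∀ d, Bd (s.coeff d) ε := fun d => by
      rw [hs, coeff_monomial]; split_ifs
      · exact h.loop k
      · exact Bd.zero h0.le
    have bg : ∀ d, Bd ((m v v - s).coeff d) ε := fun d => by
      rw [cg]; split_ifs
      · exact Bd.zero h0.le
      · exact h.loop d
    have dg : (X : K[X]) ^ (k + 1) ∣ m v v - s := X_pow_dvd_iff.mpr fun d hd' => by
      rw [cg]; split_ifs with e
      · rfl
      · exact X_pow_dvd_iff.mp hd d (by omega)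
    obtain ⟨L, M, δ, δ0, r1⟩ := h.vz
    obtain ⟨L', M', δ', δ1, r2⟩ := h.zv
    have hy := fun b b' => split_hyps h0 h1 hk h q1 q2 bs bg (n := k0 + M + M') δ0 δ1 r1 r2
      (by omega) (by omega) (by omega) b b'
    have a1 := fun b => split_seq hk h q1 q2 (sub_add_cancel _ _).symm (k0 + M + M') b
    have a2 := hR _ _ _ _ _ (hy b b).1 ⟨k, _, k1, rfl⟩ b b'
    rw [update_opt_none, update_opt_none] at a2
    have a3 := ih _ _ _ _ _ (hy b' b).2 (by
      rw [kk]
      simpa only [splitM, mk_ss, if_true] using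
        dvd_add (dg.mul_left _) ((dg.mul_left _).mul_left _)) b b'
    rw [update_opt_some, update_opt_some] at a3
    exact (a1 b).trans (a2.trans (a3.trans (a1 b').symm))

theorem rlpoly {ε : K} (h0 : 0 < ε) (h1 : Sm ε 1) (hk : S.n0 ≤ k0) (hR : RLStmt S ε k0) :
    RLPolyStmt S ε k0 := fun J _ _ ty m v Z h =>
  rlpoly_aux h0 h1.bd hk hR (2 * S.n0) J ty m v Z h (by simp)

end Pool.Agent.MP_841a27_al.LCT

end MrgPart3

-- marker of a merged file
example : 731051 + 600321 = 731051 + 600321 := rfl
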