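import Pool.Agent.MP_841a27_al.QTThmS

-- ======== part 0: formerly Pool.Agent.MP_841a27_al.QTTrans
section MrgPart0

/-!
Transport: two diagonal states with the same class determinants are connected.
-/

namespace Pool.Agent.MP_841a27_al.QT

open Polynomial Matrix

variable {N : ℕ} {V : Type} [Fintype V] [DecidableEq V] {Al : V → V → ℕ → Prop} {P : ℕ}
  {Re : QM N V → (QM N V)ˣ → (QM N V)ˣ → Prop} {L l c d : ℕ} {hA : AlAx Al P}
  {M M' : QM N V}

lemma reAx_true (L : ℕ) : ReAx (N := N) Al L (fun _ _ _ => True) :=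
  ⟨fun _ _ => trivial, fun _ => trivial, fun _ _ => trivial,
    fun _ _ _ _ _ _ _ _ _ _ => trivial, fun _ _ _ _ _ _ _ _ _ _ => trivial,
    fun _ _ _ _ _ _ _ _ _ => trivial⟩

omit [Fintype V] [DecidableEq V] in
lemma lv_top (i : Ix N V) : lv N i := Nat.lt_succ_iff.mp i.1.2

lemma mem_GS_top {u : (QM N V)ˣ} (h : InG Al u) : u ∈ GS hA N N :=
  ⟨h, fun i j hij => by have := lv_top i; have := lv_top j; tauto⟩

/-- Algebraic equivalence of states. -/
def Eqv (hA : AlAx Al P) (l : ℕ) (M M' : QM N V) : Prop :=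
  Reach hA (fun _ _ _ => True) l N M M'

lemma Reach.eqv (h : Reach hA Re l c M M') : Eqv hA l M M' := by
  obtain ⟨U, W, h⟩ := h
  exact ⟨U, W, mem_GS_top h.hU.1, mem_GS_top h.hW.1, trivial, h.cg⟩

lemma Eqv.symm (h : Eqv hA l M M') : Eqv hA l M' M := Reach.symm (reAx_true l) le_rfl h

lemma Eqv.trans {M'' : QM N V} (h : Eqv hA l M M') (h' : Eqv hA l M' M'') : Eqv hA l M M'' :=
  Reach.trans (reAx_true l) le_rfl h h'

/-- Diagonal data. -/
structure DD (Al : V → V → ℕ → Prop) (l c d : ℕ) (f : Ix N V → ℚ[X]) : Prop where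
  nn : ∀ i, NN l (f i)
  al : ∀ i, AlP Al i.2 i.2 (f i)
  sp : ∀ i, ¬ lv c i → f i = 0
  dv : ∀ i, lv 0 i → (X : ℚ[X]) ^ d ∣ f i

lemma prod_one_sub {ι : Type} (s : Finset ι) (f : ι → ℚ[X]) (hd : 1 ≤ d)
    (h : ∀ i ∈ s, (X : ℚ[X]) ^ d ∣ f i) :
    (X : ℚ[X]) ^ (d + 1) ∣ ∏ i ∈ s, (1 - f i) - (1 - ∑ i ∈ s, f i) := by
  classical
  induction s using Finset.induction_on with
  | empty => simp
  | insert a s ha ih =>
    rw [Finset.prod_insert ha, Finset.sum_insert ha]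
    have h1 := ih fun i hi => h i (Finset.mem_insert_of_mem hi)
    have h2 : (X : ℚ[X]) ^ d ∣ ∑ i ∈ s, f i :=
      Finset.dvd_sum fun i hi => h i (Finset.mem_insert_of_mem hi)
    have h3 := h a (Finset.mem_insert_self _ _)
    have e : (1 - f a) * ∏ i ∈ s, (1 - f i) - (1 - (f a + ∑ i ∈ s, f i)) =
        (1 - f a) * (∏ i ∈ s, (1 - f i) - (1 - ∑ i ∈ s, f i)) + f a * ∑ i ∈ s, f i := by ring
    rw [e]
    refine dvd_add (h1.mul_left _) ((pow_dvd_pow _ (by omega : d + 1 ≤ d + d)).trans ?_)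
    rw [pow_add]; exact mul_dvd_mul h3 h2

omit [Fintype V] in
lemma diag_alS (hA : AlAx Al P) {f : Ix N V → ℚ[X]} (h : ∀ i, AlP Al i.2 i.2 (f i)) :
    AlS Al (1 - diagonal f : QM N V) := by
  refine alS_sub (alS_one hA) fun i j => ?_
  by_cases hij : i = j
  · subst hij; rw [diagonal_apply_eq]; exact h i
  · rw [diagonal_apply_ne _ hij]; exact AlP.zero _ _

omit [Fintype V] in
lemma diag_nn {f : Ix N V → ℚ[X]} (h : ∀ i, NN l (f i)) :
    LowNN l (1 - (1 - diagonal f) : QM N V) := by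
  rw [sub_sub_cancel]
  intro i j
  by_cases hij : i = j
  · subst hij; rw [diagonal_apply_eq]; exact h i
  · rw [diagonal_apply_ne _ hij]; exact NN.zero

omit [Fintype V] in
lemma dv_one_of_lowNN (h : LowNN l (1 - M)) : Dv 1 (M - 1) := by
  have : Dv 1 (1 - M) := fun i j => dvd_one_of_coeff (h i j).1
  simpa using this.neg

open Classical in
lemma class_sum {f g : Ix N V → ℚ[X]} (hf : DD Al l c d f) (hg : DD Al l c d g)
    (hag : ∀ i, ¬ lv 0 i → f i = g i) (he : Eqv hA l (1 - diagonal f) (1 - diagonal g))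
    (hd : 1 ≤ d) (hdl : d < l) (x0 : V) :
    ∑ i ∈ (Finset.univ.filter (cl Al x0)).filter (lv 0), (f i).coeff d =
      ∑ i ∈ (Finset.univ.filter (cl Al x0)).filter (lv 0), (g i).coeff d := by
  obtain ⟨U, W, h⟩ := he
  have h1 := cdet hA x0 h.hU.1 h.hW.1 (diag_alS hA hf.al) (dv_one_of_lowNN (diag_nn hf.nn))
    (dv_one_of_lowNN (diag_nn hg.nn)) (by omega) h.cg
  rw [det_res_diag, det_res_diag,
    ← Finset.prod_filter_mul_prod_filter_not _ (lv 0) (fun i => 1 - f i),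
    ← Finset.prod_filter_mul_prod_filter_not _ (lv 0) (fun i => 1 - g i)] at h1
  set s := (Finset.univ.filter (cl (N := N) Al x0)).filter (lv 0) with hs
  set t := (Finset.univ.filter (cl (N := N) Al x0)).filter (fun i => ¬ lv 0 i) with ht
  have e : ∏ i ∈ t, (1 - g i) = ∏ i ∈ t, (1 - f i) :=
    Finset.prod_congr rfl fun i hi => by rw [hag i (Finset.mem_filter.mp hi).2]
  rw [e, ← sub_mul] at h1
  have hcop : IsCoprime ((X : ℚ[X]) ^ l) (∏ i ∈ t, (1 - f i)) := by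
    apply IsCoprime.pow_left
    apply IsCoprime.prod_right
    intro i _
    obtain ⟨q, hq⟩ := X_dvd_iff.mpr (hf.nn i).1
    exact ⟨q, 1, by rw [hq]; ring⟩
  have h2 := coeff_eq_of_dvd (hcop.dvd_of_dvd_mul_right h1) hdl
  have h3 := coeff_eq_of_dvd (prod_one_sub s f hd fun i hi => hf.dv i (Finset.mem_filter.mp hi).2)
    (Nat.lt_succ_self d)
  have h4 := coeff_eq_of_dvd (prod_one_sub s g hd fun i hi => hg.dv i (Finset.mem_filter.mp hi).2)
    (Nat.lt_succ_self d)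
  rw [h3, h4, coeff_sub, coeff_sub, finsetSum_coeff, finsetSum_coeff] at h2
  linarith

lemma pair_exists {f g : Ix N V → ℚ[X]} (hf : DD Al l c d f) (hg : DD Al l c d g)
    (hag : ∀ i, ¬ lv 0 i → f i = g i) (he : Eqv hA l (1 - diagonal f) (1 - diagonal g))
    (hd : 1 ≤ d) (hdl : d < l) {v : Ix N V} (hv : lv 0 v) (hv' : (f v).coeff d ≠ 0) :
    ∃ w, lv 0 w ∧ Sim Al v.2 w.2 ∧ (g w).coeff d ≠ 0 := by
  classical
  have h1 := class_sum hf hg hag he hd hdl v.2
  have h2 : 0 < ∑ i ∈ (Finset.univ.filter (cl Al v.2)).filter (lv 0), (f i).coeff d := by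
    refine Finset.sum_pos' (fun i _ => (hf.nn i).2 d hdl) ⟨v, ?_, ?_⟩
    · simp [hv, cl, Sim.refl]
    · exact lt_of_le_of_ne ((hf.nn v).2 d hdl) hv'.symm
  rw [h1] at h2
  obtain ⟨w, hw, hw'⟩ := Finset.exists_ne_zero_of_sum_ne_zero h2.ne'
  simp only [Finset.mem_filter, Finset.mem_univ, true_and] at hw
  exact ⟨w, hw.2, hw.1, hw'⟩

omit [Fintype V] [DecidableEq V] in
lemma phi_exists (hA : AlAx Al P) {x y : V} (h : Sim Al x y) (hx : Al x x d) (hy : Al y y d)
    (hd : 1 ≤ d) : ∃ ph, ph < d ∧ Al y x ph ∧ Al x y (d - ph) := by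
  rcases h with rfl | h
  · exact ⟨0, hd, hA.refl _, hx⟩
  · obtain ⟨m, hm⟩ := (Sim.symm (Or.inr h)).exists_al hA
    have h1 : Al y x (m % d) := shift_src hA h.symm hy hm (Nat.mod_modEq m d).symm
    have h2 := Nat.mod_lt m hd
    refine ⟨m % d, h2, h1, residue hA h (hA.trans hx (back_edge hA h.symm h1)) ?_⟩
    have := hA.pos
    obtain ⟨Q, rfl⟩ : ∃ Q, P = Q + 1 := ⟨P - 1, by omega⟩
    generalize m % d = t at *
    have e : d + (Q + 1 - 1) * t = d - t + (Q + 1) * t := by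
      have : (Q + 1) * t = Q * t + t := by ring
      simp only [Nat.add_sub_cancel]; omega
    rw [e]
    exact Nat.ModEq.symm ((Nat.modEq_iff_dvd' (by omega)).mpr ⟨t, by simp⟩)

open Classical in
/-- Indices of level zero with a nonzero coefficient in degree `d`. -/
noncomputable def cnt (d : ℕ) (f : Ix N V → ℚ[X]) : Finset (Ix N V) :=
  Finset.univ.filter fun i => lv 0 i ∧ (f i).coeff d ≠ 0

omit [DecidableEq V] in
lemma mem_cnt {f : Ix N V → ℚ[X]} {i : Ix N V} : i ∈ cnt d f ↔ lv 0 i ∧ (f i).coeff d ≠ 0 := by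
  simp [cnt]

omit [DecidableEq V] in
lemma cnt_card (f : Ix N V → ℚ[X]) : (cnt d f).card ≤ Fintype.card V := by
  refine Finset.card_le_card_of_injOn (fun i => i.2) (fun _ _ => Finset.mem_univ _) ?_
  intro i hi j hj hij
  have h1 := (mem_cnt.mp hi).1
  have h2 := (mem_cnt.mp hj).1
  unfold lv at h1 h2
  exact Prod.ext (Fin.ext (by omega)) hij

lemma geo_coeff_zero {h : ℚ[X]} (hl : 1 ≤ l) (hh : h.coeff 0 = 0) : (geo l h).coeff 0 = 1 := by
  have h1 := congrArg (fun q => q.coeff 0) (geo_mul (l := l) h)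
  obtain ⟨l', rfl⟩ : ∃ l', l = l' + 1 := ⟨l - 1, by omega⟩
  simpa [mul_coeff_zero, hh, pow_succ] using h1

lemma transfer_dd (hR : ReAx Al L Re) (hL : 1 ≤ L) (hl : L ≤ l) {f : Ix N V → ℚ[X]}
    (hf : DD Al l c d f) {v e : Ix N V} (hv : lv 0 v) (he : (e.1 : ℕ) = c + 1) {ph : ℕ}
    (hd : ph < d) (a1 : Al v.2 e.2 ph) (a2 : Al e.2 v.2 (d - ph)) {r : ℚ} (hr : 0 ≤ r)
    (hr' : r ≤ (f v).coeff d) :
    ∃ f' : Ix N V → ℚ[X], DD Al l (c + 1) d f' ∧
      Reach hA Re l (c + 1) (1 - diagonal f) (1 - diagonal f') ∧ f' e = C r * X ^ d ∧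
      (∀ i, i ≠ v → i ≠ e → f' i = f i) ∧ (f' v).coeff d = (f v).coeff d - r := by
  have hve : v.1 < e.1 := by
    unfold lv at hv; exact Fin.lt_def.mpr (by omega)
  have hne : v ≠ e := by rintro rfl; exact lt_irrefl _ hve
  have he' : lv (c + 1) e := he.le
  have hfe : f e = 0 := hf.sp e (by unfold lv; omega)
  have nh : NN l (C r * X ^ d) := NN.mono hr (by omega)
  have avv : Al v.2 v.2 d := by
    have := hA.trans a1 a2
    rwa [Nat.add_sub_cancel' hd.le] at this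
  have aee : Al e.2 e.2 d := by
    have := hA.trans a2 a1
    rwa [Nat.sub_add_cancel hd.le] at this
  have hdv : (X : ℚ[X]) ^ d ∣ f v - C r * X ^ d := dvd_sub (hf.dv v hv) ((dvd_refl _).mul_left _)
  refine ⟨_, ⟨?_, ?_, ?_, ?_⟩, transfer hR hL hl hf.nn hf.al hve he' hfe hd a1 a2 hr hr', by simp,
    ?_, ?_⟩
  · intro i
    by_cases h1 : i = e
    · subst h1; simpa using nh
    · by_cases h2 : i = v
      · subst h2
        rw [Function.update_of_ne h1, Function.update_self]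
        exact (nn_sub_mono (hf.nn i) (by omega) hr').mul_right (geo_pos nh.2)
      · rw [Function.update_of_ne h1, Function.update_of_ne h2]; exact hf.nn i
  · intro i
    by_cases h1 : i = e
    · subst h1; rw [Function.update_self]; exact AlP.mono aee r
    · by_cases h2 : i = v
      · subst h2
        rw [Function.update_of_ne h1, Function.update_self]
        exact ((hf.al i).sub (AlP.mono avv r)).mul hA (geo_alP hA (AlP.mono avv r))
      · rw [Function.update_of_ne h1, Function.update_of_ne h2]; exact hf.al i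
  · intro i hi
    have h1 : i ≠ e := by rintro rfl; exact hi he'
    have h2 : i ≠ v := by rintro rfl; exact hi (le_trans hv (by omega))
    rw [Function.update_of_ne h1, Function.update_of_ne h2]
    exact hf.sp i fun h => hi (le_trans h (by omega))
  · intro i hi
    have h1 : i ≠ e := by rintro rfl; unfold lv at hi; omega
    by_cases h2 : i = v
    · subst h2
      rw [Function.update_of_ne h1, Function.update_self]
      exact hdv.mul_right _
    · rw [Function.update_of_ne h1, Function.update_of_ne h2]; exact hf.dv i hi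
  · intro i h2 h1
    rw [Function.update_of_ne h1, Function.update_of_ne h2]
  · rw [Function.update_of_ne hne, Function.update_self]
    obtain ⟨q, hq⟩ := hdv
    have h1 : q.coeff 0 = (f v).coeff d - r := by
      have := congrArg (fun q => q.coeff d) hq
      simp only [coeff_sub, coeff_C_mul_X_pow, if_true, coeff_X_pow_mul', le_refl,
        Nat.sub_self] at this
      exact this.symm
    rw [hq, mul_assoc, coeff_X_pow_mul', if_pos le_rfl, Nat.sub_self, mul_coeff_zero,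
      geo_coeff_zero (by omega) nh.1, mul_one, h1]

omit [Fintype V] [DecidableEq V] in
lemma DD.mono {f : Ix N V → ℚ[X]} {c' : ℕ} (h : c ≤ c') (hf : DD Al l c d f) : DD Al l c' d f :=
  ⟨hf.nn, hf.al, fun i hi => hf.sp i fun h' => hi (le_trans h' h), hf.dv⟩

lemma transport_step (hR : ReAx Al L Re) (hL : 1 ≤ L) (hl : L ≤ l) (hd : 1 ≤ d) (hdl : d < l)
    (n : ℕ) : ∀ (c : ℕ) (f g : Ix N V → ℚ[X]), (cnt d f).card + (cnt d g).card ≤ n →
      c + n ≤ N → DD Al l c d f → DD Al l c d g → (∀ i, ¬ lv 0 i → f i = g i) →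
      Eqv hA l (1 - diagonal f) (1 - diagonal g) →
      ∃ f' g' : Ix N V → ℚ[X], DD Al l (c + n) (d + 1) f' ∧ DD Al l (c + n) (d + 1) g' ∧
        (∀ i, ¬ lv 0 i → f' i = g' i) ∧
        Reach hA Re l (c + n) (1 - diagonal f) (1 - diagonal f') ∧
        Reach hA Re l (c + n) (1 - diagonal g) (1 - diagonal g') := by
  have hzero : ∀ (c n : ℕ) (f : Ix N V → ℚ[X]), (cnt d f).card = 0 → DD Al l c d f →
      DD Al l (c + n) (d + 1) f := by
    intro c n f h0 hf
    have hf' := hf.mono (Nat.le_add_right c n)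
    refine ⟨hf'.nn, hf'.al, hf'.sp, fun i hi => dvd_succ_of_coeff (hf.dv i hi) ?_⟩
    by_contra h
    have : i ∈ cnt d f := mem_cnt.mpr ⟨hi, h⟩
    rw [Finset.card_eq_zero.mp h0] at this
    simp at this
  have hrefl : ∀ (c c' : ℕ) (f : Ix N V → ℚ[X]), DD Al l c d f →
      Reach hA Re l c' (1 - diagonal f) (1 - diagonal f) :=
    fun c c' f hf => Reach.refl hR hL hl (diag_nn hf.nn) (cong_refl _)
  induction n with
  | zero =>
    intro c f g hn _ hf hg hag _
    exact ⟨f, g, hzero c 0 f (by omega) hf, hzero c 0 g (by omega) hg, hag, hrefl _ _ f hf,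
      hrefl _ _ g hg⟩
  | succ n ih =>
    intro c f g hn hN hf hg hag he
    by_cases h0 : (cnt d f).card + (cnt d g).card = 0
    · exact ⟨f, g, hzero c _ f (by omega) hf, hzero c _ g (by omega) hg, hag, hrefl _ _ f hf,
        hrefl _ _ g hg⟩
    obtain ⟨v, w, hv, hw, hvw, hfv, hgw⟩ : ∃ v w, lv 0 v ∧ lv 0 w ∧ Sim Al v.2 w.2 ∧
        (f v).coeff d ≠ 0 ∧ (g w).coeff d ≠ 0 := by
      by_cases h1 : (cnt d f).card = 0
      · obtain ⟨w, hw⟩ := Finset.card_pos.mp (by omega : 0 < (cnt d g).card)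
        obtain ⟨hw1, hw2⟩ := mem_cnt.mp hw
        obtain ⟨v, k1, k2, k3⟩ := pair_exists hg hf (fun i hi => (hag i hi).symm) he.symm hd hdl
          hw1 hw2
        exact ⟨v, w, k1, hw1, k2.symm, k3, hw2⟩
      · obtain ⟨v, hv⟩ := Finset.card_pos.mp (by omega : 0 < (cnt d f).card)
        obtain ⟨hv1, hv2⟩ := mem_cnt.mp hv
        obtain ⟨w, k1, k2, k3⟩ := pair_exists hf hg hag he hd hdl hv1 hv2
        exact ⟨v, w, hv1, k1, k2, hv2, k3⟩
    have avv : Al v.2 v.2 d := hf.al v d hfv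
    have aww : Al w.2 w.2 d := hg.al w d hgw
    obtain ⟨ph, hph, b1, b2⟩ := phi_exists hA hvw avv aww hd
    let e : Ix N V := (⟨c + 1, by omega⟩, v.2)
    set r : ℚ := min ((f v).coeff d) ((g w).coeff d) with hr
    have hr0 : 0 ≤ r := le_min ((hf.nn v).2 d hdl) ((hg.nn w).2 d hdl)
    obtain ⟨f1, p1, p2, p3, p4, p5⟩ := transfer_dd (hA := hA) hR hL hl hf hv (e := e) rfl
      (ph := 0) hd (hA.refl _) avv hr0 (min_le_left _ _)
    obtain ⟨g1, q1, q2, q3, q4, q5⟩ := transfer_dd (hA := hA) hR hL hl hg hw (e := e) rfl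
      hph b1 b2 hr0 (min_le_right _ _)
    have he0 : ¬ lv 0 e := by simp [lv, e]
    have hsub : ∀ (f f1 : Ix N V → ℚ[X]) (v : Ix N V), lv 0 v → (f v).coeff d ≠ 0 →
        (∀ i, i ≠ v → i ≠ e → f1 i = f i) → cnt d f1 ⊆ cnt d f := by
      intro f f1 v hv hfv h i hi
      obtain ⟨k1, k2⟩ := mem_cnt.mp hi
      by_cases h2 : i = v
      · rw [h2]; exact mem_cnt.mpr ⟨hv, hfv⟩
      · rw [h i h2 (by rintro rfl; exact he0 k1)] at k2
        exact mem_cnt.mpr ⟨k1, k2⟩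
    have s1 := hsub f f1 v hv hfv p4
    have s2 := hsub g g1 w hw hgw q4
    have hlt : (cnt d f1).card + (cnt d g1).card ≤ n := by
      have t1 := Finset.card_le_card s1
      have t2 := Finset.card_le_card s2
      rcases min_choice ((f v).coeff d) ((g w).coeff d) with h | h
      · have : (cnt d f1).card < (cnt d f).card := by
          refine Finset.card_lt_card ((Finset.ssubset_iff_of_subset s1).mpr
            ⟨v, mem_cnt.mpr ⟨hv, hfv⟩, fun h' => (mem_cnt.mp h').2 ?_⟩)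
          rw [p5, hr, h, sub_self]
        omega
      · have : (cnt d g1).card < (cnt d g).card := by
          refine Finset.card_lt_card ((Finset.ssubset_iff_of_subset s2).mpr
            ⟨w, mem_cnt.mpr ⟨hw, hgw⟩, fun h' => (mem_cnt.mp h').2 ?_⟩)
          rw [q5, hr, h, sub_self]
        omega
    obtain ⟨f', g', k1, k2, k3, k4, k5⟩ := ih (c + 1) f1 g1 hlt (by omega) p1 q1 (by
      intro i hi
      by_cases h1 : i = e
      · rw [h1, p3, q3]
      · rw [p4 i (by rintro rfl; exact hi hv) h1, q4 i (by rintro rfl; exact hi hw) h1, hag i hi])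
      ((p2.eqv.symm.trans he).trans q2.eqv)
    have ec : c + 1 + n = c + (n + 1) := by omega
    rw [ec] at k1 k2 k4 k5
    exact ⟨f', g', k1, k2, k3, (p2.mono (by omega)).trans hR hl k4,
      (q2.mono (by omega)).trans hR hl k5⟩

lemma transport (hR : ReAx Al L Re) (hL : 1 ≤ L) (hl : L ≤ l) (t : ℕ) :
    ∀ (d c : ℕ) (f g : Ix N V → ℚ[X]), d + t = l → 1 ≤ d → c + t * (2 * Fintype.card V) ≤ N →
      DD Al l c d f → DD Al l c d g → (∀ i, ¬ lv 0 i → f i = g i) →
      Eqv hA l (1 - diagonal f) (1 - diagonal g) →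
      Reach hA Re l (c + t * (2 * Fintype.card V)) (1 - diagonal f) (1 - diagonal g) := by
  induction t with
  | zero =>
    intro d c f g hd _ _ hf hg hag _
    refine Reach.refl hR hL hl (diag_nn hf.nn) (cong_one_sub fun i j => ?_)
    by_cases hij : i = j
    · subst hij
      rw [diagonal_apply_eq, diagonal_apply_eq]
      by_cases hi : lv 0 i
      · have e : d = l := by omega
        exact dvd_sub (e ▸ hf.dv i hi) (e ▸ hg.dv i hi)
      · rw [hag i hi]; simp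
    · simp [hij]
  | succ t ih =>
    intro d c f g hd hd1 hN hf hg hag he
    have e : c + (t + 1) * (2 * Fintype.card V) =
        c + 2 * Fintype.card V + t * (2 * Fintype.card V) := by ring
    obtain ⟨f', g', k1, k2, k3, k4, k5⟩ := transport_step hR hL hl hd1 (by omega)
      (2 * Fintype.card V) c f g (by have := cnt_card (d := d) f; have := cnt_card (d := d) g; omega)
      (by omega) hf hg hag he
    have := ih (d + 1) _ f' g' (by omega) (by omega) (by omega) k1 k2 k3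
      ((k4.eqv.symm.trans he).trans k5.eqv)
    rw [e]
    exact ((k4.mono (by omega)).trans hR hl this).trans hR hl ((k5.mono (by omega)).symm hR hl)

/-- Part N1: equivalent states of level zero are connected. -/
theorem thmN1 (hR : ReAx Al L Re) (hL : 1 ≤ L) (hl : L ≤ l) (hN : l * (2 * Fintype.card V) ≤ N)
    (h1 : Sp (lv 0) M) (h2 : AlS Al M) (h3 : LowNN l (1 - M))
    (h1' : Sp (lv 0) M') (h2' : AlS Al M') (h3' : LowNN l (1 - M')) (he : Eqv hA l M M') :
    Reach hA Re l (l * (2 * Fintype.card V)) M M' := by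
  obtain ⟨f, f1, f2, f3, f4⟩ := rowDiag (hA := hA) hR hL hl h1 h2 h3
  obtain ⟨g, g1, g2, g3, g4⟩ := rowDiag (hA := hA) hR hL hl h1' h2' h3'
  have hle : 0 + (l - 1) * (2 * Fintype.card V) ≤ l * (2 * Fintype.card V) := by
    rw [zero_add]; exact Nat.mul_le_mul_right _ (by omega)
  have := transport hR hL hl (l - 1) 1 0 f g (by omega) le_rfl (by omega)
    ⟨f1, f2, f3, fun i _ => dvd_one_of_coeff (f1 i).1⟩
    ⟨g1, g2, g3, fun i _ => dvd_one_of_coeff (g1 i).1⟩
    (fun i hi => by rw [f3 i hi, g3 i hi]) ((f4.eqv.symm.trans he).trans g4.eqv)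
  exact ((f4.mono (by omega)).trans hR hl (this.mono hle)).trans hR hl
    ((g4.mono (by omega)).symm hR hl)

end Pool.Agent.MP_841a27_al.QT

end MrgPart0

-- ======== part 1: formerly Pool.Agent.MP_841a27_al.QTStab
section MrgPart1

/-!
Stabilisers of a state of level zero.
-/

namespace Pool.Agent.MP_841a27_al.QT

open Polynomial Matrix

/-- Generation of an additive group of vectors by induction on the valuation. -/
lemma gen {ι : Type} (A H : AddSubgroup (ι → ℚ[X])) (hle : H ≤ A)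
    (Q : (ι → ℚ[X]) → (ι → ℚ[X])) (L : ℕ)
    (hmono : ∀ g ∈ A, ∀ (d : ℕ) (a : ι → ℚ), (∀ i, a i ≠ 0 → (g i).coeff d ≠ 0) →
      (fun i => C (a i) * X ^ d) ∈ A)
    (hQ1 : ∀ (d : ℕ) (a : ι → ℚ), 1 ≤ d → (∀ i, 0 ≤ a i) → (fun i => C (a i) * X ^ d) ∈ A →
      Q (fun i => C (a i) * X ^ d) ∈ H)
    (hQ2 : ∀ (d : ℕ) (v : ι → ℚ[X]), (∀ i, (X : ℚ[X]) ^ d ∣ v i) →
      ∀ i, (X : ℚ[X]) ^ (d + 1) ∣ Q v i - v i)
    (hhigh : ∀ g ∈ A, (∀ i, (X : ℚ[X]) ^ L ∣ g i) → g ∈ H) (t : ℕ) :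
    ∀ d, 1 ≤ d → L ≤ d + t → ∀ g ∈ A, (∀ i, (X : ℚ[X]) ^ d ∣ g i) → g ∈ H := by
  induction t with
  | zero => exact fun d _ hL g hg h => hhigh g hg fun i => (pow_dvd_pow _ hL).trans (h i)
  | succ t ih =>
    intro d hd hL g hg h
    let a : ι → ℚ := fun i => max ((g i).coeff d) 0
    let b : ι → ℚ := fun i => max (-(g i).coeff d) 0
    have ha : (fun i => C (a i) * X ^ d) ∈ A := hmono g hg d a fun i hi h0 => hi (by simp [a, h0])
    have hb : (fun i => C (b i) * X ^ d) ∈ A := hmono g hg d b fun i hi h0 => hi (by simp [b, h0])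
    have h1 := hQ1 d a hd (fun i => le_max_right _ _) ha
    have h2 := hQ1 d b hd (fun i => le_max_right _ _) hb
    have h3 := ih (d + 1) (by omega) (by omega)
      (g - Q (fun i => C (a i) * X ^ d) + Q (fun i => C (b i) * X ^ d))
      (A.add_mem (A.sub_mem hg (hle h1)) (hle h2)) (by
        intro i
        have k1 := hQ2 d (fun i => C (a i) * X ^ d) (fun i => (dvd_refl _).mul_left _) i
        have k2 := hQ2 d (fun i => C (b i) * X ^ d) (fun i => (dvd_refl _).mul_left _) i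
        have k3 : (X : ℚ[X]) ^ (d + 1) ∣ g i - C (a i) * X ^ d + C (b i) * X ^ d := by
          apply dvd_succ_of_coeff
          · exact dvd_add (dvd_sub (h i) ((dvd_refl _).mul_left _)) ((dvd_refl _).mul_left _)
          · simp only [coeff_add, coeff_sub, coeff_C_mul_X_pow, if_true, a, b]
            rcases le_total ((g i).coeff d) 0 with h0 | h0
            · rw [max_eq_right h0, max_eq_left (by linarith)]; ring
            · rw [max_eq_left h0, max_eq_right (by linarith)]; ring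
        have := dvd_add (dvd_sub k3 k1) k2
        simp only [Pi.add_apply, Pi.sub_apply]
        convert this using 1
        ring)
    have e : g = g - Q (fun i => C (a i) * X ^ d) + Q (fun i => C (b i) * X ^ d) +
        Q (fun i => C (a i) * X ^ d) - Q (fun i => C (b i) * X ^ d) := by abel
    rw [e]
    exact H.sub_mem (H.add_mem h3 h1) h2

variable {N : ℕ} {V : Type} [Fintype V] [DecidableEq V] {Al : V → V → ℕ → Prop} {P : ℕ}
  {Re : QM N V → (QM N V)ˣ → (QM N V)ˣ → Prop} {L l c : ℕ} {hA : AlAx Al P}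
  {M : QM N V} {e : Ix N V}

omit [DecidableEq V] in
lemma Dv.mulVec {a d : ℕ} {B : QM N V} (h : Dv a B) {v : Ix N V → ℚ[X]}
    (hv : ∀ i, (X : ℚ[X]) ^ d ∣ v i) (i : Ix N V) : (X : ℚ[X]) ^ (d + a) ∣ (B *ᵥ v) i := by
  rw [add_comm, pow_add]
  exact Finset.dvd_sum fun k _ => mul_dvd_mul (h i k) (hv k)

omit [DecidableEq V] in
lemma Dv.vecMul {a d : ℕ} {B : QM N V} (h : Dv a B) {v : Ix N V → ℚ[X]}
    (hv : ∀ i, (X : ℚ[X]) ^ d ∣ v i) (i : Ix N V) : (X : ℚ[X]) ^ (d + a) ∣ (v ᵥ* B) i := by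
  rw [pow_add]
  exact Finset.dvd_sum fun k _ => mul_dvd_mul (hv k) (h k i)

/-- The matrix whose only nonzero column is `x`, in position `e`. -/
noncomputable def colM (x : Ix N V → ℚ[X]) (e : Ix N V) : QM N V := vecMulVec x (Pi.single e 1)

/-- The matrix whose only nonzero row is `y`, in position `e`. -/
noncomputable def rowM (e : Ix N V) (y : Ix N V → ℚ[X]) : QM N V := vecMulVec (Pi.single e 1) y

omit [Fintype V] in
lemma colM_apply (x : Ix N V → ℚ[X]) (i j : Ix N V) :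
    colM x e i j = if j = e then x i else 0 := by
  simp [colM, vecMulVec_apply, Pi.single_apply]

omit [Fintype V] in
lemma rowM_apply (y : Ix N V → ℚ[X]) (i j : Ix N V) :
    rowM e y i j = if i = e then y j else 0 := by
  simp [rowM, vecMulVec_apply, Pi.single_apply]

omit [Fintype V] in
lemma colM_ne {x : Ix N V → ℚ[X]} {i j : Ix N V} (h : colM x e i j ≠ 0) : j = e ∧ x i ≠ 0 := by
  rw [colM_apply] at h
  split_ifs at h with h1
  · exact ⟨h1, h⟩
  · exact absurd rfl h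

omit [Fintype V] in
lemma rowM_ne {y : Ix N V → ℚ[X]} {i j : Ix N V} (h : rowM e y i j ≠ 0) : i = e ∧ y j ≠ 0 := by
  rw [rowM_apply] at h
  split_ifs at h with h1
  · exact ⟨h1, h⟩
  · exact absurd rfl h

omit [Fintype V] in
lemma colM_add (x x' : Ix N V → ℚ[X]) : colM (x + x') e = colM x e + colM x' e :=
  add_vecMulVec _ _ _

omit [Fintype V] in
lemma colM_neg (x : Ix N V → ℚ[X]) : colM (-x) e = -colM x e := neg_vecMulVec _ _

omit [Fintype V] in
lemma colM_sub (x x' : Ix N V → ℚ[X]) : colM (x - x') e = colM x e - colM x' e :=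
  sub_vecMulVec _ _ _

omit [Fintype V] in
lemma rowM_add (y y' : Ix N V → ℚ[X]) : rowM e (y + y') = rowM e y + rowM e y' :=
  vecMulVec_add _ _ _

omit [Fintype V] in
lemma rowM_neg (y : Ix N V → ℚ[X]) : rowM e (-y) = -rowM e y := vecMulVec_neg _ _

lemma colM_mul_colM (x : Ix N V → ℚ[X]) {x' : Ix N V → ℚ[X]} (h : x' e = 0) :
    colM x e * colM x' e = 0 := by
  unfold colM; rw [vecMulVec_mul_vecMulVec]; simp [h]

lemma rowM_mul_rowM {y : Ix N V → ℚ[X]} (h : y e = 0) (y' : Ix N V → ℚ[X]) :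
    rowM e y * rowM e y' = 0 := by
  unfold rowM; rw [vecMulVec_mul_vecMulVec]; simp [h]

lemma mul_colM (B : QM N V) (x : Ix N V → ℚ[X]) : B * colM x e = colM (B *ᵥ x) e :=
  mul_vecMulVec _ _ _

lemma rowM_mul (y : Ix N V → ℚ[X]) (B : QM N V) : rowM e y * B = rowM e (y ᵥ* B) :=
  vecMulVec_mul _ _ _

lemma colM_mul (hM : Sp (lv 0) M) (he : ¬ lv 0 e) (x : Ix N V → ℚ[X]) :
    colM x e * M = colM x e := by
  unfold colM
  rw [vecMulVec_mul, single_one_vecMul]
  congr 1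
  ext1 j
  rw [Matrix.row_apply, hM e j (Or.inl he), Matrix.one_apply, Pi.single_apply]
  simp [eq_comm]

lemma mul_rowM (hM : Sp (lv 0) M) (he : ¬ lv 0 e) (y : Ix N V → ℚ[X]) :
    M * rowM e y = rowM e y := by
  unfold rowM
  rw [mul_vecMulVec, mulVec_single_one]
  congr 1
  ext1 j
  rw [Matrix.col_apply, hM j e (Or.inr he), Matrix.one_apply, Pi.single_apply]

/-- Admissible columns. -/
def AC (Al : V → V → ℕ → Prop) (c : ℕ) (e : Ix N V) : AddSubgroup (Ix N V → ℚ[X]) where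
  carrier := {g | (∀ i, AlP Al i.2 e.2 (g i)) ∧ g e = 0 ∧ (∀ i, ¬ lv c i → g i = 0) ∧
    ∀ i, (g i).coeff 0 ≠ 0 → i.1 < e.1}
  zero_mem' := ⟨fun _ => AlP.zero _ _, rfl, fun _ _ => rfl, fun i h => by simp at h⟩
  add_mem' := by
    rintro g g' ⟨h1, h2, h3, h4⟩ ⟨k1, k2, k3, k4⟩
    refine ⟨fun i => (h1 i).add (k1 i), by simp [h2, k2], fun i hi => by simp [h3 i hi, k3 i hi],
      fun i hi => ?_⟩
    by_cases h : (g i).coeff 0 = 0
    · apply k4; intro h'; apply hi; simp [h, h']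
    · exact h4 i h
  neg_mem' := by
    rintro g ⟨h1, h2, h3, h4⟩
    exact ⟨fun i => (h1 i).neg, by simp [h2], fun i hi => by simp [h3 i hi],
      fun i hi => h4 i (by simpa using hi)⟩

/-- Admissible rows. -/
def AR (Al : V → V → ℕ → Prop) (c : ℕ) (e : Ix N V) : AddSubgroup (Ix N V → ℚ[X]) where
  carrier := {y | (∀ j, AlP Al e.2 j.2 (y j)) ∧ y e = 0 ∧ (∀ j, ¬ lv c j → y j = 0) ∧
    ∀ j, (y j).coeff 0 = 0}
  zero_mem' := ⟨fun _ => AlP.zero _ _, rfl, fun _ _ => rfl, fun i => by simp⟩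
  add_mem' := by
    rintro g g' ⟨h1, h2, h3, h4⟩ ⟨k1, k2, k3, k4⟩
    exact ⟨fun i => (h1 i).add (k1 i), by simp [h2, k2], fun i hi => by simp [h3 i hi, k3 i hi],
      fun i => by simp [h4 i, k4 i]⟩
  neg_mem' := by
    rintro g ⟨h1, h2, h3, h4⟩
    exact ⟨fun i => (h1 i).neg, by simp [h2], fun i hi => by simp [h3 i hi],
      fun i => by simp [h4 i]⟩

omit [Fintype V] [DecidableEq V] in
lemma mem_AC {g : Ix N V → ℚ[X]} : g ∈ AC Al c e ↔ (∀ i, AlP Al i.2 e.2 (g i)) ∧ g e = 0 ∧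
    (∀ i, ¬ lv c i → g i = 0) ∧ ∀ i, (g i).coeff 0 ≠ 0 → i.1 < e.1 := Iff.rfl

omit [Fintype V] [DecidableEq V] in
lemma mem_AR {y : Ix N V → ℚ[X]} : y ∈ AR Al c e ↔ (∀ j, AlP Al e.2 j.2 (y j)) ∧ y e = 0 ∧
    (∀ j, ¬ lv c j → y j = 0) ∧ ∀ j, (y j).coeff 0 = 0 := Iff.rfl

omit [Fintype V] in
lemma alS_colM {g : Ix N V → ℚ[X]} (hg : g ∈ AC Al c e) : AlS Al (colM g e) := by
  intro i j
  rw [colM_apply]
  split_ifs with h
  · rw [h]; exact hg.1 i
  · exact AlP.zero _ _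

omit [Fintype V] in
lemma alS_rowM {y : Ix N V → ℚ[X]} (hy : y ∈ AR Al c e) : AlS Al (rowM e y) := by
  intro i j
  rw [rowM_apply]
  split_ifs with h
  · rw [h]; exact hy.1 j
  · exact AlP.zero _ _

omit [Fintype V] in
lemma colM_lv {g : Ix N V → ℚ[X]} (hg : g ∈ AC Al c e) (he : lv c e) (i j : Ix N V)
    (h : colM g e i j ≠ 0) : lv c i ∧ lv c j := by
  obtain ⟨rfl, h2⟩ := colM_ne h
  exact ⟨by by_contra h3; exact h2 (hg.2.2.1 i h3), he⟩

omit [Fintype V] in
lemma rowM_lv {y : Ix N V → ℚ[X]} (hy : y ∈ AR Al c e) (he : lv c e) (i j : Ix N V)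
    (h : rowM e y i j ≠ 0) : lv c i ∧ lv c j := by
  obtain ⟨rfl, h2⟩ := rowM_ne h
  exact ⟨he, by by_contra h3; exact h2 (hy.2.2.1 j h3)⟩

omit [Fintype V] in
lemma colM_p {g : Ix N V → ℚ[X]} (hg : g e = 0) (i j : Ix N V) (h : colM g e i j ≠ 0) :
    i ≠ e ∧ j = e := by
  obtain ⟨h1, h2⟩ := colM_ne h
  exact ⟨by rintro rfl; exact h2 hg, h1⟩

omit [Fintype V] in
lemma rowM_p {y : Ix N V → ℚ[X]} (hy : y e = 0) (i j : Ix N V) (h : rowM e y i j ≠ 0) :
    i = e ∧ j ≠ e := by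
  obtain ⟨h1, h2⟩ := rowM_ne h
  exact ⟨h1, by rintro rfl; exact h2 hy⟩

omit [Fintype V] in
lemma colM_nn {g : Ix N V → ℚ[X]} (hg : ∀ i, NN L (g i)) : LowNN L (colM g e) := by
  intro i j
  rw [colM_apply]
  split_ifs
  · exact hg i
  · exact NN.zero

omit [Fintype V] in
lemma rowM_nn {g : Ix N V → ℚ[X]} (hg : ∀ i, NN L (g i)) : LowNN L (rowM e g) := by
  intro i j
  rw [rowM_apply]
  split_ifs
  · exact hg j
  · exact NN.zero

omit [Fintype V] in
lemma colM_coeff {g : Ix N V → ℚ[X]} (hg : ∀ i, (g i).coeff 0 = 0) (i j : Ix N V) :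
    (colM g e i j).coeff 0 = 0 := by
  rw [colM_apply]
  split_ifs
  · exact hg i
  · simp

omit [Fintype V] in
lemma rowM_coeff {g : Ix N V → ℚ[X]} (hg : ∀ i, (g i).coeff 0 = 0) (i j : Ix N V) :
    (rowM e g i j).coeff 0 = 0 := by
  rw [rowM_apply]
  split_ifs
  · exact hg j
  · simp

/-- A good state of level zero. -/
structure Good (Al : V → V → ℕ → Prop) (M : QM N V) : Prop where
  sp : Sp (lv 0) M
  al : AlS Al M
  nn : ∀ L, LowNN L (1 - M)

omit [Fintype V] in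
lemma Good.dv (hM : Good Al M) : Dv 1 (1 - M) := fun i j => dvd_one_of_coeff (hM.nn 0 i j).1

omit [Fintype V] in
lemma Good.zero (hM : Good Al M) {i j : Ix N V} (h : ¬ lv 0 i ∨ ¬ lv 0 j) :
    (1 - M : QM N V) i j = 0 := by
  rw [Matrix.sub_apply, hM.sp i j h, sub_self]

lemma cm_AC (hA : AlAx Al P) (hM : Good Al M) (he : ¬ lv 0 e) {x : Ix N V → ℚ[X]}
    (hx : x ∈ AC Al c e) : (1 - M) *ᵥ x ∈ AC Al c e := by
  have h0 : ∀ i, ¬ lv 0 i → ((1 - M) *ᵥ x) i = 0 := fun i hi =>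
    Finset.sum_eq_zero fun k _ => mul_eq_zero_of_left (hM.zero (Or.inl hi)) _
  refine ⟨fun i => AlP.sum _ _ fun k _ => AlP.mul hA (alS_sub (alS_one hA) hM.al i k) (hx.1 k),
    h0 e he, fun i hi => h0 i fun h => hi (le_trans h (Nat.zero_le _)), fun i hi => ?_⟩
  exact absurd (coeff_zero_of_dvd le_rfl (hM.dv.mulVec (d := 0) (fun _ => by simp) i)) hi

lemma cm_AR (hA : AlAx Al P) (hM : Good Al M) (he : ¬ lv 0 e) {y : Ix N V → ℚ[X]}
    (hy : y ∈ AR Al c e) : y ᵥ* (1 - M) ∈ AR Al c e := by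
  have h0 : ∀ i, ¬ lv 0 i → (y ᵥ* (1 - M)) i = 0 := fun i hi =>
    Finset.sum_eq_zero fun k _ => mul_eq_zero_of_right _ (hM.zero (Or.inr hi))
  exact ⟨fun i => AlP.sum _ _ fun k _ => AlP.mul hA (hy.1 k) (alS_sub (alS_one hA) hM.al k i),
    h0 e he, fun i hi => h0 i fun h => hi (le_trans h (Nat.zero_le _)),
    fun i => coeff_zero_of_dvd le_rfl (hM.dv.vecMul (d := 0) (fun _ => by simp) i)⟩

lemma m_AC (hA : AlAx Al P) (hM : Good Al M) (he : ¬ lv 0 e) {x : Ix N V → ℚ[X]}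
    (hx : x ∈ AC Al c e) : M *ᵥ x ∈ AC Al c e := by
  have : M *ᵥ x = x - (1 - M) *ᵥ x := by rw [sub_mulVec, one_mulVec]; simp
  rw [this]; exact (AC Al c e).sub_mem hx (cm_AC hA hM he hx)

lemma m_AR (hA : AlAx Al P) (hM : Good Al M) (he : ¬ lv 0 e) {y : Ix N V → ℚ[X]}
    (hy : y ∈ AR Al c e) : y ᵥ* M ∈ AR Al c e := by
  have : y ᵥ* M = y - y ᵥ* (1 - M) := by rw [vecMul_sub, vecMul_one]; simp
  rw [this]; exact (AR Al c e).sub_mem hy (cm_AR hA hM he hy)

/-- Truncated inverse of a state. -/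
noncomputable def Qm (M : QM N V) (n : ℕ) : QM N V := ∑ j ∈ Finset.range n, (1 - M) ^ j

lemma mul_Qm (n : ℕ) : M * Qm M n = 1 - (1 - M) ^ n := by
  have := mul_neg_geom_sum (1 - M) n
  rwa [sub_sub_cancel] at this

lemma Qm_mul (n : ℕ) : Qm M n * M = 1 - (1 - M) ^ n := by
  have := geom_sum_mul_neg (1 - M) n
  rwa [sub_sub_cancel] at this

lemma Qm_succ (n : ℕ) : Qm M (n + 1) = (1 - M) * Qm M n + 1 := geom_sum_succ

lemma Qm_dv (hM : Good Al M) {n : ℕ} (hn : 1 ≤ n) : Dv 1 (Qm M n - 1) := by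
  obtain ⟨n, rfl⟩ : ∃ k, n = k + 1 := ⟨n - 1, by omega⟩
  rw [Qm_succ, add_sub_cancel_right]
  exact hM.dv.mul_right _

lemma Qm_AC (hA : AlAx Al P) (hM : Good Al M) (he : ¬ lv 0 e) {x : Ix N V → ℚ[X]}
    (hx : x ∈ AC Al c e) (n : ℕ) : Qm M n *ᵥ x ∈ AC Al c e := by
  induction n with
  | zero => simp [Qm]
  | succ n ih =>
    rw [Qm_succ, add_mulVec, one_mulVec, ← mulVec_mulVec]
    exact (AC Al c e).add_mem (cm_AC hA hM he ih) hx

lemma Qm_AR (hA : AlAx Al P) (hM : Good Al M) (he : ¬ lv 0 e) (n : ℕ) :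
    ∀ {y : Ix N V → ℚ[X]}, y ∈ AR Al c e → y ᵥ* Qm M n ∈ AR Al c e := by
  induction n with
  | zero => intro y _; simp [Qm]
  | succ n ih =>
    intro y hy
    rw [Qm_succ, vecMul_add, vecMul_one, ← vecMul_vecMul]
    exact (AR Al c e).add_mem (ih (cm_AR hA hM he hy)) hy

lemma one_add_mul_one_add {a b : QM N V} (h : a * b = 0) : (1 + a) * (1 + b) = 1 + (a + b) := by
  have : (1 + a) * (1 + b) = 1 + (a + b) + a * b := by noncomm_ring
  rw [this, h, add_zero]

/-- Columns whose exact stabiliser is realisable. -/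
def HC (hA : AlAx Al P) (hR : ReAx Al L Re) (hL : 1 ≤ L) (hl : L ≤ l) (hM : Good Al M)
    (he : ¬ lv 0 e) (c : ℕ) : AddSubgroup (Ix N V → ℚ[X]) where
  carrier := {g | g ∈ AC Al c e ∧ ∃ u w : (QM N V)ˣ, (u : QM N V) = 1 + colM (M *ᵥ g) e ∧
    (w : QM N V) = 1 + colM (-g) e ∧ Rch hA Re l c M M u w}
  zero_mem' := ⟨(AC Al c e).zero_mem, 1, 1, by simp [colM], by simp [colM],
    Rch.refl hR hL hl (hM.nn L) (cong_refl _)⟩
  add_mem' := by
    rintro g g' ⟨h1, u, w, h2, h3, h4⟩ ⟨k1, u', w', k2, k3, k4⟩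
    refine ⟨(AC Al c e).add_mem h1 k1, _, _, ?_, ?_, h4.trans hR hl k4⟩
    · rw [Units.val_mul, h2, k2, one_add_mul_one_add (colM_mul_colM _ (m_AC hA hM he h1).2.1),
        mulVec_add, colM_add, add_comm (colM (M *ᵥ g') e)]
    · rw [Units.val_mul, h3, k3,
        one_add_mul_one_add (colM_mul_colM _ ((AC Al c e).neg_mem k1).2.1), neg_add, colM_add]
  neg_mem' := by
    rintro g ⟨h1, u, w, h2, h3, h4⟩
    refine ⟨(AC Al c e).neg_mem h1, _, _, ?_, ?_, h4.symm hR hl⟩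
    · rw [inv_val_of h2 (colM_mul_colM _ (m_AC hA hM he h1).2.1), mulVec_neg, colM_neg,
        sub_eq_add_neg]
    · rw [inv_val_of h3 (colM_mul_colM _ ((AC Al c e).neg_mem h1).2.1), colM_neg (-g),
        sub_eq_add_neg]

/-- Rows whose exact stabiliser is realisable. -/
def HR (hA : AlAx Al P) (hR : ReAx Al L Re) (hL : 1 ≤ L) (hl : L ≤ l) (hM : Good Al M)
    (he : ¬ lv 0 e) (c : ℕ) : AddSubgroup (Ix N V → ℚ[X]) where
  carrier := {y | y ∈ AR Al c e ∧ ∃ u w : (QM N V)ˣ, (u : QM N V) = 1 + rowM e (-y) ∧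
    (w : QM N V) = 1 + rowM e (y ᵥ* M) ∧ Rch hA Re l c M M u w}
  zero_mem' := ⟨(AR Al c e).zero_mem, 1, 1, by simp [rowM], by simp [rowM],
    Rch.refl hR hL hl (hM.nn L) (cong_refl _)⟩
  add_mem' := by
    rintro g g' ⟨h1, u, w, h2, h3, h4⟩ ⟨k1, u', w', k2, k3, k4⟩
    refine ⟨(AR Al c e).add_mem h1 k1, _, _, ?_, ?_, h4.trans hR hl k4⟩
    · rw [Units.val_mul, h2, k2,
        one_add_mul_one_add (rowM_mul_rowM ((AR Al c e).neg_mem k1).2.1 _), neg_add, rowM_add,
        add_comm (rowM e (-g'))]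
    · rw [Units.val_mul, h3, k3, one_add_mul_one_add (rowM_mul_rowM (m_AR hA hM he h1).2.1 _),
        add_vecMul, rowM_add]
  neg_mem' := by
    rintro g ⟨h1, u, w, h2, h3, h4⟩
    refine ⟨(AR Al c e).neg_mem h1, _, _, ?_, ?_, h4.symm hR hl⟩
    · rw [inv_val_of h2 (rowM_mul_rowM ((AR Al c e).neg_mem h1).2.1 _), rowM_neg (-g),
        sub_eq_add_neg]
    · rw [inv_val_of h3 (rowM_mul_rowM (m_AR hA hM he h1).2.1 _), neg_vecMul, rowM_neg,
        sub_eq_add_neg]

section Real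
variable (hR : ReAx Al L Re) (hL : 1 ≤ L) (hl : L ≤ l) (hM : Good Al M) (he : ¬ lv 0 e)
  (hec : lv c e)
include hec

include hR hL hl hM he in
lemma col_row_step {g : Ix N V → ℚ[X]} (hg : g ∈ AC Al c e) (h2 : ∀ i, NN L (g i)) :
    Rch hA Re l c (M - colM g e) M (sz _ (colM_mul_colM g hg.2.1)) 1 := by
  have e1 : 1 - (M - colM g e) = 1 - M + colM g e := by abel
  refine Rch.row hR hL hl (fun i => i ≠ e) rfl
    (fun i j h => ⟨(colM_p hg.2.1 i j h).1, not_not.mpr (colM_p hg.2.1 i j h).2⟩) (alS_colM hg)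
    (colM_coeff fun i => (h2 i).1) (colM_lv hg hec)
    (by rw [e1]; exact lowNN_add (hM.nn L) (colM_nn h2)) (hM.nn L) (cong_of_eq ?_)
  rw [add_mul, one_mul, mul_sub, colM_mul hM.sp he, colM_mul_colM _ hg.2.1]; abel

lemma real_col {g : Ix N V → ℚ[X]} (hg : g ∈ AC Al c e) (h1 : ∀ i, (g i).coeff 0 = 0)
    (h2 : ∀ i, NN L ((M *ᵥ g) i)) : g ∈ HC hA hR hL hl hM he c := by
  have hg' := (AC Al c e).neg_mem hg
  have e1 : 1 - (M - colM (M *ᵥ g) e) = 1 - M + colM (M *ᵥ g) e := by abel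
  have s1 : Rch hA Re l c M (M - colM (M *ᵥ g) e) 1 (sz _ (colM_mul_colM (-g) hg'.2.1)) := by
    refine Rch.col hR hL hl (fun i => i = e) rfl (colM_p hg'.2.1) (alS_colM hg')
      (colM_coeff fun i => by simp [h1 i]) (colM_lv hg' hec) (hM.nn L)
      (by rw [e1]; exact lowNN_add (hM.nn L) (colM_nn h2)) (cong_of_eq ?_)
    rw [mul_add, mul_one, mul_colM, mulVec_neg, colM_neg, sub_eq_add_neg]
  exact ⟨hg, _, _, by simp, by simp,
    s1.trans hR hl (col_row_step hR hL hl hM he hec (m_AC hA hM he hg) h2)⟩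

lemma real_const {a : Ix N V → ℚ} (ha : ∀ i, 0 ≤ a i)
    (hg : (fun i => C (a i) * X ^ 0) ∈ AC Al c e) :
    (fun i => C (a i) * X ^ 0) ∈ HC hA hR hL hl hM he c := by
  simp only [pow_zero, mul_one] at hg ⊢
  set g : Ix N V → ℚ[X] := fun i => C (a i) with hgd
  let G : Matrix (Ix N V) (Ix N V) ℚ := vecMulVec a (Pi.single e 1)
  have hG : ∀ i j, G i j = if j = e then a i else 0 := by
    intro i j; simp [G, vecMulVec_apply, Pi.single_apply]
  have eG : G.map C = colM g e := by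
    ext1 i j
    rw [Matrix.map_apply, hG, colM_apply]
    split_ifs <;> simp [hgd]
  have hae : a e = 0 := by simpa [hgd] using hg.2.1
  have hg' := (AC Al c e).neg_mem hg
  have hc := cm_AC hA hM he hg
  have nc : ∀ i, NN L (((1 - M) *ᵥ g) i) := fun i =>
    NN.sum _ _ fun k _ => NN.mul_right (hM.nn L i k) (Pos.const (ha k))
  have e2 : colM g e * (1 - M) = 0 := by rw [mul_sub, mul_one, colM_mul hM.sp he, sub_self]
  have s1 : Rch hA Re l c M (M - colM ((1 - M) *ᵥ g) e) (sz _ (colM_mul_colM (-g) hg'.2.1))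
      (sz _ (colM_mul_colM (-g) hg'.2.1))⁻¹ := by
    refine Rch.conj hR G (by rw [sz_val, eG, colM_neg, sub_eq_add_neg]) ?_ ?_ ?_ ?_ (hM.nn L) ?_
      (cong_of_eq ?_)
    · intro i j; rw [hG]; split_ifs
      · exact ha i
      · exact le_rfl
    · simp only [G]; rw [vecMulVec_mul_vecMulVec]; simp [hae]
    · intro i j h
      rw [hG] at h
      split_ifs at h with h1
      · subst h1
        have : (g i).coeff 0 ≠ 0 := by simpa [hgd] using h
        exact ⟨hg.1 i 0 this, hg.2.2.2 i this⟩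
      · exact absurd rfl h
    · intro i j h
      rw [hG] at h
      split_ifs at h with h1
      · rw [h1]; exact hec
      · exact absurd rfl h
    · rw [eG, sub_mul, one_mul, e2, sub_zero]; exact hM.nn L
    · rw [eG, sub_mul, one_mul, colM_mul hM.sp he, sub_mul, mul_add, mul_add, mul_one, mul_one,
        colM_mul_colM _ hg.2.1, mul_colM, sub_mulVec, one_mulVec, colM_sub]
      abel
  have s2 := s1.trans hR hl (col_row_step hR hL hl hM he hec hc nc)
  have : -g ∈ HC hA hR hL hl hM he c := by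
    refine ⟨hg', _, _, ?_, ?_, s2⟩
    · rw [Units.val_mul, sz_val, sz_val, one_add_mul_one_add (colM_mul_colM _ hg'.2.1),
        ← colM_add, sub_mulVec, one_mulVec, mulVec_neg]
      congr 2; abel
    · rw [mul_one, sz_inv, colM_neg (-g), sub_eq_add_neg]
  simpa using (HC hA hR hL hl hM he c).neg_mem this

omit hec [Fintype V] [DecidableEq V] in
lemma mono_AC {g : Ix N V → ℚ[X]} (hg : g ∈ AC Al c e) (d : ℕ) (a : Ix N V → ℚ)
    (h : ∀ i, a i ≠ 0 → (g i).coeff d ≠ 0) : (fun i => C (a i) * X ^ d) ∈ AC Al c e := by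
  have h0 : ∀ i, g i = 0 → a i = 0 := by
    intro i hi; by_contra h'; exact h i h' (by simp [hi])
  refine ⟨fun i => AlP.mono' fun h' => hg.1 i d (h i h'), by simp [h0 e hg.2.1],
    fun i hi => by simp [h0 i (hg.2.2.1 i hi)], fun i hi => ?_⟩
  simp only [coeff_C_mul_X_pow] at hi
  split_ifs at hi with h1
  · subst h1; exact hg.2.2.2 i (h i hi)
  · exact absurd rfl hi

omit hec [Fintype V] [DecidableEq V] in
lemma mono_AR {g : Ix N V → ℚ[X]} (hg : g ∈ AR Al c e) (d : ℕ) (a : Ix N V → ℚ)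
    (h : ∀ i, a i ≠ 0 → (g i).coeff d ≠ 0) : (fun i => C (a i) * X ^ d) ∈ AR Al c e := by
  have h0 : ∀ i, g i = 0 → a i = 0 := by
    intro i hi; by_contra h'; exact h i h' (by simp [hi])
  refine ⟨fun i => AlP.mono' fun h' => hg.1 i d (h i h'), by simp [h0 e hg.2.1],
    fun i hi => by simp [h0 i (hg.2.2.1 i hi)], fun i => ?_⟩
  simp only [coeff_C_mul_X_pow]
  split_ifs with h1
  · subst h1; by_contra h'; exact h i h' (hg.2.2.2 i)
  · rfl

/-- Every admissible column has a realisable stabiliser. -/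
lemma all_HC {g : Ix N V → ℚ[X]} (hg : g ∈ AC Al c e) : g ∈ HC hA hR hL hl hM he c := by
  have hQ2 : ∀ (d : ℕ) (v : Ix N V → ℚ[X]), (∀ i, (X : ℚ[X]) ^ d ∣ v i) →
      ∀ i, (X : ℚ[X]) ^ (d + 1) ∣ (Qm M L *ᵥ v) i - v i := by
    intro d v hv i
    have := (Qm_dv hM hL).mulVec hv i
    rwa [sub_mulVec, one_mulVec] at this
  have key := gen (AC Al c e) (HC hA hR hL hl hM he c) (fun _ h => h.1) (fun v => Qm M L *ᵥ v) L
    (fun g hg d a h => mono_AC hg d a h) (by
      intro d a hd ha hg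
      have hv : ∀ i, (X : ℚ[X]) ^ 1 ∣ C (a i) * X ^ d := fun i => (pow_dvd_pow _ hd).mul_left _
      refine real_col hR hL hl hM he hec (Qm_AC hA hM he hg L) (fun i => ?_) (fun i => ?_)
      · have := (pow_dvd_pow _ (by omega : 1 ≤ 1 + 1)).trans (hQ2 1 _ hv i)
        exact coeff_zero_of_dvd le_rfl ((dvd_iff_dvd_of_dvd_sub this).mpr (hv i))
      · refine NN.congr le_rfl hL ?_ (NN.mono (ha i) hd)
        rw [mulVec_mulVec, mul_Qm, sub_mulVec, one_mulVec, Pi.sub_apply, sub_sub_cancel]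
        simpa using (hM.dv.pow L).mulVec (d := 0) (fun _ => by simp) i) hQ2 (by
      intro g hg h
      refine real_col hR hL hl hM he hec hg (fun i => coeff_zero_of_dvd hL (h i)) fun i => ?_
      exact NN.of_dvd hL (Finset.dvd_sum fun k _ => (h k).mul_left _)) L 1 le_rfl (by omega)
  let a : Ix N V → ℚ := fun i => max ((g i).coeff 0) 0
  let b : Ix N V → ℚ := fun i => max (-(g i).coeff 0) 0
  have ha := mono_AC hg 0 a fun i hi h0 => hi (by simp [a, h0])
  have hb := mono_AC hg 0 b fun i hi h0 => hi (by simp [b, h0])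
  have h1 := real_const (hA := hA) hR hL hl hM he hec (fun i => le_max_right _ _) ha
  have h2 := real_const (hA := hA) hR hL hl hM he hec (fun i => le_max_right _ _) hb
  have h3 := key (g - (fun i => C (a i) * X ^ 0) + (fun i => C (b i) * X ^ 0))
    ((AC Al c e).add_mem ((AC Al c e).sub_mem hg ha) hb) (by
      intro i
      apply dvd_one_of_coeff
      simp only [Pi.add_apply, Pi.sub_apply, coeff_add, coeff_sub, coeff_C_mul_X_pow, if_true,
        a, b]
      rcases le_total ((g i).coeff 0) 0 with h0 | h0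
      · rw [max_eq_right h0, max_eq_left (by linarith)]; ring
      · rw [max_eq_left h0, max_eq_right (by linarith)]; ring)
  have e1 : g = g - (fun i => C (a i) * X ^ 0) + (fun i => C (b i) * X ^ 0) +
      (fun i => C (a i) * X ^ 0) - (fun i => C (b i) * X ^ 0) := by abel
  rw [e1]
  exact AddSubgroup.sub_mem _ (AddSubgroup.add_mem _ h3 h1) h2

lemma real_row {y : Ix N V → ℚ[X]} (hy : y ∈ AR Al c e) (h2 : ∀ i, NN L ((y ᵥ* M) i)) :
    y ∈ HR hA hR hL hl hM he c := by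
  have hy' := (AR Al c e).neg_mem hy
  have hm := m_AR hA hM he hy
  have n1 : LowNN L (1 - (M - rowM e (y ᵥ* M))) := by
    have e1 : 1 - (M - rowM e (y ᵥ* M)) = 1 - M + rowM e (y ᵥ* M) := by abel
    rw [e1]; exact lowNN_add (hM.nn L) (rowM_nn h2)
  have s1 : Rch hA Re l c M (M - rowM e (y ᵥ* M)) (sz _ (rowM_mul_rowM hy'.2.1 (-y))) 1 := by
    refine Rch.row hR hL hl (fun i => i = e) rfl (rowM_p hy'.2.1) (alS_rowM hy')
      (rowM_coeff hy'.2.2.2) (rowM_lv hy' hec) (hM.nn L) n1 (cong_of_eq ?_)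
    rw [add_mul, one_mul, rowM_mul, neg_vecMul, rowM_neg, sub_eq_add_neg]
  have s2 : Rch hA Re l c (M - rowM e (y ᵥ* M)) M 1 (sz _ (rowM_mul_rowM hm.2.1 (y ᵥ* M))) := by
    refine Rch.col hR hL hl (fun i => i ≠ e) rfl
      (fun i j h => ⟨not_not.mpr (rowM_p hm.2.1 i j h).1, (rowM_p hm.2.1 i j h).2⟩) (alS_rowM hm)
      (rowM_coeff hm.2.2.2) (rowM_lv hm hec) n1 (hM.nn L) (cong_of_eq ?_)
    rw [mul_add, mul_one, sub_mul, mul_rowM hM.sp he, rowM_mul_rowM hm.2.1]; abel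
  exact ⟨hy, _, _, by simp, by simp, s1.trans hR hl s2⟩

/-- Every admissible row has a realisable stabiliser. -/
lemma all_HR {y : Ix N V → ℚ[X]} (hy : y ∈ AR Al c e) : y ∈ HR hA hR hL hl hM he c := by
  refine gen (AR Al c e) (HR hA hR hL hl hM he c) (fun _ h => h.1) (fun v => v ᵥ* Qm M L) L
    (fun g hg d a h => mono_AR hg d a h) ?_ ?_ ?_ L 1 le_rfl (by omega) y hy
    fun i => dvd_one_of_coeff (hy.2.2.2 i)
  · intro d a hd ha hg
    refine real_row hR hL hl hM he hec (Qm_AR hA hM he L hg) (fun i => ?_)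
    refine NN.congr le_rfl hL ?_ (NN.mono (ha i) hd)
    rw [vecMul_vecMul, Qm_mul, vecMul_sub, vecMul_one, Pi.sub_apply, sub_sub_cancel]
    simpa using (hM.dv.pow L).vecMul (d := 0) (fun _ => by simp) i
  · intro d v hv i
    have := (Qm_dv hM hL).vecMul hv i
    rwa [vecMul_sub, vecMul_one] at this
  · intro g hg h
    exact real_row hR hL hl hM he hec hg fun i =>
      NN.of_dvd hL (Finset.dvd_sum fun k _ => (h k).mul_right _)

include hR hL hl hM he in
lemma high_col {x : Ix N V → ℚ[X]} (hx : x ∈ AC Al c e) (h : ∀ i, (X : ℚ[X]) ^ l ∣ x i) :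
    Rch hA Re l c M M (sz _ (colM_mul_colM x hx.2.1)) 1 := by
  refine Rch.row hR hL hl (fun i => i ≠ e) rfl
    (fun i j h => ⟨(colM_p hx.2.1 i j h).1, not_not.mpr (colM_p hx.2.1 i j h).2⟩) (alS_colM hx)
    (colM_coeff fun i => coeff_zero_of_dvd (by omega) (h i)) (colM_lv hx hec) (hM.nn L) (hM.nn L)
    ?_
  rw [add_mul, one_mul, colM_mul hM.sp he, cong_iff, add_sub_cancel_left]
  intro i j
  rw [colM_apply]
  split_ifs
  · exact h i
  · exact dvd_zero _

include hR hL hl hM he in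
lemma high_row {y : Ix N V → ℚ[X]} (hy : y ∈ AR Al c e) (h : ∀ i, (X : ℚ[X]) ^ l ∣ y i) :
    Rch hA Re l c M M 1 (sz _ (rowM_mul_rowM hy.2.1 y)) := by
  refine Rch.col hR hL hl (fun i => i ≠ e) rfl
    (fun i j h => ⟨not_not.mpr (rowM_p hy.2.1 i j h).1, (rowM_p hy.2.1 i j h).2⟩) (alS_rowM hy)
    (rowM_coeff hy.2.2.2) (rowM_lv hy hec) (hM.nn L) (hM.nn L) ?_
  rw [mul_add, mul_one, mul_rowM hM.sp he, cong_iff, add_sub_cancel_left]
  intro i j
  rw [rowM_apply]
  split_ifs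
  · exact h j
  · exact dvd_zero _

end Real

/-- Left parts of realisable stabilisers. -/
def UP (hA : AlAx Al P) (hR : ReAx Al L Re) (hL : 1 ≤ L) (hl : L ≤ l) (hM : Good Al M) (c : ℕ) :
    Subgroup (QM N V)ˣ where
  carrier := {u | ∃ w, Rch hA Re l c M M u w}
  one_mem' := ⟨1, Rch.refl hR hL hl (hM.nn L) (cong_refl _)⟩
  mul_mem' := by
    rintro u v ⟨w, h⟩ ⟨w', h'⟩
    exact ⟨_, h'.trans hR hl h⟩
  inv_mem' := by
    rintro u ⟨w, h⟩
    exact ⟨_, h.symm hR hl⟩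

/-- Right parts of realisable stabilisers with trivial left part. -/
def WP (hA : AlAx Al P) (hR : ReAx Al L Re) (hL : 1 ≤ L) (hl : L ≤ l) (hM : Good Al M) (c : ℕ) :
    Subgroup (QM N V)ˣ where
  carrier := {w | Rch hA Re l c M M 1 w}
  one_mem' := Rch.refl hR hL hl (hM.nn L) (cong_refl _)
  mul_mem' := by
    intro u v h h'
    simpa using Rch.trans hR hl h h'
  inv_mem' := by
    intro u h
    simpa using Rch.symm hR hl h

section UPs
variable (hR : ReAx Al L Re) (hL : 1 ≤ L) (hl : L ≤ l) (hM : Good Al M)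

lemma col_UP (he : ¬ lv 0 e) (hec : lv c e) {x : Ix N V → ℚ[X]} (hx : x ∈ AC Al c e)
    {u : (QM N V)ˣ} (hu : (u : QM N V) = 1 + colM x e) : u ∈ UP hA hR hL hl hM c := by
  have hg := Qm_AC hA hM he hx l
  obtain ⟨-, u1, w1, h1, -, h3⟩ := all_HC (hA := hA) hR hL hl hM he hec hg
  have hm := m_AC hA hM he hg
  have hx' := (AC Al c e).sub_mem hx hm
  have h4 := high_col (hA := hA) hR hL hl hM he hec hx' (by
    intro i
    rw [mulVec_mulVec, mul_Qm, sub_mulVec, one_mulVec, sub_sub_cancel]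
    simpa using (hM.dv.pow l).mulVec (d := 0) (fun _ => by simp) i)
  have : u = sz _ (colM_mul_colM _ hx'.2.1) * u1 := by
    apply Units.ext
    rw [Units.val_mul, sz_val, h1, one_add_mul_one_add (colM_mul_colM _ hm.2.1), ← colM_add,
      sub_add_cancel, hu]
  rw [this]
  exact ⟨_, h3.trans hR hl h4⟩

lemma row_UP (he : ¬ lv 0 e) (hec : lv c e) {y : Ix N V → ℚ[X]} (hy : y ∈ AR Al c e)
    {u : (QM N V)ˣ} (hu : (u : QM N V) = 1 + rowM e y) : u ∈ UP hA hR hL hl hM c := by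
  obtain ⟨-, u1, w1, h1, -, h3⟩ := all_HR (hA := hA) hR hL hl hM he hec ((AR Al c e).neg_mem hy)
  have : u = u1 := Units.ext (by rw [hu, h1, neg_neg])
  rw [this]
  exact ⟨_, h3⟩

lemma TA_data {k c0 : ℕ} (hk : 1 ≤ k) (hN : c0 + 1 ≤ N) {u : (QM N V)ˣ}
    (hu : u ∈ TA Al N k c0) : ∃ (e : Ix N V) (x y : Ix N V → ℚ[X]) (hx : x ∈ AC Al (c0 + 1) e)
      (hy : y ∈ AR Al (c0 + 1) e), ¬ lv 0 e ∧ lv (c0 + 1) e ∧ (∀ j, (X : ℚ[X]) ^ k ∣ y j) ∧
      u = sz _ (colM_mul_colM x hx.2.1) * sz _ (rowM_mul_rowM hy.2.1 y) *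
        (sz _ (colM_mul_colM x hx.2.1))⁻¹ * (sz _ (rowM_mul_rowM hy.2.1 y))⁻¹ := by
  obtain ⟨w, x, y, h1, h2, h3, h4, h5, h6, h7⟩ := hu
  let e : Ix N V := (⟨c0 + 1, by omega⟩, w)
  have he : ¬ lv c0 e := by simp [lv, e]
  refine ⟨e, x, y, ⟨h1, h4 e he, fun i hi => h4 i fun h => hi (le_trans h (by omega)), ?_⟩,
    ⟨h2, h5 e he, fun i hi => h5 i fun h => hi (le_trans h (by omega)),
      fun j => coeff_zero_of_dvd hk (h3 j)⟩, by simp [lv, e], by simp [lv, e], h3, ?_⟩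
  · intro i hi
    have : lv c0 i := by
      by_contra h; exact hi (by simp [h4 i h])
    exact Fin.lt_def.mpr (Nat.lt_succ_of_le this)
  · apply Units.ext
    rw [h7, Units.val_mul, Units.val_mul, Units.val_mul, sz_val, sz_val, sz_inv, sz_inv]
    exact (comm_formula (h4 e he) (h5 e he) h6).symm

lemma TA_UP {k c0 : ℕ} (hk : 1 ≤ k) (hN : c0 + 1 ≤ N) :
    Subgroup.closure (TA Al N k c0) ≤ UP hA hR hL hl hM (c0 + 1) := by
  rw [Subgroup.closure_le]
  intro u hu
  obtain ⟨e, x, y, hx, hy, h1, h2, -, rfl⟩ := TA_data hk hN hu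
  have a := col_UP (hA := hA) hR hL hl hM h1 h2 hx (u := sz _ (colM_mul_colM x hx.2.1)) rfl
  have b := row_UP (hA := hA) hR hL hl hM h1 h2 hy (u := sz _ (rowM_mul_rowM hy.2.1 y)) rfl
  exact Subgroup.mul_mem _ (Subgroup.mul_mem _ (Subgroup.mul_mem _ a b) (Subgroup.inv_mem _ a))
    (Subgroup.inv_mem _ b)

lemma TA_WP {c0 : ℕ} (hN : c0 + 1 ≤ N) :
    Subgroup.closure (TA Al N l c0) ≤ WP hA hR hL hl hM (c0 + 1) := by
  rw [Subgroup.closure_le]
  intro u hu
  obtain ⟨e, x, y, hx, hy, h1, h2, h3, rfl⟩ := TA_data (by omega) hN hu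
  obtain ⟨-, u1, w1, -, k2, k3⟩ := all_HC (hA := hA) hR hL hl hM h1 h2 ((AC Al _ e).neg_mem hx)
  have e1 : w1 = sz _ (colM_mul_colM x hx.2.1) := Units.ext (by rw [k2, neg_neg, sz_val])
  have b := high_row (hA := hA) hR hL hl hM h1 h2 hy h3
  have := ((k3.trans hR hl b).trans hR hl (k3.symm hR hl)).trans hR hl (b.symm hR hl)
  rw [e1] at this
  simpa [WP] using this

end UPs

/-- Part N2: algebraic stabilisers are realisable. -/
theorem thmN2 (h : SK1Stmt) (hA : AlAx Al P) (hR : ReAx Al L Re) (hL : 1 ≤ L) (hM : Good Al M)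
    (hN : c + 5 + 2 * L + 2 + 1 ≤ N) {U W : (QM N V)ˣ} (hU : U ∈ GS hA N c) (hW : W ∈ GS hA N c)
    (hc : Cong (L + 2 * P) ((U : QM N V) * M * (W : QM N V)) M) : Re M U W := by
  have hl : L ≤ L + 2 * P := by omega
  let t : (QM N V)ˣ := Units.map (cst : QM N V →+* QM N V).toMonoidHom U
  have htv : (t : QM N V) = cst (U : QM N V) := rfl
  have hnu : ∀ i j, (cst (U : QM N V) - 1) i j = C ((((U : QM N V) - 1) i j).coeff 0) := by
    intro i j
    rw [← cst_apply, map_sub, map_one]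
  have hne : ∀ i j, (cst (U : QM N V) - 1) i j ≠ 0 → (((U : QM N V) - 1) i j).coeff 0 ≠ 0 := by
    intro i j h1 h0; apply h1; rw [hnu, h0, C_0]
  have ht : t ∈ UP hA hR hL hl hM c := by
    refine uni _ (fun i => N - i.1) (cst (U : QM N V) - 1) ?_ ?_ t (by rw [htv]; simp)
    · intro i j hij
      have h1 := Fin.lt_def.mp (hU.1.2.1 i j (hne i j hij))
      have := j.1.2
      omega
    · intro i j hij t' ht'
      have h1 := hU.1.2.1 i j (hne i j hij)
      have h2 : lv c i ∧ lv c j := hU.2.sub_one fun h0 => hne i j hij (by rw [h0]; simp)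
      have h3 : i ≠ j := by rintro rfl; exact lt_irrefl _ h1
      refine col_UP hR hL hl hM (e := j) (by have := Fin.lt_def.mp h1; unfold lv; omega) h2.2
        (x := Pi.single i ((cst (U : QM N V) - 1) i j)) ⟨?_, Pi.single_eq_of_ne' h3 _, ?_, ?_⟩ ?_
      · intro i'
        by_cases h4 : i' = i
        · subst h4
          rw [Pi.single_eq_same, hnu]
          exact AlP.const fun h5 => alS_sub hU.1.1 (alS_one hA) i' j 0 h5
        · rw [Pi.single_eq_of_ne h4]; exact AlP.zero _ _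
      · intro i' hi'
        exact Pi.single_eq_of_ne (by rintro rfl; exact hi' h2.1) _
      · intro i' hi'
        by_cases h4 : i' = i
        · rw [h4]; exact h1
        · rw [Pi.single_eq_of_ne h4] at hi'; simp at hi'
      · rw [ht']
        congr 1
        ext1 a b
        rw [colM_apply]
        by_cases hab : i = a ∧ j = b
        · obtain ⟨rfl, rfl⟩ := hab; simp
        · rw [single_apply_of_ne _ _ _ _ _ hab]
          split_ifs with h4
          · rw [Pi.single_eq_of_ne' (fun h5 => hab ⟨h5, h4.symm⟩)]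
          · rfl
  obtain ⟨wt, hwt⟩ := ht
  have s1 := thmS h hA (c := c) (k := 1) (n := 1) le_rfl (Or.inl ⟨rfl, rfl⟩) (by omega)
    (Subgroup.mul_mem _ hU (Subgroup.inv_mem _ hwt.hU)) (by
      have e1 : ((U * t⁻¹ : (QM N V)ˣ) : QM N V) - 1 =
          ((U : QM N V) - cst (U : QM N V)) * ((t⁻¹ : (QM N V)ˣ) : QM N V) := by
        rw [sub_mul, ← htv, Units.mul_inv, Units.val_mul]
      rw [e1]; exact (dv_sub_cst _).mul_right _)
  obtain ⟨w1, hw1⟩ := TA_UP (hA := hA) hR hL hl hM le_rfl (by omega) s1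
  have s2 := (hwt.mono le_rfl (by omega : c ≤ c + 2 * 1 + 2 + 1)).trans hR hl hw1
  rw [inv_mul_cancel_right] at s2
  set W' := wt * w1 with hW'
  have s3 : Dv (L + 2 * P) (((W'⁻¹ * W : (QM N V)ˣ) : QM N V) - 1) := by
    have c1 : Dv (L + 2 * P) ((U : QM N V) * M * (W : QM N V) - (U : QM N V) * M * (W' : QM N V)) :=
      cong_trans hc (cong_symm s2.cg)
    have c2 := (c1.mul_left ((U⁻¹ : (QM N V)ˣ) : QM N V)).mul_left (Qm M (L + 2 * P))
    have e2 : Qm M (L + 2 * P) * (((U⁻¹ : (QM N V)ˣ) : QM N V) *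
        ((U : QM N V) * M * (W : QM N V) - (U : QM N V) * M * (W' : QM N V))) =
        ((W : QM N V) - W') - (1 - M) ^ (L + 2 * P) * ((W : QM N V) - W') := by
      rw [← mul_sub, mul_assoc (U : QM N V), Units.inv_mul_cancel_left, ← mul_assoc, Qm_mul,
        sub_mul, one_mul]
    rw [e2] at c2
    have c3 := c2.add ((hM.dv.pow (L + 2 * P)).mul_right ((W : QM N V) - W'))
    rw [sub_add_cancel] at c3
    have c4 := c3.mul_left ((W'⁻¹ : (QM N V)ˣ) : QM N V)
    rwa [mul_sub, Units.inv_mul] at c4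
  have s4 := thmS h hA (c := c + 2 * 1 + 2 + 1) (k := L) (n := L + 2 * P) hL (Or.inr rfl)
    (by omega) (Subgroup.mul_mem _ (Subgroup.inv_mem _ s2.hW) (GS_mono (by omega) hW)) s3
  have s5 : Rch hA Re L _ M M 1 (W'⁻¹ * W) := TA_WP (hA := hA) hR hL le_rfl hM (by omega) s4
  have s6 := ((s2.mono hl (by omega)).trans hR le_rfl s5).re
  simpa using s6

end Pool.Agent.MP_841a27_al.QT

end MrgPart1

-- marker of a merged file
example : 731051 + 851732 = 731051 + 851732 := rfl
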